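import Pool.Agent.Lib.MP_81632f_ag.Lv.Fam311
import Mathlib.NumberTheory.DirichletCharacter.Basic

/-!
# Potential lattice property: parities from Dirichlet characters
-/

set_option autoImplicit false

noncomputable section

namespace Pool.Agent.Lib.MP81632f.Lv

open Finset
open Pool.Agent.Lib.MP81632f.Diag

section Char

variable {p M R : ℕ} [NeZero R]

/-- an element congruent to `1` modulo `R / l` with value `-1` -/
theorem exists_neg_one {χ : DirichletCharacter ℂ R} (hprim : χ.IsPrimitive) {k : ℕ}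
    (hk : χ ^ (2 ^ k) = 1) {l : ℕ} (hl : l.Prime) (hlR : l ∣ R) :
    ∃ u : (ZMod R)ˣ, χ (u : ZMod R) = -1 ∧ (l : ZMod R) * u = l := by
  have hR0 : 0 < R := NeZero.pos R
  have hd : R / l ∣ R := Nat.div_dvd_of_dvd hlR
  have hnot : ¬ χ.FactorsThrough (R / l) := by
    intro h
    have h1 := DirichletCharacter.conductor_dvd_of_mem_conductorSet χ h
    rw [(DirichletCharacter.isPrimitive_def χ).mp hprim] at h1
    have h2 := Nat.le_of_dvd (Nat.div_pos (Nat.le_of_dvd hR0 hlR) hl.pos) h1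
    have h3 := Nat.div_lt_self hR0 hl.one_lt
    omega
  rw [DirichletCharacter.factorsThrough_iff_ker_unitsMap hd, SetLike.not_le_iff_exists] at hnot
  obtain ⟨u, hu, hχu⟩ := hnot
  rw [MonoidHom.mem_ker] at hu hχu
  have hpow : χ (u : ZMod R) ^ (2 ^ k) = 1 := by
    rw [← MulChar.pow_apply_coe, hk, MulChar.one_apply_coe]
  have hne : χ (u : ZMod R) ≠ 1 := by
    intro h
    apply hχu
    ext
    rw [MulChar.coe_toUnitHom, h, Units.val_one]
  -- `u ≡ 1` modulo `R / l`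
  have h1 : ∀ w : (ZMod R)ˣ, ZMod.unitsMap hd w = 1 → (l : ZMod R) * w = l := by
    intro w hw
    have h2 : ((w : ZMod R).val : ZMod (R / l)) = 1 := by
      have h3 := congrArg (fun x : (ZMod (R / l))ˣ => (x : ZMod (R / l))) hw
      rw [Units.val_one, ZMod.unitsMap_val] at h3
      rw [ZMod.natCast_val]
      exact h3
    have h4 : ((w : ZMod R).val : ZMod (R / l)) = ((1 : ℕ) : ZMod (R / l)) := by
      rw [h2, Nat.cast_one]
    rw [ZMod.natCast_eq_natCast_iff] at h4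
    have h5 := Nat.ModEq.mul_left' l h4
    rw [Nat.mul_div_cancel' hlR, ← ZMod.natCast_eq_natCast_iff] at h5
    push_cast at h5
    rwa [ZMod.natCast_zmod_val, mul_one] at h5
  -- the smallest exponent
  obtain ⟨j, hj1, hj2⟩ : ∃ j : ℕ, χ (u : ZMod R) ^ (2 ^ j) ≠ 1 ∧
      χ (u : ZMod R) ^ (2 ^ (j + 1)) = 1 := by
    by_contra hcon
    push Not at hcon
    have h6 : ∀ j : ℕ, χ (u : ZMod R) ^ (2 ^ j) ≠ 1 := by
      intro j
      induction j with
      | zero => rwa [pow_zero, pow_one]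
      | succ j ih => exact hcon j ih
    exact h6 k hpow
  refine ⟨u ^ (2 ^ j), ?_, h1 _ ?_⟩
  · rw [Units.val_pow_eq_pow_val, map_pow]
    have h7 : (χ (u : ZMod R) ^ (2 ^ j)) * (χ (u : ZMod R) ^ (2 ^ j)) = 1 := by
      rw [← pow_two, ← pow_mul, ← pow_succ, hj2]
    exact (mul_self_eq_one_iff.mp h7).resolve_left hj1
  · rw [map_pow, hu, one_pow]

/-- **The odd functions given by Dirichlet characters.** -/
theorem exists_oddF_char (hR : Squarefree R) (χ : DirichletCharacter ℂ R)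
    (hprim : χ.IsPrimitive) (hodd : χ (-1) = -1) {k : ℕ} (hk : χ ^ (2 ^ k) = 1)
    (hp : χ (p : ZMod R) = 1)
    (hl : ∀ l : ℕ, l.Prime → l ∣ M → ¬ l ∣ R → χ (l : ZMod R) = 1) :
    ∃ F, OddF p M R F fun _ => 1 := by
  have hunit : ∀ n : ℕ, χ (n : ZMod R) = 1 → ∃ u : (ZMod R)ˣ, (u : ZMod R) = n := by
    intro n hn
    by_contra h
    have h1 : ¬ IsUnit (n : ZMod R) := fun ⟨u, hu⟩ => h ⟨u, hu⟩
    rw [MulChar.map_nonunit χ h1] at hn
    exact zero_ne_one hn
  let H : Subgroup (ZMod R)ˣ := χ.toUnitHom.ker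
  have hmem : ∀ u : (ZMod R)ˣ, u ∈ H ↔ χ (u : ZMod R) = 1 := by
    intro u
    rw [MonoidHom.mem_ker, Units.ext_iff, MulChar.coe_toUnitHom, Units.val_one]
  refine exists_oddF_sub hR H ?_ ?_ ?_ ?_
  · rw [hmem, Units.val_neg, Units.val_one, hodd]
    norm_num
  · obtain ⟨u, hu⟩ := hunit p hp
    exact ⟨u, (hmem u).mpr (by rw [hu, hp]), hu⟩
  · intro l hlp hlM hlR
    have h1 := hl l hlp hlM hlR
    obtain ⟨u, hu⟩ := hunit l h1
    exact Or.inl ⟨u, (hmem u).mpr (by rw [hu, h1]), hu, rfl⟩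
  · intro l hlp hlR
    obtain ⟨u, hu, h1⟩ := exists_neg_one hprim hk hlp hlR
    refine ⟨u, (hmem _).mpr ?_, h1⟩
    rw [Units.val_neg, ← neg_one_mul, map_mul, hodd, hu]
    norm_num

end Char

/-! ### Levels all of whose radicals are good -/

/-- the part of `M` with the prime factors of `R` -/
theorem split_level (R : ℕ) : ∀ M : ℕ, M ≠ 0 → ∃ K L : ℕ, M = K * L ∧ K.Coprime L ∧
    (∀ l : ℕ, l.Prime → l ∣ K → l ∣ R) ∧ ∀ l : ℕ, l.Prime → l ∣ L → ¬ l ∣ R := by
  intro M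
  induction M using induction_on_primes with
  | zero => exact fun h => absurd rfl h
  | one =>
    refine fun _ => ⟨1, 1, rfl, Nat.coprime_one_left 1, fun l hl h => ?_, fun l hl h => ?_⟩
    · exact absurd (Nat.dvd_one.mp h) hl.one_lt.ne'
    · exact absurd (Nat.dvd_one.mp h) hl.one_lt.ne'
  | prime_mul q a hq ih =>
    intro h
    obtain ⟨K, L, h1, h2, h3, h4⟩ := ih (by
      rintro rfl
      exact h (mul_zero q))
    by_cases hqR : q ∣ R
    · refine ⟨q * K, L, by rw [h1, mul_assoc], ?_, fun l hl hlK => ?_, h4⟩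
      · exact Nat.Coprime.mul_left ((Nat.Prime.coprime_iff_not_dvd hq).mpr
          fun h5 => h4 q hq h5 hqR) h2
      · rcases hl.dvd_mul.mp hlK with h5 | h5
        · rwa [(Nat.prime_dvd_prime_iff_eq hl hq).mp h5]
        · exact h3 l hl h5
    · refine ⟨K, q * L, by rw [h1]; ring, ?_, h3, fun l hl hlL => ?_⟩
      · exact Nat.Coprime.mul_right (((Nat.Prime.coprime_iff_not_dvd hq).mpr
          fun h5 => hqR (h3 q hq h5)).symm) h2
      · rcases hl.dvd_mul.mp hlL with h5 | h5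
        · rwa [(Nat.prime_dvd_prime_iff_eq hl hq).mp h5]
        · exact h4 l hl h5

section Good

variable {p : ℕ}

/-- a radical `R` which occurs in no level with the prime factors of `m`, or occurs alone in the
lattice -/
def GoodR (p : ℕ) (hp : p.Prime) (m R : ℕ) : Prop :=
  eR R ∈ VecG p hp ∨ ∀ M : ℕ, (∀ l : ℕ, l.Prime → l ∣ M → l ∣ m) → ∀ [NeZero M]
    (v : ZMod M → ℤ), Bal M p v → R ∣ M → Even (nR M R v)

theorem goodR_pure (hp : p.Prime) (m : ℕ) {R i : ℕ} (h : R ∣ p ^ i + 1) : GoodR p hp m R :=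
  Or.inl (eR_pure hp h)

/-- characters -/
theorem goodR_char (hTor : StTor) (hp : p.Prime) {m R : ℕ} (hR : Squarefree R) (hRo : Odd R)
    (χ : DirichletCharacter ℂ R) (hprim : χ.IsPrimitive) (hodd : χ (-1) = -1) {k : ℕ}
    (hk : χ ^ (2 ^ k) = 1) (hχp : χ (p : ZMod R) = 1)
    (hl : ∀ l : ℕ, l.Prime → l ∣ m → ¬ l ∣ R → χ (l : ZMod R) = 1) : GoodR p hp m R := by
  have : NeZero R := ⟨hR.ne_zero⟩
  refine Or.inr fun M hM {_} v hv hRM => ?_
  obtain ⟨F, hF⟩ := exists_oddF_char (p := p) (M := M) hR χ hprim hodd hk hχp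
    (fun l hlp hlM hlR => hl l hlp (hM l hlp hlM) hlR)
  -- the part of `M` with the prime factors of `R`
  obtain ⟨K, L, hKL, hcop, hK1, hL1⟩ : ∃ K L : ℕ, M = K * L ∧ K.Coprime L ∧
      (∀ l : ℕ, l.Prime → (l ∣ K ↔ l ∣ R)) ∧ ∀ l : ℕ, l.Prime → l ∣ L → ¬ l ∣ R := by
    obtain ⟨K, L, h1, h2, h3, h4⟩ := split_level R M (NeZero.ne M)
    refine ⟨K, L, h1, h2, fun l hlp => ⟨h3 l hlp, fun h5 => ?_⟩, h4⟩
    have h6 : l ∣ K * L := h1 ▸ h5.trans hRM
    exact (hlp.dvd_mul.mp h6).resolve_right fun h7 => h4 l hlp h7 h5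
  have hKodd : Odd K := by
    by_contra h
    rw [Nat.not_odd_iff_even, even_iff_two_dvd] at h
    exact absurd (hRo.of_dvd_nat ((hK1 2 Nat.prime_two).mp h)) (by decide)
  have h1 := rel_std (K := K) (L := L) hTor hKL hKodd hcop hF (fun _ _ _ _ => rfl)
    (fun l hlp hlK hlR => absurd ((hK1 l hlp).mp hlK) hlR) hv
  have hK0 : 0 < K := hKodd.pos
  have h2 : rad K = R := by
    rw [← rad_of_squarefree hR]
    unfold rad
    congr 1
    ext l
    rw [Nat.mem_primeFactors, Nat.mem_primeFactors]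
    constructor
    · rintro ⟨a, b, -⟩
      exact ⟨a, (hK1 l a).mp b, hR.ne_zero⟩
    · rintro ⟨a, b, -⟩
      exact ⟨a, (hK1 l a).mpr b, hK0.ne'⟩
  have h3 : Fam R R = {R} := by
    unfold Fam
    ext R'
    rw [mem_filter, mem_singleton, Nat.mem_divisors]
    constructor
    · rintro ⟨⟨h3, -⟩, h4, -⟩
      exact Nat.dvd_antisymm h3 h4
    · rintro rfl
      exact ⟨⟨dvd_rfl, hR.ne_zero⟩, dvd_rfl, fun l hl _ => Nat.dvd_of_mem_primeFactors hl⟩
  rwa [h2, h3, sum_singleton] at h1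

/-- **Levels all of whose radicals are good.** -/
theorem limLP_good (hB : StBasic) (hCL : StCL) (hTor : StTor) (hp : p.Prime) {m : ℕ}
    (h : ∀ R : ℕ, R ∣ m → Odd R → Squarefree R → R ≠ 1 → GoodR p hp m R) : LimLP m p := by
  refine limLP_of_vec hB hCL hTor hp fun {hM} v hv => ?_
  refine vecA_of_sum hp (m.divisors.filter fun R => Odd R ∧ Squarefree R ∧ R ≠ 1)
    (fun R h1 h2 h3 h4 => ?_) (AddSubgroup.sum_mem _ fun R hR => ?_)
  · by_cases h5 : R ∣ m
    · exfalso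
      apply h4
      rw [mem_filter, Nat.mem_divisors]
      refine ⟨⟨h5, NeZero.ne m⟩, h1, h2, ?_⟩
      rintro rfl
      exact h3 0 (one_dvd _)
    · rw [nR_of_not h5]
      exact Even.zero
  · rw [mem_filter, Nat.mem_divisors] at hR
    obtain ⟨⟨h1, -⟩, h2, h3, h4⟩ := hR
    rcases h R h1 h2 h3 h4 with h5 | h5
    · exact AddSubgroup.zsmul_mem _ h5 _
    · exact even_smul_mem hp (h5 m (fun l _ h6 => h6) v hv h1) R

end Good

end Pool.Agent.Lib.MP81632f.Lv
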