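import Pool.Agent.Lib.MP_81632f_ag.Diag.Multi
import Pool.Agent.Lib.MP_81632f_ag.Diag.TateFam
import Pool.Agent.Lib.MP_81632f_ag.Diag.CompLift
import Pool.Agent.Lib.MP_81632f_ag.Diag.CompMore
import Pool.Agent.Lib.MP_81632f_ag.Diag.Cov2
import Pool.Agent.Lib.MP_81632f_ag.Diag.TPo
import Pool.Agent.Lib.MP_81632f_ag.Diag.Teich
import Pool.Agent.Lib.MP_81632f_ag.Diag.OneG
import Pool.Agent.Lib.MP_81632f_ag.Diag.Dig
import Pool.Agent.Lib.MP_81632f_ag.Diag.Stick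
import Pool.Agent.Lib.MP_81632f_ag.Diag.Trans
import Pool.Agent.Lib.MP_81632f_ag.Diag.Shift
import Pool.Agent.Lib.MP_81632f_ag.Diag.LvalPP
import Pool.Agent.Lib.MP_81632f_ag.Diag.Lval
import Pool.Agent.Lib.MP_81632f_ag.Diag.Four
import Pool.Agent.Lib.MP_81632f_ag.Diag.PP
import Pool.Agent.Lib.MP_81632f_ag.Diag.Sep
import Pool.Agent.Lib.MP_81632f_ag.Diag.One
import Pool.Agent.Lib.MP_81632f_ag.Lv.Lim

/-!
# The lattice property of small degrees and of two families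
-/

namespace Pool.Agent.Lib.MP81632f.Pot

open Pool.Agent.Lib.MP81632f.Diag
open Pool.Agent.Lib.MP81632f.Lv

/-- The exceptions: `(m, l)` in the table means that the residues `l` of `p` modulo `m` are
excluded. -/
def table : List (ℕ × List ℕ) :=
  [(35, [1, 6, 8, 11, 16, 22, 29]),
    (44, [1, 5, 9, 21, 23, 25, 37]),
    (51, [1, 4, 7, 10, 13, 16, 19, 22, 25, 28, 31, 35, 37, 40, 43, 46, 49]),
    (52, [1, 25, 27]),
    (55, [1, 21]),
    (56, [41]),
    (57, [1, 20, 37]),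
    (65, [1, 6, 9, 11, 14, 16, 21, 27, 29, 31, 36, 41, 46, 51, 53, 56, 61]),
    (68, [1, 33]),
    (69, [1, 4, 7, 10, 13, 16, 19, 22, 25, 28, 31, 34, 37, 40, 43, 47, 49, 52, 55, 58, 61, 64,
      67]),
    (70, [1, 11, 29, 41, 43, 51, 57]),
    (76, [1, 5, 9, 17, 25, 37, 39, 45, 49, 61, 65, 69, 73]),
    (77, [1, 12, 23, 32, 34, 43, 45, 65, 67]),
    (85, [1, 6, 11, 16, 18, 21, 26, 31, 36, 41, 46, 52, 56, 61, 66, 69, 71, 76, 81]),
    (87, [1, 4, 7, 10, 13, 16, 19, 22, 25, 28, 31, 34, 37, 40, 43, 46, 49, 52, 55, 59, 61, 64,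
      67, 70, 73, 76, 79, 82, 85]),
    (88, [1, 23, 45, 65, 67]),
    (91, [1, 2, 3, 4, 8, 9, 11, 15, 16, 18, 22, 23, 25, 27, 29, 30, 32, 36, 37, 40, 43, 44, 46,
      48, 50, 51, 53, 55, 57, 58, 60, 61, 64, 66, 67, 68, 71, 72, 74, 79, 81, 85, 86, 87, 88]),
    (92, [1, 5, 9, 13, 17, 21, 25, 29, 33, 37, 41, 45, 47, 49, 53, 57, 61, 65, 73, 77, 81, 85,
      89]),
    (93, [1, 25, 32, 61, 67]),
    (95, [1, 6, 11, 16, 21, 26, 31, 36, 39, 41, 46, 51, 56, 58, 61, 66, 71, 77, 81, 86, 91])]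

/-! ### The proof: assembly -/

theorem hRank : StRank := stRank stLval

theorem hPP : StPP :=
  stPP stBasic (stRed stBasic) (stSep stBasic) (stOne stBasic (stFour (stLvalPP stLval)))

theorem hStick : StStick := stStick stTeich (stOneG stShift) stDig stShift

theorem hKron : StKron := stKron hStick stShift

/-- the base levels of the families -/
def Base (p m : ℕ) : Prop :=
  m = 12 ∨ m = 15 ∨ m = 21 ∨ (p = 2 ∧ (m = 35 ∨ m = 105)) ∨ (p = 3 ∧ m = 40)

theorem base_lpa : ∀ p m : ℕ, Base p m → LPA m p := by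
  rintro p m (rfl | rfl | rfl | ⟨rfl, rfl | rfl⟩ | ⟨rfl, rfl⟩) f hf hp
  · exact base12 stBasic hRank hf hp
  · exact base15 stBasic hRank hf hp
  · exact base21 stBasic hRank hf hp
  · exact base35_2 stBasic hRank hf hp
  · exact base105_2 stBasic hRank hf hp
  · exact base40_3 stBasic hRank hf hp

theorem cov {p m : ℕ} (h : Cov Base p m) : LPA m p := cov_lpa stBasic stLval hPP base_lpa h

theorem isPP_lpa {p m : ℕ} (h : IsPP m) : LPA m p := by
  intro f hf hp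
  obtain ⟨l, a, hl, h1⟩ := h
  have hm : 0 < m := by
    rcases h1 with rfl | rfl
    · exact pow_pos hl.pos a
    · exact Nat.mul_pos (by norm_num) (pow_pos hl.pos a)
  rcases Nat.eq_or_lt_of_le hm with h2 | h2
  · rw [← h2]
    exact Comp.lp_one p f
  · exact Comp.lp_pp hPP h2 hf hp ⟨l, a, hl, h1⟩

/-- a prime divisor of the modulus is prime to `p` -/
theorem coprime_of {p m l f : ℕ} (hf : 0 < f) (hp : (p : ZMod m) ^ f = 1) (hl : l ∣ m) :
    Nat.Coprime p l := by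
  have h1 : IsUnit (p : ZMod m) := IsUnit.of_pow_eq_one hp hf.ne'
  rw [ZMod.isUnit_iff_coprime] at h1
  exact h1.coprime_dvd_right hl

theorem pm_cast {p l b j c : ℕ} (h : p ^ j ≡ c [MOD l ^ b] ∨ l ^ b ∣ p ^ j + c) :
    (p : ZMod (l ^ b)) ^ j = (c : ZMod (l ^ b)) ∨ (p : ZMod (l ^ b)) ^ j + (c : ZMod (l ^ b)) = 0 := by
  rcases h with h | h
  · left
    have h1 := (ZMod.natCast_eq_natCast_iff _ _ _).mpr h
    rwa [Nat.cast_pow] at h1
  · right
    have h1 := (ZMod.natCast_eq_zero_iff _ _).mpr h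
    rwa [Nat.cast_add, Nat.cast_pow] at h1

theorem degs_lpa {p m : ℕ} (hpp : p.Prime) (h : m ∈ degs2) : LPA m p := by
  intro f hf hp
  have hcop : Nat.Coprime p m := coprime_of hf hp (dvd_refl m)
  have hpm : ¬ p ∣ m := (Nat.Prime.coprime_iff_not_dvd hpp).mp hcop
  have h1 : ordCompl[p] m = m := by
    rw [Nat.factorization_eq_zero_of_not_dvd hpm, pow_zero, Nat.div_one]
  have h2 : m ∣ p ^ f - 1 := by
    rw [← ZMod.natCast_eq_zero_iff, Nat.cast_sub (Nat.one_le_pow _ _ hpp.pos), Nat.cast_pow,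
      hp, Nat.cast_one, sub_self]
  have h3 := lp_degs2 stBasic hRank hPP (M := m) h hpp hf (by rw [h1]; exact h2)
  rwa [h1] at h3

/-- the degrees up to `100` -/
theorem small_lpa {p m : ℕ} (hm : 0 < m) (h : m ≤ 100 ∧ ∀ e ∈ exc, e.1 = m → p % m ∉ e.2) :
    LPA m p := fun _ hf hp => lp_small stBasic hRank hPP (Or.inl h) hm hf hp

/-- a multiple `k m` which divides all `p ^ f - 1` divisible by `m` has the lattice property -/
def Lift (p m : ℕ) : Prop :=
  ∃ k : ℕ, 0 < k ∧ (∀ f : ℕ, m ∣ p ^ f - 1 → k * m ∣ p ^ f - 1) ∧ LPA (k * m) p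

theorem lift_of {p m : ℕ} (h : LPA m p) : Lift p m :=
  ⟨1, Nat.one_pos, fun f h1 => by rwa [one_mul], by rwa [one_mul]⟩

theorem lift_two {p m : ℕ} (hpp : p.Prime) (hp2 : p ≠ 2) (hm : Odd m) (h : LPA (2 * m) p) :
    Lift p m := by
  refine ⟨2, Nat.two_pos, fun f h1 => ?_, h⟩
  have h2 : 2 ∣ p ^ f - 1 := by
    have h3 : Odd (p ^ f) := (hpp.odd_of_ne_two hp2).pow
    obtain ⟨k, hk⟩ := h3
    exact ⟨k, by omega⟩
  have h3 : Nat.Coprime 2 m := (Nat.coprime_two_left).mpr hm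
  exact h3.mul_dvd_of_dvd_of_dvd h2 h1

theorem lift23 {p m N : ℕ} (h : (p, m, N) ∈ lifts23) : Lift p m := by
  obtain ⟨⟨k, hk⟩, h2, h3⟩ := lifts23_spec stBasic hRank h
  rw [mul_comm] at hk
  have hN : ∀ e ∈ lifts23, 0 < e.2.2 := by decide
  have hk0 : 0 < k := by
    rcases Nat.eq_zero_or_pos k with h0 | h0
    · rw [h0, zero_mul] at hk
      exact absurd (hN _ h) (by rw [hk]; exact lt_irrefl 0)
    · exact h0
  exact ⟨k, hk0, fun f hf => by rw [← hk]; exact h2 f hf, by rw [← hk]; exact h3⟩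

/-- characteristic `2` -/
theorem two_lift {m : ℕ} (hm : 0 < m)
    (h : m ≤ 300 ∧ m ∉ [119, 133, 217, 219, 255, 267, 273, 287]) : Lift 2 m := by
  by_cases h1 : m = 91
  · subst h1
    exact lift23 (N := 455) (by decide)
  by_cases h2 : m = 165
  · subst h2
    exact lift23 (N := 825) (by decide)
  by_cases h3 : m = 195
  · subst h3
    exact lift23 (N := 585) (by decide)
  refine lift_of fun f hf hp => lp_small stBasic hRank hPP (Or.inr (Or.inl ⟨rfl, h.1, ?_⟩)) hm hf hp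
  have h4 := h.2
  simp only [List.mem_cons, List.not_mem_nil, or_false, not_or] at h4 ⊢
  tauto

/-- characteristic `3` -/
theorem three_lift {m : ℕ} (hm : 0 < m) (h : m ≤ 200 ∧ m ∉ [143, 184]) : Lift 3 m := by
  by_cases h1 : m = 65
  · subst h1
    exact lift23 (N := 130) (by decide)
  by_cases h2 : m = 91
  · subst h2
    exact lift23 (N := 364) (by decide)
  by_cases h3 : m = 182
  · subst h3
    exact lift23 (N := 364) (by decide)
  by_cases h4 : m = 187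
  · subst h4
    exact lift23 (N := 748) (by decide)
  refine lift_of fun f hf hp => lp_small stBasic hRank hPP (Or.inr (Or.inr ⟨rfl, h.1, ?_⟩)) hm hf hp
  have h5 := h.2
  simp only [List.mem_cons, List.not_mem_nil, or_false, not_or] at h5 ⊢
  tauto

/-- the degrees up to `100`: if necessary, a multiple of the degree is used -/
theorem table_lift {p m : ℕ} (hpp : p.Prime) (hm : 0 < m)
    (h : m ≤ 100 ∧ ∀ e ∈ table, e.1 = m → p % m ∉ e.2) : Lift p m := by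
  by_cases hcop : Nat.Coprime p m
  swap
  · exact lift_of fun f hf hp => absurd (coprime_of hf hp (dvd_refl m)) hcop
  by_cases hL : ∃ e ∈ lifts, e.1 = m ∧ p % m ∈ e.2.2
  · obtain ⟨e, he, hem, hpe⟩ := hL
    have hprop : ∀ e ∈ lifts, 2 < e.1 ∧ 2 ∉ e.2.2 ∧ e.2.1 ∣ 4 * e.1 ∧ 0 < e.2.1 := by decide
    obtain ⟨p1, p2, p3, p4⟩ := hprop e he
    rw [hem] at p1 p3
    have hp2 : p ≠ 2 := by
      rintro rfl
      rw [Nat.mod_eq_of_lt p1] at hpe
      exact p2 hpe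
    have hcop4 : Nat.Coprime p (4 * m) := by
      refine Nat.Coprime.mul_right ?_ hcop
      have h4 : Nat.Coprime p 2 := Nat.coprime_two_right.mpr (hpp.odd_of_ne_two hp2)
      exact h4.pow_right 2
    obtain ⟨⟨k, hk⟩, h2, h3⟩ := lifts_spec stBasic hRank hpp he hem hpe (hcop4.coprime_dvd_right p3)
    rw [mul_comm] at hk
    have hk0 : 0 < k := by
      rcases Nat.eq_zero_or_pos k with h0 | h0
      · rw [h0, zero_mul] at hk
        omega
      · exact h0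
    exact ⟨k, hk0, fun f hf => by rw [← hk]; exact h2 f hf, by rw [← hk]; exact h3⟩
  · refine lift_of (small_lpa hm ⟨h.1, fun e he h1 h2 => ?_⟩)
    have key : ∀ e ∈ exc, ∀ l ∈ e.2, (∃ e' ∈ table, e'.1 = e.1 ∧ l ∈ e'.2) ∨
        (∃ e' ∈ lifts, e'.1 = e.1 ∧ l ∈ e'.2.2) := by decide +kernel
    rcases key e he _ h2 with ⟨e', he', h3, h4⟩ | ⟨e', he', h3, h4⟩
    · exact h.2 e' he' (h3.trans h1) h4
    · exact hL ⟨e', he', h3.trans h1, h4⟩


/-- `3 l` -/
theorem lpa_3l {p l : ℕ} (hp3 : p % 3 = 2) (hl : l.Prime) (hl2 : l ≠ 2) {j : ℕ}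
    (hj : p ^ j ≡ 3 [MOD l] ∨ l ∣ p ^ j + 3) : LPA (3 * l) p := by
  have hlo : Odd l := hl.odd_of_ne_two hl2
  intro f hf hp
  by_cases hl3 : l = 3
  · subst hl3
    exact isPP_lpa ⟨3, 2, by norm_num, Or.inl (by norm_num)⟩ f hf hp
  have hlm : l ∣ 3 * l ^ 1 := Dvd.intro_left 3 (by rw [pow_one])
  have hp' : (p : ZMod (3 * l ^ 1)) ^ f = 1 := by
    rw [pow_one]
    exact hp
  have hj' : p ^ j ≡ 3 [MOD l ^ 1] ∨ l ^ 1 ∣ p ^ j + 3 := by rwa [pow_one]
  have h3 : Cov Base p (l ^ 1 * 3) :=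
    Fam.f3l hp3 hl hlo hl3 (coprime_of hf hp' hlm) ⟨j, by exact_mod_cast pm_cast hj'⟩
  rw [pow_one, mul_comm] at h3
  exact cov h3 f hf hp

/-- `4 l` -/
theorem lpa_4l {p l : ℕ} (hp4 : p % 4 = 3) (hl : l.Prime) (hl2 : l ≠ 2) {j : ℕ}
    (hj : p ^ j ≡ 2 [MOD l] ∨ l ∣ p ^ j + 2) : LPA (4 * l) p := by
  have hlo : Odd l := hl.odd_of_ne_two hl2
  intro f hf hp
  have hlm : l ∣ 4 * l ^ 1 := Dvd.intro_left 4 (by rw [pow_one])
  have hp' : (p : ZMod (4 * l ^ 1)) ^ f = 1 := by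
    rw [pow_one]
    exact hp
  have hj' : p ^ j ≡ 2 [MOD l ^ 1] ∨ l ^ 1 ∣ p ^ j + 2 := by rwa [pow_one]
  have h4 : Cov Base p (l ^ 1 * 4) :=
    Fam.f4l hp4 hl hlo (coprime_of hf hp' hlm) ⟨j, by exact_mod_cast pm_cast hj'⟩
  rw [pow_one, mul_comm] at h4
  exact cov h4 f hf hp

/-- from the lattice property of a multiple to the potential lattice property -/
theorem Lift.lim {p m : ℕ} (hp : p.Prime) (hm : 0 < m) (hmp : m.Coprime p) (h : Lift p m) :
    LimLP m p := by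
  obtain ⟨k, hk, hkd, hLP⟩ := h
  refine limLP_of_lpa stBasic hp hk ?_ hLP
  -- an exponent
  have h1 : m ∣ p ^ m.totient - 1 :=
    (Nat.modEq_iff_dvd' (Nat.one_le_pow _ _ hp.pos)).mp (Nat.ModEq.pow_totient hmp.symm).symm
  have h2 := hkd _ h1
  have h3 : 0 < m.totient := Nat.totient_pos.mpr hm
  have h4 : (p ^ m.totient - 1).Coprime p := by
    have h5 : (p ^ m.totient - 1).Coprime (p ^ m.totient) := by
      have h6 : p ^ m.totient = p ^ m.totient - 1 + 1 :=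
        (Nat.sub_add_cancel (Nat.one_le_pow _ _ hp.pos)).symm
      conv_rhs => rw [h6]
      exact (Nat.coprime_self_add_right (m := p ^ m.totient - 1) (n := 1)).mpr (Nat.coprime_one_right _)
    exact h5.coprime_dvd_right (dvd_pow_self p h3.ne')
  exact h4.coprime_dvd_left h2

end Pool.Agent.Lib.MP81632f.Pot
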