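import Pool.Agent.Lib.MP_81632f_ag.Pot.Tabs
import Pool.Agent.Lib.MP_81632f_ag.Pot.Old
import Pool.Agent.Lib.MP_81632f_ag.Pot.CritC

/-!
# Potential lattice property: the base degrees and their closure
-/

set_option autoImplicit false

namespace Pool.Agent.Lib.MP81632f.Pot

open Pool.Agent.Lib.MP81632f.Diag
open Pool.Agent.Lib.MP81632f.Lv

section

variable {p m : ℕ}

/-- the prime divisors of `m` are in the list -/
def PF (m : ℕ) (L : List ℕ) : Prop := ∀ l : ℕ, l.Prime → l ∣ m → l ∈ L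

/-- odd squarefree numbers which cause no obstruction -/
def Good (p m R : ℕ) : Prop :=
  (∃ i : ℕ, R ∣ p ^ i + 1) ∨ R ∈ [3, 5, 33] ∨ (R = 15 ∧ p % 15 ∈ [7, 11, 13]) ∨
  ∃ (χ : DirichletCharacter ℂ R) (k : ℕ), χ.IsPrimitive ∧ χ (-1) = -1 ∧ χ ^ (2 ^ k) = 1 ∧
    χ (p : ZMod R) = 1 ∧ ∀ l : ℕ, l.Prime → l ∣ m → ¬ l ∣ R → χ (l : ZMod R) = 1

theorem Good.goodR (hTor : StTor) (hp : p.Prime) {R : ℕ} (hRo : Odd R) (hRs : Squarefree R)
    (h : Good p m R) : GoodR p hp m R := by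
  by_cases hpR : p ∣ R
  · refine Or.inr fun M _ {_} v hv hRM => ?_
    obtain ⟨-, f, hf, hpf, -⟩ := hv
    have h1 := coprime_of_pow hf hpf
    exact absurd rfl (ne_of_cop hp h1 (hpR.trans hRM))
  have hm : R.Coprime p := ((Nat.Prime.coprime_iff_not_dvd hp).mpr hpR).symm
  rcases h with ⟨i, hi⟩ | h | ⟨rfl, h⟩ | ⟨χ, k, h1, h2, h3, h4, h5⟩
  · exact goodR_pure hp m hi
  · simp only [List.mem_cons, List.not_mem_nil, or_false] at h
    rcases h with rfl | rfl | rfl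
    · exact Or.inl (e3_mem hp (ne_of_cop hp hm dvd_rfl).symm)
    · exact Or.inl (e5_mem hp (ne_of_cop hp hm dvd_rfl).symm)
    · have h3 : p ≠ 3 := (ne_of_cop hp hm (by norm_num : 3 ∣ 33)).symm
      have h11 : p ≠ 11 := (ne_of_cop hp hm (by norm_num : 11 ∣ 33)).symm
      have h9 := sub_mem (e3_33_mem hp h3 h11) (e3_mem hp h3)
      rw [add_sub_cancel_left] at h9
      exact Or.inl h9
  · have h2 : p ≠ 2 := by
      rintro rfl
      exact absurd h (by decide)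
    have h60 : (60 : ℕ).Coprime p := cop_of (j := 2) hp h2 hm (by norm_num)
    refine Or.inl (e15_mem hp h60 ?_)
    simpa only [List.mem_cons, List.not_mem_nil, or_false] using h
  · exact goodR_char hTor hp hRs hRo χ h1 h2 h3 h4 h5

/-- the prime factors `2`, `23` -/
theorem lim_23 (hCL : StCL) (hTor : StTor) (hp : p.Prime)
    (hm : ∀ l : ℕ, l.Prime → l ∣ m → l = 2 ∨ l = 23) : LimLP m p := by
  refine limLP_prime (r := 23) stBasic hCL hTor hp (by norm_num) (by norm_num) ?_ hm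
  have : Fact (Nat.Prime 11) := ⟨by norm_num⟩
  rw [orderOf_eq_prime (p := 11) (by decide) (by decide)]
  decide

/-- the exceptions for the degrees up to `100` -/
def tabC : List (ℕ × List ℕ) :=
  [(35, [1, 6, 8, 22, 29]),
    (44, [1, 23]),
    (51, [1, 35]),
    (52, [1, 27]),
    (55, [21]),
    (57, [1, 20, 37]),
    (65, [1, 14, 21, 27, 31, 53]),
    (68, [1]),
    (69, [1, 4, 7, 10, 13, 16, 19, 22, 25, 28, 31, 34, 37, 40, 43, 47, 49, 52, 55, 58, 61, 64,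
      67]),
    (70, [1, 29, 41, 43, 57]),
    (76, [1, 39, 45, 49]),
    (77, [1, 12, 23, 32, 34, 43, 45, 65, 67]),
    (85, [1, 18, 52, 69]),
    (87, [1, 59]),
    (88, [1, 23, 45, 67]),
    (91, [1, 2, 3, 4, 8, 9, 11, 15, 16, 18, 22, 23, 25, 27, 29, 30, 32, 36, 37, 40, 43, 44, 46,
      48, 50, 51, 53, 55, 57, 58, 60, 61, 64, 66, 67, 68, 71, 72, 74, 79, 81, 85, 86, 87, 88]),
    (93, [1, 25, 32, 61, 67]),
    (95, [31, 46, 56, 58, 77])]

/-- a class is treated by one of the tables `tabA`, `tabB` -/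
def viaAB (m c : ℕ) : Bool :=
  (tabA.any fun e => m % e.1 == 0 && (2 * e.1) ^ 7 % m == 0 && !(e.2.contains (c % e.1))) ||
  (tabB.any fun e => m % e.1 == 0 && e.1 ^ 7 % m == 0 && !(e.2.contains (c % e.1)))

theorem via_lim (hB : StBasic) (hCL : StCL) (hTor : StTor) (hp : p.Prime) (h2 : p ≠ 2)
    (hmp : m.Coprime p) (h : viaAB m (p % m) = true) : LimLP m p := by
  simp only [viaAB, Bool.or_eq_true, List.any_eq_true, Bool.and_eq_true, beq_iff_eq,
    Bool.not_eq_true', List.contains_eq_mem, decide_eq_false_iff_not] at h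
  rcases h with ⟨⟨K, L⟩, he, ⟨h3, h4⟩, h5⟩ | ⟨⟨K, L⟩, he, ⟨h3, h4⟩, h5⟩
  · obtain hKm : K ∣ m := Nat.dvd_of_mod_eq_zero h3
    rw [Nat.mod_mod_of_dvd _ hKm] at h5
    refine tabA_lim hB hCL hTor hp h2 he (hmp.coprime_dvd_left hKm) h5 fun l hl hlm => ?_
    have h6 : l ∣ 2 * K := hl.dvd_of_dvd_pow (hlm.trans (Nat.dvd_of_mod_eq_zero h4))
    rcases hl.dvd_mul.mp h6 with h7 | h7
    · exact Or.inl ((Nat.prime_dvd_prime_iff_eq hl Nat.prime_two).mp h7)
    · exact Or.inr h7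
  · obtain hKm : K ∣ m := Nat.dvd_of_mod_eq_zero h3
    rw [Nat.mod_mod_of_dvd _ hKm] at h5
    exact tabB_lim hB hCL hTor hp h2 he (hmp.coprime_dvd_left hKm) h5 fun l hl hlm =>
      hl.dvd_of_dvd_pow (hlm.trans (Nat.dvd_of_mod_eq_zero h4))

/-- the degrees up to `100` -/
theorem tabC_lim (hCL : StCL) (hTor : StTor) (hp : p.Prime) (hm : 0 < m)
    (hmp : m.Coprime p) (h : m ≤ 100 ∧ ∀ e ∈ tabC, e.1 = m → p % m ∉ e.2) : LimLP m p := by
  by_cases h1 : ∀ e ∈ table, e.1 = m → p % m ∉ e.2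
  · exact (table_lift hp hm ⟨h.1, h1⟩).lim hp hm hmp
  push Not at h1
  obtain ⟨e, he, hem, hpe⟩ := h1
  -- the remaining classes
  obtain key : ∀ e ∈ table, ∀ c ∈ e.2, (∃ e' ∈ tabC, e'.1 = e.1 ∧ c ∈ e'.2) ∨
      (c ≠ 2 ∧ 2 < e.1 ∧ (e.1 = 56 ∨ e.1 = 92 ∨ viaAB e.1 c = true)) := by decide +kernel
  rcases key e he _ hpe with ⟨e', he', h3, h4⟩ | ⟨h3, h4, h5⟩
  · exact absurd h4 (h.2 e' he' (h3.trans hem))
  rw [hem] at h4 h5
  obtain hp2 : p ≠ 2 := by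
    rintro rfl
    exact h3 (Nat.mod_eq_of_lt h4)
  rcases h5 with rfl | rfl | h5
  · refine limLP_237 stBasic hCL hTor hp fun l hl hlm => ?_
    have h6 : l ∣ 2 ^ 3 * 7 := hlm
    rcases hl.dvd_mul.mp h6 with h7 | h7
    · exact Or.inl ((Nat.prime_dvd_prime_iff_eq hl Nat.prime_two).mp (hl.dvd_of_dvd_pow h7))
    · exact Or.inr (Or.inr ((Nat.prime_dvd_prime_iff_eq hl (by norm_num)).mp h7))
  · refine lim_23 hCL hTor hp fun l hl hlm => ?_
    have h6 : l ∣ 2 ^ 2 * 23 := hlm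
    rcases hl.dvd_mul.mp h6 with h7 | h7
    · exact Or.inl ((Nat.prime_dvd_prime_iff_eq hl Nat.prime_two).mp (hl.dvd_of_dvd_pow h7))
    · exact Or.inr ((Nat.prime_dvd_prime_iff_eq hl (by norm_num)).mp h7)
  · exact via_lim stBasic hCL hTor hp hp2 hmp h5

end

end Pool.Agent.Lib.MP81632f.Pot
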