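import Pool.Agent.Lib.MP_81632f_ag.Pot.Mask

/-!
# Potential lattice property: certificates
-/

set_option autoImplicit false

noncomputable section

namespace Pool.Agent.Lib.MP81632f.Lv

open Finset
open Pool.Agent.Lib.MP81632f.Diag

/-! ### Primes which generate the same subgroup -/

section Gener

variable {M p g f k k' : ℕ} [NeZero M]

theorem saw_pow (hp : (p : ZMod M) ^ f = 1) (t x : ZMod M) (n : ℕ) :
    saw M p f t ((p : ZMod M) ^ n * x) = saw M p f t x := by
  induction n with
  | zero => rw [pow_zero, one_mul]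
  | succ n ih => rw [pow_succ', mul_assoc, Basic.saw_p hp, ih]

/-- balanced sets for a prime which generates the same subgroup as `g` -/
theorem bal_gen (hf : 0 < f) (hg : (g : ZMod M) ^ f = 1) (h1 : (p : ZMod M) = (g : ZMod M) ^ k)
    (h2 : (g : ZMod M) = (p : ZMod M) ^ k') {X : Multiset (ZMod M)} (hX : BalM M g f X) :
    (p : ZMod M) ^ f = 1 ∧ BalM M p f X := by
  have hp : (p : ZMod M) ^ f = 1 := by
    rw [h1, ← pow_mul, mul_comm, pow_mul, hg, one_pow]
  refine ⟨hp, fun t => ?_⟩
  obtain ⟨u, hu⟩ := IsUnit.of_pow_eq_one hp hf.ne'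
  have key : ∀ x : ZMod M, (f : ℤ) * saw M p f t x =
      ∑ j ∈ range f, saw M g f ((u ^ j * t : (ZMod M)ˣ) : ZMod M) x := by
    intro x
    have e1 : ∀ i ∈ range f, saw M p f t ((g : ZMod M) ^ i * x) = saw M p f t x := by
      intro i _
      rw [h2, ← pow_mul, saw_pow hp]
    have e2 : (f : ℤ) * saw M p f t x = ∑ i ∈ range f, saw M p f t ((g : ZMod M) ^ i * x) := by
      rw [Finset.sum_congr rfl e1, Finset.sum_const, card_range, nsmul_eq_mul]
    rw [e2]
    unfold saw
    rw [Finset.sum_comm]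
    refine Finset.sum_congr rfl fun j _ => Finset.sum_congr rfl fun i _ => ?_
    rw [Units.val_mul, Units.val_pow_eq_pow_val, hu]
    congr 4
    ring
  have e3 : (f : ℤ) * (X.map fun x => saw M p f t x).sum = 0 := by
    rw [← Multiset.sum_map_mul_left, Multiset.map_congr rfl fun x _ => key x, Multiset.sum_map_sum]
    exact Finset.sum_eq_zero fun j _ => hX (u ^ j * t)
  rcases mul_eq_zero.mp e3 with h | h
  · exfalso
    have : f = 0 := by exact_mod_cast h
    omega
  · exact h

/-- the sum of the residues for the unit `t` -/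
def ckF (M c f : ℕ) (X : List ℕ) (t : ℕ) : Bool :=
  Nat.beq (2 * (X.map fun x => ((List.range f).map fun j => c ^ j * t * x % M).sum).sum)
    (X.length * (f * M))

/-- a smaller unit gives the same condition -/
def skipB (M c f t : ℕ) : Bool :=
  (List.range f).any fun j => Nat.blt (c ^ j * t % M) t || Nat.blt (M - c ^ j * t % M) t

/-- balanced sums of two atoms -/
def ck2 (M c f : ℕ) (A B : List ℕ) : Bool :=
  atomL M A && atomL M B && Nat.beq (c ^ f % M) (1 % M) && Nat.blt 0 f &&
  ((List.range M).all fun t => !(Nat.beq (Nat.gcd t M) 1) || (skipB M c f t || ckF M c f (A ++ B) t))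

theorem saw_ckF {c t x : ℕ} : saw M c f (t : ZMod M) (x : ZMod M) =
    2 * ((((List.range f).map fun j => c ^ j * t * x % M).sum : ℕ) : ℤ) - f * M := by
  have h1 : (((List.range f).map fun j => c ^ j * t * x % M).sum : ℕ) =
      ∑ j ∈ range f, (c ^ j * t * x % M) := rfl
  rw [h1]
  unfold saw
  rw [Finset.sum_sub_distrib, Finset.sum_const, card_range, nsmul_eq_mul, Nat.cast_sum,
    Finset.mul_sum]
  congr 1
  refine Finset.sum_congr rfl fun j _ => ?_
  rw [← Nat.cast_pow, ← Nat.cast_mul, ← Nat.cast_mul, ZMod.val_natCast]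

theorem saw_ckF_sum {c t : ℕ} (X : List ℕ) (h : ckF M c f X t = true) :
    (X.map fun x : ℕ => saw M c f (t : ZMod M) (x : ZMod M)).sum = 0 := by
  have h1 := Nat.eq_of_beq_eq_true h
  have h2 : ∀ Y : List ℕ, (Y.map fun x : ℕ => saw M c f (t : ZMod M) (x : ZMod M)).sum =
      2 * ((((Y.map fun x => ((List.range f).map fun j => c ^ j * t * x % M).sum).sum : ℕ)) : ℤ) -
        Y.length * (f * M) := by
    intro Y
    induction Y with
    | nil => simp
    | cons y Y ih =>
      rw [List.map_cons, List.sum_cons, ih, saw_ckF, List.map_cons, List.sum_cons,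
        List.length_cons]
      push_cast
      ring
  rw [h2, sub_eq_zero]
  exact_mod_cast h1

theorem ck2_bal {c : ℕ} {A B : List ℕ} (h : ck2 M c f A B = true) :
    IsAtomZ ((A.map fun x : ℕ => (x : ZMod M) : List (ZMod M)) : Multiset (ZMod M)) ∧
    IsAtomZ ((B.map fun x : ℕ => (x : ZMod M) : List (ZMod M)) : Multiset (ZMod M)) ∧
    (c : ZMod M) ^ f = 1 ∧ 0 < f ∧
    BalM M c f (((A.map fun x : ℕ => (x : ZMod M) : List (ZMod M)) : Multiset (ZMod M)) +
      ((B.map fun x : ℕ => (x : ZMod M) : List (ZMod M)) : Multiset (ZMod M))) := by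
  unfold ck2 at h
  rw [Bool.and_eq_true, Bool.and_eq_true, Bool.and_eq_true, Bool.and_eq_true,
    List.all_eq_true] at h
  obtain ⟨⟨⟨⟨h1, h2⟩, h3⟩, h4⟩, h5⟩ := h
  have hA := atomL_spec (M := M) h1
  have hB := atomL_spec (M := M) h2
  have hf : 0 < f := by
    have h6 : Nat.ble (Nat.succ 0) f = true := h4
    exact Nat.le_of_ble_eq_true h6
  have hc : (c : ZMod M) ^ f = 1 := by
    rw [← Nat.cast_pow, ← Nat.cast_one, ZMod.natCast_eq_natCast_iff]
    exact Nat.eq_of_beq_eq_true h3
  refine ⟨hA, hB, hc, hf, ?_⟩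
  have hne : ∀ x ∈ A ++ B, (x : ZMod M) ≠ 0 := by
    intro x hx hx0
    rw [List.mem_append] at hx
    rcases hx with hx | hx
    · exact Basic.atom_zero hA (Multiset.mem_coe.mpr (List.mem_map.mpr ⟨x, hx, hx0⟩))
    · exact Basic.atom_zero hB (Multiset.mem_coe.mpr (List.mem_map.mpr ⟨x, hx, hx0⟩))
  have hswap : ∀ t x y : ZMod M, saw M c f (y * t) x = saw M c f t (y * x) := by
    intro t x y
    unfold saw
    refine Finset.sum_congr rfl fun j _ => ?_
    congr 4
    ring
  have key : ∀ n : ℕ, n < M → Nat.gcd n M = 1 →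
      ((A ++ B).map fun x : ℕ => saw M c f (n : ZMod M) (x : ZMod M)).sum = 0 := by
    intro n
    induction n using Nat.strong_induction_on with
    | _ n ih =>
      intro hn hg
      have hu : IsUnit (n : ZMod M) := (ZMod.isUnit_iff_coprime _ _).mpr hg
      have h6 := h5 n (List.mem_range.mpr hn)
      rw [hg, Bool.or_eq_true] at h6
      have h7 := h6.resolve_left (by decide)
      rw [Bool.or_eq_true] at h7
      rcases h7 with h7 | h7
      swap
      · exact saw_ckF_sum _ h7
      unfold skipB at h7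
      rw [List.any_eq_true] at h7
      obtain ⟨j, -, h8⟩ := h7
      rw [Bool.or_eq_true] at h8
      have hcu : IsUnit ((c : ZMod M) ^ j) := (Basic.isUnit_p hf hc).pow j
      have hval : ((c ^ j * n % M : ℕ) : ZMod M) = (c : ZMod M) ^ j * n := by
        rw [ZMod.natCast_mod]
        push_cast
        rfl
      rcases h8 with h8 | h8
      · have h9 : c ^ j * n % M < n := by
          have h10 : Nat.ble (Nat.succ (c ^ j * n % M)) n = true := h8
          exact Nat.le_of_ble_eq_true h10
        have h10 := ih _ h9 (h9.trans hn) (by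
          have h11 : IsUnit ((c ^ j * n % M : ℕ) : ZMod M) := by
            rw [hval]
            exact hcu.mul hu
          exact (ZMod.isUnit_iff_coprime _ _).mp h11)
        rw [hval] at h10
        rw [← h10]
        congr 1
        refine List.map_congr_left fun x _ => ?_
        rw [hswap, saw_pow hc]
      · have h9 : M - c ^ j * n % M < n := by
          have h10 : Nat.ble (Nat.succ (M - c ^ j * n % M)) n = true := h8
          exact Nat.le_of_ble_eq_true h10
        have hlt : c ^ j * n % M < M := Nat.mod_lt _ (NeZero.pos M)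
        have hval' : ((M - c ^ j * n % M : ℕ) : ZMod M) = -((c : ZMod M) ^ j * n) := by
          rw [Nat.cast_sub hlt.le, ZMod.natCast_self, hval, zero_sub]
        have h10 := ih _ h9 (h9.trans hn) (by
          have h11 : IsUnit ((M - c ^ j * n % M : ℕ) : ZMod M) := by
            rw [hval']
            exact (hcu.mul hu).neg
          exact (ZMod.isUnit_iff_coprime _ _).mp h11)
        rw [hval'] at h10
        have h12 : ∀ x ∈ A ++ B, saw M c f (-((c : ZMod M) ^ j * n)) (x : ZMod M) =
            -saw M c f (n : ZMod M) (x : ZMod M) := by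
          intro x hx
          have e1 : -((c : ZMod M) ^ j * (n : ZMod M)) = (-1) * ((c : ZMod M) ^ j * n) := by ring
          rw [e1, hswap, hswap, neg_one_mul, mul_neg, Basic.saw_neg hf hc hu, saw_pow hc]
          exact fun h13 => hne x hx ((hcu.mul_right_eq_zero).mp h13)
        rw [List.map_congr_left h12] at h10
        have h13 : ∀ Y : List ℕ, (Y.map fun x : ℕ => -saw M c f (n : ZMod M) (x : ZMod M)).sum =
            -(Y.map fun x : ℕ => saw M c f (n : ZMod M) (x : ZMod M)).sum := by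
          intro Y
          induction Y with
          | nil => simp
          | cons y Y ih => rw [List.map_cons, List.sum_cons, ih, List.map_cons, List.sum_cons, neg_add]
        rw [h13, neg_eq_zero] at h10
        exact h10
  intro t
  have h6 := key (t : ZMod M).val (ZMod.val_lt _) (ZMod.val_coe_unit_coprime t)
  rw [Multiset.coe_add, ← List.map_append, Multiset.map_coe, Multiset.sum_coe, List.map_map,
    ← h6]
  congr 1
  refine List.map_congr_left fun x _ => ?_
  rw [ZMod.natCast_zmod_val]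
  rfl

/-- explicit vectors -/
theorem vec_ck' {c : ℕ} (hp : p.Prime) (hM : 1 < M) (hMp : M.Coprime p) {A B : List ℕ}
    (h : ck2 M c f A B = true) (h1 : (p : ZMod M) = (c : ZMod M) ^ k)
    (h2 : (c : ZMod M) = (p : ZMod M) ^ k') : vecL M (A ++ B) ∈ VecG p hp := by
  obtain ⟨hA, hB, hpf', hf, hb'⟩ := ck2_bal h
  obtain ⟨hpf, hb⟩ := bal_gen hf hpf' h1 h2 hb'
  have h1 := limP_of_ws (v := cnt ((((A ++ B).map fun x : ℕ => (x : ZMod M)) : List (ZMod M)) :
    Multiset (ZMod M))) hM hf hpf (by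
      refine (le_sup_left : Sub M p f ≤ _) (AddSubgroup.subset_closure ⟨_, Or.inl
        ⟨_, _, hA, hB, rfl, hb⟩, ?_⟩)
      rw [Multiset.coe_add, ← List.map_append])
  have h2 := vecA_of_limP hMp (Basic.cnt_apply_zero (by
    rw [List.map_append, ← Multiset.coe_add, Multiset.mem_add, not_or]
    exact ⟨Basic.atom_zero hA, Basic.atom_zero hB⟩)) h1
  refine VecA.congr h2 fun R _ _ _ => ?_
  rw [vecL_spec, sub_self]
  exact Even.zero

end Gener

/-! ### Odd functions given by digits -/

/-- the digit number `a` in base `16` -/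
def fv (code a : ℕ) : ℕ := code / 16 ^ a % 16

/-- the function whose values are the digits, shifted by `8` -/
def cdF (R₀ code : ℕ) (a : ZMod R₀) : ℤ := (fv code a.val : ℤ) - 8

/-- the conditions at `a`; `E`: numbers with the sign `+` -/
def ckD (R₀ code : ℕ) (E : List (ℕ × Bool)) (a : ℕ) : Bool :=
  (cond (Nat.beq (Nat.gcd a R₀) 1) (Nat.beq (fv code a % 2) 1) (Nat.beq (fv code a) 8) &&
  Nat.beq (fv code ((R₀ - a) % R₀) + fv code a) 16) &&
  E.all fun x => cond x.2 (Nat.beq (fv code (x.1 * a % R₀)) (fv code a))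
    (Nat.beq (fv code (x.1 * a % R₀) + fv code a) 16)

/-- the condition on the sums over the cosets of the subgroup of order `l` -/
def ckS (R₀ code l : ℕ) : Bool := (List.range R₀).all fun a =>
  Nat.beq ((List.range l).map fun k => fv code ((a + k * (R₀ / l)) % R₀)).sum (8 * l)

theorem oddF_code {M R₀ code : ℕ} {Ps : List ℕ} {E : List (ℕ × Bool)} {σ : ℕ → Bool}
    (h0 : 0 < R₀) (hsq : Squarefree R₀) (hPs : ∀ l : ℕ, l.Prime → l ∣ R₀ → l ∈ Ps)
    (hA : ((List.range R₀).all fun a => ckD R₀ code E a) = true)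
    (hS : (Ps.all fun l => !(Nat.beq (R₀ % l) 0) || ckS R₀ code l) = true)
    (hE : ∀ l : ℕ, l.Prime → l ∣ M → ¬ l ∣ R₀ → (l, σ l) ∈ E) :
    OddF 1 M R₀ (cdF R₀ code) fun l => if σ l = true then 1 else -1 := by
  have : NeZero R₀ := ⟨h0.ne'⟩
  rw [List.all_eq_true] at hA hS
  have hA' : ∀ a < R₀, (if Nat.gcd a R₀ = 1 then fv code a % 2 = 1 else fv code a = 8) ∧
      fv code ((R₀ - a) % R₀) + fv code a = 16 ∧
      ∀ x ∈ E, if x.2 = true then fv code (x.1 * a % R₀) = fv code a
        else fv code (x.1 * a % R₀) + fv code a = 16 := by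
    intro a ha
    have h1 := hA a (List.mem_range.mpr ha)
    unfold ckD at h1
    rw [Bool.and_eq_true, Bool.and_eq_true, List.all_eq_true] at h1
    obtain ⟨⟨h2, h3⟩, h4⟩ := h1
    refine ⟨?_, Nat.eq_of_beq_eq_true h3, fun x hx => ?_⟩
    · by_cases h5 : Nat.gcd a R₀ = 1
      · rw [if_pos h5]
        rw [h5] at h2
        exact Nat.eq_of_beq_eq_true h2
      · rw [if_neg h5]
        have h6 : Nat.beq (Nat.gcd a R₀) 1 = false := by
          rw [← Bool.not_eq_true]
          exact fun h7 => h5 (Nat.eq_of_beq_eq_true h7)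
        rw [h6] at h2
        exact Nat.eq_of_beq_eq_true h2
    · have h5 := h4 x hx
      rcases h6 : x.2 with _ | _
      · rw [h6] at h5
        rw [if_neg (by simp)]
        exact Nat.eq_of_beq_eq_true h5
      · rw [h6] at h5
        rw [if_pos rfl]
        exact Nat.eq_of_beq_eq_true h5
  have hco : ∀ a : ZMod R₀, IsUnit a ↔ Nat.gcd a.val R₀ = 1 := by
    intro a
    conv_lhs => rw [← ZMod.natCast_zmod_val a]
    exact ZMod.isUnit_iff_coprime _ _
  have hmul : ∀ (n : ℕ) (a : ZMod R₀), ((n : ZMod R₀) * a).val = n * a.val % R₀ := by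
    intro n a
    conv_lhs => rw [← ZMod.natCast_zmod_val a]
    rw [← Nat.cast_mul, ZMod.val_natCast]
  refine ⟨hsq, ?_, ?_, ?_, ?_, ?_, ?_, ?_⟩
  · intro a ha
    rw [hco] at ha
    have h1 := (hA' a.val (ZMod.val_lt a)).1
    rw [if_neg ha] at h1
    unfold cdF
    rw [h1]
    norm_num
  · intro a ha
    rw [hco] at ha
    have h1 := (hA' a.val (ZMod.val_lt a)).1
    rw [if_pos ha] at h1
    unfold cdF
    rw [Int.odd_iff]
    omega
  · intro a
    have h1 := (hA' a.val (ZMod.val_lt a)).2.1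
    unfold cdF
    have h2 : (-a).val = (R₀ - a.val) % R₀ := by
      have h3 : (-a) = ((R₀ - a.val : ℕ) : ZMod R₀) := by
        rw [Nat.cast_sub (ZMod.val_lt a).le, ZMod.natCast_self, ZMod.natCast_zmod_val, zero_sub]
      rw [h3, ZMod.val_natCast]
    rw [h2]
    omega
  · intro a
    rw [Nat.cast_one, one_mul]
  · intro l hl hlM hlR a
    have h1 := (hA' a.val (ZMod.val_lt a)).2.2 _ (hE l hl hlM hlR)
    unfold cdF
    rw [hmul]
    by_cases h2 : σ l = true
    · rw [if_pos h2] at h1 ⊢
      rw [h1, one_mul]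
    · rw [if_neg h2] at h1 ⊢
      change fv code (l * a.val % R₀) + fv code a.val = 16 at h1
      omega
  · intro l _ _ _
    change (if σ l = true then (1 : ℤ) else -1) = 1 ∨ (if σ l = true then (1 : ℤ) else -1) = -1
    split_ifs
    · exact Or.inl rfl
    · exact Or.inr rfl
  · intro l hl hlR a
    have h1 := hS l (hPs l hl hlR)
    rw [Bool.or_eq_true, Bool.not_eq_true'] at h1
    have h2 : ¬ Nat.beq (R₀ % l) 0 = false := by
      rw [Nat.mod_eq_zero_of_dvd hlR]
      decide
    have h3 := h1.resolve_left h2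
    unfold ckS at h3
    rw [List.all_eq_true] at h3
    have h4 := Nat.eq_of_beq_eq_true (h3 a.val (List.mem_range.mpr (ZMod.val_lt a)))
    have h5 : ∀ k ∈ range l, cdF R₀ code (a + (k : ZMod R₀) * ((R₀ / l : ℕ) : ZMod R₀)) =
        (fv code ((a.val + k * (R₀ / l)) % R₀) : ℤ) - 8 := by
      intro k _
      unfold cdF
      congr 3
      conv_lhs => rw [← ZMod.natCast_zmod_val a]
      rw [← Nat.cast_mul, ← Nat.cast_add, ZMod.val_natCast]
    rw [Finset.sum_congr rfl h5, Finset.sum_sub_distrib, Finset.sum_const, card_range, nsmul_eq_mul,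
      ← Nat.cast_sum, sub_eq_zero]
    have h6 : ∑ k ∈ range l, fv code ((a.val + k * (R₀ / l)) % R₀) = 8 * l := by
      rw [← h4, ← List.toFinset_range, List.sum_toFinset _ List.nodup_range]
    rw [h6]
    push_cast
    ring

namespace Pot

/-! ### The computable conditions -/

/-- `R ∣ c ^ i + 1` for some small `i` -/
def pureb (c R : ℕ) : Bool := (List.range 40).any fun i => (c ^ i + 1) % R == 0

/-- the radical of `n` in the list -/
def radc (Ds : List ℕ) (n : ℕ) : ℕ := (Ds.find? fun R => n % R == 0 && R ^ 10 % n == 0).getD 0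

/-- vector certificates: level, exponent, the two atoms -/
abbrev VCert := ℕ × ℕ × List ℕ × List ℕ

/-- the radicals of a vector certificate -/
def vrad (Ds : List ℕ) (v : VCert) : List ℕ := (oddO v.1 (v.2.2.1 ++ v.2.2.2)).map (radc Ds)

/-- vector certificates for the class `c` modulo `N` -/
def vok (N : ℕ) (Ds : List ℕ) (c : ℕ) (v : VCert) : Bool :=
  N % v.1 == 0 && decide (1 < v.1) && ck2 v.1 (c % v.1) v.2.1 v.2.2.1 v.2.2.2 &&
  (oddO v.1 (v.2.2.1 ++ v.2.2.2)).all fun n =>
    Ds.contains (radc Ds n) && (n % radc Ds n == 0 && radc Ds n ^ 10 % n == 0)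

/-- the known vectors -/
def gens (Ds : List ℕ) (c : ℕ) (VC : List VCert) : List ℕ :=
  (Ds.filter (pureb c)).map (fun R => mk Ds [R]) ++
  ((if Ds.contains 3 then [mk Ds [3]] else []) ++ ((if Ds.contains 5 then [mk Ds [5]] else []) ++
  ((if Ds.contains 7 && Ds.contains 21 then [mk Ds [7, 21]] else []) ++
  ((if Ds.contains 3 && Ds.contains 33 then [mk Ds [3, 33]] else []) ++
  VC.map fun v => mk Ds (vrad Ds v)))))

/-- relation certificates: `R₀`, the odd number `K'` and the digits of the odd function -/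
abbrev RCert := ℕ × ℕ × ℕ

/-- the signs -/
def sgn (r : RCert) (l : ℕ) : Bool := !(Nat.beq (r.2.1 % l) 0)

/-- the numbers with their signs -/
def eps (Ps : List ℕ) (two : Bool) (r : RCert) : List (ℕ × Bool) :=
  (if two then [(2, true)] else []) ++
    (Ps.filter fun l => !(r.1 % l == 0)).map fun l => (l, sgn r l)

/-- the static conditions on a relation -/
def rstat (K : ℕ) (Ps : List ℕ) (two : Bool) (r : RCert) : Bool :=
  decide (1 < r.1) && r.2.1 % r.1 == 0 && K % r.2.1 == 0 &&
  (((List.range r.1).all fun a => ckD r.1 r.2.2 (eps Ps two r) a) &&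
  Ps.all fun l => !(Nat.beq (r.1 % l) 0) || ckS r.1 r.2.2 l)

/-- the condition on the class of `p` -/
def frok (c : ℕ) (r : RCert) : Bool :=
  (List.range r.1).all fun a => Nat.beq (fv r.2.2 (c * a % r.1)) (fv r.2.2 a)

/-- the radicals of a relation -/
def rrad (Ps DK : List ℕ) (r : RCert) : List ℕ :=
  DK.filter fun R => r.2.1 % R == 0 && (R % r.1 == 0 &&
    Ps.all fun l => !(r.2.1 % l == 0) || (!(l % 4 == 1) || R % l == 0))

/-- the conditions for the class `c` -/
def cok (N : ℕ) (Ps DK Ds : List ℕ) (rels : List RCert) (c : ℕ) (VC : List VCert) : Bool :=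
  VC.all (vok N Ds c) && linck Ds DK (gens Ds c VC) ((rels.filter (frok c)).map (rrad Ps DK))

/-- the static conditions -/
structure Stat (K N : ℕ) (Ps DK Ds : List ℕ) (two : Bool) (rels : List RCert) : Prop where
  odd : Odd K
  ps : ∀ l ∈ Ps, l.Prime
  prod : K = Ps.prod
  nodup : Ps.Nodup
  dk : ∀ R : ℕ, R ∈ DK ↔ R ∣ K ∧ R ≠ 1
  dknd : DK.Nodup
  dkds : ∀ R ∈ DK, R ∈ Ds
  dsnd : Ds.Nodup
  dssq : ∀ R ∈ Ds, Squarefree R
  dsN : ∀ R ∈ Ds, R ∣ N
  rel : ∀ r ∈ rels, rstat K Ps two r = true

section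

variable {p : ℕ} {K N : ℕ} {Ps DK Ds : List ℕ} {two : Bool} {rels : List RCert}

theorem Stat.mem_ps (S : Stat K N Ps DK Ds two rels) {l : ℕ} (hl : l.Prime) (h : l ∣ K) :
    l ∈ Ps := by
  rw [S.prod] at h
  obtain ⟨q, hq, hlq⟩ := (Nat.Prime.prime hl).dvd_prod_iff.mp h
  rwa [(Nat.prime_dvd_prime_iff_eq hl (S.ps q hq)).mp hlq]

theorem Stat.sq (S : Stat K N Ps DK Ds two rels) : Squarefree K := by
  rw [S.prod]
  have h1 : ∀ L : List ℕ, (∀ l ∈ L, l.Prime) → L.Nodup → Squarefree L.prod := by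
    intro L
    induction L with
    | nil => exact fun _ _ => by rw [List.prod_nil]; exact squarefree_one
    | cons a L ih =>
      intro h2 h3
      rw [List.prod_cons]
      have h4 := h2 a List.mem_cons_self
      rw [List.nodup_cons] at h3
      refine (Nat.squarefree_mul ?_).mpr ⟨h4.squarefree, ih (fun l hl => h2 l
        (List.mem_cons_of_mem _ hl)) h3.2⟩
      rw [Nat.Prime.coprime_iff_not_dvd h4]
      intro h5
      obtain ⟨q, hq, hlq⟩ := (Nat.Prime.prime h4).dvd_prod_iff.mp h5
      rw [(Nat.prime_dvd_prime_iff_eq h4 (h2 q (List.mem_cons_of_mem _ hq))).mp hlq] at h3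
      exact h3.1 hq
  exact h1 Ps S.ps S.nodup

theorem cast_class {c m : ℕ} (hc : p % N = c) (hm : m ∣ N) : (p : ZMod m) = (c : ZMod m) := by
  rw [ZMod.natCast_eq_natCast_iff, ← hc]
  exact ((Nat.mod_modEq p N).of_dvd hm).symm

/-- `p` and `c` generate the same subgroup modulo `N` -/
def Same (p N c : ℕ) : Prop := (∃ k : ℕ, (p : ZMod N) = (c : ZMod N) ^ k) ∧
  ∃ k : ℕ, (c : ZMod N) = (p : ZMod N) ^ k

theorem Same.dvd {c m : ℕ} (h : Same p N c) (hm : m ∣ N) : Same p m c := by
  obtain ⟨⟨k, h1⟩, k', h2⟩ := h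
  refine ⟨⟨k, ?_⟩, k', ?_⟩
  · have h3 := congrArg (ZMod.castHom hm (ZMod m)) h1
    rwa [map_pow, map_natCast, map_natCast] at h3
  · have h3 := congrArg (ZMod.castHom hm (ZMod m)) h2
    rwa [map_pow, map_natCast, map_natCast] at h3

theorem gens_mem (hp : p.Prime) (hNp : N.Coprime p) (S : Stat K N Ps DK Ds two rels) {c : ℕ}
    (hc : Same p N c) {VC : List VCert} (hV : ∀ v ∈ VC, vok N Ds c v = true) :
    ∀ g ∈ gens Ds c VC, vm Ds g ∈ VecG p hp := by
  have hne : ∀ l : ℕ, l ∈ Ds → p ≠ l := by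
    rintro l hl rfl
    have h1 := Nat.dvd_gcd (S.dsN _ hl) dvd_rfl
    rw [hNp] at h1
    exact hp.one_lt.ne' (Nat.dvd_one.mp h1)
  have hdv : ∀ l m : ℕ, m ∈ Ds → l ∣ m → l ≠ 1 → p ≠ l := by
    rintro l m hm hlm h1 rfl
    have h2 := Nat.dvd_gcd (hlm.trans (S.dsN _ hm)) dvd_rfl
    rw [hNp] at h2
    exact h1 (Nat.dvd_one.mp h2)
  intro g hg
  unfold gens at hg
  rw [List.mem_append, List.mem_append, List.mem_append, List.mem_append, List.mem_append] at hg
  rcases hg with hg | hg | hg | hg | hg | hg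
  · rw [List.mem_map] at hg
    obtain ⟨R, hR, rfl⟩ := hg
    rw [List.mem_filter] at hR
    obtain ⟨hR, hb⟩ := hR
    unfold pureb at hb
    rw [List.any_eq_true] at hb
    obtain ⟨i, -, hi⟩ := hb
    rw [beq_iff_eq] at hi
    obtain ⟨-, k', h2⟩ := hc.dvd (S.dsN R hR)
    have h1 : R ∣ p ^ (k' * i) + 1 := by
      rw [← ZMod.natCast_eq_zero_iff]
      push_cast
      rw [pow_mul, ← h2]
      have h3 := (ZMod.natCast_eq_zero_iff (c ^ i + 1) R).mpr (Nat.dvd_of_mod_eq_zero hi)
      push_cast at h3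
      exact h3
    refine (vm_mk hp S.dsnd (u := [R]) fun x hx => ?_).mp ?_
    · rw [List.mem_singleton] at hx
      rwa [hx]
    · rw [List.map_singleton, List.sum_singleton]
      exact eR_pure hp h1
  · split_ifs at hg with h
    · rw [List.mem_singleton] at hg
      rw [List.contains_iff_mem] at h
      subst hg
      refine (vm_mk hp S.dsnd (u := [3]) fun x hx => ?_).mp ?_
      · rw [List.mem_singleton] at hx
        rwa [hx]
      · rw [List.map_singleton, List.sum_singleton]
        exact e3_mem hp (hne 3 h)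
    · exact absurd hg List.not_mem_nil
  · split_ifs at hg with h
    · rw [List.mem_singleton] at hg
      rw [List.contains_iff_mem] at h
      subst hg
      refine (vm_mk hp S.dsnd (u := [5]) fun x hx => ?_).mp ?_
      · rw [List.mem_singleton] at hx
        rwa [hx]
      · rw [List.map_singleton, List.sum_singleton]
        exact e5_mem hp (hne 5 h)
    · exact absurd hg List.not_mem_nil
  · split_ifs at hg with h
    · rw [List.mem_singleton] at hg
      rw [Bool.and_eq_true, List.contains_iff_mem, List.contains_iff_mem] at h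
      subst hg
      refine (vm_mk hp S.dsnd (u := [7, 21]) fun x hx => ?_).mp ?_
      · rw [List.mem_cons, List.mem_singleton] at hx
        rcases hx with rfl | rfl
        · exact h.1
        · exact h.2
      · rw [List.map_cons, List.map_singleton, List.sum_cons, List.sum_singleton]
        exact e7_21_mem hp (hdv 3 21 h.2 (by norm_num) (by norm_num)) (hne 7 h.1)
    · exact absurd hg List.not_mem_nil
  · split_ifs at hg with h
    · rw [List.mem_singleton] at hg
      rw [Bool.and_eq_true, List.contains_iff_mem, List.contains_iff_mem] at h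
      subst hg
      refine (vm_mk hp S.dsnd (u := [3, 33]) fun x hx => ?_).mp ?_
      · rw [List.mem_cons, List.mem_singleton] at hx
        rcases hx with rfl | rfl
        · exact h.1
        · exact h.2
      · rw [List.map_cons, List.map_singleton, List.sum_cons, List.sum_singleton]
        exact e3_33_mem hp (hne 3 h.1) (hdv 11 33 h.2 (by norm_num) (by norm_num))
    · exact absurd hg List.not_mem_nil
  · rw [List.mem_map] at hg
    obtain ⟨⟨M, f, A, B⟩, hv, rfl⟩ := hg
    have h1 := hV _ hv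
    simp only [vok, Bool.and_eq_true, beq_iff_eq, decide_eq_true_eq, List.all_eq_true,
      List.contains_iff_mem] at h1
    obtain ⟨⟨⟨hM, hM1⟩, hck⟩, hrad⟩ := h1
    have hMN : M ∣ N := Nat.dvd_of_mod_eq_zero hM
    have : NeZero M := ⟨by omega⟩
    obtain ⟨⟨k, e1⟩, k', e2⟩ := hc.dvd hMN
    have e0 : ((c % M : ℕ) : ZMod M) = (c : ZMod M) := ZMod.natCast_mod c M
    have h2 := vec_ck' hp hM1 (hNp.coprime_dvd_left hMN) hck (by rw [e0]; exact e1)
      (by rw [e0]; exact e2)
    rw [vecL_eq] at h2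
    have h3 : (oddO M (A ++ B)).map (fun n => eR (rad n)) = (vrad Ds (M, f, A, B)).map eR := by
      unfold vrad
      rw [List.map_map]
      refine List.map_congr_left fun n hn => ?_
      obtain ⟨h4, h5, h6⟩ := hrad n hn
      rw [Function.comp_apply, rad_of (k := 10) (S.dssq _ h4) (Nat.dvd_of_mod_eq_zero h5)
        (Nat.dvd_of_mod_eq_zero h6)]
    rw [h3] at h2
    refine (vm_mk hp S.dsnd fun x hx => ?_).mp h2
    unfold vrad at hx
    rw [List.mem_map] at hx
    obtain ⟨n, hn, rfl⟩ := hx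
    exact (hrad n hn).1

theorem fam_rrad (S : Stat K N Ps DK Ds two rels) {r : RCert} (hr : r ∈ rels) :
    Fam r.1 r.2.1 = (rrad Ps DK r).toFinset := by
  have h := S.rel r hr
  simp only [rstat, Bool.and_eq_true, beq_iff_eq, decide_eq_true_eq] at h
  obtain ⟨⟨⟨h1, h2⟩, h3⟩, -⟩ := h
  have hK0 : K ≠ 0 := S.sq.ne_zero
  have hK' : r.2.1 ∣ K := Nat.dvd_of_mod_eq_zero h3
  have hK'0 : r.2.1 ≠ 0 := by
    intro h4
    rw [h4, zero_dvd_iff] at hK'
    exact hK0 hK'
  ext R
  unfold Fam rrad
  rw [mem_filter, Nat.mem_divisors, List.mem_toFinset, List.mem_filter, S.dk]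
  simp only [Bool.and_eq_true, beq_iff_eq, List.all_eq_true, Bool.or_eq_true, Bool.not_eq_true',
    beq_eq_false_iff_ne]
  constructor
  · rintro ⟨⟨h4, -⟩, h5, h6⟩
    refine ⟨⟨h4.trans hK', ?_⟩, Nat.mod_eq_zero_of_dvd h4, Nat.mod_eq_zero_of_dvd h5,
      fun l hl => ?_⟩
    · rintro rfl
      have := Nat.le_of_dvd one_pos h5
      omega
    · by_cases h7 : r.2.1 % l = 0
      · right
        by_cases h8 : l % 4 = 1
        · right
          exact Nat.mod_eq_zero_of_dvd (h6 l (Nat.mem_primeFactors.mpr ⟨S.ps l hl,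
            Nat.dvd_of_mod_eq_zero h7, hK'0⟩) h8)
        · exact Or.inl h8
      · exact Or.inl h7
  · rintro ⟨⟨h4, h5⟩, h6, h7, h8⟩
    refine ⟨⟨Nat.dvd_of_mod_eq_zero h6, hK'0⟩, Nat.dvd_of_mod_eq_zero h7, fun l hl h9 => ?_⟩
    rw [Nat.mem_primeFactors] at hl
    have h10 := h8 l (S.mem_ps hl.1 (hl.2.1.trans hK'))
    rcases h10 with h10 | h10 | h10
    · exact absurd (Nat.mod_eq_zero_of_dvd hl.2.1) h10
    · exact absurd h9 h10
    · exact Nat.dvd_of_mod_eq_zero h10

theorem rel_mem (hTor : StTor) (S : Stat K N Ps DK Ds two rels) {c a : ℕ}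
    (hc : Same p N c) (ha : a = 0 ∨ two = true) {r : RCert} (hr : r ∈ rels) (hfr : frok c r = true)
    [NeZero (2 ^ a * K)] {v : ZMod (2 ^ a * K) → ℤ} (hv : Bal (2 ^ a * K) p v) :
    Even (((rrad Ps DK r).map fun R => nR (2 ^ a * K) R v).sum) := by
  have h := S.rel r hr
  unfold rstat at h
  rw [Bool.and_eq_true, Bool.and_eq_true, Bool.and_eq_true, Bool.and_eq_true, beq_iff_eq,
    beq_iff_eq, decide_eq_true_eq] at h
  obtain ⟨⟨⟨h1, h2⟩, h3⟩, h4, h4'⟩ := h
  have hK' : r.2.1 ∣ K := Nat.dvd_of_mod_eq_zero h3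
  have hR₀ : r.1 ∣ K := (Nat.dvd_of_mod_eq_zero h2).trans hK'
  have hKN : r.1 ∣ N := S.dsN _ (S.dkds _ ((S.dk _).mpr ⟨hR₀, by omega⟩))
  have hK'o : Odd r.2.1 := S.odd.of_dvd_nat hK'
  have : NeZero r.1 := ⟨by omega⟩
  have hF := oddF_code (M := 2 ^ a * K) (σ := sgn r) (by omega) (S.sq.squarefree_of_dvd hR₀)
    (fun l hl hlR => S.mem_ps hl (hlR.trans hR₀)) h4 h4' (fun l hl hlM hlR => by
      unfold eps
      rw [List.mem_append]
      rcases hl.dvd_mul.mp hlM with h5 | h5
      · left
        have h6 : l = 2 := (Nat.prime_dvd_prime_iff_eq hl Nat.prime_two).mp (hl.dvd_of_dvd_pow h5)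
        have h7 : two = true := by
          refine ha.resolve_left ?_
          rintro rfl
          rw [pow_zero] at h5
          exact hl.one_lt.ne' (Nat.dvd_one.mp h5)
        have h8 : sgn r 2 = true := by
          unfold sgn
          rw [Nat.odd_iff.mp hK'o]
          rfl
        rw [h7, if_pos rfl, List.mem_singleton, h6, h8]
      · right
        rw [List.mem_map]
        refine ⟨l, ?_, rfl⟩
        rw [List.mem_filter]
        refine ⟨S.mem_ps hl h5, ?_⟩
        rw [Bool.not_eq_true', beq_eq_false_iff_ne]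
        exact fun h => hlR (Nat.dvd_of_mod_eq_zero h))
  have hF' : OddF p (2 ^ a * K) r.1 (cdF r.1 r.2.2) fun l => if sgn r l = true then 1 else -1 := by
    refine ⟨hF.sq, hF.unit, hF.odd, hF.neg, fun x => ?_, hF.mul, hF.eps, hF.prim⟩
    unfold frok at hfr
    rw [List.all_eq_true] at hfr
    have hstep : ∀ x : ZMod r.1, cdF r.1 r.2.2 ((c : ZMod r.1) * x) = cdF r.1 r.2.2 x := by
      intro x
      have h5 := Nat.eq_of_beq_eq_true (hfr x.val (List.mem_range.mpr (ZMod.val_lt x)))
      unfold cdF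
      rw [← h5]
      congr 3
      conv_lhs => rw [← ZMod.natCast_zmod_val x]
      rw [← Nat.cast_mul, ZMod.val_natCast]
    obtain ⟨⟨k, hk⟩, -⟩ := hc.dvd hKN
    rw [hk]
    clear hk
    induction k generalizing x with
    | zero => rw [pow_zero, one_mul]
    | succ k ih => rw [pow_succ, mul_assoc, ih, hstep]
  have hs : ∀ l : ℕ, sgn r l = true ↔ ¬ r.2.1 % l = 0 := by
    intro l
    unfold sgn
    rw [Bool.not_eq_true']
    constructor
    · intro h5 h6
      rw [h6] at h5
      exact absurd h5 (by decide)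
    · intro h5
      rw [← Bool.not_eq_true]
      exact fun h6 => h5 (Nat.eq_of_beq_eq_true h6)
  have h5 := rel_K hTor S.sq S.odd hK' hF' (fun l hl _ h6 _ => by
      rw [if_pos ((hs l).mpr fun h7 => h6 (Nat.dvd_of_mod_eq_zero h7))])
    (fun l hl h6 _ => by
      rw [if_neg (fun h7 => (hs l).mp h7 (Nat.mod_eq_zero_of_dvd h6))]) hv
  have hnd : (rrad Ps DK r).Nodup := S.dknd.filter _
  rw [fam_rrad S hr, List.sum_toFinset _ hnd] at h5
  exact h5

/-- **Certificates.** -/
theorem lim_cok (hB : StBasic) (hCL : StCL) (hTor : StTor) (hp : p.Prime) (hNp : N.Coprime p)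
    (S : Stat K N Ps DK Ds two rels) {c : ℕ} (hc : Same p N c) {VC : List VCert}
    (h : cok N Ps DK Ds rels c VC = true) {a : ℕ} (ha : a = 0 ∨ two = true) :
    LimLP (2 ^ a * K) p := by
  unfold cok at h
  rw [Bool.and_eq_true, List.all_eq_true] at h
  refine limLP_K hB hCL hTor hp S.odd fun {_} v hv => ?_
  have h1 := linck_spec (n := fun R => nR (2 ^ a * K) R v) hp S.dsnd h.2 S.dkds
    (gens_mem hp hNp S hc h.1) (fun r hr => by
      rw [List.mem_map] at hr
      obtain ⟨r, hr, rfl⟩ := hr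
      rw [List.mem_filter] at hr
      refine ⟨fun R hR => ?_, rel_mem hTor S hc ha hr.1 hr.2 hv⟩
      unfold rrad at hR
      exact List.mem_of_mem_filter hR) (fun R => inferInstance)
  refine vec_congr hp h1 fun R => ?_
  rw [sum_eR, Finset.sum_apply]
  have h4 : ∀ R' ∈ K.divisors.erase 1, (nR (2 ^ a * K) R' v • eR R') R =
      if R = R' then nR (2 ^ a * K) R' v else 0 := by
    intro R' _
    rw [Pi.smul_apply, smul_eq_mul]
    unfold eR
    split_ifs <;> simp
  rw [Finset.sum_congr rfl h4, Finset.sum_ite_eq]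
  have h5 : R ∈ K.divisors.erase 1 ↔ R ∈ DK := by
    rw [mem_erase, Nat.mem_divisors, S.dk]
    exact ⟨fun h => ⟨h.2.1, h.1⟩, fun h => ⟨h.2, h.1, S.sq.ne_zero⟩⟩
  by_cases hR : R ∈ DK
  · rw [if_pos (h5.mpr hR)]
    by_cases ho : Odd (nR (2 ^ a * K) R v)
    · rw [List.count_eq_one_of_mem (S.dknd.filter _) (List.mem_filter.mpr ⟨hR, by
        rw [decide_eq_true_iff]
        exact ho⟩), Nat.cast_one]
      exact odd_one.sub_odd ho
    · rw [List.count_eq_zero_of_not_mem (fun h6 => ho (by
        have h7 := (List.mem_filter.mp h6).2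
        rwa [decide_eq_true_iff] at h7)), Nat.cast_zero, zero_sub]
      exact (Int.not_odd_iff_even.mp ho).neg
  · rw [if_neg fun h6 => hR (h5.mp h6), List.count_eq_zero_of_not_mem
      (fun h6 => hR (List.mem_of_mem_filter h6)), Nat.cast_zero, sub_zero]
    exact Even.zero

end

/-! ### Families -/

/-- `c` and `g` generate the same subgroup -/
def sgen (N c g k k' : ℕ) : Bool := g ^ k % N == c % N && c ^ k' % N == g % N

/-- the classes: each class with the index of its group and two exponents -/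
def clsok (K N : ℕ) (excl : List ℕ) (gr : List ℕ) (cls : List (ℕ × ℕ × ℕ × ℕ)) : Bool :=
  ((List.range N).filter fun c => Nat.gcd c N == 1 && !(excl.contains (c % K))) == cls.map Prod.fst &&
  cls.all fun x => decide (x.2.1 < gr.length) && sgen N x.1 (gr.getD x.2.1 0) x.2.2.1 x.2.2.2

/-- the static conditions -/
def statck (K N : ℕ) (Ps DK Ds : List ℕ) (two : Bool) (rels : List RCert) : Bool :=
  K % 2 == 1 && (Ps.all fun l => decide (1 < l) && (List.range l).all fun d => d < 2 || !(l % d == 0)) &&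
  K == Ps.prod && decide Ps.Nodup &&
  ((List.range (K + 1)).all fun R => DK.contains R == (!(R == 1) && !(R == 0) && K % R == 0)) &&
  (DK.all fun R => decide (R ≤ K)) && decide DK.Nodup && (DK.all fun R => Ds.contains R) &&
  decide Ds.Nodup &&
  (Ds.all fun R => decide (0 < R) && (List.range (R + 1)).all fun d => d < 2 || !(R % (d * d) == 0)) &&
  (Ds.all fun R => N % R == 0) && rels.all (rstat K Ps two)

theorem stat_of {K N : ℕ} {Ps DK Ds : List ℕ} {two : Bool} {rels : List RCert}
    (h : statck K N Ps DK Ds two rels = true) : Stat K N Ps DK Ds two rels := by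
  simp only [statck, Bool.and_eq_true, beq_iff_eq, decide_eq_true_eq, List.all_eq_true,
    List.mem_range, Bool.or_eq_true, Bool.not_eq_true', beq_eq_false_iff_ne,
    List.contains_iff_mem] at h
  obtain ⟨⟨⟨⟨⟨⟨⟨⟨⟨⟨⟨h1, h2⟩, h3⟩, h4⟩, h5⟩, h6⟩, h7⟩, h8⟩, h9⟩, h10⟩, h11⟩, h12⟩ := h
  have hK : 0 < K := by omega
  refine ⟨Nat.odd_iff.mpr h1, fun l hl => ?_, h3, h4, fun R => ?_, h7, h8, h9, fun R hR => ?_,
    fun R hR => Nat.dvd_of_mod_eq_zero (h11 R hR), h12⟩
  · obtain ⟨h13, h14⟩ := h2 l hl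
    rw [Nat.prime_def_lt]
    refine ⟨h13, fun d hd hdl => ?_⟩
    rcases h14 d hd with h15 | h15
    · have h16 : d ≠ 0 := by
        rintro rfl
        rw [zero_dvd_iff] at hdl
        omega
      omega
    · exact absurd (Nat.mod_eq_zero_of_dvd hdl) h15
  · constructor
    · intro hR
      have h13 := h6 R hR
      have h14 := h5 R (by omega)
      rw [Bool.eq_iff_iff] at h14
      simp only [List.contains_iff_mem, Bool.and_eq_true, Bool.not_eq_true', beq_eq_false_iff_ne,
        beq_iff_eq] at h14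
      obtain ⟨⟨h15, -⟩, h16⟩ := h14.mp hR
      exact ⟨Nat.dvd_of_mod_eq_zero h16, h15⟩
    · rintro ⟨h13, h14⟩
      have h15 := Nat.le_of_dvd hK h13
      have h16 := h5 R (by omega)
      rw [Bool.eq_iff_iff] at h16
      simp only [List.contains_iff_mem, Bool.and_eq_true, Bool.not_eq_true', beq_eq_false_iff_ne,
        beq_iff_eq] at h16
      refine h16.mpr ⟨⟨h14, ?_⟩, Nat.mod_eq_zero_of_dvd h13⟩
      rintro rfl
      rw [zero_dvd_iff] at h13
      omega
  · obtain ⟨h13, h14⟩ := h10 R hR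
    refine sqf_of (fun d hd hdd => ?_) h13
    rcases h14 d hd with h15 | h15
    · have h16 : d ≠ 0 := by
        rintro rfl
        rw [mul_zero, zero_dvd_iff] at hdd
        omega
      omega
    · exact absurd (Nat.mod_eq_zero_of_dvd hdd) h15

/-- **Families.** -/
theorem lim_fam (hB : StBasic) (hCL : StCL) (hTor : StTor) {p : ℕ} (hp : p.Prime) {K N : ℕ}
    {Ps DK Ds : List ℕ} {two : Bool} {rels : List RCert} {excl : List ℕ}
    {gr : List (ℕ × List VCert)} {cls : List (ℕ × ℕ × ℕ × ℕ)} (hS : statck K N Ps DK Ds two rels = true)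
    (hC : clsok K N excl (gr.map Prod.fst) cls = true)
    (hG : (gr.all fun e => cok N Ps DK Ds rels e.1 e.2) = true) (hNp : N.Coprime p) (hKN : K ∣ N)
    (hex : p % K ∉ excl) {a : ℕ} (ha : a = 0 ∨ two = true) : LimLP (2 ^ a * K) p := by
  obtain hN0 : 0 < N := by
    rcases Nat.eq_zero_or_pos N with h | h
    · rw [h, Nat.coprime_zero_left] at hNp
      exact absurd hNp hp.one_lt.ne'
    · exact h
  unfold clsok at hC
  rw [Bool.and_eq_true, beq_iff_eq, List.all_eq_true] at hC
  obtain ⟨hC1, hC2⟩ := hC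
  obtain h2 : Nat.gcd (p % N) N = 1 := by
    rw [← Nat.gcd_rec, Nat.gcd_comm]
    exact hNp.symm
  obtain h3 : p % N ∈ cls.map Prod.fst := by
    rw [← hC1, List.mem_filter, List.mem_range]
    refine ⟨Nat.mod_lt p hN0, ?_⟩
    rw [Bool.and_eq_true, beq_iff_eq, Bool.not_eq_true', Nat.mod_mod_of_dvd p hKN]
    refine ⟨h2, ?_⟩
    rw [← Bool.not_eq_true, List.contains_iff_mem]
    exact hex
  rw [List.mem_map] at h3
  obtain ⟨⟨c, i, k, k'⟩, hx, h3⟩ := h3
  obtain h4 := hC2 _ hx
  rw [Bool.and_eq_true, decide_eq_true_eq] at h4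
  obtain ⟨h4, h5⟩ := h4
  rw [List.length_map] at h4
  obtain ⟨e, he⟩ : ∃ e, gr[i]? = some e := ⟨_, List.getElem?_eq_getElem h4⟩
  obtain h6 : (gr.map Prod.fst).getD i 0 = e.1 := by
    rw [List.getD_eq_getElem?_getD, List.getElem?_map, he]
    rfl
  rw [h6] at h5
  change c = p % N at h3
  rw [List.all_eq_true] at hG
  obtain h7 := hG e (List.mem_of_getElem? he)
  refine lim_cok hB hCL hTor hp hNp (stat_of hS) ?_ h7 ha
  unfold sgen at h5
  simp only [Bool.and_eq_true, beq_iff_eq] at h5
  obtain ⟨h8, h9⟩ := h5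
  have h10 : (p : ZMod N) = (c : ZMod N) := by
    rw [h3, ZMod.natCast_mod]
  refine ⟨⟨k, ?_⟩, k', ?_⟩
  · rw [h10, ← Nat.cast_pow, ZMod.natCast_eq_natCast_iff]
    exact h8.symm
  · rw [h10, ← Nat.cast_pow, ZMod.natCast_eq_natCast_iff]
    exact h9.symm

end Pot

end Pool.Agent.Lib.MP81632f.Lv
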