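import Pool.Agent.Lib.MP_81632f_ag.Pot.Cert

/-!
# Potential lattice property: data for some families of levels
-/

set_option autoImplicit false

open Pool.Agent.Lib.MP81632f.Diag

namespace Pool.Agent.Lib.MP81632f.Lv.Pot

def relsA11 : List RCert :=
  []

def grA11_0 : List (ℕ × List VCert) :=
  [(3, [(44, 10, [40], [1])]),
    (5, [(88, 10, [1, 3, 84], [8])]),
    (7, []),
    (9, [(88, 5, [87, 85, 4], [80])]),
    (13, []),
    (15, [(44, 10, [40], [1])]),
    (17, []),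
    (19, []),
    (21, []),
    (43, []),
    (65, []),
    (87, [])]

theorem okA11_0 : (grA11_0.all fun e => cok 88 [11] [11] [11] relsA11 e.1 e.2) = true := by
  decide +kernel

def grA11 : List (ℕ × List VCert) := grA11_0

def clsA11 : List (ℕ × ℕ × ℕ × ℕ) :=
  [(3, 0, 1, 1), (5, 1, 1, 1), (7, 2, 1, 1), (9, 3, 1, 1), (13, 4, 1, 1), (15, 5, 1, 1), (17, 6, 1, 1), (19, 7, 1, 1), (21, 8, 1, 1), (25, 3, 3, 2), (27, 0, 3, 7), (29, 4, 7, 3), (31, 5, 3, 7), (35, 7, 7, 3), (37, 1, 3, 7), (39, 2, 7, 3), (41, 6, 7, 3), (43, 9, 1, 1), (47, 5, 9, 9), (49, 3, 4, 4), (51, 7, 9, 9), (53, 1, 9, 9), (57, 6, 9, 9), (59, 0, 9, 9), (61, 4, 9, 9), (63, 2, 9, 9), (65, 10, 1, 1), (69, 1, 7, 3), (71, 5, 7, 3), (73, 6, 3, 7), (75, 0, 7, 3), (79, 2, 3, 7), (81, 3, 2, 3), (83, 7, 3, 7), (85, 4, 3, 7), (87, 11, 1, 1)]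

theorem clsA11_ok : clsok 11 88 [1] (grA11.map Prod.fst) clsA11 = true := by
  decide +kernel

theorem statA11 : statck 11 88 [11] [11] [11] true relsA11 = true := by
  decide +kernel

theorem grA11_ok : (grA11.all fun e => cok 88 [11] [11] [11] relsA11 e.1 e.2) = true := by
  unfold grA11
  simp only [List.all_append, okA11_0, Bool.and_self]

theorem limA11 (hB : StBasic) (hCL : StCL) (hTor : StTor) {p : ℕ} (hp : p.Prime) (hNp : (88 : ℕ).Coprime p)
    (hex : p % 11 ∉ [1]) (a : ℕ) : LimLP (2 ^ a * 11) p :=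
  lim_fam hB hCL hTor hp statA11 clsA11_ok grA11_ok hNp (by norm_num) hex (Or.inr rfl)

def relsA13 : List RCert :=
  []

def grA13_0 : List (ℕ × List VCert) :=
  [(3, [(52, 6, [1, 5, 46], [4])]),
    (5, []),
    (7, []),
    (9, [(52, 3, [1, 5, 46], [4])]),
    (17, []),
    (23, []),
    (25, []),
    (31, []),
    (33, []),
    (51, [])]

theorem okA13_0 : (grA13_0.all fun e => cok 52 [13] [13] [13] relsA13 e.1 e.2) = true := by
  decide +kernel

def grA13 : List (ℕ × List VCert) := grA13_0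

def clsA13 : List (ℕ × ℕ × ℕ × ℕ) :=
  [(3, 0, 1, 1), (5, 1, 1, 1), (7, 2, 1, 1), (9, 3, 1, 1), (11, 2, 5, 5), (15, 2, 11, 11), (17, 4, 1, 1), (19, 2, 7, 7), (21, 1, 3, 3), (23, 5, 1, 1), (25, 6, 1, 1), (29, 3, 2, 2), (31, 7, 1, 1), (33, 8, 1, 1), (35, 0, 5, 5), (37, 8, 5, 5), (41, 8, 11, 11), (43, 5, 5, 5), (45, 8, 7, 7), (47, 7, 3, 3), (49, 4, 5, 5), (51, 9, 1, 1)]

theorem clsA13_ok : clsok 13 52 [1] (grA13.map Prod.fst) clsA13 = true := by
  decide +kernel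

theorem statA13 : statck 13 52 [13] [13] [13] true relsA13 = true := by
  decide +kernel

theorem grA13_ok : (grA13.all fun e => cok 52 [13] [13] [13] relsA13 e.1 e.2) = true := by
  unfold grA13
  simp only [List.all_append, okA13_0, Bool.and_self]

theorem limA13 (hB : StBasic) (hCL : StCL) (hTor : StTor) {p : ℕ} (hp : p.Prime) (hNp : (52 : ℕ).Coprime p)
    (hex : p % 13 ∉ [1]) (a : ℕ) : LimLP (2 ^ a * 13) p :=
  lim_fam hB hCL hTor hp statA13 clsA13_ok grA13_ok hNp (by norm_num) hex (Or.inr rfl)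

def relsA17 : List RCert :=
  []

def grA17_0 : List (ℕ × List VCert) :=
  [(3, []),
    (9, []),
    (13, []),
    (33, [])]

theorem okA17_0 : (grA17_0.all fun e => cok 34 [17] [17] [17] relsA17 e.1 e.2) = true := by
  decide +kernel

def grA17 : List (ℕ × List VCert) := grA17_0

def clsA17 : List (ℕ × ℕ × ℕ × ℕ) :=
  [(3, 0, 1, 1), (5, 0, 5, 13), (7, 0, 11, 3), (9, 1, 1, 1), (11, 0, 7, 7), (13, 2, 1, 1), (15, 1, 3, 3), (19, 1, 7, 7), (21, 2, 3, 3), (23, 0, 15, 15), (25, 1, 5, 5), (27, 0, 3, 11), (29, 0, 13, 5), (31, 0, 9, 9), (33, 3, 1, 1)]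

theorem clsA17_ok : clsok 17 34 [1] (grA17.map Prod.fst) clsA17 = true := by
  decide +kernel

theorem statA17 : statck 17 34 [17] [17] [17] true relsA17 = true := by
  decide +kernel

theorem grA17_ok : (grA17.all fun e => cok 34 [17] [17] [17] relsA17 e.1 e.2) = true := by
  unfold grA17
  simp only [List.all_append, okA17_0, Bool.and_self]

theorem limA17 (hB : StBasic) (hCL : StCL) (hTor : StTor) {p : ℕ} (hp : p.Prime) (hNp : (34 : ℕ).Coprime p)
    (hex : p % 17 ∉ [1]) (a : ℕ) : LimLP (2 ^ a * 17) p :=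
  lim_fam hB hCL hTor hp statA17 clsA17_ok grA17_ok hNp (by norm_num) hex (Or.inr rfl)

end Pool.Agent.Lib.MP81632f.Lv.Pot
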