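import Pool.Agent.Lib.MP_81632f_ag.Pot.Cert

/-!
# Potential lattice property: data for some families of levels
-/

set_option autoImplicit false

open Pool.Agent.Lib.MP81632f.Diag

namespace Pool.Agent.Lib.MP81632f.Lv.Pot

def relsA105 : List RCert :=
  [(7, 105, 125401496), (15, 105, 538312687298906520)]

def grA105_0 : List (ℕ × List VCert) :=
  [(11, [(60, 2, [8], [57]), (105, 6, [1, 29, 75], [70]), (420, 6, [419, 385, 36], [1, 8, 411])]),
    (13, [(60, 4, [4], [59]), (105, 4, [1, 37, 67], [104, 84, 22]), (140, 4, [138, 109, 33], [1, 63, 76])]),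
    (17, [(105, 12, [1, 12, 92], [1, 6, 98]), (140, 12, [136], [1])]),
    (23, [(35, 12, [1, 4, 30], [28]), (105, 12, [1, 19, 85], [1, 6, 98])]),
    (37, [(35, 12, [1, 4, 30], [28]), (60, 4, [4], [59]), (105, 12, [3], [104])]),
    (47, [(105, 12, [1, 12, 92], [1, 6, 98]), (140, 12, [136], [1])]),
    (53, [(35, 12, [1, 4, 30], [28]), (105, 12, [1, 19, 85], [1, 6, 98])]),
    (59, []),
    (67, [(35, 12, [1, 4, 30], [28]), (60, 4, [4], [59]), (105, 12, [3], [104])]),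
    (73, [(60, 4, [4], [59]), (105, 12, [15], [104]), (140, 12, [136], [1])]),
    (83, [(105, 4, [101, 95, 14], [104, 80, 26]), (140, 4, [2, 33, 105], [139, 88, 53])]),
    (89, [])]

theorem okA105_0 : (grA105_0.all fun e => cok 420 [3, 5, 7] [3, 5, 7, 15, 21, 35, 105] [3, 5, 7, 15, 21, 35, 105] relsA105 e.1 e.2) = true := by
  decide +kernel

def grA105_1 : List (ℕ × List VCert) :=
  [(103, [(60, 4, [4], [59]), (105, 12, [15], [104]), (140, 12, [136], [1])]),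
    (113, [(105, 4, [1, 35, 69], [104, 100, 6]), (105, 4, [103, 67, 40], [104, 99, 7])]),
    (209, []),
    (221, [(60, 2, [1, 7, 52], [50]), (105, 6, [1, 29, 75], [70]), (420, 6, [416, 301, 123], [1, 192, 227])]),
    (223, [(60, 4, [4], [59]), (105, 4, [1, 37, 67], [104, 84, 22]), (140, 4, [2, 33, 105], [139, 88, 53])]),
    (293, [(105, 4, [101, 95, 14], [104, 80, 26]), (140, 4, [138, 109, 33], [1, 63, 76])]),
    (323, [(105, 4, [1, 35, 69], [104, 100, 6]), (105, 4, [103, 67, 40], [104, 99, 7])]),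
    (419, [])]

theorem okA105_1 : (grA105_1.all fun e => cok 420 [3, 5, 7] [3, 5, 7, 15, 21, 35, 105] [3, 5, 7, 15, 21, 35, 105] relsA105 e.1 e.2) = true := by
  decide +kernel

def grA105 : List (ℕ × List VCert) := grA105_0 ++ (grA105_1)

def clsA105 : List (ℕ × ℕ × ℕ × ℕ) :=
  [(11, 0, 1, 1), (13, 1, 1, 1), (17, 2, 1, 1), (23, 3, 1, 1), (37, 4, 1, 1), (47, 5, 1, 1), (53, 6, 1, 1), (59, 7, 1, 1), (67, 8, 1, 1), (73, 9, 1, 1), (83, 10, 1, 1), (89, 11, 1, 1), (97, 1, 3, 3), (103, 12, 1, 1), (107, 3, 7, 7), (113, 13, 1, 1), (137, 6, 7, 7), (143, 5, 11, 11), (157, 9, 7, 7), (163, 8, 11, 11), (167, 10, 3, 3), (173, 2, 11, 11), (187, 12, 7, 7), (191, 0, 5, 5), (193, 4, 11, 11), (197, 13, 3, 3), (209, 14, 1, 1), (221, 15, 1, 1), (223, 16, 1, 1), (227, 5, 5, 5), (233, 6, 5, 5), (247, 8, 5, 5), (257, 2, 5, 5), (263, 3, 5, 5), (269, 11, 5, 5), (277, 4, 5, 5), (283, 12, 5, 5), (293, 17, 1, 1), (299, 7, 5, 5), (307, 16, 3, 3),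 (313, 9, 5, 5), (317, 6, 11, 11), (323, 18, 1, 1), (347, 3, 11, 11), (353, 2, 7, 7), (367, 12, 11, 11), (373, 4, 7, 7), (377, 17, 3, 3), (383, 5, 7, 7), (397, 9, 11, 11), (401, 15, 5, 5), (403, 8, 7, 7), (407, 18, 3, 3), (419, 19, 1, 1)]

theorem clsA105_ok : clsok 105 420 [1, 4, 16, 19, 22, 26, 29, 31, 34, 41, 43, 44, 46, 61, 64, 71, 74, 76, 79, 94, 101] (grA105.map Prod.fst) clsA105 = true := by
  decide +kernel

theorem statA105 : statck 105 420 [3, 5, 7] [3, 5, 7, 15, 21, 35, 105] [3, 5, 7, 15, 21, 35, 105] true relsA105 = true := by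
  decide +kernel

theorem grA105_ok : (grA105.all fun e => cok 420 [3, 5, 7] [3, 5, 7, 15, 21, 35, 105] [3, 5, 7, 15, 21, 35, 105] relsA105 e.1 e.2) = true := by
  unfold grA105
  simp only [List.all_append, okA105_0, okA105_1, Bool.and_self]

theorem limA105 (hB : StBasic) (hCL : StCL) (hTor : StTor) {p : ℕ} (hp : p.Prime) (hNp : (420 : ℕ).Coprime p)
    (hex : p % 105 ∉ [1, 4, 16, 19, 22, 26, 29, 31, 34, 41, 43, 44, 46, 61, 64, 71, 74, 76, 79, 94, 101]) (a : ℕ) : LimLP (2 ^ a * 105) p :=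
  lim_fam hB hCL hTor hp statA105 clsA105_ok grA105_ok hNp (by norm_num) hex (Or.inr rfl)

end Pool.Agent.Lib.MP81632f.Lv.Pot
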