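import Pool.Agent.Lib.MP_81632f_ag.Pot.Cert

/-!
# Potential lattice property: data for some families of levels
-/

set_option autoImplicit false

open Pool.Agent.Lib.MP81632f.Diag

namespace Pool.Agent.Lib.MP81632f.Lv.Pot

def relsA19 : List RCert :=
  []

def grA19_0 : List (ℕ × List VCert) :=
  [(3, []),
    (5, [(152, 18, [151, 146, 7], [144])]),
    (9, [(152, 9, [151, 146, 7], [144])]),
    (13, []),
    (15, []),
    (23, [(76, 18, [4], [75])]),
    (27, []),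
    (31, []),
    (33, []),
    (35, [(76, 18, [4], [75])]),
    (37, []),
    (65, [])]

theorem okA19_0 : (grA19_0.all fun e => cok 152 [19] [19] [19] relsA19 e.1 e.2) = true := by
  decide +kernel

def grA19_1 : List (ℕ × List VCert) :=
  [(69, []),
    (75, []),
    (113, []),
    (151, [])]

theorem okA19_1 : (grA19_1.all fun e => cok 152 [19] [19] [19] relsA19 e.1 e.2) = true := by
  decide +kernel

def grA19 : List (ℕ × List VCert) := grA19_0 ++ (grA19_1)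

def clsA19 : List (ℕ × ℕ × ℕ × ℕ) :=
  [(3, 0, 1, 1), (5, 1, 1, 1), (9, 2, 1, 1), (13, 3, 1, 1), (15, 4, 1, 1), (17, 2, 8, 8), (21, 3, 11, 5), (23, 5, 1, 1), (25, 2, 4, 7), (27, 6, 1, 1), (29, 3, 7, 13), (31, 7, 1, 1), (33, 8, 1, 1), (35, 9, 1, 1), (37, 10, 1, 1), (41, 8, 7, 13), (43, 9, 13, 7), (47, 5, 13, 7), (51, 0, 17, 17), (53, 3, 13, 7), (55, 5, 5, 11), (59, 0, 7, 13), (61, 1, 17, 17), (63, 5, 7, 13), (65, 11, 1, 1), (67, 0, 11, 5), (69, 12, 1, 1), (71, 4, 17, 17), (73, 2, 5, 2), (75, 13, 1, 1), (79, 4, 11, 5), (81, 2, 2, 5), (85, 1, 5, 11), (89, 8, 11, 5), (91, 0, 5, 11), (93, 1, 13, 7), (97, 8, 13, 7), (99, 9, 5, 11), (101, 1, 11, 5), (103, 7, 5, 5), (105, 8, 5, 11), (107, 6, 5, 5), (109, 3, 5, 11), (111, 5, 11, 5), (113, 14, 1, 1), (117, 3, 17, 17), (119, 5, 17, 17), (123, 9, 11, 5), (127, 4, 7, 13), (129, 8, 17, 17), (131, 9, 7, 13), (135, 4, 5, 11), (137, 2, 7, 4), (139, 9, 17, 17), (141, 12, 5,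 5), (143, 4, 13, 7), (145, 11, 5, 5), (147, 0, 13, 7), (149, 1, 7, 13), (151, 15, 1, 1)]

theorem clsA19_ok : clsok 19 152 [1, 7, 11] (grA19.map Prod.fst) clsA19 = true := by
  decide +kernel

theorem statA19 : statck 19 152 [19] [19] [19] true relsA19 = true := by
  decide +kernel

theorem grA19_ok : (grA19.all fun e => cok 152 [19] [19] [19] relsA19 e.1 e.2) = true := by
  unfold grA19
  simp only [List.all_append, okA19_0, okA19_1, Bool.and_self]

theorem limA19 (hB : StBasic) (hCL : StCL) (hTor : StTor) {p : ℕ} (hp : p.Prime) (hNp : (152 : ℕ).Coprime p)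
    (hex : p % 19 ∉ [1, 7, 11]) (a : ℕ) : LimLP (2 ^ a * 19) p :=
  lim_fam hB hCL hTor hp statA19 clsA19_ok grA19_ok hNp (by norm_num) hex (Or.inr rfl)

def relsA29 : List RCert :=
  []

def grA29_0 : List (ℕ × List VCert) :=
  [(3, []),
    (5, []),
    (7, [(116, 14, [1, 3, 112], [110])]),
    (17, []),
    (21, []),
    (25, [(116, 7, [115, 106, 11], [108])]),
    (35, []),
    (57, []),
    (75, []),
    (115, [])]

theorem okA29_0 : (grA29_0.all fun e => cok 116 [29] [29] [29] relsA29 e.1 e.2) = true := by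
  decide +kernel

def grA29 : List (ℕ × List VCert) := grA29_0

def clsA29 : List (ℕ × ℕ × ℕ × ℕ) :=
  [(3, 0, 1, 1), (5, 1, 1, 1), (7, 2, 1, 1), (9, 1, 3, 5), (11, 0, 5, 17), (13, 1, 11, 9), (15, 0, 11, 23), (17, 3, 1, 1), (19, 0, 13, 13), (21, 4, 1, 1), (23, 2, 11, 9), (25, 5, 1, 1), (27, 0, 3, 19), (31, 0, 17, 5), (33, 1, 9, 11), (35, 6, 1, 1), (37, 4, 15, 15), (39, 0, 27, 27), (41, 3, 3, 3), (43, 0, 25, 9), (45, 5, 2, 4), (47, 0, 19, 3), (49, 5, 5, 3), (51, 6, 9, 11), (53, 5, 4, 2), (55, 0, 15, 15), (57, 7, 1, 1), (61, 4, 25, 9), (63, 6, 13, 13), (65, 5, 6, 6), (67, 6, 11, 9), (69, 4, 13, 13), (71, 6, 3, 5), (73, 4, 23, 11), (75, 8, 1, 1), (77, 4, 17, 5), (79, 0, 9, 25), (81, 5, 3, 5), (83, 2, 13, 13), (85, 4, 19, 3), (89, 4, 5, 17), (91, 6, 5, 3), (93, 1, 13, 13), (95, 0, 23, 11), (97, 4, 3, 19), (99, 8, 3, 3), (101, 4, 9, 25), (103, 2, 5, 3), (105, 4, 27, 27), (107, 2, 9, 11), (109, 1, 5, 3), (111, 2,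 3, 5), (113, 4, 11, 23), (115, 9, 1, 1)]

theorem clsA29_ok : clsok 29 116 [1] (grA29.map Prod.fst) clsA29 = true := by
  decide +kernel

theorem statA29 : statck 29 116 [29] [29] [29] true relsA29 = true := by
  decide +kernel

theorem grA29_ok : (grA29.all fun e => cok 116 [29] [29] [29] relsA29 e.1 e.2) = true := by
  unfold grA29
  simp only [List.all_append, okA29_0, Bool.and_self]

theorem limA29 (hB : StBasic) (hCL : StCL) (hTor : StTor) {p : ℕ} (hp : p.Prime) (hNp : (116 : ℕ).Coprime p)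
    (hex : p % 29 ∉ [1]) (a : ℕ) : LimLP (2 ^ a * 29) p :=
  lim_fam hB hCL hTor hp statA29 clsA29_ok grA29_ok hNp (by norm_num) hex (Or.inr rfl)

def relsA37 : List RCert :=
  []

def grA37_0 : List (ℕ × List VCert) :=
  [(3, []),
    (5, []),
    (7, [(148, 18, [1, 4, 143], [146])]),
    (9, [(148, 9, [147, 135, 14], [140])]),
    (11, []),
    (15, []),
    (21, []),
    (23, []),
    (29, []),
    (31, []),
    (73, []),
    (85, [])]

theorem okA37_0 : (grA37_0.all fun e => cok 148 [37] [37] [37] relsA37 e.1 e.2) = true := by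
  decide +kernel

def grA37_1 : List (ℕ × List VCert) :=
  [(105, []),
    (147, [])]

theorem okA37_1 : (grA37_1.all fun e => cok 148 [37] [37] [37] relsA37 e.1 e.2) = true := by
  decide +kernel

def grA37 : List (ℕ × List VCert) := grA37_0 ++ (grA37_1)

def clsA37 : List (ℕ × ℕ × ℕ × ℕ) :=
  [(3, 0, 1, 1), (5, 1, 1, 1), (7, 2, 1, 1), (9, 3, 1, 1), (11, 4, 1, 1), (13, 1, 13, 25), (15, 5, 1, 1), (17, 1, 5, 29), (19, 5, 11, 23), (21, 6, 1, 1), (23, 7, 1, 1), (25, 6, 7, 13), (27, 4, 5, 5), (29, 8, 1, 1), (31, 9, 1, 1), (33, 3, 8, 8), (35, 5, 7, 31), (39, 5, 25, 13), (41, 6, 5, 11), (43, 9, 3, 3), (45, 8, 7, 7), (49, 3, 4, 7), (51, 7, 7, 7), (53, 3, 7, 4), (55, 5, 29, 5), (57, 1, 23, 11), (59, 5, 19, 19), (61, 1, 31, 7), (65, 6, 13, 7), (67, 0, 13, 7), (69, 1, 19, 19), (71, 2, 7, 13), (73, 10, 1, 1), (77, 6, 11, 5), (79, 5, 35, 35), (81, 3, 2, 5), (83, 2, 5, 11), (85, 11, 1, 1), (87, 5, 23, 11), (89, 1, 35, 35),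 (91, 5, 31, 7), (93, 1, 25, 13), (95, 0, 5, 11), (97, 8, 11, 11), (99, 0, 17, 17), (101, 11, 5, 5), (103, 7, 11, 11), (105, 12, 1, 1), (107, 2, 13, 7), (109, 1, 29, 5), (113, 1, 11, 23), (115, 0, 7, 13), (117, 12, 3, 3), (119, 7, 5, 5), (123, 2, 11, 5), (125, 8, 5, 5), (127, 2, 17, 17), (129, 1, 7, 31), (131, 5, 13, 25), (133, 1, 17, 17), (135, 5, 5, 29), (139, 0, 11, 5), (141, 6, 17, 17), (143, 5, 17, 17), (145, 3, 5, 2), (147, 13, 1, 1)]

theorem clsA37_ok : clsok 37 148 [1, 10, 26] (grA37.map Prod.fst) clsA37 = true := by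
  decide +kernel

theorem statA37 : statck 37 148 [37] [37] [37] true relsA37 = true := by
  decide +kernel

theorem grA37_ok : (grA37.all fun e => cok 148 [37] [37] [37] relsA37 e.1 e.2) = true := by
  unfold grA37
  simp only [List.all_append, okA37_0, okA37_1, Bool.and_self]

theorem limA37 (hB : StBasic) (hCL : StCL) (hTor : StTor) {p : ℕ} (hp : p.Prime) (hNp : (148 : ℕ).Coprime p)
    (hex : p % 37 ∉ [1, 10, 26]) (a : ℕ) : LimLP (2 ^ a * 37) p :=
  lim_fam hB hCL hTor hp statA37 clsA37_ok grA37_ok hNp (by norm_num) hex (Or.inr rfl)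

end Pool.Agent.Lib.MP81632f.Lv.Pot
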