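import Pool.Agent.Lib.MP_81632f_ag.Pot.Cert

/-!
# Potential lattice property: data for some families of levels
-/

set_option autoImplicit false

open Pool.Agent.Lib.MP81632f.Diag

namespace Pool.Agent.Lib.MP81632f.Lv.Pot

def relsA53 : List RCert :=
  []

def grA53_0 : List (ℕ × List VCert) :=
  [(3, []),
    (5, []),
    (7, []),
    (9, []),
    (13, [(212, 13, [1, 18, 193], [8])]),
    (15, [(212, 26, [211, 209, 4], [6])]),
    (23, []),
    (105, []),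
    (129, []),
    (211, [])]

theorem okA53_0 : (grA53_0.all fun e => cok 212 [53] [53] [53] relsA53 e.1 e.2) = true := by
  decide +kernel

def grA53 : List (ℕ × List VCert) := grA53_0

def clsA53 : List (ℕ × ℕ × ℕ × ℕ) :=
  [(3, 0, 1, 1), (5, 1, 1, 1), (7, 2, 1, 1), (9, 3, 1, 1), (11, 2, 19, 11), (13, 4, 1, 1), (15, 5, 1, 1), (17, 3, 11, 19), (19, 0, 45, 37), (21, 1, 25, 25), (23, 6, 1, 1), (25, 3, 15, 7), (27, 0, 3, 35), (29, 3, 9, 3), (31, 0, 5, 21), (33, 1, 37, 45), (35, 0, 25, 25), (37, 3, 7, 15), (39, 0, 33, 41), (41, 1, 43, 23), (43, 2, 9, 3), (45, 1, 15, 7), (47, 5, 21, 5), (49, 4, 12, 12), (51, 0, 23, 43), (55, 0, 49, 17), (57, 3, 23, 17), (59, 2, 5, 21), (61, 1, 41, 33), (63, 5, 17, 23), (65, 1, 17, 49), (67, 0, 7, 15), (69, 4, 11, 6), (71, 0, 51, 51), (73, 1, 11, 19), (75, 0, 31, 47), (77, 4, 3, 9), (79, 0, 29, 9), (81, 4, 5, 8), (83, 6, 3, 3), (85, 1, 51, 51), (87, 0, 19, 11), (89, 4,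 8, 5), (91, 2, 25, 25), (93, 3, 3, 9), (95, 5, 7, 15), (97, 4, 9, 3), (99, 5, 25, 25), (101, 1, 27, 27), (103, 0, 27, 27), (105, 7, 1, 1), (109, 1, 7, 15), (111, 0, 15, 7), (113, 3, 5, 21), (115, 2, 21, 5), (117, 3, 17, 23), (119, 5, 15, 7), (121, 4, 7, 2), (123, 2, 23, 17), (125, 1, 3, 35), (127, 0, 11, 19), (129, 8, 1, 1), (131, 2, 3, 9), (133, 1, 21, 5), (135, 2, 7, 15), (137, 1, 35, 3), (139, 0, 35, 3), (141, 1, 19, 11), (143, 2, 17, 23), (145, 1, 23, 43), (147, 0, 21, 5), (149, 3, 19, 11), (151, 0, 17, 49), (153, 4, 4, 10), (155, 5, 11, 19), (157, 1, 5, 21), (161, 1, 31, 47), (163, 2, 15, 7), (165, 3, 25, 25), (167, 0, 43, 23), (169, 4, 2, 7), (171, 0, 47, 31), (173, 1, 49, 17), (175, 5, 9, 3), (177, 1, 45, 37), (179, 0, 9, 29), (181, 1, 9, 29), (183, 5, 19, 11), (185, 1, 47, 31), (187, 5, 23, 17), (189, 8, 3, 3), (191, 0, 37, 45), (193, 1, 29, 9), (195, 5, 3, 9), (197, 3, 21, 5), (199, 2, 11,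 19), (201, 4, 10, 4), (203, 5, 5, 21), (205, 4, 6, 11), (207, 0, 41, 33), (209, 1, 33, 41), (211, 9, 1, 1)]

theorem clsA53_ok : clsok 53 212 [1] (grA53.map Prod.fst) clsA53 = true := by
  decide +kernel

theorem statA53 : statck 53 212 [53] [53] [53] true relsA53 = true := by
  decide +kernel

theorem grA53_ok : (grA53.all fun e => cok 212 [53] [53] [53] relsA53 e.1 e.2) = true := by
  unfold grA53
  simp only [List.all_append, okA53_0, Bool.and_self]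

theorem limA53 (hB : StBasic) (hCL : StCL) (hTor : StTor) {p : ℕ} (hp : p.Prime) (hNp : (212 : ℕ).Coprime p)
    (hex : p % 53 ∉ [1]) (a : ℕ) : LimLP (2 ^ a * 53) p :=
  lim_fam hB hCL hTor hp statA53 clsA53_ok grA53_ok hNp (by norm_num) hex (Or.inr rfl)

end Pool.Agent.Lib.MP81632f.Lv.Pot
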