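import Pool.Agent.Lib.MP_81632f_ag.Pot.Cert

/-!
# Potential lattice property: data for some families of levels
-/

set_option autoImplicit false

open Pool.Agent.Lib.MP81632f.Diag

namespace Pool.Agent.Lib.MP81632f.Lv.Pot

def relsA33 : List RCert :=
  []

def grA33_0 : List (ℕ × List VCert) :=
  [(5, [(88, 10, [1, 3, 84], [8])]),
    (7, []),
    (13, []),
    (17, []),
    (19, []),
    (25, [(88, 5, [87, 85, 4], [80])]),
    (29, []),
    (31, [(44, 10, [40], [1])]),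
    (35, []),
    (37, [(88, 10, [1, 3, 84], [8])]),
    (43, []),
    (47, [(44, 10, [40], [1])])]

theorem okA33_0 : (grA33_0.all fun e => cok 264 [3, 11] [3, 11, 33] [3, 11, 33] relsA33 e.1 e.2) = true := by
  decide +kernel

def grA33_1 : List (ℕ × List VCert) :=
  [(59, [(44, 10, [40], [1])]),
    (65, []),
    (73, []),
    (91, [(44, 10, [40], [1])]),
    (95, []),
    (109, []),
    (113, [(88, 5, [87, 85, 4], [80])]),
    (131, []),
    (175, []),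
    (197, []),
    (241, []),
    (263, [])]

theorem okA33_1 : (grA33_1.all fun e => cok 264 [3, 11] [3, 11, 33] [3, 11, 33] relsA33 e.1 e.2) = true := by
  decide +kernel

def grA33 : List (ℕ × List VCert) := grA33_0 ++ (grA33_1)

def clsA33 : List (ℕ × ℕ × ℕ × ℕ) :=
  [(5, 0, 1, 1), (7, 1, 1, 1), (13, 2, 1, 1), (17, 3, 1, 1), (19, 4, 1, 1), (25, 5, 1, 1), (29, 6, 1, 1), (31, 7, 1, 1), (35, 8, 1, 1), (37, 9, 1, 1), (41, 3, 7, 3), (43, 10, 1, 1), (47, 11, 1, 1), (49, 5, 3, 2), (53, 0, 9, 9), (59, 12, 1, 1), (61, 2, 9, 9), (65, 13, 1, 1), (71, 11, 3, 7), (73, 14, 1, 1), (79, 1, 3, 7), (83, 8, 9, 9), (85, 2, 3, 7), (91, 15, 1, 1), (95, 16, 1, 1), (97, 5, 2, 3), (101, 6, 3, 7), (103, 7, 7, 3), (107, 8, 3, 7), (109, 17, 1, 1), (113, 18, 1, 1), (115, 15, 3, 7), (119, 11, 7, 3), (125, 0, 3, 7), (127, 1, 7, 3), (131, 19, 1, 1), (137, 18, 3, 7), (139, 4, 9, 9), (145, 14, 3, 7), (149, 6, 7, 3), (151, 1, 9, 9), (157,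 9, 9, 9), (161, 3, 3, 7), (163, 15, 7, 3), (167, 16, 3, 7), (169, 5, 4, 4), (173, 6, 9, 9), (175, 20, 1, 1), (179, 12, 9, 9), (181, 9, 7, 3), (185, 18, 7, 3), (191, 11, 9, 9), (193, 14, 7, 3), (197, 21, 1, 1), (203, 12, 7, 3), (205, 2, 7, 3), (211, 4, 7, 3), (215, 16, 7, 3), (217, 14, 9, 9), (223, 7, 3, 7), (227, 8, 7, 3), (229, 9, 3, 7), (233, 3, 9, 9), (235, 15, 9, 9), (239, 16, 9, 9), (241, 22, 1, 1), (245, 0, 7, 3), (247, 7, 9, 9), (251, 12, 3, 7), (257, 18, 9, 9), (259, 4, 3, 7), (263, 23, 1, 1)]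

theorem clsA33_ok : clsok 33 264 [1, 23] (grA33.map Prod.fst) clsA33 = true := by
  decide +kernel

theorem statA33 : statck 33 264 [3, 11] [3, 11, 33] [3, 11, 33] true relsA33 = true := by
  decide +kernel

theorem grA33_ok : (grA33.all fun e => cok 264 [3, 11] [3, 11, 33] [3, 11, 33] relsA33 e.1 e.2) = true := by
  unfold grA33
  simp only [List.all_append, okA33_0, okA33_1, Bool.and_self]

theorem limA33 (hB : StBasic) (hCL : StCL) (hTor : StTor) {p : ℕ} (hp : p.Prime) (hNp : (264 : ℕ).Coprime p)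
    (hex : p % 33 ∉ [1, 23]) (a : ℕ) : LimLP (2 ^ a * 33) p :=
  lim_fam hB hCL hTor hp statA33 clsA33_ok grA33_ok hNp (by norm_num) hex (Or.inr rfl)

end Pool.Agent.Lib.MP81632f.Lv.Pot
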