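import Pool.Agent.Lib.MP_81632f_ag.Pot.Cert

/-!
# Potential lattice property: data for some families of levels
-/

set_option autoImplicit false

open Pool.Agent.Lib.MP81632f.Diag

namespace Pool.Agent.Lib.MP81632f.Lv.Pot

def relsA35 : List RCert :=
  [(7, 35, 125401496)]

def grA35_0 : List (ℕ × List VCert) :=
  [(3, [(140, 12, [136], [1])]),
    (9, [(35, 6, [34, 28, 8], [1, 4, 30])]),
    (11, [(140, 6, [136, 124, 20], [1, 9, 130])]),
    (13, [(140, 4, [138, 109, 33], [1, 63, 76])]),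
    (17, [(140, 12, [136], [1])]),
    (19, []),
    (23, [(35, 12, [1, 4, 30], [28])]),
    (27, [(140, 4, [2, 33, 105], [139, 88, 53])]),
    (31, [(140, 6, [138, 134, 8], [138, 135, 7])]),
    (37, [(35, 12, [1, 4, 30], [28])]),
    (39, [(35, 6, [34, 28, 8], [1, 4, 30])]),
    (61, [(140, 6, [1, 3, 136], [130])])]

theorem okA35_0 : (grA35_0.all fun e => cok 140 [5, 7] [5, 7, 35] [5, 7, 35] relsA35 e.1 e.2) = true := by
  decide +kernel

def grA35_1 : List (ℕ × List VCert) :=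
  [(69, []),
    (81, [(140, 3, [4, 16, 120], [139, 131, 10])]),
    (89, []),
    (139, [])]

theorem okA35_1 : (grA35_1.all fun e => cok 140 [5, 7] [5, 7, 35] [5, 7, 35] relsA35 e.1 e.2) = true := by
  decide +kernel

def grA35 : List (ℕ × List VCert) := grA35_0 ++ (grA35_1)

def clsA35 : List (ℕ × ℕ × ℕ × ℕ) :=
  [(3, 0, 1, 1), (9, 1, 1, 1), (11, 2, 1, 1), (13, 3, 1, 1), (17, 4, 1, 1), (19, 5, 1, 1), (23, 6, 1, 1), (27, 7, 1, 1), (31, 8, 1, 1), (33, 4, 11, 11), (37, 9, 1, 1), (39, 10, 1, 1), (47, 0, 11, 11), (51, 2, 5, 5), (53, 9, 11, 11), (59, 5, 5, 5), (61, 11, 1, 1), (67, 6, 11, 11), (69, 12, 1, 1), (73, 4, 7, 7), (79, 10, 5, 5), (81, 13, 1, 1), (83, 7, 3, 3), (87, 0, 7, 7), (89, 14, 1, 1), (93, 9, 7, 7), (97, 3, 3, 3), (101, 11, 5, 5), (103, 0, 5, 5), (107, 6, 7, 7), (109, 1, 5, 5), (117, 4, 5, 5), (121, 13, 2, 2), (123, 6, 5, 5), (129, 14, 5, 5), (131, 8, 5, 5), (137, 9, 5, 5), (139, 15, 1, 1)]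

theorem clsA35_ok : clsok 35 140 [1, 6, 8, 22, 29] (grA35.map Prod.fst) clsA35 = true := by
  decide +kernel

theorem statA35 : statck 35 140 [5, 7] [5, 7, 35] [5, 7, 35] true relsA35 = true := by
  decide +kernel

theorem grA35_ok : (grA35.all fun e => cok 140 [5, 7] [5, 7, 35] [5, 7, 35] relsA35 e.1 e.2) = true := by
  unfold grA35
  simp only [List.all_append, okA35_0, okA35_1, Bool.and_self]

theorem limA35 (hB : StBasic) (hCL : StCL) (hTor : StTor) {p : ℕ} (hp : p.Prime) (hNp : (140 : ℕ).Coprime p)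
    (hex : p % 35 ∉ [1, 6, 8, 22, 29]) (a : ℕ) : LimLP (2 ^ a * 35) p :=
  lim_fam hB hCL hTor hp statA35 clsA35_ok grA35_ok hNp (by norm_num) hex (Or.inr rfl)

end Pool.Agent.Lib.MP81632f.Lv.Pot
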