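import Pool.Agent.Lib.MP_81632f_ag.Pot.Cert

/-!
# Potential lattice property: data for some families of levels
-/

set_option autoImplicit false

open Pool.Agent.Lib.MP81632f.Diag

namespace Pool.Agent.Lib.MP81632f.Lv.Pot

def relsA39 : List RCert :=
  [(39, 39, 42649437960428712392892962046744793476727671192)]

def grA39_0 : List (ℕ × List VCert) :=
  [(5, []),
    (7, [(39, 12, [3], [38])]),
    (11, []),
    (17, []),
    (23, []),
    (25, []),
    (29, [(39, 6, [13], [38]), (52, 3, [1, 5, 46], [4])]),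
    (31, [(39, 4, [1, 16, 22], [36])]),
    (35, [(39, 6, [13], [38]), (52, 6, [1, 5, 46], [4])]),
    (37, [(39, 12, [3], [38])]),
    (41, []),
    (43, [])]

theorem okA39_0 : (grA39_0.all fun e => cok 156 [3, 13] [3, 13, 39] [3, 13, 39] relsA39 e.1 e.2) = true := by
  decide +kernel

def grA39_1 : List (ℕ × List VCert) :=
  [(47, []),
    (49, []),
    (55, [(52, 6, [1, 5, 46], [4])]),
    (61, [(52, 3, [1, 5, 46], [4])]),
    (73, [(39, 4, [1, 16, 22], [36])]),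
    (77, []),
    (103, []),
    (155, [])]

theorem okA39_1 : (grA39_1.all fun e => cok 156 [3, 13] [3, 13, 39] [3, 13, 39] relsA39 e.1 e.2) = true := by
  decide +kernel

def grA39 : List (ℕ × List VCert) := grA39_0 ++ (grA39_1)

def clsA39 : List (ℕ × ℕ × ℕ × ℕ) :=
  [(5, 0, 1, 1), (7, 1, 1, 1), (11, 2, 1, 1), (17, 3, 1, 1), (19, 1, 7, 7), (23, 4, 1, 1), (25, 5, 1, 1), (29, 6, 1, 1), (31, 7, 1, 1), (35, 8, 1, 1), (37, 9, 1, 1), (41, 10, 1, 1), (43, 11, 1, 1), (47, 12, 1, 1), (49, 13, 1, 1), (55, 14, 1, 1), (59, 2, 5, 5), (61, 15, 1, 1), (67, 1, 11, 11), (71, 2, 11, 11), (73, 16, 1, 1), (77, 17, 1, 1), (83, 12, 3, 3), (85, 9, 5, 5), (89, 10, 7, 7), (95, 4, 5, 5), (97, 9, 11, 11), (101, 3, 5, 5), (103, 18, 1, 1), (107, 8, 5, 5), (109, 16, 3, 3), (113, 6, 5, 5), (115, 1, 5, 5), (119, 2, 7, 7), (121, 13, 5, 5), (125, 0, 3, 3), (127, 11, 5, 5), (133, 15, 2, 2), (137, 10, 11, 11), (139, 14, 5, 5), (145, 9, 7, 7), (149, 10, 5, 5),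 (151, 7, 3, 3), (155, 19, 1, 1)]

theorem clsA39_ok : clsok 39 156 [1, 14] (grA39.map Prod.fst) clsA39 = true := by
  decide +kernel

theorem statA39 : statck 39 156 [3, 13] [3, 13, 39] [3, 13, 39] true relsA39 = true := by
  decide +kernel

theorem grA39_ok : (grA39.all fun e => cok 156 [3, 13] [3, 13, 39] [3, 13, 39] relsA39 e.1 e.2) = true := by
  unfold grA39
  simp only [List.all_append, okA39_0, okA39_1, Bool.and_self]

theorem limA39 (hB : StBasic) (hCL : StCL) (hTor : StTor) {p : ℕ} (hp : p.Prime) (hNp : (156 : ℕ).Coprime p)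
    (hex : p % 39 ∉ [1, 14]) (a : ℕ) : LimLP (2 ^ a * 39) p :=
  lim_fam hB hCL hTor hp statA39 clsA39_ok grA39_ok hNp (by norm_num) hex (Or.inr rfl)

end Pool.Agent.Lib.MP81632f.Lv.Pot
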