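import Pool.Agent.Lib.MP_81632f_ag.Pot.Cert

/-!
# Potential lattice property: data for some families of levels
-/

set_option autoImplicit false

open Pool.Agent.Lib.MP81632f.Diag

namespace Pool.Agent.Lib.MP81632f.Lv.Pot

def relsA59 : List RCert :=
  []

def grA59_0 : List (ℕ × List VCert) :=
  [(3, [(236, 58, [4], [235])]),
    (5, [(472, 58, [471, 469, 4], [464])]),
    (7, [(236, 58, [4], [235])]),
    (9, [(472, 29, [471, 469, 4], [464])]),
    (11, []),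
    (13, []),
    (23, []),
    (33, []),
    (117, []),
    (235, []),
    (353, []),
    (471, [])]

theorem okA59_0 : (grA59_0.all fun e => cok 472 [59] [59] [59] relsA59 e.1 e.2) = true := by
  decide +kernel

def grA59 : List (ℕ × List VCert) := grA59_0

def clsA59 : List (ℕ × ℕ × ℕ × ℕ) :=
  [(3, 0, 1, 1), (5, 1, 1, 1), (7, 2, 1, 1), (9, 3, 1, 1), (11, 4, 1, 1), (13, 5, 1, 1), (15, 2, 45, 49), (17, 3, 12, 17), (19, 0, 17, 41), (21, 1, 21, 47), (23, 6, 1, 1), (25, 3, 21, 18), (27, 0, 3, 39), (29, 1, 53, 23), (31, 6, 11, 37), (33, 7, 1, 1), (35, 0, 55, 19), (37, 5, 27, 43), (39, 6, 45, 49), (41, 3, 10, 3), (43, 4, 57, 57), (45, 1, 37, 11), (47, 6, 17, 41), (49, 3, 5, 6), (51, 0, 25, 7), (53, 1, 23, 53), (55, 6, 33, 51), (57, 3, 9, 13), (61, 5, 49, 45), (63, 2, 13, 9), (65, 7, 3, 39), (67, 4, 21, 47), (69, 5, 53, 23), (71, 2, 19, 55), (73, 7, 25, 7), (75, 0, 43, 27), (77, 5, 19, 55), (79, 2,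 23, 53), (81, 3, 2, 15), (83, 4, 23, 53), (85, 1, 27, 43), (87, 2, 43, 27), (89, 7, 17, 41), (91, 4, 35, 5), (93, 5, 37, 11), (95, 2, 25, 7), (97, 7, 33, 51), (99, 4, 5, 35), (101, 5, 17, 41), (103, 6, 25, 7), (105, 3, 28, 28), (107, 0, 15, 31), (109, 5, 57, 57), (111, 6, 7, 25), (113, 7, 43, 27), (115, 4, 31, 15), (117, 8, 1, 1), (121, 3, 15, 2), (123, 0, 21, 47), (125, 1, 3, 39), (127, 2, 41, 17), (129, 7, 39, 3), (131, 4, 25, 7), (133, 1, 19, 55), (135, 2, 57, 57), (137, 3, 23, 24), (139, 0, 35, 5), (141, 5, 39, 3), (143, 2, 49, 45), (145, 3, 16, 20), (147, 0, 11, 37), (149, 5, 23, 53), (151, 6, 5, 35), (153, 3, 13, 9), (155, 4, 37, 11), (157, 5, 15, 31), (159, 2, 33, 51), (161, 7, 19, 55), (163, 0, 23, 53), (165, 5, 25, 7), (167, 2, 31, 15), (169, 3, 27, 14), (171, 0, 19, 55), (173, 5, 11, 37), (175, 2, 21, 47), (179, 4, 7, 25), (181, 1, 39, 3), (183, 6, 15, 31), (185, 7, 7, 25), (187, 4, 49,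 45), (189, 1, 57, 57), (191, 6, 9, 13), (193, 3, 7, 25), (195, 4, 11, 37), (197, 1, 11, 37), (199, 2, 53, 23), (201, 7, 27, 43), (203, 0, 45, 49), (205, 1, 13, 9), (207, 6, 27, 43), (209, 7, 31, 15), (211, 4, 55, 19), (213, 1, 17, 41), (215, 6, 49, 45), (217, 7, 21, 47), (219, 4, 19, 55), (221, 5, 47, 21), (223, 2, 17, 41), (225, 3, 22, 4), (227, 4, 33, 51), (229, 5, 41, 17), (231, 6, 41, 17), (233, 7, 49, 45), (235, 9, 1, 1), (239, 2, 35, 5), (241, 3, 25, 7), (243, 0, 5, 35), (245, 1, 7, 25), (247, 6, 21, 47), (249, 7, 47, 21), (251, 0, 51, 33), (253, 1, 55, 19), (255, 2, 15, 31), (257, 3, 3, 10), (259, 4, 47, 21), (261, 1, 31, 15), (263, 2, 47, 21), (265, 3, 20, 16), (267, 4, 53, 23), (269, 5, 21, 47), (271, 2, 11, 37), (273, 7, 51, 33), (275, 4, 27, 43), (277, 1, 41, 17), (279, 6, 37, 11), (281, 3, 26, 19), (283, 4, 45, 49), (285, 1, 35, 5), (287, 2, 5, 35), (289, 3, 24, 23), (291, 4, 43, 27),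 (293, 1, 5, 35), (297, 7, 41, 17), (299, 0, 7, 25), (301, 5, 5, 35), (303, 6, 35, 5), (305, 7, 55, 19), (307, 0, 37, 11), (309, 5, 3, 39), (311, 2, 55, 19), (313, 7, 23, 53), (315, 0, 57, 57), (317, 1, 43, 27), (319, 6, 19, 55), (321, 3, 8, 11), (323, 0, 41, 17), (325, 5, 9, 13), (327, 6, 39, 3), (329, 7, 57, 57), (331, 0, 9, 13), (333, 5, 55, 19), (335, 6, 47, 21), (337, 7, 45, 49), (339, 4, 15, 31), (341, 1, 51, 33), (343, 2, 3, 39), (345, 7, 11, 37), (347, 4, 39, 3), (349, 5, 33, 51), (351, 6, 13, 9), (353, 10, 1, 1), (357, 1, 47, 21), (359, 2, 39, 3), (361, 3, 17, 12), (363, 0, 31, 15), (365, 5, 7, 25), (367, 6, 3, 39), (369, 3, 11, 8), (371, 0, 53, 23), (373, 1, 45, 49), (375, 2, 7, 25), (377, 7, 35, 5), (379, 0, 13, 9), (381, 1, 25, 7), (383, 2, 37, 11), (385, 7, 37, 11), (387, 4, 3, 39), (389, 1, 33, 51), (391, 6, 23, 53), (393, 7, 9, 13), (395, 0, 49, 45), (397, 5, 51, 33), (399, 2, 51,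 33), (401, 7, 15, 31), (403, 0, 39, 3), (405, 1, 15, 31), (407, 2, 27, 43), (409, 7, 53, 23), (411, 0, 47, 21), (415, 6, 31, 15), (417, 3, 18, 21), (419, 4, 9, 13), (421, 5, 31, 15), (423, 6, 43, 27), (425, 3, 4, 22), (427, 4, 17, 41), (429, 1, 49, 45), (431, 6, 57, 57), (433, 3, 14, 27), (435, 0, 33, 51), (437, 5, 45, 49), (439, 2, 9, 13), (441, 3, 6, 5), (443, 4, 51, 33), (445, 5, 13, 9), (447, 6, 53, 23), (449, 3, 19, 26), (451, 4, 41, 17), (453, 5, 35, 5), (455, 6, 51, 33), (457, 7, 5, 35), (459, 0, 27, 43), (461, 1, 9, 13), (463, 6, 55, 19), (465, 7, 13, 9), (467, 4, 13, 9), (469, 5, 43, 27), (471, 11, 1, 1)]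

theorem clsA59_ok : clsok 59 472 [1] (grA59.map Prod.fst) clsA59 = true := by
  decide +kernel

theorem statA59 : statck 59 472 [59] [59] [59] true relsA59 = true := by
  decide +kernel

theorem grA59_ok : (grA59.all fun e => cok 472 [59] [59] [59] relsA59 e.1 e.2) = true := by
  unfold grA59
  simp only [List.all_append, okA59_0, Bool.and_self]

theorem limA59 (hB : StBasic) (hCL : StCL) (hTor : StTor) {p : ℕ} (hp : p.Prime) (hNp : (472 : ℕ).Coprime p)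
    (hex : p % 59 ∉ [1]) (a : ℕ) : LimLP (2 ^ a * 59) p :=
  lim_fam hB hCL hTor hp statA59 clsA59_ok grA59_ok hNp (by norm_num) hex (Or.inr rfl)

end Pool.Agent.Lib.MP81632f.Lv.Pot
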