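import Pool.Agent.Lib.MP_81632f_ag.Pot.Cert

/-!
# Potential lattice property: data for some families of levels
-/

set_option autoImplicit false

open Pool.Agent.Lib.MP81632f.Diag

namespace Pool.Agent.Lib.MP81632f.Lv.Pot

def relsA51 : List RCert :=
  [(51, 51, 12004798596538309805467091872626813269455846764227617835551128), (51, 51, 12004749365075213726043701311444732544452574102686142714972568)]

def grA51_0 : List (ℕ × List VCert) :=
  [(5, [(204, 16, [4], [203])]),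
    (7, [(204, 16, [200], [1])]),
    (11, [(204, 16, [4], [203])]),
    (13, []),
    (37, [(204, 16, [200], [1])]),
    (53, []),
    (55, []),
    (59, []),
    (67, []),
    (101, []),
    (169, []),
    (203, [])]

theorem okA51_0 : (grA51_0.all fun e => cok 204 [3, 17] [3, 17, 51] [3, 17, 51] relsA51 e.1 e.2) = true := by
  decide +kernel

def grA51 : List (ℕ × List VCert) := grA51_0

def clsA51 : List (ℕ × ℕ × ℕ × ℕ) :=
  [(5, 0, 1, 1), (7, 1, 1, 1), (11, 2, 1, 1), (13, 3, 1, 1), (23, 2, 9, 9), (29, 0, 9, 9), (31, 1, 11, 3), (37, 4, 1, 1), (41, 0, 15, 15), (53, 5, 1, 1), (55, 6, 1, 1), (59, 7, 1, 1), (61, 4, 3, 11), (65, 0, 5, 13), (67, 8, 1, 1), (71, 2, 7, 7), (73, 4, 5, 13), (77, 5, 7, 7), (79, 1, 5, 13), (83, 7, 7, 7), (91, 1, 13, 5), (95, 2, 5, 13), (97, 4, 13, 5), (101, 9, 1, 1), (107, 2, 3, 11), (109, 4, 11, 3), (113, 0, 11, 3), (115, 6, 3, 3), (125, 0, 3, 11), (131, 2, 11, 3), (133, 4, 9, 9), (139, 1, 3, 11), (143, 2, 13,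 5), (155, 7, 3, 3), (157, 3, 3, 3), (161, 5, 3, 3), (163, 1, 9, 9), (167, 2, 15, 15), (169, 10, 1, 1), (173, 0, 13, 5), (175, 1, 15, 15), (179, 7, 5, 5), (181, 4, 7, 7), (185, 5, 5, 5), (193, 4, 15, 15), (197, 0, 7, 7), (199, 1, 7, 7), (203, 11, 1, 1)]

theorem clsA51_ok : clsok 51 204 [1, 19, 25, 35, 38, 43, 47, 49] (grA51.map Prod.fst) clsA51 = true := by
  decide +kernel

theorem statA51 : statck 51 204 [3, 17] [3, 17, 51] [3, 17, 51] true relsA51 = true := by
  decide +kernel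

theorem grA51_ok : (grA51.all fun e => cok 204 [3, 17] [3, 17, 51] [3, 17, 51] relsA51 e.1 e.2) = true := by
  unfold grA51
  simp only [List.all_append, okA51_0, Bool.and_self]

theorem limA51 (hB : StBasic) (hCL : StCL) (hTor : StTor) {p : ℕ} (hp : p.Prime) (hNp : (204 : ℕ).Coprime p)
    (hex : p % 51 ∉ [1, 19, 25, 35, 38, 43, 47, 49]) (a : ℕ) : LimLP (2 ^ a * 51) p :=
  lim_fam hB hCL hTor hp statA51 clsA51_ok grA51_ok hNp (by norm_num) hex (Or.inr rfl)

end Pool.Agent.Lib.MP81632f.Lv.Pot
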