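import Pool.Agent.Lib.MP_81632f_ag.Pot.Cert

/-!
# Potential lattice property: data for some families of levels
-/

set_option autoImplicit false

open Pool.Agent.Lib.MP81632f.Diag

namespace Pool.Agent.Lib.MP81632f.Lv.Pot

def relsA55 : List RCert :=
  [(55, 55, 787156337877494305658056244016821094676032423758661283774504466840)]

def grA55_0 : List (ℕ × List VCert) :=
  [(3, [(44, 10, [40], [1]), (55, 20, [11], [54])]),
    (7, []),
    (9, [(88, 5, [87, 85, 4], [80])]),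
    (13, []),
    (17, []),
    (19, []),
    (29, []),
    (31, [(44, 10, [40], [1])]),
    (37, [(55, 20, [11], [54]), (88, 10, [1, 3, 84], [8])]),
    (39, []),
    (41, [(55, 10, [5], [54])]),
    (43, [])]

theorem okA55_0 : (grA55_0.all fun e => cok 440 [5, 11] [5, 11, 55] [5, 11, 55] relsA55 e.1 e.2) = true := by
  decide +kernel

def grA55_1 : List (ℕ × List VCert) :=
  [(47, [(44, 10, [40], [1]), (55, 20, [11], [54])]),
    (51, [(55, 10, [5], [54])]),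
    (59, [(44, 10, [40], [1])]),
    (61, [(55, 10, [5], [54])]),
    (69, [(88, 10, [1, 3, 84], [8])]),
    (81, [(88, 5, [87, 85, 4], [80])]),
    (83, []),
    (87, []),
    (91, [(44, 10, [40], [1])]),
    (97, [(55, 20, [11], [54]), (88, 5, [87, 85, 4], [80])]),
    (109, []),
    (119, [(44, 10, [40], [1])])]

theorem okA55_1 : (grA55_1.all fun e => cok 440 [5, 11] [5, 11, 55] [5, 11, 55] relsA55 e.1 e.2) = true := by
  decide +kernel

def grA55_2 : List (ℕ × List VCert) :=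
  [(129, []),
    (141, [(88, 10, [1, 3, 84], [8])]),
    (151, [(55, 10, [5], [54])]),
    (153, []),
    (197, []),
    (219, []),
    (329, []),
    (439, [])]

theorem okA55_2 : (grA55_2.all fun e => cok 440 [5, 11] [5, 11, 55] [5, 11, 55] relsA55 e.1 e.2) = true := by
  decide +kernel

def grA55 : List (ℕ × List VCert) := grA55_0 ++ (grA55_1 ++ (grA55_2))

def clsA55 : List (ℕ × ℕ × ℕ × ℕ) :=
  [(3, 0, 1, 1), (7, 1, 1, 1), (9, 2, 1, 1), (13, 3, 1, 1), (17, 4, 1, 1), (19, 5, 1, 1), (27, 0, 3, 7), (29, 6, 1, 1), (31, 7, 1, 1), (37, 8, 1, 1), (39, 9, 1, 1), (41, 10, 1, 1), (43, 11, 1, 1), (47, 12, 1, 1), (49, 2, 9, 9), (51, 13, 1, 1), (53, 8, 3, 7), (57, 4, 9, 9), (59, 14, 1, 1), (61, 15, 1, 1), (63, 1, 19, 19), (69, 16, 1, 1), (71, 7, 9, 9), (73, 4, 3, 7), (79, 9, 9, 9), (81, 17, 1, 1), (83, 18, 1, 1), (87, 19, 1, 1), (91, 20, 1, 1), (93, 8, 7, 3), (97, 21, 1, 1), (101, 15, 9, 9), (103, 12, 19, 19), (107,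 18, 7, 3), (109, 22, 1, 1), (113, 21, 3, 7), (117, 3, 7, 3), (119, 23, 1, 1), (123, 18, 9, 9), (127, 1, 17, 13), (129, 24, 1, 1), (137, 21, 9, 9), (139, 5, 9, 9), (141, 25, 1, 1), (147, 0, 19, 19), (149, 6, 7, 3), (151, 26, 1, 1), (153, 27, 1, 1), (157, 8, 9, 9), (159, 23, 9, 9), (161, 10, 9, 9), (163, 0, 17, 13), (167, 1, 13, 17), (169, 2, 7, 3), (171, 13, 7, 3), (173, 3, 13, 17), (179, 14, 9, 9), (181, 25, 9, 9), (183, 1, 11, 11), (189, 6, 3, 7), (191, 7, 7, 3), (193, 4, 11, 11), (197, 28, 1, 1), (201, 17, 4, 4), (203, 0, 13, 17), (207, 12, 17, 13), (211, 13, 3, 7), (213, 8, 11, 11), (217, 4, 17, 13), (219, 29, 1, 1), (223, 12, 11, 11), (227, 18, 3, 7), (229, 16, 7, 3), (233, 4, 19, 19), (237, 3, 19, 19), (239, 9, 7, 3), (247, 12, 13, 17), (249, 24, 9, 9), (251, 20, 7, 3), (257, 21, 17, 13), (259, 5, 3, 7), (261, 15, 7, 3), (263, 19, 3, 3), (267, 0, 11, 11), (269, 16, 3, 7), (271, 26, 9, 9), (273, 21, 11,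 11), (277, 3, 11, 11), (279, 23, 7, 3), (281, 10, 3, 7), (283, 18, 17, 13), (289, 2, 3, 7), (291, 20, 3, 7), (293, 3, 17, 13), (299, 5, 7, 3), (301, 25, 7, 3), (303, 1, 7, 3), (307, 11, 3, 3), (311, 7, 3, 7), (313, 21, 19, 19), (317, 8, 13, 17), (321, 10, 7, 3), (323, 0, 9, 9), (327, 1, 9, 9), (329, 30, 1, 1), (333, 8, 19, 19), (337, 4, 13, 17), (339, 14, 3, 7), (343, 1, 3, 7), (347, 18, 11, 11), (349, 6, 9, 9), (357, 8, 17, 13), (359, 9, 3, 7), (361, 17, 3, 2), (367, 12, 9, 9), (369, 24, 3, 7), (371, 13, 9, 9), (373, 28, 3, 3), (377, 21, 13, 17), (379, 14, 7, 3), (381, 15, 3, 7), (383, 12, 7, 3), (387, 18, 19, 19), (389, 16, 9, 9), (391, 26, 3, 7), (393, 4, 7, 3), (399, 23, 3, 7), (401, 17, 2, 3), (403, 18, 13, 17), (409, 24, 7, 3), (411, 20, 9, 9), (413, 3, 9, 9), (417, 27, 3, 3), (421, 25, 3, 7), (423, 12, 3, 7), (427, 0, 7, 3), (431, 26, 7, 3), (433, 21, 7, 3), (437, 3, 3, 7), (439, 31, 1, 1)]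

theorem clsA55_ok : clsok 55 440 [1, 12, 21, 23, 34] (grA55.map Prod.fst) clsA55 = true := by
  decide +kernel

theorem statA55 : statck 55 440 [5, 11] [5, 11, 55] [5, 11, 55] true relsA55 = true := by
  decide +kernel

theorem grA55_ok : (grA55.all fun e => cok 440 [5, 11] [5, 11, 55] [5, 11, 55] relsA55 e.1 e.2) = true := by
  unfold grA55
  simp only [List.all_append, okA55_0, okA55_1, okA55_2, Bool.and_self]

theorem limA55 (hB : StBasic) (hCL : StCL) (hTor : StTor) {p : ℕ} (hp : p.Prime) (hNp : (440 : ℕ).Coprime p)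
    (hex : p % 55 ∉ [1, 12, 21, 23, 34]) (a : ℕ) : LimLP (2 ^ a * 55) p :=
  lim_fam hB hCL hTor hp statA55 clsA55_ok grA55_ok hNp (by norm_num) hex (Or.inr rfl)

end Pool.Agent.Lib.MP81632f.Lv.Pot
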