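import Pool.Agent.Lib.MP_81632f_ag.Pot.Cert

/-!
# Potential lattice property: data for some families of levels
-/

set_option autoImplicit false

open Pool.Agent.Lib.MP81632f.Diag

namespace Pool.Agent.Lib.MP81632f.Lv.Pot

def relsA57 : List RCert :=
  []

def grA57_0 : List (ℕ × List VCert) :=
  [(5, [(57, 18, [54], [1]), (152, 18, [151, 146, 7], [144])]),
    (13, [(57, 18, [3], [56])]),
    (17, [(57, 18, [54], [1]), (152, 9, [151, 146, 7], [144])]),
    (23, [(57, 18, [54], [1]), (76, 18, [4], [75])]),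
    (25, [(57, 9, [54], [1]), (152, 9, [151, 146, 7], [144])]),
    (29, []),
    (31, [(57, 6, [1, 4, 52], [54])]),
    (35, [(57, 18, [54], [1]), (76, 18, [4], [75])]),
    (41, []),
    (43, [(57, 9, [54], [1]), (76, 18, [4], [75])]),
    (55, [(57, 9, [54], [1]), (76, 18, [4], [75])]),
    (59, [])]

theorem okA57_0 : (grA57_0.all fun e => cok 456 [3, 19] [3, 19, 57] [3, 19, 57] relsA57 e.1 e.2) = true := by
  decide +kernel

def grA57_1 : List (ℕ × List VCert) :=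
  [(61, [(57, 9, [54], [1]), (152, 18, [151, 146, 7], [144])]),
    (65, []),
    (67, [(57, 18, [3], [56])]),
    (71, []),
    (79, [(57, 18, [3], [56])]),
    (97, [(57, 18, [3], [56])]),
    (107, []),
    (113, []),
    (145, [(57, 6, [1, 4, 52], [54])]),
    (221, []),
    (227, []),
    (259, [(57, 6, [1, 4, 52], [54])])]

theorem okA57_1 : (grA57_1.all fun e => cok 456 [3, 19] [3, 19, 57] [3, 19, 57] relsA57 e.1 e.2) = true := by
  decide +kernel

def grA57_2 : List (ℕ × List VCert) :=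
  [(335, []),
    (341, []),
    (373, [(57, 6, [1, 4, 52], [54])]),
    (455, [])]

theorem okA57_2 : (grA57_2.all fun e => cok 456 [3, 19] [3, 19, 57] [3, 19, 57] relsA57 e.1 e.2) = true := by
  decide +kernel

def grA57 : List (ℕ × List VCert) := grA57_0 ++ (grA57_1 ++ (grA57_2))

def clsA57 : List (ℕ × ℕ × ℕ × ℕ) :=
  [(5, 0, 1, 1), (13, 1, 1, 1), (17, 2, 1, 1), (23, 3, 1, 1), (25, 4, 1, 1), (29, 5, 1, 1), (31, 6, 1, 1), (35, 7, 1, 1), (41, 8, 1, 1), (43, 9, 1, 1), (47, 3, 13, 7), (53, 5, 7, 13), (55, 10, 1, 1), (59, 11, 1, 1), (61, 12, 1, 1), (65, 13, 1, 1), (67, 14, 1, 1), (71, 15, 1, 1), (73, 4, 8, 8), (79, 16, 1, 1), (85, 12, 13, 7), (89, 8, 17, 17), (91, 14, 7, 13), (97, 17, 1, 1), (101, 0, 11, 5), (103, 6, 5, 5), (107, 18, 1, 1), (109, 1, 5, 11), (113, 19, 1, 1), (119, 3, 17, 17), (127, 16, 17, 17), (131, 7, 7, 13), (137, 2, 11, 5), (139, 9, 11, 5), (143, 15, 5, 11), (145, 20, 1, 1), (149, 0, 7, 13), (155,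 11, 13, 7), (157, 12, 17, 17), (161, 2, 17, 17), (167, 15, 17, 17), (169, 4, 2, 5), (173, 5, 17, 17), (175, 10, 11, 5), (179, 18, 5, 5), (181, 1, 7, 13), (185, 8, 13, 7), (187, 9, 7, 13), (193, 17, 13, 7), (199, 10, 17, 17), (203, 11, 5, 11), (205, 1, 13, 7), (211, 14, 17, 17), (215, 3, 7, 13), (217, 20, 5, 5), (221, 21, 1, 1), (223, 16, 13, 7), (227, 22, 1, 1), (233, 2, 7, 13), (241, 17, 5, 11), (245, 0, 13, 7), (251, 7, 5, 11), (253, 12, 7, 13), (257, 8, 11, 5), (259, 23, 1, 1), (263, 3, 11, 5), (269, 5, 5, 11), (271, 10, 7, 13), (275, 7, 11, 5), (281, 8, 5, 11), (283, 9, 13, 7), (287, 15, 13, 7), (289, 4, 4, 7), (293, 21, 5, 5), (295, 16, 11, 5), (299, 11, 7, 13), (301, 12, 11, 5), (307, 14, 5, 11), (313, 4, 7, 4), (317, 5, 13, 7), (319, 16, 5, 11), (325, 1, 11, 5), (329, 2, 5, 11), (331, 23, 5, 5), (335, 24, 1, 1), (337, 17, 7, 13), (341, 25, 1, 1), (347, 7, 13, 7), (355, 14, 13, 7), (359, 3, 5, 11), (365, 0, 17,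 17), (367, 10, 5, 11), (371, 11, 17, 17), (373, 26, 1, 1), (377, 2, 13, 7), (383, 15, 7, 13), (385, 4, 5, 2), (389, 0, 5, 11), (395, 11, 11, 5), (397, 12, 5, 11), (401, 8, 7, 13), (403, 9, 17, 17), (407, 24, 5, 5), (409, 17, 17, 17), (413, 5, 11, 5), (415, 10, 13, 7), (421, 1, 17, 17), (427, 9, 5, 11), (431, 15, 11, 5), (433, 17, 11, 5), (439, 16, 7, 13), (443, 7, 17, 17), (445, 26, 5, 5), (449, 13, 5, 5), (451, 14, 11, 5), (455, 27, 1, 1)]

theorem clsA57_ok : clsok 57 456 [1, 7, 11, 20, 26, 37, 49] (grA57.map Prod.fst) clsA57 = true := by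
  decide +kernel

theorem statA57 : statck 57 456 [3, 19] [3, 19, 57] [3, 19, 57] true relsA57 = true := by
  decide +kernel

theorem grA57_ok : (grA57.all fun e => cok 456 [3, 19] [3, 19, 57] [3, 19, 57] relsA57 e.1 e.2) = true := by
  unfold grA57
  simp only [List.all_append, okA57_0, okA57_1, okA57_2, Bool.and_self]

theorem limA57 (hB : StBasic) (hCL : StCL) (hTor : StTor) {p : ℕ} (hp : p.Prime) (hNp : (456 : ℕ).Coprime p)
    (hex : p % 57 ∉ [1, 7, 11, 20, 26, 37, 49]) (a : ℕ) : LimLP (2 ^ a * 57) p :=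
  lim_fam hB hCL hTor hp statA57 clsA57_ok grA57_ok hNp (by norm_num) hex (Or.inr rfl)

end Pool.Agent.Lib.MP81632f.Lv.Pot
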