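import Pool.Agent.Lib.MP_81632f_ag.Pot.Cert

/-!
# Potential lattice property: data for some families of levels
-/

set_option autoImplicit false

open Pool.Agent.Lib.MP81632f.Diag

namespace Pool.Agent.Lib.MP81632f.Lv.Pot

def relsA77 : List RCert :=
  [(7, 7, 125401496)]

def grA77_0 : List (ℕ × List VCert) :=
  [(3, [(44, 10, [40], [1]), (77, 30, [76, 76, 2], [7])]),
    (5, [(77, 30, [76, 76, 2], [7]), (88, 10, [1, 3, 84], [8])]),
    (9, [(77, 15, [1, 1, 75], [70]), (88, 5, [87, 85, 4], [80])]),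
    (13, []),
    (15, [(44, 10, [40], [1]), (77, 5, [76, 68, 10], [7])]),
    (17, []),
    (19, []),
    (27, [(44, 10, [40], [1]), (77, 10, [1, 9, 67], [70])]),
    (29, [(77, 10, [1, 2, 74], [70])]),
    (31, [(44, 10, [40], [1]), (77, 30, [76, 76, 2], [7])]),
    (37, [(77, 15, [1, 1, 75], [70]), (88, 10, [1, 3, 84], [8])]),
    (39, [(77, 30, [7], [76])])]

theorem okA77_0 : (grA77_0.all fun e => cok 616 [7, 11] [7, 11, 77] [7, 11, 77] relsA77 e.1 e.2) = true := by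
  decide +kernel

def grA77_1 : List (ℕ × List VCert) :=
  [(41, []),
    (51, [(77, 30, [7], [76])]),
    (57, [(77, 10, [1, 2, 74], [70])]),
    (61, []),
    (69, [(77, 10, [1, 9, 67], [70]), (88, 10, [1, 3, 84], [8])]),
    (83, []),
    (87, []),
    (97, [(77, 10, [1, 9, 67], [70]), (88, 5, [87, 85, 4], [80])]),
    (113, [(77, 5, [76, 68, 10], [7]), (88, 5, [87, 85, 4], [80])]),
    (127, [(77, 10, [1, 2, 74], [70])]),
    (131, []),
    (135, [(44, 10, [40], [1]), (77, 15, [1, 1, 75], [70])])]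

theorem okA77_1 : (grA77_1.all fun e => cok 616 [7, 11] [7, 11, 77] [7, 11, 77] relsA77 e.1 e.2) = true := by
  decide +kernel

def grA77_2 : List (ℕ × List VCert) :=
  [(141, [(77, 5, [76, 68, 10], [7]), (88, 10, [1, 3, 84], [8])]),
    (149, [(77, 30, [7], [76])]),
    (153, []),
    (163, [(44, 10, [40], [1]), (77, 15, [1, 1, 75], [70])]),
    (167, []),
    (185, [(77, 30, [76, 76, 2], [7]), (88, 5, [87, 85, 4], [80])]),
    (193, [(77, 30, [7], [76])]),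
    (211, [(77, 10, [1, 2, 74], [70])]),
    (215, []),
    (223, [(44, 10, [40], [1]), (77, 10, [1, 9, 67], [70])]),
    (241, []),
    (267, [(44, 10, [40], [1]), (77, 5, [76, 68, 10], [7])])]

theorem okA77_2 : (grA77_2.all fun e => cok 616 [7, 11] [7, 11, 77] [7, 11, 77] relsA77 e.1 e.2) = true := by
  decide +kernel

def grA77_3 : List (ℕ × List VCert) :=
  [(285, []),
    (307, []),
    (461, []),
    (615, [])]

theorem okA77_3 : (grA77_3.all fun e => cok 616 [7, 11] [7, 11, 77] [7, 11, 77] relsA77 e.1 e.2) = true := by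
  decide +kernel

def grA77 : List (ℕ × List VCert) := grA77_0 ++ (grA77_1 ++ (grA77_2 ++ (grA77_3)))

def clsA77 : List (ℕ × ℕ × ℕ × ℕ) :=
  [(3, 0, 1, 1), (5, 1, 1, 1), (9, 2, 1, 1), (13, 3, 1, 1), (15, 4, 1, 1), (17, 5, 1, 1), (19, 6, 1, 1), (25, 2, 8, 2), (27, 7, 1, 1), (29, 8, 1, 1), (31, 9, 1, 1), (37, 10, 1, 1), (39, 11, 1, 1), (41, 12, 1, 1), (47, 9, 23, 17), (51, 13, 1, 1), (53, 10, 23, 17), (57, 14, 1, 1), (59, 0, 19, 19), (61, 15, 1, 1), (69, 16, 1, 1), (71, 4, 7, 3), (73, 5, 13, 7), (75, 0, 17, 23), (79, 11, 29, 29), (81, 2, 2, 8), (83, 17, 1, 1), (85, 8, 9, 9), (87, 18, 1, 1), (93, 10, 7, 13), (95, 11, 13, 7), (97, 19, 1, 1), (101, 15, 29, 29), (103, 9, 17, 23), (107, 13, 19, 19), (113, 20, 1, 1), (115, 0, 13, 7), (117, 15, 13, 7), (123, 13, 23, 17), (125, 16, 9, 9), (127, 21, 1, 1), (129, 5, 7, 13), (131, 22, 1, 1), (135, 23, 1, 1), (137, 2, 14, 14), (139, 17, 3, 7), (141, 24, 1, 1), (145, 5,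 29, 29), (149, 25, 1, 1), (151, 11, 7, 13), (153, 26, 1, 1), (157, 1, 17, 23), (159, 9, 29, 29), (163, 27, 1, 1), (167, 28, 1, 1), (169, 20, 4, 4), (171, 6, 23, 17), (173, 15, 7, 13), (179, 27, 23, 17), (181, 16, 3, 7), (183, 21, 3, 7), (185, 29, 1, 1), (191, 23, 19, 19), (193, 30, 1, 1), (195, 17, 7, 3), (201, 29, 23, 17), (205, 25, 13, 7), (207, 23, 17, 23), (211, 31, 1, 1), (213, 1, 23, 17), (215, 32, 1, 1), (223, 33, 1, 1), (225, 20, 3, 2), (227, 6, 29, 29), (229, 1, 19, 19), (233, 30, 29, 29), (235, 27, 17, 23), (237, 3, 9, 9), (239, 21, 7, 3), (241, 34, 1, 1), (247, 23, 13, 7), (249, 30, 13, 7), (251, 7, 9, 9), (255, 32, 29, 29), (257, 29, 17, 23), (261, 25, 7, 13), (267, 35, 1, 1), (269, 1, 11, 11), (271, 32, 13, 7), (277, 25, 29, 29), (279, 33, 9, 9), (281, 14, 9, 9), (283, 6, 11, 11), (285, 36, 1, 1), (289, 2, 13, 7), (291, 27, 29, 29), (293, 3, 7, 3), (295, 4, 3, 7), (299, 6, 7, 13), (303, 11, 11,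 11), (305, 30, 7, 13), (307, 37, 1, 1), (311, 9, 13, 7), (313, 29, 29, 29), (317, 10, 13, 7), (321, 12, 7, 3), (323, 35, 9, 9), (325, 15, 11, 11), (327, 32, 7, 13), (333, 10, 29, 29), (335, 33, 3, 7), (337, 14, 7, 3), (339, 0, 7, 13), (345, 2, 7, 13), (347, 13, 17, 23), (349, 3, 3, 7), (355, 0, 11, 11), (359, 11, 23, 17), (361, 2, 11, 11), (365, 8, 3, 7), (367, 9, 7, 13), (369, 5, 11, 11), (377, 19, 3, 7), (379, 35, 3, 7), (381, 15, 23, 17), (383, 9, 11, 11), (387, 13, 13, 7), (389, 10, 11, 11), (391, 28, 9, 9), (393, 14, 3, 7), (395, 22, 5, 5), (401, 2, 4, 4), (403, 13, 11, 11), (405, 16, 7, 3), (409, 5, 19, 19), (411, 0, 29, 29), (415, 11, 17, 23), (421, 24, 3, 7), (423, 9, 19, 19), (425, 5, 23, 17), (431, 11, 19, 19), (433, 19, 7, 3), (435, 31, 9, 9), (437, 15, 17, 23), (439, 18, 5, 5), (443, 27, 13, 7), (445, 10, 17, 23), (447, 28, 7, 3), (449, 20, 2, 3), (453, 15, 19, 19), (457, 30, 11, 11), (459, 13,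 29, 29), (461, 38, 1, 1), (465, 29, 13, 7), (467, 0, 23, 17), (471, 23, 7, 13), (475, 17, 9, 9), (477, 24, 7, 3), (479, 32, 11, 11), (481, 5, 17, 23), (487, 23, 11, 11), (489, 19, 9, 9), (491, 31, 7, 3), (493, 1, 29, 29), (499, 27, 7, 13), (501, 25, 11, 11), (503, 28, 3, 7), (509, 1, 7, 13), (513, 30, 23, 17), (515, 27, 11, 11), (519, 21, 9, 9), (521, 29, 7, 13), (523, 6, 13, 7), (531, 7, 7, 3), (533, 24, 9, 9), (535, 32, 23, 17), (537, 29, 11, 11), (541, 25, 19, 19), (543, 23, 29, 29), (545, 12, 3, 7), (547, 31, 3, 7), (549, 36, 5, 5), (555, 27, 19, 19), (557, 25, 23, 17), (559, 33, 7, 3), (563, 6, 17, 23), (565, 1, 13, 7), (569, 30, 17, 23), (575, 4, 9, 9), (577, 29, 19, 19), (579, 6, 19, 19), (585, 30, 19, 19), (587, 7, 3, 7), (589, 8, 7, 3), (591, 32, 17, 23), (593, 34, 5, 5), (597, 10, 19, 19), (599, 23, 23, 17), (601, 12, 9, 9), (603, 35, 7, 3), (607, 32, 19, 19), (611, 13, 7, 13), (613, 25, 17, 23),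 (615, 39, 1, 1)]

theorem clsA77_ok : clsok 77 616 [1, 12, 23, 32, 34, 43, 45, 65, 67] (grA77.map Prod.fst) clsA77 = true := by
  decide +kernel

theorem statA77 : statck 77 616 [7, 11] [7, 11, 77] [7, 11, 77] true relsA77 = true := by
  decide +kernel

theorem grA77_ok : (grA77.all fun e => cok 616 [7, 11] [7, 11, 77] [7, 11, 77] relsA77 e.1 e.2) = true := by
  unfold grA77
  simp only [List.all_append, okA77_0, okA77_1, okA77_2, okA77_3, Bool.and_self]

theorem limA77 (hB : StBasic) (hCL : StCL) (hTor : StTor) {p : ℕ} (hp : p.Prime) (hNp : (616 : ℕ).Coprime p)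
    (hex : p % 77 ∉ [1, 12, 23, 32, 34, 43, 45, 65, 67]) (a : ℕ) : LimLP (2 ^ a * 77) p :=
  lim_fam hB hCL hTor hp statA77 clsA77_ok grA77_ok hNp (by norm_num) hex (Or.inr rfl)

end Pool.Agent.Lib.MP81632f.Lv.Pot
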