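import Pool.Agent.Lib.MP_81632f_ag.Pot.Cert

/-!
# Potential lattice property: data for some families of levels
-/

set_option autoImplicit false

open Pool.Agent.Lib.MP81632f.Diag

namespace Pool.Agent.Lib.MP81632f.Lv.Pot

def relsA87 : List RCert :=
  [(87, 87, 267715950389104788003998904304181893425771712646792485204807189872763429394221648652925045958926573078936)]

def grA87_0 : List (ℕ × List VCert) :=
  [(5, []),
    (7, [(116, 14, [1, 3, 112], [110])]),
    (11, []),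
    (13, []),
    (17, []),
    (19, [(348, 28, [4], [347])]),
    (23, [(87, 14, [1, 18, 68], [58]), (348, 14, [4], [345])]),
    (25, [(116, 7, [115, 106, 11], [108])]),
    (35, []),
    (37, [(348, 28, [4], [347])]),
    (53, [(87, 14, [1, 18, 68], [58]), (348, 14, [347, 338, 11], [340])]),
    (67, [])]

theorem okA87_0 : (grA87_0.all fun e => cok 348 [3, 29] [3, 29, 87] [3, 29, 87] relsA87 e.1 e.2) = true := by
  decide +kernel

def grA87_1 : List (ℕ × List VCert) :=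
  [(77, []),
    (115, []),
    (173, []),
    (191, []),
    (289, []),
    (347, [])]

theorem okA87_1 : (grA87_1.all fun e => cok 348 [3, 29] [3, 29, 87] [3, 29, 87] relsA87 e.1 e.2) = true := by
  decide +kernel

def grA87 : List (ℕ × List VCert) := grA87_0 ++ (grA87_1)

def clsA87 : List (ℕ × ℕ × ℕ × ℕ) :=
  [(5, 0, 1, 1), (7, 1, 1, 1), (11, 2, 1, 1), (13, 3, 1, 1), (17, 4, 1, 1), (19, 5, 1, 1), (23, 6, 1, 1), (25, 7, 1, 1), (31, 5, 25, 9), (35, 8, 1, 1), (37, 9, 1, 1), (41, 4, 3, 3), (43, 5, 17, 5), (47, 2, 15, 15), (49, 7, 5, 3), (53, 10, 1, 1), (55, 5, 27, 27), (61, 9, 11, 23), (65, 10, 5, 3), (67, 11, 1, 1), (71, 8, 3, 5), (73, 9, 9, 25), (77, 12, 1, 1), (79, 5, 5, 17), (83, 6, 5, 3), (85, 9, 5, 17), (89, 12, 25, 9), (91, 11, 3, 5), (95, 2, 27, 27), (97, 9, 17, 5), (101, 12, 17, 5), (103, 1, 5, 3), (107, 6, 11, 9), (109, 3, 3, 5), (113, 12, 27, 27), (115, 13, 1, 1), (119, 2, 17, 5), (121, 3, 9, 11), (125, 0, 3,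 5), (127, 5, 9, 25), (131, 2, 19, 3), (137, 12, 5, 17), (139, 1, 11, 9), (143, 2, 23, 11), (149, 0, 9, 11), (151, 11, 9, 11), (155, 2, 11, 23), (161, 10, 11, 9), (163, 5, 23, 11), (167, 8, 9, 11), (169, 7, 4, 2), (173, 14, 1, 1), (179, 8, 13, 13), (181, 7, 6, 6), (185, 12, 9, 25), (187, 11, 13, 13), (191, 15, 1, 1), (193, 9, 3, 19), (197, 10, 13, 13), (199, 1, 13, 13), (205, 9, 19, 3), (209, 0, 13, 13), (211, 5, 19, 3), (215, 15, 3, 3), (217, 9, 23, 11), (221, 12, 23, 11), (223, 1, 9, 11), (227, 6, 13, 13), (229, 9, 25, 9), (235, 5, 13, 13), (239, 6, 9, 11), (241, 3, 13, 13), (245, 0, 11, 9), (247, 5, 3, 19), (251, 2, 25, 9), (253, 9, 15, 15), (257, 10, 9, 11), (259, 5, 11, 23), (263, 2, 9, 25), (265, 3, 11, 9), (269, 12, 19, 3), (271, 5, 15, 15), (275, 2, 5, 17), (277, 7, 2, 4), (281, 10, 3, 5), (283, 11, 11, 9), (287, 2, 3, 19), (289, 16, 1, 1), (293, 12, 13, 13), (295, 11, 5, 3), (299, 8, 11, 9), (301, 9, 27, 27), (305,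 12, 3, 19), (311, 2, 13, 13), (313, 7, 3, 5), (317, 12, 11, 23), (323, 8, 5, 3), (325, 3, 5, 3), (329, 12, 15, 15), (335, 6, 3, 5), (337, 9, 13, 13), (341, 0, 5, 3), (343, 1, 3, 5), (347, 17, 1, 1)]

theorem clsA87_ok : clsok 87 348 [1, 46, 59, 70] (grA87.map Prod.fst) clsA87 = true := by
  decide +kernel

theorem statA87 : statck 87 348 [3, 29] [3, 29, 87] [3, 29, 87] true relsA87 = true := by
  decide +kernel

theorem grA87_ok : (grA87.all fun e => cok 348 [3, 29] [3, 29, 87] [3, 29, 87] relsA87 e.1 e.2) = true := by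
  unfold grA87
  simp only [List.all_append, okA87_0, okA87_1, Bool.and_self]

theorem limA87 (hB : StBasic) (hCL : StCL) (hTor : StTor) {p : ℕ} (hp : p.Prime) (hNp : (348 : ℕ).Coprime p)
    (hex : p % 87 ∉ [1, 46, 59, 70]) (a : ℕ) : LimLP (2 ^ a * 87) p :=
  lim_fam hB hCL hTor hp statA87 clsA87_ok grA87_ok hNp (by norm_num) hex (Or.inr rfl)

end Pool.Agent.Lib.MP81632f.Lv.Pot
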