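import Pool.Agent.Lib.MP_81632f_ag.Pot.Cert

/-!
# Potential lattice property: data for some families of levels
-/

set_option autoImplicit false

open Pool.Agent.Lib.MP81632f.Diag

namespace Pool.Agent.Lib.MP81632f.Lv.Pot

def relsA93 : List RCert :=
  [(31, 93, 9935289497548220411868209210197637528)]

def grA93_0 : List (ℕ × List VCert) :=
  [(5, [(186, 6, [185, 175, 12], [170])]),
    (7, [(93, 15, [3], [92])]),
    (11, []),
    (13, [(93, 30, [3], [92])]),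
    (23, []),
    (35, [(93, 10, [1, 11, 81], [7])]),
    (37, [(186, 6, [185, 183, 4], [17])]),
    (41, [(93, 30, [90], [1])]),
    (85, [(93, 10, [1, 13, 79], [90])]),
    (97, [(93, 5, [92, 80, 14], [9])]),
    (119, []),
    (185, [])]

theorem okA93_0 : (grA93_0.all fun e => cok 186 [3, 31] [3, 31, 93] [3, 31, 93] relsA93 e.1 e.2) = true := by
  decide +kernel

def grA93 : List (ℕ × List VCert) := grA93_0

def clsA93 : List (ℕ × ℕ × ℕ × ℕ) :=
  [(5, 0, 1, 1), (7, 1, 1, 1), (11, 2, 1, 1), (13, 3, 1, 1), (17, 2, 29, 29), (19, 1, 13, 7), (23, 4, 1, 1), (29, 4, 7, 3), (35, 5, 1, 1), (37, 6, 1, 1), (41, 7, 1, 1), (43, 3, 29, 29), (47, 5, 7, 3), (49, 1, 2, 8), (53, 2, 19, 19), (55, 3, 23, 17), (59, 7, 29, 29), (65, 2, 17, 23), (71, 7, 13, 7), (73, 3, 13, 7), (77, 4, 3, 7), (79, 3, 17, 23), (83, 2, 13, 7), (85, 8, 1, 1), (89, 4, 9, 9), (91, 8, 7, 3), (95, 5, 3, 7), (97, 9, 1, 1), (101, 5, 9, 9), (103, 1, 8, 2), (107,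 7, 23, 17), (109, 9, 2, 3), (113, 7, 7, 13), (115, 3, 7, 13), (119, 10, 1, 1), (121, 1, 7, 13), (127, 3, 11, 11), (131, 7, 17, 23), (133, 1, 14, 14), (137, 2, 7, 13), (139, 8, 3, 7), (143, 7, 11, 11), (145, 3, 19, 19), (149, 0, 5, 5), (151, 8, 9, 9), (157, 9, 3, 2), (161, 10, 5, 5), (163, 9, 4, 4), (167, 2, 23, 17), (169, 1, 4, 4), (173, 7, 19, 19), (175, 1, 11, 11), (179, 2, 11, 11), (181, 6, 5, 5), (185, 11, 1, 1)]

theorem clsA93_ok : clsok 93 186 [1, 25, 32, 61, 67] (grA93.map Prod.fst) clsA93 = true := by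
  decide +kernel

theorem statA93 : statck 93 186 [3, 31] [3, 31, 93] [3, 31, 93] true relsA93 = true := by
  decide +kernel

theorem grA93_ok : (grA93.all fun e => cok 186 [3, 31] [3, 31, 93] [3, 31, 93] relsA93 e.1 e.2) = true := by
  unfold grA93
  simp only [List.all_append, okA93_0, Bool.and_self]

theorem limA93 (hB : StBasic) (hCL : StCL) (hTor : StTor) {p : ℕ} (hp : p.Prime) (hNp : (186 : ℕ).Coprime p)
    (hex : p % 93 ∉ [1, 25, 32, 61, 67]) (a : ℕ) : LimLP (2 ^ a * 93) p :=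
  lim_fam hB hCL hTor hp statA93 clsA93_ok grA93_ok hNp (by norm_num) hex (Or.inr rfl)

end Pool.Agent.Lib.MP81632f.Lv.Pot
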