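import Pool.Agent.Lib.MP_81632f_ag.Pot.Cert

/-!
# Potential lattice property: data for some families of levels
-/

set_option autoImplicit false

open Pool.Agent.Lib.MP81632f.Diag

namespace Pool.Agent.Lib.MP81632f.Lv.Pot

def relsB39 : List RCert :=
  [(3, 3, 1944), (13, 13, 2101817300720024), (13, 13, 2137010763962264), (39, 39, 42649437960428712392892962046744793476727671192)]

def grB39_0 : List (ℕ × List VCert) :=
  [(1, []),
    (5, []),
    (7, [(39, 12, [3], [38])]),
    (11, []),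
    (17, []),
    (25, []),
    (29, [(39, 6, [13], [38])]),
    (31, [(39, 4, [1, 16, 22], [36])]),
    (43, []),
    (53, [(39, 2, [1, 16, 22], [26])]),
    (55, []),
    (77, [])]

theorem okB39_0 : (grB39_0.all fun e => cok 78 [3, 13] [3, 13, 39] [3, 13, 39] relsB39 e.1 e.2) = true := by
  decide +kernel

def grB39 : List (ℕ × List VCert) := grB39_0

def clsB39 : List (ℕ × ℕ × ℕ × ℕ) :=
  [(1, 0, 0, 0), (5, 1, 1, 1), (7, 2, 1, 1), (11, 3, 1, 1), (17, 4, 1, 1), (19, 2, 7, 7), (23, 4, 5, 5), (25, 5, 1, 1), (29, 6, 1, 1), (31, 7, 1, 1), (35, 6, 5, 5), (37, 2, 5, 5), (41, 3, 7, 7), (43, 8, 1, 1), (47, 1, 3, 3), (49, 8, 5, 5), (53, 9, 1, 1), (55, 10, 1, 1), (59, 3, 5, 5), (61, 10, 2, 2), (67, 2, 11, 11), (71, 3, 11, 11), (73, 7, 3, 3), (77, 11, 1, 1)]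

theorem clsB39_ok : clsok 39 78 [] (grB39.map Prod.fst) clsB39 = true := by
  decide +kernel

theorem statB39 : statck 39 78 [3, 13] [3, 13, 39] [3, 13, 39] false relsB39 = true := by
  decide +kernel

theorem grB39_ok : (grB39.all fun e => cok 78 [3, 13] [3, 13, 39] [3, 13, 39] relsB39 e.1 e.2) = true := by
  unfold grB39
  simp only [List.all_append, okB39_0, Bool.and_self]

theorem limB39 (hB : StBasic) (hCL : StCL) (hTor : StTor) {p : ℕ} (hp : p.Prime) (hNp : (78 : ℕ).Coprime p)
    (hex : p % 39 ∉ []) : LimLP (2 ^ 0 * 39) p :=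
  lim_fam hB hCL hTor hp statB39 clsB39_ok grB39_ok hNp (by norm_num) hex (Or.inl rfl)

def relsB51 : List RCert :=
  [(3, 51, 1944), (51, 51, 12005534014761847602484706210743053061465578422253212011039128), (51, 51, 12004798596538309805467091872626813269455846764227617835551128), (51, 51, 12206401258321599973912014201665299878400099159736536519903128), (51, 51, 12205616824185996580856557086094997749817777539068706231519128), (51, 51, 12005583246230788261209642627815504864832266437382427574241688), (51, 51, 12004749365075213726043701311444732544452574102686142714972568), (51, 51, 12206450489790540632636950618737751681766787174865752083105688)]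

def grB51_0 : List (ℕ × List VCert) :=
  [(5, []),
    (7, []),
    (13, []),
    (19, []),
    (47, []),
    (53, []),
    (67, []),
    (101, [])]

theorem okB51_0 : (grB51_0.all fun e => cok 102 [3, 17] [3, 17, 51] [3, 17, 51] relsB51 e.1 e.2) = true := by
  decide +kernel

def grB51 : List (ℕ × List VCert) := grB51_0

def clsB51 : List (ℕ × ℕ × ℕ × ℕ) :=
  [(5, 0, 1, 1), (7, 1, 1, 1), (11, 0, 11, 3), (13, 2, 1, 1), (19, 3, 1, 1), (23, 0, 3, 11), (25, 3, 3, 3), (29, 0, 9, 9), (31, 1, 11, 3), (37, 1, 3, 11), (41, 0, 15, 15), (43, 3, 7, 7), (47, 4, 1, 1), (49, 3, 5, 5), (53, 5, 1, 1), (55, 2, 3, 3), (59, 5, 3, 3), (61, 1, 9, 9), (65, 0, 5, 13), (67, 6, 1, 1), (71, 0, 13, 5), (73, 1, 15, 15), (77, 5, 7, 7), (79, 1, 5, 13), (83, 5, 5, 5), (89, 4, 3, 3), (91, 1, 13, 5), (95, 0, 7, 7), (97, 1, 7, 7), (101, 7, 1, 1)]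

theorem clsB51_ok : clsok 51 102 [1, 35] (grB51.map Prod.fst) clsB51 = true := by
  decide +kernel

theorem statB51 : statck 51 102 [3, 17] [3, 17, 51] [3, 17, 51] false relsB51 = true := by
  decide +kernel

theorem grB51_ok : (grB51.all fun e => cok 102 [3, 17] [3, 17, 51] [3, 17, 51] relsB51 e.1 e.2) = true := by
  unfold grB51
  simp only [List.all_append, okB51_0, Bool.and_self]

theorem limB51 (hB : StBasic) (hCL : StCL) (hTor : StTor) {p : ℕ} (hp : p.Prime) (hNp : (102 : ℕ).Coprime p)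
    (hex : p % 51 ∉ [1, 35]) : LimLP (2 ^ 0 * 51) p :=
  lim_fam hB hCL hTor hp statB51 clsB51_ok grB51_ok hNp (by norm_num) hex (Or.inl rfl)

end Pool.Agent.Lib.MP81632f.Lv.Pot
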