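import Pool.Agent.Lib.MP_81632f_ag.Pot.Cert

/-!
# Potential lattice property: data for some families of levels
-/

set_option autoImplicit false

open Pool.Agent.Lib.MP81632f.Diag

namespace Pool.Agent.Lib.MP81632f.Lv.Pot

def relsB105 : List RCert :=
  [(3, 15, 1944), (7, 105, 125401496), (15, 105, 538312687298906520), (35, 35, 661328938589376767493586789337513222313880), (105, 105, 1285486681879368679714230265690912924896925115560745980024736931961610629249176603833419922371818885462796054352431817505081240), (105, 105, 1264332892138946125304542698348957946973650958601102128358689805889459033956776626434674323276351458224905697576296766520134040)]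

def grB105_0 : List (ℕ × List VCert) :=
  [(11, [(60, 2, [8], [57]), (105, 6, [1, 29, 75], [70])]),
    (13, [(105, 4, [1, 37, 67], [104, 84, 22])]),
    (17, [(105, 12, [1, 12, 92], [1, 6, 98])]),
    (19, []),
    (23, [(35, 12, [1, 4, 30], [28]), (105, 12, [1, 19, 85], [1, 6, 98])]),
    (29, [(105, 2, [104, 78, 28], [1, 5, 99])]),
    (31, [(105, 6, [1, 4, 100], [104, 103, 3])]),
    (37, [(35, 12, [1, 4, 30], [28]), (105, 12, [3], [104])]),
    (41, [(60, 2, [1, 7, 52], [50]), (210, 2, [207, 165, 48], [2, 56, 152])]),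
    (47, [(105, 12, [1, 12, 92], [1, 6, 98])]),
    (53, [(35, 12, [1, 4, 30], [28]), (105, 12, [1, 19, 85], [1, 6, 98])]),
    (59, [])]

theorem okB105_0 : (grB105_0.all fun e => cok 420 [3, 5, 7] [3, 5, 7, 15, 21, 35, 105] [3, 5, 7, 15, 21, 35, 105] relsB105 e.1 e.2) = true := by
  decide +kernel

def grB105_1 : List (ℕ × List VCert) :=
  [(61, [(105, 6, [1, 4, 100], [104, 103, 3])]),
    (67, [(35, 12, [1, 4, 30], [28]), (105, 12, [3], [104])]),
    (73, [(105, 12, [15], [104])]),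
    (79, [(35, 6, [34, 28, 8], [1, 4, 30])]),
    (83, [(105, 4, [101, 95, 14], [104, 80, 26])]),
    (89, []),
    (101, [(60, 2, [1, 7, 52], [50]), (105, 6, [2, 7, 96], [104, 62, 44])]),
    (103, [(105, 12, [15], [104])]),
    (109, [(35, 6, [34, 28, 8], [1, 4, 30])]),
    (113, [(105, 4, [1, 35, 69], [104, 100, 6]), (105, 4, [103, 67, 40], [104, 99, 7])]),
    (121, [(140, 3, [4, 16, 120], [139, 131, 10])]),
    (131, [(60, 2, [8], [57]), (105, 6, [2, 7, 96], [104, 62, 44])])]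

theorem okB105_1 : (grB105_1.all fun e => cok 420 [3, 5, 7] [3, 5, 7, 15, 21, 35, 105] [3, 5, 7, 15, 21, 35, 105] relsB105 e.1 e.2) = true := by
  decide +kernel

def grB105_2 : List (ℕ × List VCert) :=
  [(139, []),
    (149, [(35, 6, [34, 28, 8], [1, 4, 30])]),
    (151, [(140, 6, [136, 124, 20], [1, 9, 130])]),
    (179, [(35, 6, [34, 28, 8], [1, 4, 30])]),
    (209, []),
    (221, [(60, 2, [1, 7, 52], [50]), (105, 6, [1, 29, 75], [70])]),
    (223, [(105, 4, [1, 37, 67], [104, 84, 22])]),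
    (229, []),
    (239, [(105, 2, [104, 78, 28], [1, 5, 99])]),
    (251, [(60, 2, [8], [57]), (140, 2, [135, 119, 26], [138, 118, 24])]),
    (293, [(105, 4, [101, 95, 14], [104, 80, 26])]),
    (323, [(105, 4, [1, 35, 69], [104, 100, 6]), (105, 4, [103, 67, 40], [104, 99, 7])])]

theorem okB105_2 : (grB105_2.all fun e => cok 420 [3, 5, 7] [3, 5, 7, 15, 21, 35, 105] [3, 5, 7, 15, 21, 35, 105] relsB105 e.1 e.2) = true := by
  decide +kernel

def grB105_3 : List (ℕ × List VCert) :=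
  [(349, []),
    (419, [])]

theorem okB105_3 : (grB105_3.all fun e => cok 420 [3, 5, 7] [3, 5, 7, 15, 21, 35, 105] [3, 5, 7, 15, 21, 35, 105] relsB105 e.1 e.2) = true := by
  decide +kernel

def grB105 : List (ℕ × List VCert) := grB105_0 ++ (grB105_1 ++ (grB105_2 ++ (grB105_3)))

def clsB105 : List (ℕ × ℕ × ℕ × ℕ) :=
  [(11, 0, 1, 1), (13, 1, 1, 1), (17, 2, 1, 1), (19, 3, 1, 1), (23, 4, 1, 1), (29, 5, 1, 1), (31, 6, 1, 1), (37, 7, 1, 1), (41, 8, 1, 1), (47, 9, 1, 1), (53, 10, 1, 1), (59, 11, 1, 1), (61, 12, 1, 1), (67, 13, 1, 1), (73, 14, 1, 1), (79, 15, 1, 1), (83, 16, 1, 1), (89, 17, 1, 1), (97, 1, 3, 3), (101, 18, 1, 1), (103, 19, 1, 1), (107, 4, 7, 7), (109, 20, 1, 1), (113, 21, 1, 1), (121, 22, 1, 1), (131, 23, 1, 1), (137, 10, 7, 7), (139, 24, 1, 1), (143, 9, 11, 11), (149, 25, 1, 1), (151, 26, 1, 1), (157, 14, 7, 7), (163, 13, 11, 11), (167, 16, 3, 3), (173, 2, 11, 11), (179, 27, 1, 1), (187, 19, 7, 7), (191, 0, 5, 5), (193, 7,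 11, 11), (197, 21, 3, 3), (199, 3, 5, 5), (209, 28, 1, 1), (221, 29, 1, 1), (223, 30, 1, 1), (227, 9, 5, 5), (229, 31, 1, 1), (233, 10, 5, 5), (239, 32, 1, 1), (241, 12, 5, 5), (247, 13, 5, 5), (251, 33, 1, 1), (257, 2, 5, 5), (263, 4, 5, 5), (269, 17, 5, 5), (271, 6, 5, 5), (277, 7, 5, 5), (283, 19, 5, 5), (289, 20, 5, 5), (293, 34, 1, 1), (299, 11, 5, 5), (307, 30, 3, 3), (311, 23, 5, 5), (313, 14, 5, 5), (317, 10, 11, 11), (319, 15, 5, 5), (323, 35, 1, 1), (331, 26, 5, 5), (341, 18, 5, 5), (347, 4, 11, 11), (349, 36, 1, 1), (353, 2, 7, 7), (359, 27, 5, 5), (361, 22, 2, 2), (367, 19, 11, 11), (373, 7, 7, 7), (377, 34, 3, 3), (383, 9, 7, 7), (389, 25, 5, 5), (397, 14, 11, 11), (401, 29, 5, 5), (403, 13, 7, 7), (407, 35, 3, 3), (409, 31, 5, 5), (419, 37, 1, 1)]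

theorem clsB105_ok : clsok 105 420 [1, 22, 43, 64, 71, 76] (grB105.map Prod.fst) clsB105 = true := by
  decide +kernel

theorem statB105 : statck 105 420 [3, 5, 7] [3, 5, 7, 15, 21, 35, 105] [3, 5, 7, 15, 21, 35, 105] false relsB105 = true := by
  decide +kernel

theorem grB105_ok : (grB105.all fun e => cok 420 [3, 5, 7] [3, 5, 7, 15, 21, 35, 105] [3, 5, 7, 15, 21, 35, 105] relsB105 e.1 e.2) = true := by
  unfold grB105
  simp only [List.all_append, okB105_0, okB105_1, okB105_2, okB105_3, Bool.and_self]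

theorem limB105 (hB : StBasic) (hCL : StCL) (hTor : StTor) {p : ℕ} (hp : p.Prime) (hNp : (420 : ℕ).Coprime p)
    (hex : p % 105 ∉ [1, 22, 43, 64, 71, 76]) : LimLP (2 ^ 0 * 105) p :=
  lim_fam hB hCL hTor hp statB105 clsB105_ok grB105_ok hNp (by norm_num) hex (Or.inl rfl)

end Pool.Agent.Lib.MP81632f.Lv.Pot
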