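import Pool.Agent.Lib.MP_81632f_ag.Pot.Cert

/-!
# Potential lattice property: data for some families of levels
-/

set_option autoImplicit false

open Pool.Agent.Lib.MP81632f.Diag

namespace Pool.Agent.Lib.MP81632f.Lv.Pot

def relsB55 : List RCert :=
  [(5, 5, 489880), (5, 5, 497560), (11, 11, 8347128010648), (55, 55, 787156337877494305658056244016821094676032423758661283774504466840)]

def grB55_0 : List (ℕ × List VCert) :=
  [(1, []),
    (3, [(55, 20, [11], [54])]),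
    (7, []),
    (9, []),
    (19, []),
    (23, [(110, 4, [1, 3, 106], [99])]),
    (31, []),
    (41, [(55, 10, [5], [54])]),
    (43, []),
    (89, []),
    (109, [])]

theorem okB55_0 : (grB55_0.all fun e => cok 110 [5, 11] [5, 11, 55] [5, 11, 55] relsB55 e.1 e.2) = true := by
  decide +kernel

def grB55 : List (ℕ × List VCert) := grB55_0

def clsB55 : List (ℕ × ℕ × ℕ × ℕ) :=
  [(1, 0, 0, 0), (3, 1, 1, 1), (7, 2, 1, 1), (9, 3, 1, 1), (13, 2, 3, 7), (17, 2, 17, 13), (19, 4, 1, 1), (23, 5, 1, 1), (27, 1, 3, 7), (29, 4, 9, 9), (31, 6, 1, 1), (37, 1, 19, 19), (39, 4, 3, 7), (41, 7, 1, 1), (43, 8, 1, 1), (47, 1, 11, 11), (49, 3, 9, 9), (51, 7, 9, 9), (53, 1, 17, 13), (57, 2, 13, 17), (59, 3, 7, 3), (61, 7, 3, 7), (63, 2, 19, 19), (67, 5, 3, 3), (69, 3, 3, 7), (71, 6, 4, 4), (73, 2, 11, 11), (79, 4, 7, 3), (81, 6, 2, 3), (83, 2, 7, 3), (87, 8, 3, 3), (89, 9, 1, 1), (91, 6, 3, 2), (93, 1, 13, 17), (97, 1, 7, 3), (101,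 7, 7, 3), (103, 1, 9, 9), (107, 2, 9, 9), (109, 10, 1, 1)]

theorem clsB55_ok : clsok 55 110 [21] (grB55.map Prod.fst) clsB55 = true := by
  decide +kernel

theorem statB55 : statck 55 110 [5, 11] [5, 11, 55] [5, 11, 55] false relsB55 = true := by
  decide +kernel

theorem grB55_ok : (grB55.all fun e => cok 110 [5, 11] [5, 11, 55] [5, 11, 55] relsB55 e.1 e.2) = true := by
  unfold grB55
  simp only [List.all_append, okB55_0, Bool.and_self]

theorem limB55 (hB : StBasic) (hCL : StCL) (hTor : StTor) {p : ℕ} (hp : p.Prime) (hNp : (110 : ℕ).Coprime p)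
    (hex : p % 55 ∉ [21]) : LimLP (2 ^ 0 * 55) p :=
  lim_fam hB hCL hTor hp statB55 clsB55_ok grB55_ok hNp (by norm_num) hex (Or.inl rfl)

def relsB57 : List RCert :=
  [(3, 3, 1944), (19, 57, 35887525739255192713112)]

def grB57_0 : List (ℕ × List VCert) :=
  [(5, [(57, 18, [54], [1])]),
    (7, [(57, 3, [56, 53, 5], [12])]),
    (11, [(57, 6, [1, 4, 52], [45])]),
    (13, [(57, 18, [3], [56])]),
    (25, [(57, 9, [54], [1])]),
    (29, []),
    (31, [(57, 6, [1, 4, 52], [54])]),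
    (65, []),
    (113, [])]

theorem okB57_0 : (grB57_0.all fun e => cok 114 [3, 19] [3, 19, 57] [3, 19, 57] relsB57 e.1 e.2) = true := by
  decide +kernel

def grB57 : List (ℕ × List VCert) := grB57_0

def clsB57 : List (ℕ × ℕ × ℕ × ℕ) :=
  [(5, 0, 1, 1), (7, 1, 1, 1), (11, 2, 1, 1), (13, 3, 1, 1), (17, 0, 13, 7), (23, 0, 17, 17), (25, 4, 1, 1), (29, 5, 1, 1), (31, 6, 1, 1), (35, 0, 7, 13), (41, 5, 5, 11), (43, 4, 5, 2), (47, 0, 5, 11), (49, 1, 2, 2), (53, 5, 7, 13), (55, 4, 2, 5), (59, 5, 17, 17), (61, 4, 4, 7), (65, 7, 1, 1), (67, 3, 7, 13), (71, 5, 11, 5), (73, 4, 8, 8), (79, 3, 17, 17), (83, 2, 5, 5), (85, 4, 7, 4), (89, 5, 13, 7), (91, 3, 13, 7), (97, 3, 11, 5), (101, 0, 11, 5), (103, 6, 5, 5), (107, 7, 5, 5), (109, 3, 5, 11), (113, 8, 1, 1)]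

theorem clsB57_ok : clsok 57 114 [1, 20, 37] (grB57.map Prod.fst) clsB57 = true := by
  decide +kernel

theorem statB57 : statck 57 114 [3, 19] [3, 19, 57] [3, 19, 57] false relsB57 = true := by
  decide +kernel

theorem grB57_ok : (grB57.all fun e => cok 114 [3, 19] [3, 19, 57] [3, 19, 57] relsB57 e.1 e.2) = true := by
  unfold grB57
  simp only [List.all_append, okB57_0, Bool.and_self]

theorem limB57 (hB : StBasic) (hCL : StCL) (hTor : StTor) {p : ℕ} (hp : p.Prime) (hNp : (114 : ℕ).Coprime p)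
    (hex : p % 57 ∉ [1, 20, 37]) : LimLP (2 ^ 0 * 57) p :=
  lim_fam hB hCL hTor hp statB57 clsB57_ok grB57_ok hNp (by norm_num) hex (Or.inl rfl)

end Pool.Agent.Lib.MP81632f.Lv.Pot
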