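import Pool.Agent.Lib.MP_81632f_ag.Pot.Cert

/-!
# Potential lattice property: data for some families of levels
-/

set_option autoImplicit false

open Pool.Agent.Lib.MP81632f.Diag

namespace Pool.Agent.Lib.MP81632f.Lv.Pot

def relsB231 : List RCert :=
  [(3, 33, 1944), (7, 21, 125401496), (11, 77, 8347128010648), (231, 231, 66214023531735719682300032603663918413936902853447365896863770415363779684369208437205645586964887292275395001539214083856024412135451543159971990076800642115608354385911653550950172166556922689827475280232881394658049419313612149685176254110598846948800113905759624656737372568)]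

def grB231_0 : List (ℕ × List VCert) :=
  [(5, [(77, 30, [76, 76, 2], [7])]),
    (13, []),
    (17, []),
    (19, []),
    (25, [(77, 15, [1, 1, 75], [70])]),
    (29, [(77, 10, [1, 2, 74], [70])]),
    (31, [(77, 30, [76, 76, 2], [7]), (231, 30, [33], [230])]),
    (41, []),
    (53, [(77, 15, [1, 1, 75], [70]), (231, 30, [77], [230])]),
    (71, [(77, 5, [76, 68, 10], [7]), (231, 10, [1, 16, 214], [154])]),
    (79, [(77, 30, [7], [76]), (231, 30, [21], [230])]),
    (85, [(77, 10, [1, 2, 74], [70]), (231, 10, [1, 4, 226], [210])])]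

theorem okB231_0 : (grB231_0.all fun e => cok 462 [3, 7, 11] [3, 7, 11, 21, 33, 77, 231] [3, 7, 11, 21, 33, 77, 231] relsB231 e.1 e.2) = true := by
  decide +kernel

def grB231_1 : List (ℕ × List VCert) :=
  [(95, [(77, 30, [7], [76])]),
    (97, [(77, 10, [1, 9, 67], [70]), (231, 10, [1, 16, 214], [198])]),
    (125, [(77, 10, [1, 9, 67], [70])]),
    (131, []),
    (169, [(77, 5, [76, 68, 10], [7])]),
    (241, []),
    (307, []),
    (461, [])]

theorem okB231_1 : (grB231_1.all fun e => cok 462 [3, 7, 11] [3, 7, 11, 21, 33, 77, 231] [3, 7, 11, 21, 33, 77, 231] relsB231 e.1 e.2) = true := by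
  decide +kernel

def grB231 : List (ℕ × List VCert) := grB231_0 ++ (grB231_1)

def clsB231 : List (ℕ × ℕ × ℕ × ℕ) :=
  [(5, 0, 1, 1), (13, 1, 1, 1), (17, 2, 1, 1), (19, 3, 1, 1), (25, 4, 1, 1), (29, 5, 1, 1), (31, 6, 1, 1), (37, 4, 14, 14), (41, 7, 1, 1), (47, 0, 7, 13), (53, 8, 1, 1), (59, 0, 23, 17), (61, 3, 13, 7), (71, 9, 1, 1), (73, 3, 29, 29), (79, 10, 1, 1), (83, 7, 3, 7), (85, 11, 1, 1), (95, 12, 1, 1), (97, 13, 1, 1), (101, 2, 19, 19), (103, 6, 17, 23), (107, 12, 29, 29), (113, 9, 7, 3), (115, 6, 19, 19), (125, 14, 1, 1), (127, 11, 3, 7), (131, 15, 1, 1), (137, 8, 19, 19), (139, 1, 7, 3), (145, 3, 7, 13), (149, 12, 17, 23), (151, 10, 23, 17), (157, 6, 13, 7), (163, 4, 2, 8), (167, 7, 7, 3), (169, 16, 1, 1), (173, 2, 17, 23), (179, 8, 13, 7), (181, 13, 9, 9), (185, 0, 29, 29), (191, 8, 17, 23), (193, 10, 29, 29), (205, 10, 7, 13), (211, 11, 7, 3), (215, 2, 11, 11), (223, 13, 3, 7), (227, 2, 13, 7), (229, 6, 11, 11), (233, 12, 23, 17),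 (235, 4, 4, 4), (239, 5, 9, 9), (241, 17, 1, 1), (247, 4, 8, 2), (251, 14, 3, 7), (257, 0, 13, 7), (269, 0, 11, 11), (271, 3, 19, 19), (277, 10, 11, 11), (281, 5, 7, 3), (283, 3, 11, 11), (289, 4, 11, 11), (293, 7, 9, 9), (295, 16, 3, 2), (299, 2, 29, 29), (305, 12, 19, 19), (307, 18, 1, 1), (311, 0, 17, 23), (313, 6, 29, 29), (317, 8, 11, 11), (323, 9, 3, 7), (325, 3, 23, 17), (335, 14, 7, 3), (337, 11, 9, 9), (347, 12, 7, 13), (349, 1, 3, 7), (355, 6, 23, 17), (359, 12, 11, 11), (361, 4, 7, 13), (365, 5, 3, 7), (367, 6, 7, 13), (377, 14, 9, 9), (379, 16, 2, 3), (383, 0, 19, 19), (389, 8, 7, 13), (391, 1, 9, 9), (395, 15, 5, 5), (401, 8, 29, 29), (403, 10, 17, 23), (409, 3, 17, 23), (415, 10, 13, 7), (421, 16, 4, 4), (425, 2, 23, 17), (431, 12, 13, 7), (433, 13, 7, 3), (437, 2, 7, 13), (439, 17, 5, 5), (443, 8, 23, 17), (445, 4, 13, 7), (449, 9, 9, 9), (457, 10, 19, 19), (461, 19, 1, 1)]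

theorem clsB231_ok : clsok 231 462 [1, 23, 32, 34, 43, 65, 67, 89, 100, 109, 122, 142, 155, 166, 188, 197, 199, 221] (grB231.map Prod.fst) clsB231 = true := by
  decide +kernel

theorem statB231 : statck 231 462 [3, 7, 11] [3, 7, 11, 21, 33, 77, 231] [3, 7, 11, 21, 33, 77, 231] false relsB231 = true := by
  decide +kernel

theorem grB231_ok : (grB231.all fun e => cok 462 [3, 7, 11] [3, 7, 11, 21, 33, 77, 231] [3, 7, 11, 21, 33, 77, 231] relsB231 e.1 e.2) = true := by
  unfold grB231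
  simp only [List.all_append, okB231_0, okB231_1, Bool.and_self]

theorem limB231 (hB : StBasic) (hCL : StCL) (hTor : StTor) {p : ℕ} (hp : p.Prime) (hNp : (462 : ℕ).Coprime p)
    (hex : p % 231 ∉ [1, 23, 32, 34, 43, 65, 67, 89, 100, 109, 122, 142, 155, 166, 188, 197, 199, 221]) : LimLP (2 ^ 0 * 231) p :=
  lim_fam hB hCL hTor hp statB231 clsB231_ok grB231_ok hNp (by norm_num) hex (Or.inl rfl)

end Pool.Agent.Lib.MP81632f.Lv.Pot
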