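import Pool.Agent.Lib.MP_81632f_ag.Pot.Cert

/-!
# Potential lattice property: data for some families of levels
-/

set_option autoImplicit false

open Pool.Agent.Lib.MP81632f.Diag

namespace Pool.Agent.Lib.MP81632f.Lv.Pot

def relsB65 : List RCert :=
  [(65, 65, 880018110492121439585499889049304632203909962842183504233406106269710341863320), (65, 65, 880017875778825703950797069378618516289336864254526082412459550157257732224920), (65, 65, 865544100146044639166767038621853491213223368416687345064529378266885170624920), (65, 65, 864639460699529146198297188223049670345850261408343763965227002751288500263320)]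

def grB65_0 : List (ℕ × List VCert) :=
  [(3, [(52, 6, [1, 5, 46], [4]), (520, 12, [2, 41, 477], [519, 457, 64])]),
    (7, []),
    (9, [(52, 3, [1, 5, 46], [4])]),
    (11, [(260, 12, [1, 7, 252], [255])]),
    (17, []),
    (19, []),
    (23, []),
    (29, [(52, 3, [1, 5, 46], [4])]),
    (33, []),
    (37, []),
    (41, [(260, 12, [259, 257, 4], [1, 1, 258])]),
    (43, [])]

theorem okB65_0 : (grB65_0.all fun e => cok 520 [5, 13] [5, 13, 65] [5, 13, 65] relsB65 e.1 e.2) = true := by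
  decide +kernel

def grB65_1 : List (ℕ × List VCert) :=
  [(47, []),
    (49, []),
    (51, []),
    (57, []),
    (61, [(52, 3, [1, 5, 46], [4])]),
    (63, []),
    (67, []),
    (69, []),
    (71, [(260, 12, [1, 7, 252], [255])]),
    (77, []),
    (81, [(52, 3, [1, 5, 46], [4])]),
    (83, [])]

theorem okB65_1 : (grB65_1.all fun e => cok 520 [5, 13] [5, 13, 65] [5, 13, 65] relsB65 e.1 e.2) = true := by
  decide +kernel

def grB65_2 : List (ℕ × List VCert) :=
  [(87, [(52, 6, [1, 5, 46], [4]), (520, 12, [518, 499, 23], [1, 72, 447])]),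
    (89, []),
    (99, []),
    (101, []),
    (103, []),
    (109, []),
    (113, [(52, 3, [1, 5, 46], [4]), (260, 12, [259, 256, 5], [253])]),
    (119, []),
    (121, []),
    (123, []),
    (129, []),
    (133, [(52, 3, [1, 5, 46], [4]), (260, 12, [259, 256, 5], [253])])]

theorem okB65_2 : (grB65_2.all fun e => cok 520 [5, 13] [5, 13, 65] [5, 13, 65] relsB65 e.1 e.2) = true := by
  decide +kernel

def grB65_3 : List (ℕ × List VCert) :=
  [(137, []),
    (139, [(52, 6, [1, 5, 46], [4])]),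
    (141, [(260, 12, [259, 257, 4], [1, 1, 258])]),
    (149, []),
    (159, [(52, 6, [1, 5, 46], [4])]),
    (173, []),
    (177, []),
    (179, []),
    (181, []),
    (187, []),
    (191, [(52, 6, [1, 5, 46], [4])]),
    (197, [])]

theorem okB65_3 : (grB65_3.all fun e => cok 520 [5, 13] [5, 13, 65] [5, 13, 65] relsB65 e.1 e.2) = true := by
  decide +kernel

def grB65_4 : List (ℕ × List VCert) :=
  [(199, []),
    (211, [(52, 6, [1, 5, 46], [4])]),
    (213, []),
    (231, []),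
    (233, []),
    (239, []),
    (251, []),
    (259, []),
    (311, []),
    (317, []),
    (363, []),
    (369, [])]

theorem okB65_4 : (grB65_4.all fun e => cok 520 [5, 13] [5, 13, 65] [5, 13, 65] relsB65 e.1 e.2) = true := by
  decide +kernel

def grB65_5 : List (ℕ × List VCert) :=
  [(389, []),
    (441, []),
    (447, []),
    (519, [])]

theorem okB65_5 : (grB65_5.all fun e => cok 520 [5, 13] [5, 13, 65] [5, 13, 65] relsB65 e.1 e.2) = true := by
  decide +kernel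

def grB65 : List (ℕ × List VCert) := grB65_0 ++ (grB65_1 ++ (grB65_2 ++ (grB65_3 ++ (grB65_4 ++ (grB65_5)))))

def clsB65 : List (ℕ × ℕ × ℕ × ℕ) :=
  [(3, 0, 1, 1), (7, 1, 1, 1), (9, 2, 1, 1), (11, 3, 1, 1), (17, 4, 1, 1), (19, 5, 1, 1), (23, 6, 1, 1), (29, 7, 1, 1), (33, 8, 1, 1), (37, 9, 1, 1), (41, 10, 1, 1), (43, 11, 1, 1), (47, 12, 1, 1), (49, 13, 1, 1), (51, 14, 1, 1), (57, 15, 1, 1), (59, 5, 7, 7), (61, 16, 1, 1), (63, 17, 1, 1), (67, 18, 1, 1), (69, 19, 1, 1), (71, 20, 1, 1), (73, 15, 3, 3), (77, 21, 1, 1), (81, 22, 1, 1), (83, 23, 1, 1), (87, 24, 1, 1), (89, 25, 1, 1), (93, 9, 7, 7), (97, 8, 7, 7), (99, 26, 1, 1), (101, 27, 1, 1), (103, 28, 1, 1), (107, 0, 7, 7), (109, 29, 1, 1), (111, 20, 7, 7), (113, 30, 1, 1), (119, 31, 1, 1), (121, 32, 1, 1), (123, 33, 1, 1), (127, 6, 7, 7), (129, 34, 1, 1), (133, 35, 1, 1), (137, 36, 1, 1), (139, 37, 1, 1), (141, 38, 1, 1), (147, 11, 7, 7), (149, 39, 1, 1), (153, 4, 11, 11), (159, 40, 1,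 1), (163, 18, 11, 11), (167, 1, 5, 5), (171, 3, 7, 7), (173, 41, 1, 1), (177, 42, 1, 1), (179, 43, 1, 1), (181, 44, 1, 1), (187, 45, 1, 1), (189, 39, 7, 7), (191, 46, 1, 1), (193, 8, 5, 5), (197, 47, 1, 1), (199, 48, 1, 1), (201, 10, 5, 5), (203, 45, 3, 3), (207, 28, 3, 3), (211, 49, 1, 1), (213, 50, 1, 1), (217, 30, 7, 7), (219, 5, 11, 11), (223, 1, 11, 11), (227, 18, 5, 5), (229, 29, 3, 3), (231, 51, 1, 1), (233, 52, 1, 1), (237, 35, 7, 7), (239, 53, 1, 1), (241, 10, 11, 11), (243, 0, 5, 5), (249, 25, 7, 7), (251, 54, 1, 1), (253, 9, 11, 11), (257, 4, 5, 5), (259, 55, 1, 1), (263, 24, 11, 11), (267, 33, 7, 7), (269, 7, 5, 5), (271, 20, 11, 11), (277, 41, 7, 7), (279, 31, 5, 5), (283, 11, 5, 5), (289, 2, 5, 5), (293, 47, 11, 11), (297, 36, 5, 5), (301, 38, 7, 7), (303, 6, 5, 5), (307, 23, 3, 3), (309, 19, 5, 5), (311, 56, 1, 1), (317, 57, 1, 1), (319, 31, 11, 11), (321, 22, 2, 2), (323, 18, 7, 7), (327, 17, 7, 7), (329, 13, 5, 5), (331,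 3, 11, 11), (333, 57, 3, 3), (337, 52, 3, 3), (341, 16, 5, 5), (343, 12, 3, 3), (347, 0, 11, 11), (349, 39, 11, 11), (353, 36, 11, 11), (357, 47, 5, 5), (359, 53, 3, 3), (361, 32, 5, 5), (363, 58, 1, 1), (367, 24, 5, 5), (369, 59, 1, 1), (371, 3, 5, 5), (373, 35, 5, 5), (379, 5, 5, 5), (381, 27, 5, 5), (383, 1, 7, 7), (387, 11, 11, 11), (389, 60, 1, 1), (393, 30, 5, 5), (397, 9, 5, 5), (399, 40, 5, 5), (401, 10, 7, 7), (407, 6, 11, 11), (409, 25, 11, 11), (413, 41, 5, 5), (419, 37, 5, 5), (423, 17, 5, 5), (427, 33, 11, 11), (431, 20, 5, 5), (433, 4, 7, 7), (437, 50, 3, 3), (439, 48, 5, 5), (441, 61, 1, 1), (447, 62, 1, 1), (449, 25, 5, 5), (451, 49, 5, 5), (453, 47, 7, 7), (457, 8, 11, 11), (459, 43, 5, 5), (461, 38, 11, 11), (463, 62, 3, 3), (467, 58, 3, 3), (471, 46, 5, 5), (473, 42, 3, 3), (477, 35, 11, 11), (479, 31, 7, 7), (483, 33, 5, 5), (487, 17, 11, 11), (489, 59, 3, 3), (491, 54, 5, 5), (493, 21, 3, 3), (497, 30, 11, 11), (499,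 26, 3, 3), (501, 38, 5, 5), (503, 24, 7, 7), (509, 39, 5, 5), (511, 51, 5, 5), (513, 36, 7, 7), (517, 41, 11, 11), (519, 63, 1, 1)]

theorem clsB65_ok : clsok 65 520 [1, 14, 21, 27, 31, 53] (grB65.map Prod.fst) clsB65 = true := by
  decide +kernel

theorem statB65 : statck 65 520 [5, 13] [5, 13, 65] [5, 13, 65] false relsB65 = true := by
  decide +kernel

theorem grB65_ok : (grB65.all fun e => cok 520 [5, 13] [5, 13, 65] [5, 13, 65] relsB65 e.1 e.2) = true := by
  unfold grB65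
  simp only [List.all_append, okB65_0, okB65_1, okB65_2, okB65_3, okB65_4, okB65_5, Bool.and_self]

theorem limB65 (hB : StBasic) (hCL : StCL) (hTor : StTor) {p : ℕ} (hp : p.Prime) (hNp : (520 : ℕ).Coprime p)
    (hex : p % 65 ∉ [1, 14, 21, 27, 31, 53]) : LimLP (2 ^ 0 * 65) p :=
  lim_fam hB hCL hTor hp statB65 clsB65_ok grB65_ok hNp (by norm_num) hex (Or.inl rfl)

end Pool.Agent.Lib.MP81632f.Lv.Pot
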