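import Pool.Agent.Lib.MP_81632f_ag.Pot.Cert

/-!
# Potential lattice property: data for some families of levels
-/

set_option autoImplicit false

open Pool.Agent.Lib.MP81632f.Diag

namespace Pool.Agent.Lib.MP81632f.Lv.Pot

def relsB95 : List RCert :=
  [(5, 95, 489880), (5, 95, 497560), (19, 19, 35887525739255192713112), (95, 95, 1149227547620983827358410925511093172128231480502129632500452528279319566278315317917131035586298706059878797515160)]

def grB95_0 : List (ℕ × List VCert) :=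
  [(1, []),
    (3, []),
    (7, [(190, 12, [4], [189])]),
    (9, []),
    (11, []),
    (13, []),
    (17, [(95, 36, [19], [94])]),
    (21, [(380, 18, [379, 377, 4], [1, 1, 378])]),
    (23, [(95, 36, [19], [94])]),
    (27, []),
    (29, []),
    (33, [])]

theorem okB95_0 : (grB95_0.all fun e => cok 760 [5, 19] [5, 19, 95] [5, 19, 95] relsB95 e.1 e.2) = true := by
  decide +kernel

def grB95_1 : List (ℕ × List VCert) :=
  [(37, []),
    (39, []),
    (41, [(380, 18, [379, 377, 4], [1, 1, 378])]),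
    (43, [(95, 36, [19], [94])]),
    (49, []),
    (51, [(760, 18, [2, 21, 737], [759, 744, 17])]),
    (59, []),
    (61, []),
    (69, []),
    (71, [(760, 18, [758, 739, 23], [1, 16, 743])]),
    (79, []),
    (81, [])]

theorem okB95_1 : (grB95_1.all fun e => cok 760 [5, 19] [5, 19, 95] [5, 19, 95] relsB95 e.1 e.2) = true := by
  decide +kernel

def grB95_2 : List (ℕ × List VCert) :=
  [(83, [(190, 12, [4], [189])]),
    (89, []),
    (93, [(95, 36, [19], [94])]),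
    (99, []),
    (103, []),
    (111, []),
    (113, []),
    (119, []),
    (121, []),
    (127, []),
    (131, []),
    (149, [])]

theorem okB95_2 : (grB95_2.all fun e => cok 760 [5, 19] [5, 19, 95] [5, 19, 95] relsB95 e.1 e.2) = true := by
  decide +kernel

def grB95_3 : List (ℕ × List VCert) :=
  [(159, []),
    (179, []),
    (189, []),
    (191, []),
    (197, [(190, 12, [4], [189])]),
    (217, []),
    (227, []),
    (229, []),
    (273, [(190, 12, [4], [189])]),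
    (293, []),
    (303, []),
    (311, [])]

theorem okB95_3 : (grB95_3.all fun e => cok 760 [5, 19] [5, 19, 95] [5, 19, 95] relsB95 e.1 e.2) = true := by
  decide +kernel

def grB95_4 : List (ℕ × List VCert) :=
  [(349, []),
    (369, []),
    (379, []),
    (381, []),
    (419, []),
    (501, []),
    (539, []),
    (559, []),
    (569, []),
    (571, []),
    (609, []),
    (759, [])]

theorem okB95_4 : (grB95_4.all fun e => cok 760 [5, 19] [5, 19, 95] [5, 19, 95] relsB95 e.1 e.2) = true := by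
  decide +kernel

def grB95 : List (ℕ × List VCert) := grB95_0 ++ (grB95_1 ++ (grB95_2 ++ (grB95_3 ++ (grB95_4))))

def clsB95 : List (ℕ × ℕ × ℕ × ℕ) :=
  [(1, 0, 0, 0), (3, 1, 1, 1), (7, 2, 1, 1), (9, 3, 1, 1), (11, 4, 1, 1), (13, 5, 1, 1), (17, 6, 1, 1), (21, 7, 1, 1), (23, 8, 1, 1), (27, 9, 1, 1), (29, 10, 1, 1), (33, 11, 1, 1), (37, 12, 1, 1), (39, 13, 1, 1), (41, 14, 1, 1), (43, 15, 1, 1), (47, 8, 31, 7), (49, 16, 1, 1), (51, 17, 1, 1), (53, 5, 13, 25), (59, 18, 1, 1), (61, 19, 1, 1), (63, 8, 25, 13), (67, 1, 11, 23), (69, 20, 1, 1), (71, 21, 1, 1), (73, 6, 31, 7), (79, 22, 1, 1), (81, 23, 1, 1), (83, 24, 1, 1), (87, 2, 5, 5), (89, 25, 1, 1), (91, 17, 13, 7), (93, 26, 1, 1), (97, 11, 31, 7), (99, 27, 1, 1), (101, 19, 7, 13), (103, 28, 1, 1), (107, 9, 5, 5), (109, 10, 11, 5), (111, 29, 1, 1), (113, 30, 1, 1), (117, 5, 35, 35), (119, 31, 1, 1), (121, 32, 1, 1), (123, 15, 5, 29), (127, 33, 1, 1), (129, 25, 13, 7), (131, 34, 1,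 1), (137, 6, 29, 5), (139, 27, 7, 13), (143, 33, 7, 31), (147, 1, 31, 7), (149, 35, 1, 1), (157, 26, 7, 31), (159, 36, 1, 1), (161, 23, 5, 2), (163, 24, 5, 5), (167, 33, 13, 25), (169, 3, 17, 17), (173, 5, 29, 5), (177, 6, 5, 29), (179, 37, 1, 1), (181, 7, 17, 17), (183, 28, 5, 5), (187, 15, 7, 31), (189, 38, 1, 1), (191, 39, 1, 1), (193, 11, 25, 13), (197, 40, 1, 1), (199, 31, 5, 11), (201, 32, 2, 2), (203, 1, 17, 17), (207, 8, 23, 11), (211, 17, 11, 5), (213, 26, 29, 5), (217, 41, 1, 1), (219, 18, 17, 17), (223, 33, 23, 11), (227, 42, 1, 1), (229, 43, 1, 1), (231, 21, 7, 13), (233, 6, 7, 31), (237, 26, 35, 35), (239, 36, 5, 5), (241, 14, 17, 17), (243, 1, 5, 29), (249, 25, 11, 5), (251, 34, 11, 5), (253, 26, 5, 29), (257, 11, 23, 11), (259, 37, 5, 5), (261, 7, 7, 13), (263, 8, 29, 5), (269, 10, 5, 11), (271, 29, 13, 7), (273, 44, 1, 1), (277, 40, 5, 5), (279, 22, 17, 17), (281, 14, 5, 11), (283, 15, 13, 25), (287, 33, 29, 5),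 (289, 3, 7, 13), (291, 34, 5, 11), (293, 45, 1, 1), (297, 41, 5, 5), (299, 18, 7, 13), (301, 19, 11, 5), (303, 46, 1, 1), (307, 1, 19, 19), (309, 35, 13, 7), (311, 47, 1, 1), (313, 6, 35, 35), (317, 5, 19, 19), (319, 22, 5, 11), (321, 23, 4, 7), (327, 8, 19, 19), (329, 3, 13, 7), (333, 5, 25, 13), (337, 11, 19, 19), (339, 27, 11, 5), (347, 15, 19, 19), (349, 48, 1, 1), (351, 29, 11, 5), (353, 44, 5, 5), (357, 5, 31, 7), (359, 31, 13, 7), (363, 1, 25, 13), (367, 8, 7, 31), (369, 49, 1, 1), (371, 17, 7, 13), (373, 45, 5, 5), (377, 6, 13, 25), (379, 50, 1, 1), (381, 51, 1, 1), (383, 33, 35, 35), (387, 24, 7, 7), (389, 35, 11, 5), (391, 47, 5, 5), (393, 11, 29, 5), (397, 26, 19, 19), (401, 14, 7, 13), (403, 15, 17, 17), (407, 28, 7, 7), (409, 25, 7, 13), (413, 5, 5, 29), (417, 30, 3, 3), (419, 52, 1, 1), (421, 7, 13, 7), (423, 8, 17, 17), (427, 15, 23, 11), (429, 48, 5, 5), (431, 21, 11, 5), (433, 11, 17, 17), (439, 22, 7, 13), (441,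 23, 8, 8), (443, 15, 29, 5), (447, 33, 25, 13), (449, 49, 5, 5), (451, 17, 5, 11), (453, 26, 13, 25), (459, 18, 13, 7), (461, 19, 17, 17), (463, 2, 7, 7), (467, 24, 11, 11), (469, 10, 13, 7), (471, 21, 17, 17), (473, 6, 19, 19), (477, 5, 11, 23), (479, 31, 17, 17), (481, 23, 2, 5), (483, 9, 7, 7), (487, 28, 11, 11), (489, 25, 5, 11), (491, 34, 13, 7), (493, 12, 3, 3), (497, 11, 7, 31), (499, 27, 17, 17), (501, 53, 1, 1), (503, 8, 13, 25), (507, 1, 35, 35), (509, 10, 7, 13), (511, 29, 7, 13), (517, 26, 11, 23), (519, 31, 11, 5), (523, 1, 29, 5), (527, 33, 5, 29), (529, 3, 5, 11), (537, 6, 25, 13), (539, 54, 1, 1), (541, 19, 13, 7), (543, 2, 11, 11), (547, 1, 23, 11), (549, 35, 7, 13), (553, 11, 13, 25), (557, 26, 23, 11), (559, 55, 1, 1), (561, 14, 11, 5), (563, 9, 11, 11), (567, 8, 11, 23), (569, 56, 1, 1), (571, 57, 1, 1), (573, 5, 17, 17), (577, 44, 7, 7), (579, 27, 13, 7), (581, 53, 5, 5), (583, 33, 19, 19), (587, 15, 31, 7),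 (591, 21, 13, 7), (593, 6, 11, 23), (597, 45, 7, 7), (599, 22, 11, 5), (603, 1, 13, 25), (607, 46, 3, 3), (609, 58, 1, 1), (611, 17, 17, 17), (613, 26, 25, 13), (617, 6, 17, 17), (619, 54, 5, 5), (621, 7, 5, 11), (623, 33, 31, 7), (629, 10, 17, 17), (631, 29, 5, 11), (633, 6, 23, 11), (637, 5, 7, 31), (639, 55, 5, 5), (641, 14, 13, 7), (643, 15, 25, 13), (649, 25, 17, 17), (651, 34, 7, 13), (653, 40, 7, 7), (657, 44, 11, 11), (659, 18, 5, 11), (661, 7, 11, 5), (663, 8, 5, 29), (667, 1, 7, 31), (669, 35, 5, 11), (671, 29, 17, 17), (673, 41, 7, 7), (677, 45, 11, 11), (679, 22, 13, 7), (681, 23, 7, 4), (683, 42, 3, 3), (687, 33, 17, 17), (689, 3, 11, 5), (691, 4, 5, 5), (693, 26, 17, 17), (697, 11, 11, 23), (699, 18, 11, 5), (701, 19, 5, 11), (707, 15, 35, 35), (709, 35, 17, 17), (713, 11, 5, 29), (717, 5, 23, 11), (719, 31, 7, 13), (727, 8, 35, 35), (729, 16, 5, 5), (731, 34, 17, 17), (733, 40, 11, 11), (737, 11, 35, 35), (739, 27,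 5, 11), (743, 33, 11, 23), (747, 15, 11, 23), (749, 20, 5, 5), (751, 21, 5, 11), (753, 41, 11, 11), (757, 26, 31, 7), (759, 59, 1, 1)]

theorem clsB95_ok : clsok 95 760 [31, 46, 56, 58, 77] (grB95.map Prod.fst) clsB95 = true := by
  decide +kernel

theorem statB95 : statck 95 760 [5, 19] [5, 19, 95] [5, 19, 95] false relsB95 = true := by
  decide +kernel

theorem grB95_ok : (grB95.all fun e => cok 760 [5, 19] [5, 19, 95] [5, 19, 95] relsB95 e.1 e.2) = true := by
  unfold grB95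
  simp only [List.all_append, okB95_0, okB95_1, okB95_2, okB95_3, okB95_4, Bool.and_self]

theorem limB95 (hB : StBasic) (hCL : StCL) (hTor : StTor) {p : ℕ} (hp : p.Prime) (hNp : (760 : ℕ).Coprime p)
    (hex : p % 95 ∉ [31, 46, 56, 58, 77]) : LimLP (2 ^ 0 * 95) p :=
  lim_fam hB hCL hTor hp statB95 clsB95_ok grB95_ok hNp (by norm_num) hex (Or.inl rfl)

end Pool.Agent.Lib.MP81632f.Lv.Pot
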