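import Pool.Agent.Lib.MP_81632f_ag.Pot.Base

/-!
# Potential lattice property: the degrees
-/

set_option autoImplicit false

namespace Pool.Agent.Lib.MP81632f.Pot

open Pool.Agent.Lib.MP81632f.Diag
open Pool.Agent.Lib.MP81632f.Lv

variable {p m : ℕ}

/-- The exceptions for the degrees `2 ^ a K`: `(K, L)` means that the residues `L` of `p` modulo `K`
are excluded. -/
def tabE : List (ℕ × List ℕ) :=
  [(11, [1]),
    (13, [1]),
    (15, []),
    (17, [1]),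
    (19, [1, 7, 11]),
    (21, []),
    (29, [1]),
    (33, [1, 23]),
    (35, [1, 6, 8, 22, 29]),
    (37, [1, 10, 26]),
    (39, [1, 14]),
    (51, [1, 19, 25, 35, 38, 43, 47, 49]),
    (53, [1]),
    (55, [1, 12, 21, 23, 34]),
    (57, [1, 7, 11, 20, 26, 37, 49]),
    (59, [1]),
    (77, [1, 12, 23, 32, 34, 43, 45, 65, 67]),
    (87, [1, 46, 59, 70]),
    (93, [1, 25, 32, 61, 67]),
    (105, [1, 4, 16, 19, 22, 26, 29, 31, 34, 41, 43, 44, 46, 61, 64, 71, 74, 76, 79, 94, 101])]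

/-- The exceptions for other degrees: `(m, L)` means that the residues `L` of `p` modulo `m` are
excluded. -/
def tabO : List (ℕ × List ℕ) :=
  [(33, []),
    (39, []),
    (51, [1, 35]),
    (55, [21]),
    (57, [1, 20, 37]),
    (65, [1, 14, 21, 27, 31, 53]),
    (68, [1]),
    (69, [1, 4, 7, 10, 13, 16, 19, 22, 25, 28, 31, 34, 37, 40, 43, 47, 49, 52, 55, 58, 61, 64,
      67]),
    (76, [1, 39, 45, 49]),
    (85, [1, 18, 52, 69]),
    (87, [1, 59]),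
    (91, [1, 2, 3, 4, 8, 9, 11, 15, 16, 18, 22, 23, 25, 27, 29, 30, 32, 36, 37, 40, 43, 44, 46,
      48, 50, 51, 53, 55, 57, 58, 60, 61, 64, 66, 67, 68, 71, 72, 74, 79, 81, 85, 86, 87, 88]),
    (95, [31, 46, 56, 58, 77]),
    (105, [1, 22, 43, 64, 71, 76]),
    (231, [1, 23, 32, 34, 43, 65, 67, 89, 100, 109, 122, 142, 155, 166, 188, 197, 199, 221])]

/-- The base degrees `m` in characteristic `p`. -/
def BaseD (p m : ℕ) : Prop :=
  m.Prime ∨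
  (∃ a l : ℕ, l.Prime ∧ Odd (orderOf (2 : ZMod l)) ∧ m = 2 ^ a * l) ∨
  (∀ R : ℕ, R ∣ m → Odd R → Squarefree R → R ≠ 1 → Good p m R) ∨
  (∃ a : ℕ, ∃ e ∈ tabE, m = 2 ^ a * e.1 ∧ p % e.1 ∉ e.2) ∨
  (∃ e ∈ tabO, m = e.1 ∧ p % m ∉ e.2) ∨
  (p % 3 = 2 ∧ ∃ l j : ℕ, l.Prime ∧ l ≠ 2 ∧ (p ^ j ≡ 3 [MOD l] ∨ l ∣ p ^ j + 3) ∧ m = 3 * l) ∨
  (p % 4 = 3 ∧ ∃ l j : ℕ, l.Prime ∧ l ≠ 2 ∧ (p ^ j ≡ 2 [MOD l] ∨ l ∣ p ^ j + 2) ∧ m = 4 * l) ∨
  (p = 2 ∧ m ≤ 300 ∧ m ∉ [119, 133, 217, 219, 255, 267, 273, 287]) ∨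
  (p = 3 ∧ m ≤ 200 ∧ m ≠ 143)

/-- `d` is treated in characteristic `p`: it divides `m n` for a base degree `m` prime to `p` and an
odd number `n` whose prime divisors divide `m`. -/
def Deg (p d : ℕ) : Prop :=
  ∃ m n : ℕ, BaseD p m ∧ m.Coprime p ∧ Odd n ∧ (∀ l : ℕ, l.Prime → l ∣ n → l ∣ m) ∧ d ∣ m * n

/-- the degrees `2 ^ a K` -/
theorem tabE_lim (hCL : StCL) (hTor : StTor) (hp : p.Prime) {a K : ℕ} {L : List ℕ}
    (he : (K, L) ∈ tabE) (hmp : (2 ^ a * K).Coprime p) (hx : p % K ∉ L) :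
    LimLP (2 ^ a * K) p := by
  obtain hKp : K.Coprime p := hmp.coprime_dvd_left (dvd_mul_left _ _)
  obtain ⟨q1, q2, q3⟩ : 0 < K ∧ K ≤ 300 ∧ K ∉ [119, 133, 217, 219, 255, 267, 273, 287] := by
    have h1 : ∀ e ∈ tabE, 0 < e.1 ∧ e.1 ≤ 300 ∧ e.1 ∉ [119, 133, 217, 219, 255, 267, 273, 287] := by
      decide
    exact h1 _ he
  by_cases h2 : p = 2
  · subst h2
    obtain rfl : a = 0 := by
      by_contra h3
      have h4 : 2 ∣ 2 ^ a * K := (dvd_pow_self 2 h3).mul_right K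
      exact ne_of_cop hp hmp h4 rfl
    exact LimLP.dvd hp (dvd_of_eq (by rw [pow_zero, one_mul])) q1.ne' hKp
      ((two_lift q1 ⟨q2, q3⟩).lim hp q1 hKp)
  obtain hl : ∀ l : ℕ, l.Prime → l ∣ 2 ^ a * K → l = 2 ∨ l ∣ K := fun l hl hlm =>
    (hl.dvd_mul.mp hlm).imp_left fun h3 =>
      (Nat.prime_dvd_prime_iff_eq hl Nat.prime_two).mp (hl.dvd_of_dvd_pow h3)
  by_cases h15 : K = 15
  · subst h15
    refine limLP_235 stBasic hCL hTor hp fun l hlp hlm => ?_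
    rcases hl l hlp hlm with h3 | h3
    · exact Or.inl h3
    · exact Or.inr (prime_dvd_two (a := 3) (b := 5) hlp (by norm_num) (by norm_num) h3)
  by_cases h21 : K = 21
  · subst h21
    refine limLP_237 stBasic hCL hTor hp fun l hlp hlm => ?_
    rcases hl l hlp hlm with h3 | h3
    · exact Or.inl h3
    · exact Or.inr (prime_dvd_two (a := 3) (b := 7) hlp (by norm_num) (by norm_num) h3)
  obtain hA : (K, L) ∈ tabA := by
    have h1 : ∀ e ∈ tabE, e.1 ≠ 15 → e.1 ≠ 21 → e ∈ tabA := by decide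
    exact h1 _ he h15 h21
  exact tabA_lim stBasic hCL hTor hp h2 hA hKp hx hl

/-- the other degrees -/
theorem tabO_lim (hCL : StCL) (hTor : StTor) (hp : p.Prime) {L : List ℕ}
    (he : (m, L) ∈ tabO) (hmp : m.Coprime p) (hx : p % m ∉ L) : LimLP m p := by
  obtain ⟨q1, q2, q3, q4⟩ : 0 < m ∧ (m ≤ 300 ∧ m ∉ [119, 133, 217, 219, 255, 267, 273, 287]) ∧
      (m ≤ 100 → ∀ e ∈ tabC, e.1 = m → e.2 = L) ∧ (100 < m → (m, L) ∈ tabB) := by
    have h1 : ∀ e ∈ tabO, 0 < e.1 ∧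
        (e.1 ≤ 300 ∧ e.1 ∉ [119, 133, 217, 219, 255, 267, 273, 287]) ∧
        (e.1 ≤ 100 → ∀ e' ∈ tabC, e'.1 = e.1 → e'.2 = e.2) ∧ (100 < e.1 → e ∈ tabB) := by
      decide +kernel
    exact h1 _ he
  by_cases h2 : p = 2
  · subst h2
    exact (two_lift q1 q2).lim hp q1 hmp
  rcases le_or_gt m 100 with h3 | h3
  · refine tabC_lim hCL hTor hp q1 hmp ⟨h3, fun e he' h4 => ?_⟩
    rw [q3 h3 e he' h4]
    exact hx
  · exact tabB_lim stBasic hCL hTor hp h2 (q4 h3) hmp hx fun l _ hlm => hlm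

theorem base_lim (hCL : StCL) (hTor : StTor) (hp : p.Prime) (hmp : m.Coprime p)
    (h : BaseD p m) : LimLP m p := by
  obtain hm : 0 < m := by
    rcases Nat.eq_zero_or_pos m with h0 | h0
    · rw [h0, Nat.coprime_zero_left] at hmp
      exact absurd hmp hp.one_lt.ne'
    · exact h0
  obtain hF : Fact p.Prime := ⟨hp⟩
  rcases h with h | ⟨a, l, hl, h3, rfl⟩ | h | ⟨a, ⟨K, L⟩, he, rfl, hx⟩ |
    ⟨⟨K, L⟩, he, rfl, hx⟩ | ⟨hp3, l, j, hl, hl2, hj, rfl⟩ | ⟨hp4, l, j, hl, hl2, hj, rfl⟩ |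
    ⟨rfl, h⟩ | ⟨rfl, h1, h2⟩
  · by_cases h2 : m = 2
    · exact limLP_two_pow stBasic hCL hTor hp fun q hq hqm =>
        ((Nat.prime_dvd_prime_iff_eq hq h).mp hqm).trans h2
    · exact limLP_one stBasic hCL hTor hp h h2 fun q hq hqm =>
        (Nat.prime_dvd_prime_iff_eq hq h).mp hqm
  · obtain h' : ∀ q : ℕ, q.Prime → q ∣ 2 ^ a * l → q = 2 ∨ q = l := fun q hq hqm =>
      (hq.dvd_mul.mp hqm).imp
        (fun h4 => (Nat.prime_dvd_prime_iff_eq hq Nat.prime_two).mp (hq.dvd_of_dvd_pow h4))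
        fun h4 => (Nat.prime_dvd_prime_iff_eq hq hl).mp h4
    by_cases h2 : l = 2
    · exact limLP_two_pow stBasic hCL hTor hp fun q hq hqm => (h' q hq hqm).elim id
        fun h4 => h4.trans h2
    · exact limLP_prime stBasic hCL hTor hp hl h2 h3 h'
  · exact limLP_good stBasic hCL hTor hp fun R h1 h2 h3 h4 =>
      (h R h1 h2 h3 h4).goodR hTor hp h2 h3
  · exact tabE_lim hCL hTor hp he hmp hx
  · exact tabO_lim hCL hTor hp he hmp hx
  · exact (lift_of (lpa_3l hp3 hl hl2 hj)).lim hp hm hmp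
  · exact (lift_of (lpa_4l hp4 hl hl2 hj)).lim hp hm hmp
  · exact (two_lift hm h).lim hp hm hmp
  · by_cases h3 : m = 184
    · subst h3
      refine lim_23 hCL hTor hp fun l hl hlm => ?_
      have h6 : l ∣ 2 ^ 3 * 23 := hlm
      rcases hl.dvd_mul.mp h6 with h7 | h7
      · exact Or.inl ((Nat.prime_dvd_prime_iff_eq hl Nat.prime_two).mp (hl.dvd_of_dvd_pow h7))
      · exact Or.inr ((Nat.prime_dvd_prime_iff_eq hl (by norm_num)).mp h7)
    · refine (three_lift hm ⟨h1, ?_⟩).lim hp hm hmp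
      simp only [List.mem_cons, List.not_mem_nil, or_false, not_or]
      exact ⟨h2, h3⟩

theorem Deg.lim (hCL : StCL) (hTor : StTor) {d : ℕ} (hp : p.Prime) (h : Deg p d) :
    ∀ m : ℕ, m ∣ d → LimLP m p := by
  obtain ⟨m₀, n, hb, hmp, hn, hnm, hd⟩ := h
  intro m hm
  obtain h1 : LimLP (n * m₀) p :=
    limLP_odd stBasic hCL hTor hp hn hnm (base_lim hCL hTor hp hmp hb)
  obtain hm0 : m₀ ≠ 0 := by
    rintro rfl
    rw [Nat.coprime_zero_left] at hmp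
    exact hp.one_lt.ne' hmp
  obtain hnp : n.Coprime p := by
    rw [Nat.coprime_comm, Nat.Prime.coprime_iff_not_dvd hp]
    intro h2
    have h3 := hnm p hp h2
    exact ne_of_cop hp hmp h3 rfl
  exact LimLP.dvd hp (hm.trans (by rwa [mul_comm] at hd)) (Nat.mul_ne_zero hn.pos.ne' hm0)
    (Nat.Coprime.mul_left hnp hmp) h1

end Pool.Agent.Lib.MP81632f.Pot
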