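import Pool.Agent.Lib.MP_81632f_ag.Pot.PairD14

/-!
# Potential lattice property: the degrees with one odd prime factor
-/

set_option autoImplicit false

noncomputable section

namespace Pool.Agent.Lib.MP81632f.Lv

open Finset
open Pool.Agent.Lib.MP81632f.Diag

section

/-- the even function -/
theorem exists_even {a b : ℕ} (ha : a.Prime) (ha2 : a ≠ 2) [NeZero a] (hb0 : (b : ZMod a) ≠ 0)
    (hsq : IsSquare (b : ZMod a)) : ∃ g : ZMod a → ℤ,
    (∀ v, v ≠ 0 → g v - g (-v) = sg a v - sg a ((b : ZMod a)⁻¹ * v)) ∧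
    (∑ u : ZMod a with u ≠ 0, g u = 0) ∧ ∀ u, u ≠ 0 → Even (g u) := by
  have : Fact a.Prime := ⟨ha⟩
  have hao : Odd a := ha.odd_of_ne_two ha2
  obtain ⟨K, hK⟩ := cnt_even ha ha2 hb0 hsq
  have hgs := gam_sum ha ha2 hb0
  -- the function `g`
  set g : ZMod a → ℤ := fun u => 2 * (K : ℤ) * ((if u = 1 then 1 else 0) +
    if u = -1 then 1 else 0) + gam a b u with hg
  refine ⟨g, ?_, ?_, ?_⟩
  · intro v hv
    simp only [hg]
    have e1 : (-v = 1) ↔ (v = -1) := neg_eq_iff_eq_neg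
    have e2 : (-v = -1) ↔ (v = 1) := neg_inj
    have e3 : gam a b v - gam a b (-v) = sg a v - sg a ((b : ZMod a)⁻¹ * v) := by
      unfold gam
      rw [mul_neg, sg_neg hao, sg_neg hao]
      rcases sg_cases a hv with h | h
      · rw [h, if_neg (by decide), if_pos rfl]
        ring
      · rw [h, if_pos rfl, if_neg (by decide)]
        ring
    simp only [e1, e2]
    linear_combination e3
  · simp only [hg]
    have m1 : (1 : ZMod a) ∈ univ.filter (fun u : ZMod a => u ≠ 0) :=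
      mem_filter.mpr ⟨mem_univ _, one_ne_zero⟩
    have m2 : (-1 : ZMod a) ∈ univ.filter (fun u : ZMod a => u ≠ 0) :=
      mem_filter.mpr ⟨mem_univ _, neg_ne_zero.mpr one_ne_zero⟩
    rw [sum_add_distrib, hgs, ← mul_sum, sum_add_distrib, sum_ite_eq', sum_ite_eq', if_pos m1,
      if_pos m2, hK]
    push_cast
    ring
  · intro u hu
    simp only [hg]
    refine Even.add ⟨K * ((if u = 1 then 1 else 0) + if u = -1 then 1 else 0), by ring⟩ ?_
    unfold gam
    split_ifs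
    · exact (sg_odd hu).sub_odd (sg_odd (mul_ne_zero (inv_ne_zero hb0) hu))
    · exact Even.zero

/-- the function on the level `n l` -/
def Hl14 (l : ℕ) (g : ZMod l → ℤ) (n : ℕ) (z : ℤ) : ℤ :=
  if n = 1 then sg l z else if n = 2 then sg l z - sg l ((2 : ZMod l)⁻¹ * z) else
    if (n : ℤ) ∣ z - 1 then g z else if (n : ℤ) ∣ z + 1 then -g (-z) else 0

theorem Hl14_1 {l : ℕ} (g : ZMod l → ℤ) (z : ℤ) : Hl14 l g 1 z = sg l z := if_pos rfl

theorem Hl14_2 {l : ℕ} (g : ZMod l → ℤ) (z : ℤ) :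
    Hl14 l g 2 z = sg l z - sg l ((2 : ZMod l)⁻¹ * z) := by
  unfold Hl14
  rw [if_neg (show (2 : ℕ) ≠ 1 by decide), if_pos rfl]

theorem Hl14_big {l : ℕ} (g : ZMod l → ℤ) {n : ℕ} (hn : 2 < n) (z : ℤ) :
    Hl14 l g n z = if (n : ℤ) ∣ z - 1 then g z else if (n : ℤ) ∣ z + 1 then -g (-z) else 0 := by
  unfold Hl14
  have h1 : n ≠ 1 := by omega
  have h2 : n ≠ 2 := by omega
  rw [if_neg h1, if_neg h2]

theorem Hl14_neg {l : ℕ} [NeZero l] (hl : Odd l) (g : ZMod l → ℤ) {n : ℕ} (hn : n = 1 ∨ n = 2 ∨ 2 < n)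
    (z : ℤ) : Hl14 l g n (-z) = -Hl14 l g n z := by
  rcases hn with rfl | rfl | hn
  · rw [Hl14_1, Hl14_1]
    push_cast
    exact sg_neg hl _
  · rw [Hl14_2, Hl14_2]
    push_cast
    rw [mul_neg, sg_neg hl, sg_neg hl]
    ring
  · rw [Hl14_big g hn, Hl14_big g hn]
    have e1 : ((n : ℤ) ∣ -z - 1) ↔ (n : ℤ) ∣ z + 1 := by
      rw [← dvd_neg, show -(-z - 1) = z + 1 by ring]
    have e2 : ((n : ℤ) ∣ -z + 1) ↔ (n : ℤ) ∣ z - 1 := by
      rw [← dvd_neg, show -(-z + 1) = z - 1 by ring]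
    simp only [e1, e2]
    by_cases h1 : (n : ℤ) ∣ z - 1
    · have h2 : ¬ (n : ℤ) ∣ z + 1 := by
        intro h2
        have h3 := dvd_sub h2 h1
        have e : z + 1 - (z - 1) = 2 := by ring
        rw [e] at h3
        have := Int.le_of_dvd (by norm_num) h3
        omega
      rw [if_neg h2, if_pos h1, if_pos h1]
      push_cast
      rw [neg_neg]
    · by_cases h2 : (n : ℤ) ∣ z + 1
      · rw [if_pos h2, if_neg h1, if_pos h2]
        push_cast
        rw [neg_neg]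
      · rw [if_neg h2, if_neg h1, if_neg h1, if_neg h2, neg_zero]

theorem Hl14_per {l : ℕ} (g : ZMod l → ℤ) (n : ℕ) (z k : ℤ) :
    Hl14 l g n (z + k * (n * l : ℕ)) = Hl14 l g n z := by
  unfold Hl14
  have e0 : ((z + k * (n * l : ℕ) : ℤ) : ZMod l) = z := by
    push_cast
    rw [ZMod.natCast_self l, mul_zero, mul_zero, add_zero]
  have e1 : ((n : ℤ) ∣ z + k * (n * l : ℕ) - 1) ↔ (n : ℤ) ∣ z - 1 := by
    have e : z + k * (n * l : ℕ) - 1 = (z - 1) + n * (k * l) := by push_cast; ring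
    rw [e]
    exact dvd_add_left (dvd_mul_right _ _)
  have e2 : ((n : ℤ) ∣ z + k * (n * l : ℕ) + 1) ↔ (n : ℤ) ∣ z + 1 := by
    have e : z + k * (n * l : ℕ) + 1 = (z + 1) + n * (k * l) := by push_cast; ring
    rw [e]
    exact dvd_add_left (dvd_mul_right _ _)
  rw [e0]
  simp only [e1, e2]

/-- the sums over the residues modulo `l` vanish -/
theorem Hl14_sum {l : ℕ} (hl : l.Prime) [NeZero l] (hlo : Odd l) {g : ZMod l → ℤ}
    (hg : ∑ u : ZMod l with u ≠ 0, g u = 0) (n : ℕ) (hn : IsCoprime (n : ℤ) (l : ℤ)) (z : ℤ) :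
    ∑ k ∈ Ico 1 l, Hl14 l g n (l * z + k * n) = 0 := by
  have hc : ∀ k : ℕ, ((l * z + k * n : ℤ) : ZMod l) = (((k : ℕ) : ℤ) * n : ℤ) := by
    intro k
    push_cast
    rw [ZMod.natCast_self l, zero_mul, zero_add]
  have hneg : ∑ u : ZMod l with u ≠ 0, g (-u) = 0 := by
    have h3 : ∑ u : ZMod l with u ≠ 0, g (-u) = ∑ u : ZMod l with u ≠ 0, g u := by
      refine Finset.sum_bij' (i := fun u _ => -u) (j := fun u _ => -u) ?_ ?_ ?_ ?_ ?_ <;>
        simp
    rw [h3, hg]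
  unfold Hl14
  by_cases h1 : n = 1
  · subst h1
    simp only [if_true, hc]
    rw [sum_Ico_cast hl (fun u => sg l u) hn]
    exact sum_odd_zero _ (sg_neg hlo)
  · by_cases h2 : n = 2
    · subst h2
      simp only [if_true, if_neg (show (2 : ℕ) ≠ 1 by decide), hc]
      rw [sum_Ico_cast hl (fun u => sg l u - sg l ((2 : ZMod l)⁻¹ * u)) hn]
      refine sum_odd_zero _ fun u => ?_
      rw [mul_neg, sg_neg hlo, sg_neg hlo]
      ring
    · simp only [if_neg h1, if_neg h2, hc]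
      have e1 : ∀ k : ℕ, ((n : ℤ) ∣ (l : ℤ) * z + k * n - 1) ↔ (n : ℤ) ∣ (l : ℤ) * z - 1 := by
        intro k
        have e : (l : ℤ) * z + k * n - 1 = (l * z - 1) + n * k := by ring
        rw [e]
        exact dvd_add_left (dvd_mul_right _ _)
      have e2 : ∀ k : ℕ, ((n : ℤ) ∣ (l : ℤ) * z + k * n + 1) ↔ (n : ℤ) ∣ (l : ℤ) * z + 1 := by
        intro k
        have e : (l : ℤ) * z + k * n + 1 = (l * z + 1) + n * k := by ring
        rw [e]
        exact dvd_add_left (dvd_mul_right _ _)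
      simp only [e1, e2]
      by_cases h3 : (n : ℤ) ∣ (l : ℤ) * z - 1
      · simp only [if_pos h3]
        rw [sum_Ico_cast hl (fun u => g u) hn]
        exact hg
      · by_cases h4 : (n : ℤ) ∣ (l : ℤ) * z + 1
        · simp only [if_neg h3, if_pos h4]
          rw [sum_Ico_cast hl (fun u => -g (-u)) hn, sum_neg_distrib, hneg, neg_zero]
        · simp only [if_neg h3, if_neg h4]
          exact sum_const_zero

/-- halving -/
theorem Hl14_two {l : ℕ} (hlo : Odd l) {g : ZMod l → ℤ} {n : ℕ} (hn2 : 2 < n)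
    (z : ℤ) : Hl14 l g (2 * n) z + Hl14 l g (2 * n) (z + (n * l : ℕ)) = Hl14 l g n z := by
  obtain ⟨t, ht⟩ := hlo
  have e0 : ((z + (n * l : ℕ) : ℤ) : ZMod l) = z := by
    push_cast
    rw [ZMod.natCast_self l, mul_zero, add_zero]
  -- the residues modulo `2 n`
  have key : ∀ w : ℤ, (n : ℤ) ∣ w → (((2 * n : ℕ) : ℤ) ∣ w ∧ ¬ ((2 * n : ℕ) : ℤ) ∣ w + (n * l : ℕ)) ∨
      (¬ ((2 * n : ℕ) : ℤ) ∣ w ∧ ((2 * n : ℕ) : ℤ) ∣ w + (n * l : ℕ)) := by
    rintro w ⟨c, rfl⟩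
    have hn0 : (n : ℤ) ≠ 0 := by
      have : n ≠ 0 := by omega
      exact_mod_cast this
    have f1 : ((2 * n : ℕ) : ℤ) ∣ (n : ℤ) * c ↔ (2 : ℤ) ∣ c := by
      push_cast
      rw [mul_comm (2 : ℤ) n]
      exact mul_dvd_mul_iff_left hn0
    have f2 : ((2 * n : ℕ) : ℤ) ∣ (n : ℤ) * c + (n * l : ℕ) ↔ (2 : ℤ) ∣ c + l := by
      have e : (n : ℤ) * c + (n * l : ℕ) = n * (c + l) := by push_cast; ring
      rw [e]
      push_cast
      rw [mul_comm (2 : ℤ) n]
      exact mul_dvd_mul_iff_left hn0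
    rw [f1, f2]
    omega
  have hnd : ∀ w : ℤ, ((2 * n : ℕ) : ℤ) ∣ w → (n : ℤ) ∣ w := fun w hw =>
    (Dvd.intro_left (2 : ℤ) (by push_cast; ring)).trans hw
  have hnd2 : ∀ w : ℤ, ((2 * n : ℕ) : ℤ) ∣ w + (n * l : ℕ) → (n : ℤ) ∣ w := by
    intro w hw
    have h1 := hnd _ hw
    push_cast at h1
    exact (dvd_add_left (dvd_mul_right _ _)).mp h1
  have hexcl : ∀ w : ℤ, (n : ℤ) ∣ w - 1 → ¬ (n : ℤ) ∣ w + 1 := by
    intro w h1 h2
    have h3 := dvd_sub h2 h1
    have e : w + 1 - (w - 1) = 2 := by ring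
    rw [e] at h3
    have := Int.le_of_dvd (by norm_num) h3
    omega
  have r1 : z + (n * l : ℕ) - 1 = (z - 1) + (n * l : ℕ) := by ring
  have r2 : z + (n * l : ℕ) + 1 = (z + 1) + (n * l : ℕ) := by ring
  rw [Hl14_big g (show 2 < 2 * n by omega), Hl14_big g (show 2 < 2 * n by omega),
    Hl14_big g hn2, e0, r1, r2]
  by_cases h1 : (n : ℤ) ∣ z - 1
  · have h2 := hexcl z h1
    have h3 : ¬ ((2 * n : ℕ) : ℤ) ∣ z + 1 := fun h => h2 (hnd _ h)
    have h4 : ¬ ((2 * n : ℕ) : ℤ) ∣ (z + 1) + (n * l : ℕ) := fun h => h2 (hnd2 _ h)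
    rw [if_pos h1, if_neg h3, if_neg h4]
    rcases key _ h1 with ⟨h5, h6⟩ | ⟨h5, h6⟩
    · rw [if_pos h5, if_neg h6, add_zero]
    · rw [if_neg h5, if_pos h6, zero_add]
  · have h3 : ¬ ((2 * n : ℕ) : ℤ) ∣ z - 1 := fun h => h1 (hnd _ h)
    have h4 : ¬ ((2 * n : ℕ) : ℤ) ∣ (z - 1) + (n * l : ℕ) := fun h => h1 (hnd2 _ h)
    rw [if_neg h1, if_neg h3, if_neg h4]
    by_cases h2 : (n : ℤ) ∣ z + 1
    · rw [if_pos h2]
      rcases key _ h2 with ⟨h5, h6⟩ | ⟨h5, h6⟩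
      · rw [if_pos h5, if_neg h6, add_zero]
      · rw [if_neg h5, if_pos h6, zero_add]
    · have h5 : ¬ ((2 * n : ℕ) : ℤ) ∣ z + 1 := fun h => h2 (hnd _ h)
      have h6 : ¬ ((2 * n : ℕ) : ℤ) ∣ (z + 1) + (n * l : ℕ) := fun h => h2 (hnd2 _ h)
      rw [if_neg h2, if_neg h5, if_neg h6, add_zero]

/-- from the level `4 l` to the level `2 l` -/
theorem Hl14_four {l : ℕ} (hlo : Odd l) {g : ZMod l → ℤ}
    (hg : ∀ v, v ≠ 0 → g v - g (-v) = sg l v - sg l ((2 : ZMod l)⁻¹ * v)) {z : ℤ}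
    (hz2 : ¬ (2 : ℤ) ∣ z) (hzl : ¬ (l : ℤ) ∣ z) :
    Hl14 l g 4 z + Hl14 l g 4 (z + (2 * l : ℕ)) = Hl14 l g 2 z := by
  obtain ⟨t, ht⟩ := hlo
  have e0 : ((z + (2 * l : ℕ) : ℤ) : ZMod l) = z := by
    push_cast
    rw [ZMod.natCast_self l, mul_zero, add_zero]
  have hz0 : (z : ZMod l) ≠ 0 := by
    rw [Ne, ZMod.intCast_zmod_eq_zero_iff_dvd]
    exact hzl
  have h1 := hg _ hz0
  rw [Hl14_big g (show 2 < 4 by decide), Hl14_big g (show 2 < 4 by decide), Hl14_2, e0, ← h1]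
  have hc : ((4 : ℕ) : ℤ) ∣ z - 1 ∨ ((4 : ℕ) : ℤ) ∣ z + 1 := by
    push_cast
    omega
  rcases hc with h2 | h2
  · have h3 : ¬ ((4 : ℕ) : ℤ) ∣ z + (2 * l : ℕ) - 1 := by
      push_cast at h2 ⊢
      omega
    have h4 : ((4 : ℕ) : ℤ) ∣ z + (2 * l : ℕ) + 1 := by
      push_cast at h2 ⊢
      omega
    rw [if_pos h2, if_neg h3, if_pos h4]
    ring
  · have h5 : ¬ ((4 : ℕ) : ℤ) ∣ z - 1 := by
      push_cast at h2 ⊢
      omega
    have h3 : ((4 : ℕ) : ℤ) ∣ z + (2 * l : ℕ) - 1 := by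
      push_cast at h2 ⊢
      omega
    rw [if_neg h5, if_pos h2, if_pos h3]
    ring

/-- the family on the level `2 ^ e l` -/
def Fl14 (l : ℕ) (g : ZMod l → ℤ) (r : ℕ) (z : ℤ) : ℤ := if l ∣ r then Hl14 l g (r / l) z else 0

theorem div_two_pow {l e r : ℕ} (hl : l.Prime) (hr : r ∣ 2 ^ e * l) :
    (∃ v, r = 2 ^ v) ∨ ∃ v, r = 2 ^ v * l := by
  obtain ⟨x, y, hx, hy, rfl⟩ := (Nat.dvd_mul).mp hr
  obtain ⟨v, -, rfl⟩ := (Nat.dvd_prime_pow Nat.prime_two).mp hx
  rcases (Nat.dvd_prime hl).mp hy with rfl | rfl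
  · exact Or.inl ⟨v, mul_one _⟩
  · exact Or.inr ⟨v, rfl⟩

theorem Fl14_pow {l : ℕ} (hl : l.Prime) (hl2 : l ≠ 2) (g : ZMod l → ℤ) (v : ℕ) (z : ℤ) :
    Fl14 l g (2 ^ v) z = 0 := by
  unfold Fl14
  rw [if_neg]
  intro h
  exact hl2 ((Nat.prime_dvd_prime_iff_eq hl Nat.prime_two).mp (hl.dvd_of_dvd_pow h))

theorem Fl14_mul {l : ℕ} (hl : l.Prime) (g : ZMod l → ℤ) (n : ℕ) (z : ℤ) :
    Fl14 l g (n * l) z = Hl14 l g n z := by
  unfold Fl14
  rw [if_pos (dvd_mul_left l n), Nat.mul_div_cancel _ hl.pos]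

theorem odd_two_pow {v : ℕ} (h : Odd (2 ^ v)) : v = 0 := by
  by_contra hv
  exact absurd (h.of_dvd_nat (dvd_pow_self 2 hv)) (by decide)

theorem two_pow_cases (v : ℕ) : 2 ^ v = 1 ∨ 2 ^ v = 2 ∨ 2 < 2 ^ v := by
  rcases v with _ | _ | v
  · exact Or.inl rfl
  · exact Or.inr (Or.inl rfl)
  · refine Or.inr (Or.inr ?_)
    have : 0 < 2 ^ v := Nat.two_pow_pos v
    rw [pow_succ, pow_succ]
    omega

/-- the family is a distribution -/
theorem dfam_two {l e : ℕ} (hl : l.Prime) (hl2 : l ≠ 2) [NeZero l] {g : ZMod l → ℤ}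
    (hg1 : ∀ v, v ≠ 0 → g v - g (-v) = sg l v - sg l ((2 : ZMod l)⁻¹ * v))
    (hg2 : ∑ u : ZMod l with u ≠ 0, g u = 0) :
    DFam (2 ^ e * l) (Fl14 l g) ∧ D2 (2 ^ e * l) (Fl14 l g) := by
  have : Fact l.Prime := ⟨hl⟩
  have hlo : Odd l := hl.odd_of_ne_two hl2
  have h20 : (2 : ZMod l) ≠ 0 := by
    have h1 : ((2 : ℕ) : ZMod l) ≠ 0 := by
      rw [Ne, ZMod.natCast_eq_zero_iff]
      exact fun h => hl2 ((Nat.prime_dvd_prime_iff_eq hl Nat.prime_two).mp h)
    exact_mod_cast h1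
  have hl2v : ∀ v : ℕ, ¬ l ∣ 2 ^ v := fun v h =>
    hl2 ((Nat.prime_dvd_prime_iff_eq hl Nat.prime_two).mp (hl.dvd_of_dvd_pow h))
  have hq : ∀ q r : ℕ, q.Prime → q * r ∣ 2 ^ e * l → q = 2 ∨ q = l := by
    intro q r hqp h
    rcases hqp.dvd_mul.mp ((dvd_mul_right q r).trans h) with h1 | h1
    · exact Or.inl ((Nat.prime_dvd_prime_iff_eq hqp Nat.prime_two).mp (hqp.dvd_of_dvd_pow h1))
    · exact Or.inr ((Nat.prime_dvd_prime_iff_eq hqp hl).mp h1)
  refine ⟨⟨?_, ?_, ?_⟩, ?_⟩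
  · intro r z hr
    rcases div_two_pow hl hr with ⟨v, rfl⟩ | ⟨v, rfl⟩
    · rw [Fl14_pow hl hl2, Fl14_pow hl hl2]
    · rw [Fl14_mul hl, Fl14_mul hl]
      have h1 := Hl14_per g (2 ^ v) z 1
      rw [one_mul] at h1
      exact h1
  · intro r z hr
    rcases div_two_pow hl hr with ⟨v, rfl⟩ | ⟨v, rfl⟩
    · rw [Fl14_pow hl hl2, Fl14_pow hl hl2, neg_zero]
    · rw [Fl14_mul hl, Fl14_mul hl]
      exact Hl14_neg hlo g (two_pow_cases v) z
  · intro r q z hqp hqr hqm hz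
    rcases div_two_pow hl ((dvd_mul_left r q).trans hqm) with ⟨v, rfl⟩ | ⟨v, rfl⟩
    · rw [Fl14_pow hl hl2, Fl14_pow hl hl2, sub_zero]
      rcases hq q _ hqp hqm with rfl | rfl
      · refine sum_eq_zero fun k _ => ?_
        rw [← pow_succ', Fl14_pow hl hl2]
      · have hc : IsCoprime ((2 ^ v : ℕ) : ℤ) (q : ℤ) := by
          refine Nat.isCoprime_iff_coprime.mpr ?_
          exact ((Nat.Prime.coprime_iff_not_dvd hl).mpr (hl2v v)).symm
        have h1 := Hl14_sum hl hlo hg2 (2 ^ v) hc z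
        rw [← h1]
        refine sum_congr rfl fun k _ => ?_
        rw [mul_comm q, Fl14_mul hl]
    · rcases hq q _ hqp hqm with rfl | rfl
      · obtain rfl : v = 0 := by
          by_contra hv
          exact hqr ((dvd_pow_self 2 hv).mul_right l)
        rw [pow_zero, one_mul]
        have h1 : Ico 1 2 = {1} := by decide
        rw [h1, sum_singleton, Fl14_mul hl]
        have h2 : ∀ z : ℤ, Fl14 l g l z = sg l z := by
          intro z
          have h3 := Fl14_mul hl g 1 z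
          rw [one_mul, Hl14_1] at h3
          exact h3
        rw [h2, h2, Hl14_2]
        push_cast
        rw [ZMod.natCast_self l, mul_zero, add_zero, inv_mul_cancel_left₀ h20]
      · exact absurd (dvd_mul_left q _) hqr
  · intro r q z hqp hqr hqm hz
    rcases div_two_pow hl ((dvd_mul_left r q).trans hqm) with ⟨v, rfl⟩ | ⟨v, rfl⟩
    · rw [Fl14_pow hl hl2]
      rcases hq q _ hqp hqm with rfl | rfl
      · refine sum_eq_zero fun k _ => ?_
        rw [← pow_succ', Fl14_pow hl hl2]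
      · exact absurd hqr (hl2v v)
    · rcases hq q _ hqp hqm with rfl | rfl
      · have h1 : range 2 = {0, 1} := by decide
        rw [h1, sum_pair (by decide), Fl14_mul hl]
        have h2 : ∀ z : ℤ, Fl14 l g (2 * (2 ^ v * l)) z = Hl14 l g (2 * 2 ^ v) z := by
          intro z
          rw [← mul_assoc, Fl14_mul hl]
        rw [h2, h2]
        push_cast
        rw [zero_mul, add_zero, one_mul]
        have hzl : ¬ (l : ℤ) ∣ z := by
          intro h
          have h3 : (l : ℤ) ∣ ((2 ^ v * l : ℕ) : ℤ) := by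
            push_cast
            exact dvd_mul_left _ _
          exact (Nat.prime_iff_prime_int.mp hl).not_isUnit (hz.isUnit_of_dvd' h h3)
        have hz2 : ¬ (2 : ℤ) ∣ z := by
          intro h
          have h3 : (2 : ℤ) ∣ ((2 ^ v * l : ℕ) : ℤ) := by exact_mod_cast hqr
          exact Int.prime_two.not_isUnit (hz.isUnit_of_dvd' h h3)
        rcases v with _ | _ | v
        · exfalso
          rw [pow_zero, one_mul] at hqr
          exact hl2 ((Nat.prime_dvd_prime_iff_eq Nat.prime_two hl).mp hqr).symm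
        · have h3 := Hl14_four hlo hg1 hz2 hzl
          push_cast at h3
          norm_num
          exact h3
        · have h4 : 2 < 2 ^ (v + 2) := by
            have : 0 < 2 ^ v := Nat.two_pow_pos v
            rw [pow_succ, pow_succ]
            omega
          have h3 := Hl14_two hlo (g := g) h4 z
          push_cast at h3
          exact h3
      · exfalso
        have h3 : q * (2 ^ v * q) ∣ 2 ^ e * q := hqm
        rw [← mul_assoc] at h3
        have h4 := Nat.dvd_of_mul_dvd_mul_right hl.pos h3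
        exact hl2v e ((dvd_mul_right q _).trans h4)

/-- the radical `l` on the level `2 ^ e l` -/
theorem nR_even_two (hTor : StTor) {p l e : ℕ} (hl : l.Prime) (hl2 : l ≠ 2)
    (hsq : IsSquare (2 : ZMod l)) (hpm : (2 ^ e * l).Coprime p) [NeZero (2 ^ e * l)]
    (hf : Odd (orderOf (p : ZMod (2 ^ e * l)))) {v : ZMod (2 ^ e * l) → ℤ}
    (hv : Bal (2 ^ e * l) p v) : Even (nR (2 ^ e * l) l v) := by
  have : Fact l.Prime := ⟨hl⟩
  have : NeZero l := ⟨hl.ne_zero⟩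
  have h20 : ((2 : ℕ) : ZMod l) ≠ 0 := by
    rw [Ne, ZMod.natCast_eq_zero_iff]
    exact fun h => hl2 ((Nat.prime_dvd_prime_iff_eq hl Nat.prime_two).mp h)
  obtain ⟨g, h1, h2, h3⟩ := exists_even hl hl2 h20 (by exact_mod_cast hsq)
  have h1' : ∀ v, v ≠ 0 → g v - g (-v) = sg l v - sg l ((2 : ZMod l)⁻¹ * v) := by
    intro v hv
    have h4 := h1 v hv
    rw [Nat.cast_ofNat] at h4
    exact h4
  obtain ⟨a1, a2⟩ := dfam_two (e := e) hl hl2 h1' h2
  refine nR_evenT hTor hpm.symm a1 a2 hf (R₁ := l) ?_ hv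
  intro r z hr hz
  have h20' : (2 : ZMod l) ≠ 0 := by exact_mod_cast h20
  rcases div_two_pow hl hr with ⟨v, rfl⟩ | ⟨v, rfl⟩
  · rw [Fl14_pow hl hl2]
    refine iff_of_false (by decide) ?_
    rintro ⟨h4, h5⟩
    have h6 : l ∣ 2 ^ v := by
      rw [← h5]
      exact rad_dvd _
    exact hl2 ((Nat.prime_dvd_prime_iff_eq hl Nat.prime_two).mp (hl.dvd_of_dvd_pow h6))
  · rw [Fl14_mul hl]
    have hz0 : (z : ZMod l) ≠ 0 := by
      rw [Ne, ZMod.intCast_zmod_eq_zero_iff_dvd]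
      intro h
      have h3 : (l : ℤ) ∣ ((2 ^ v * l : ℕ) : ℤ) := by
        push_cast
        exact dvd_mul_left _ _
      exact (Nat.prime_iff_prime_int.mp hl).not_isUnit (hz.isUnit_of_dvd' h h3)
    rcases v with _ | _ | v
    · rw [pow_zero, Hl14_1, one_mul]
      exact iff_of_true (sg_odd hz0) ⟨hl.odd_of_ne_two hl2, rad_prime hl⟩
    · have e1 : (2 : ℕ) ^ (0 + 1) = 2 := rfl
      rw [e1, Hl14_2]
      refine iff_of_false ?_ ?_
      · rw [Int.not_odd_iff_even]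
        exact (sg_odd hz0).sub_odd (sg_odd (mul_ne_zero (inv_ne_zero h20') hz0))
      · rintro ⟨h4, -⟩
        rw [Nat.odd_mul] at h4
        exact absurd h4.1 (by decide)
    · have h4 : 2 < 2 ^ (v + 2) := by
        have : 0 < 2 ^ v := Nat.two_pow_pos v
        rw [pow_succ, pow_succ]
        omega
      rw [Hl14_big g h4]
      refine iff_of_false ?_ ?_
      · rw [Int.not_odd_iff_even]
        split_ifs
        · exact h3 _ hz0
        · exact (h3 _ (neg_ne_zero.mpr hz0)).neg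
        · exact Even.zero
      · rintro ⟨h5, -⟩
        rw [Nat.odd_mul] at h5
        have h6 := odd_two_pow h5.1
        omega

/-- **The degrees `2 ^ e l`.** -/
theorem limLP_two_prime (hB : StBasic) (hCL : StCL) (hTor : StTor) {p : ℕ} (hp : p.Prime)
    {l e : ℕ} (hl : l.Prime) (hl2 : l ≠ 2) (hsq : IsSquare (2 : ZMod l))
    (hpm : (2 ^ e * l).Coprime p) (hf : Odd (orderOf (p : ZMod (2 ^ e * l)))) :
    LimLP (2 ^ e * l) p := by
  refine limLP_of_vec hB hCL hTor hp fun {hM} v hv => ?_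
  refine vecA_of_sum hp {l} (fun R h1 h2 h3 h4 => ?_) ?_
  · by_cases h5 : R ∣ 2 ^ e * l
    · exfalso
      apply h4
      rw [mem_singleton]
      rcases div_two_pow hl h5 with ⟨w, rfl⟩ | ⟨w, rfl⟩
      · obtain rfl := odd_two_pow h1
        exact absurd (one_dvd _) (h3 0)
      · rw [Nat.odd_mul] at h1
        obtain rfl := odd_two_pow h1.1
        rw [pow_zero, one_mul]
    · rw [nR_of_not h5]
      exact Even.zero
  · rw [sum_singleton]
    exact even_smul_mem hp (nR_even_two hTor hl hl2 hsq hpm hf hv) l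

end

end Pool.Agent.Lib.MP81632f.Lv
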