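import Pool.Agent.Lib.MP_81632f_ag.Pot.Deg
import Pool.Agent.Lib.MP_81632f_ag.Pot.PairE14

/-!
# Potential lattice property: the degrees, with two more families
-/

set_option autoImplicit false

namespace Pool.Agent.Lib.MP81632f.Pot

open Pool.Agent.Lib.MP81632f.Diag
open Pool.Agent.Lib.MP81632f.Lv

variable {p m : ℕ}

/-- The base degrees `m` in characteristic `p`. -/
def BaseF (p m : ℕ) : Prop :=
  m.Prime ∨
  (∃ a l : ℕ, l.Prime ∧ Odd (orderOf (2 : ZMod l)) ∧ m = 2 ^ a * l) ∨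
  (∃ a l : ℕ, l.Prime ∧ l ≠ 2 ∧ IsSquare (2 : ZMod l) ∧ m = 2 ^ a * l ∧
    Odd (orderOf (p : ZMod m))) ∨
  (∃ l q : ℕ, l.Prime ∧ q.Prime ∧ l ≠ q ∧ l % 4 = 1 ∧ q ≠ 2 ∧ IsSquare (q : ZMod l) ∧
    m = l * q ∧ Odd (orderOf (p : ZMod m))) ∨
  (∀ R : ℕ, R ∣ m → Odd R → Squarefree R → R ≠ 1 → Good p m R) ∨
  (∃ a : ℕ, ∃ e ∈ tabE, m = 2 ^ a * e.1 ∧ p % e.1 ∉ e.2) ∨
  (∃ e ∈ tabO, m = e.1 ∧ p % m ∉ e.2) ∨
  (p % 3 = 2 ∧ ∃ l j : ℕ, l.Prime ∧ l ≠ 2 ∧ (p ^ j ≡ 3 [MOD l] ∨ l ∣ p ^ j + 3) ∧ m = 3 * l) ∨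
  (p % 4 = 3 ∧ ∃ l j : ℕ, l.Prime ∧ l ≠ 2 ∧ (p ^ j ≡ 2 [MOD l] ∨ l ∣ p ^ j + 2) ∧ m = 4 * l) ∨
  (p = 2 ∧ m ≤ 300 ∧ m ∉ [119, 133, 217, 219, 255, 267, 273, 287]) ∨
  (p = 3 ∧ m ≤ 200 ∧ m ≠ 143)

/-- `d` is treated in characteristic `p`: it divides `m n` for a base degree `m` prime to `p` and an
odd number `n` whose prime divisors divide `m`. -/
def DegF (p d : ℕ) : Prop :=
  ∃ m n : ℕ, BaseF p m ∧ m.Coprime p ∧ Odd n ∧ (∀ l : ℕ, l.Prime → l ∣ n → l ∣ m) ∧ d ∣ m * n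

theorem baseF_lim (hCL : StCL) (hTor : StTor) (hp : p.Prime) (hmp : m.Coprime p)
    (h : BaseF p m) : LimLP m p := by
  rcases h with h | h | ⟨a, l, hl, hl2, hsq, rfl, ho⟩ | ⟨l, q, hl, hq, hlq, hl4, hq2, hsq, rfl, ho⟩ | h
  · exact base_lim hCL hTor hp hmp (Or.inl h)
  · exact base_lim hCL hTor hp hmp (Or.inr (Or.inl h))
  · exact limLP_two_prime stBasic hCL hTor hp hl hl2 hsq hmp ho
  · exact limLP_pair stBasic hCL hTor hp hl hq hlq hl4 hq2 hsq hmp ho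
  · exact base_lim hCL hTor hp hmp (Or.inr (Or.inr h))

theorem DegF.lim (hCL : StCL) (hTor : StTor) {d : ℕ} (hp : p.Prime) (h : DegF p d) :
    ∀ m : ℕ, m ∣ d → LimLP m p := by
  obtain ⟨m₀, n, hb, hmp, hn, hnm, hd⟩ := h
  intro m hm
  obtain h1 : LimLP (n * m₀) p :=
    limLP_odd stBasic hCL hTor hp hn hnm (baseF_lim hCL hTor hp hmp hb)
  obtain hm0 : m₀ ≠ 0 := by
    rintro rfl
    rw [Nat.coprime_zero_left] at hmp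
    exact hp.one_lt.ne' hmp
  obtain hnp : n.Coprime p := by
    rw [Nat.coprime_comm, Nat.Prime.coprime_iff_not_dvd hp]
    intro h2
    have h3 := hnm p hp h2
    exact ne_of_cop hp hmp h3 rfl
  exact LimLP.dvd hp (hm.trans (by rwa [mul_comm] at hd)) (Nat.mul_ne_zero hn.pos.ne' hm0)
    (Nat.Coprime.mul_left hnp hmp) h1

end Pool.Agent.Lib.MP81632f.Pot
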