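import Pool.Agent.Lib.MP_81632f_ag.Pot.PairJ14

/-!
# Potential lattice property: the degrees `2 ^ e a b`
-/

set_option autoImplicit false

noncomputable section

namespace Pool.Agent.Lib.MP81632f.Lv

open Finset
open Pool.Agent.Lib.MP81632f.Diag

section

variable {a b : ℕ}

theorem pow_cases (v : ℕ) : v = 0 ∨ v = 1 ∨ (v ≠ 0 ∧ 2 < 2 ^ v) := by
  rcases v with _ | _ | v
  · exact Or.inl rfl
  · exact Or.inr (Or.inl rfl)
  · refine Or.inr (Or.inr ⟨by omega, ?_⟩)
    have : 0 < 2 ^ v := Nat.two_pow_pos v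
    rw [pow_succ, pow_succ]
    omega

/-- the radical `a` -/
theorem famK1 {e : ℕ} (ha : a.Prime) (hb : b.Prime) (hab : a ≠ b) (ha2 : a ≠ 2) (hb2 : b ≠ 2)
    (hsb : IsSquare (b : ZMod a)) (hs2 : IsSquare (2 : ZMod a)) : HasT (2 ^ e * (a * b)) a := by
  have : Fact a.Prime := ⟨ha⟩
  have : Fact b.Prime := ⟨hb⟩
  have : NeZero a := ⟨ha.ne_zero⟩
  have : NeZero b := ⟨hb.ne_zero⟩
  have hao : Odd a := ha.odd_of_ne_two ha2
  have hbo : Odd b := hb.odd_of_ne_two hb2
  have hba := cast_ne hb ha hab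
  have h2a : ((2 : ℕ) : ZMod a) ≠ 0 := cast_ne Nat.prime_two ha ha2
  have h2b : ((2 : ℕ) : ZMod b) ≠ 0 := cast_ne Nat.prime_two hb hb2
  obtain ⟨G, G1, G2, G3, G4⟩ := exists_pair ha hb hab ha2 hb2 hsb
  obtain ⟨g, g1, g2, g3⟩ := exists_even ha ha2 h2a (by exact_mod_cast hs2)
  rw [Nat.cast_ofNat] at h2a h2b g1
  set P : ZMod a → ZMod b → ℤ := fun u w => if w = 1 then g ((b : ZMod a)⁻¹ * u) else 0 with hPd
  have hP1 : ∀ u, ∑ w : ZMod b with w ≠ 0, P u w = g ((b : ZMod a)⁻¹ * u) := by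
    intro u
    simp only [hPd]
    exact sum_one_unit one_ne_zero _
  have hP2 : ∀ w, ∑ u : ZMod a with u ≠ 0, P u w = 0 := by
    intro w
    simp only [hPd]
    rw [sum_if_const]
    split_ifs
    · rw [sum_mul_units ha (inv_ne_zero hba) g, g2]
    · rfl
  have hP3 : ∀ u w, u ≠ 0 → Even (P u w) := by
    intro u w hu
    simp only [hPd]
    split_ifs
    · exact g3 _ (mul_ne_zero (inv_ne_zero hba) hu)
    · exact Even.zero
  obtain ⟨X, X1, X2, X3, X5⟩ := table2 ha hb ha2 hb2
    (A := fun u w => G u w - G ((2 : ZMod a)⁻¹ * u) ((2 : ZMod b)⁻¹ * w) + P u w - P (-u) (-w))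
    (β := g)
    (fun u w => by
      simp only [mul_neg, G1, neg_neg]
      ring)
    (fun w _ => by
      rw [sum_sub_distrib, sum_add_distrib, sum_sub_distrib, G2,
        sum_mul_units ha (inv_ne_zero h2a) (fun u => G u ((2 : ZMod b)⁻¹ * w)), G2, hP2,
        sum_neg_units (fun u => P u (-w)), hP2]
      rfl)
    g2
    (fun u hu => by
      have h1 := g1 u hu
      have h2 := g1 _ (mul_ne_zero (inv_ne_zero hba) hu)
      rw [sum_sub_distrib, sum_add_distrib, sum_sub_distrib, G3 u hu,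
        sum_mul_units hb (inv_ne_zero h2b) (fun w => G ((2 : ZMod a)⁻¹ * u) w),
        G3 _ (mul_ne_zero (inv_ne_zero h2a) hu), hP1, sum_neg_units (fun w => P (-u) w), hP1,
        h1, mul_neg, mul_left_comm (b : ZMod a)⁻¹ (2 : ZMod a)⁻¹ u]
      linarith)
    (fun u w hu _ => (((G4 u w hu).sub (G4 _ _ (mul_ne_zero (inv_ne_zero h2a) hu))).add
      (hP3 u w hu)).sub (hP3 _ _ (neg_ne_zero.mpr hu)))
    (fun u hu => g3 u hu)
  have hz0 : ∀ (l : ℕ), l.Prime → ∀ z : ℤ, ¬ (l : ℤ) ∣ z → (z : ZMod l) ≠ 0 := by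
    intro l _ z hz
    rw [Ne, ZMod.intCast_zmod_eq_zero_iff_dvd]
    exact hz
  have hcop : ∀ (v l q : ℕ), l.Prime → q.Prime → l ≠ q → q ≠ 2 →
      IsCoprime ((2 ^ v * l : ℕ) : ℤ) (q : ℤ) := by
    intro v l q hl hq hlq hq2
    refine Nat.isCoprime_iff_coprime.mpr ?_
    exact ((Nat.Prime.coprime_iff_not_dvd hq).mpr (not_dvd_pow_mul hq hq2 hl (Ne.symm hlq) v)).symm
  have hcop2 : ∀ (v q : ℕ), q.Prime → q ≠ 2 → IsCoprime ((2 ^ v : ℕ) : ℤ) (q : ℤ) := by
    intro v q hq hq2
    refine Nat.isCoprime_iff_coprime.mpr ?_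
    exact ((Nat.Prime.coprime_iff_not_dvd hq).mpr (not_dvd_pow hq hq2 v)).symm
  have hza : ∀ z : ℤ, ¬ (b : ℤ) ∣ z → (((a : ℤ) * z : ℤ) : ZMod b) ≠ 0 := by
    intro z hz
    push_cast
    exact mul_ne_zero (cast_ne ha hb (Ne.symm hab)) (hz0 b hb z hz)
  obtain ⟨d1, d2⟩ := dfamK (e := e) (H := Hl14 a g) (K := KK a b G X P) ha hb hab ha2 hb2
    (fun v z => by
      have h1 := Hl14_per g (2 ^ v) z 1
      rw [one_mul] at h1
      exact h1)
    (fun v z => by
      rcases pow_cases v with rfl | rfl | ⟨-, hv⟩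
      · rw [pow_zero, KK_1, KK_1]
        push_cast
        rw [ZMod.natCast_self a, ZMod.natCast_self b]
        simp only [zero_mul, mul_zero, add_zero]
      · rw [pow_one, KK_2, KK_2]
        push_cast
        rw [ZMod.natCast_self a, ZMod.natCast_self b]
        simp only [zero_mul, mul_zero, add_zero]
      · rw [KK_big hv, KK_big hv, X4_per])
    (fun v z => Hl14_neg hao g (two_pow_cases v) z)
    (fun v z => by
      rcases pow_cases v with rfl | rfl | ⟨-, hv⟩
      · rw [pow_zero, KK_1, KK_1]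
        push_cast
        exact G1 _ _
      · rw [pow_one, KK_2, KK_2]
        push_cast
        rw [mul_neg, mul_neg, G1, G1]
        ring
      · rw [KK_big hv, KK_big hv, X4_neg])
    (fun z _ => by
      rw [Hl14_2, Hl14_1, Hl14_1]
      push_cast
      rw [ZMod.natCast_self a, add_zero, inv_mul_cancel_left₀ h2a])
    (fun z _ _ => by
      rw [KK_2, KK_1, KK_1]
      push_cast
      rw [ZMod.natCast_self a, ZMod.natCast_self b]
      simp only [zero_mul, mul_zero, add_zero]
      rw [inv_mul_cancel_left₀ h2a, inv_mul_cancel_left₀ h2b])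
    (fun v hv0 z hz2 hza => by
      rcases pow_cases v with rfl | rfl | ⟨-, hv⟩
      · exact absurd rfl hv0
      · exact Hl14_four hao g1 hz2 hza
      · have h1 := Hl14_two hao (g := g) hv z
        rw [pow_succ']
        exact h1)
    (fun v hv0 z hz2 hza hzb => by
      rcases pow_cases v with rfl | rfl | ⟨-, hv⟩
      · exact absurd rfl hv0
      · have h1 := X4_lift (X := X) (P := P) (n := 2) (by decide) hao hbo z
        rw [X4_two hbo hz2] at h1
        have h2 := X1 z z (hz0 a ha z hza) (hz0 b hb z hzb)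
        rw [show (2 : ℕ) ^ (1 + 1) = 2 * 2 by decide, pow_one, KK_big (by decide),
          KK_big (by decide), KK_2, h1]
        linarith
      · have h1 := X4_lift (X := X) (P := P) (n := 2 ^ v) (by positivity) hao hbo z
        have h2 : 2 < 2 * 2 ^ v := by omega
        rw [pow_succ', KK_big h2, KK_big h2, KK_big hv]
        exact h1)
    (fun v z => Hl14_sum ha hao g2 (2 ^ v) (hcop2 v a ha ha2) z)
    (fun v z hz => by
      rcases pow_cases v with rfl | rfl | ⟨-, hv⟩
      · rw [pow_zero, one_mul, ← G2 (a * z), ← sum_Ico_cast ha (fun u => G u (a * z))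
          (by have := hcop 0 b a hb ha (Ne.symm hab) ha2; rwa [pow_zero, one_mul] at this)]
        refine sum_congr rfl fun k _ => ?_
        rw [KK_1]
        push_cast
        rw [ZMod.natCast_self a, ZMod.natCast_self b]
        simp only [zero_mul, mul_zero, add_zero, zero_add]
      · have h1 : ∑ k ∈ Ico 1 a, (fun u : ZMod a => G u (a * z) -
            G ((2 : ZMod a)⁻¹ * u) ((2 : ZMod b)⁻¹ * (a * z))) ((((k : ℕ) : ℤ) *
              (2 ^ 1 * b : ℕ) : ℤ) : ZMod a) = 0 := by
          refine (sum_Ico_cast ha (fun u : ZMod a => G u (a * z) -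
            G ((2 : ZMod a)⁻¹ * u) ((2 : ZMod b)⁻¹ * (a * z)))
            (hcop 1 b a hb ha (Ne.symm hab) ha2)).trans ?_
          rw [sum_sub_distrib, G2,
            sum_mul_units ha (inv_ne_zero h2a)
              (fun u => G u ((2 : ZMod b)⁻¹ * (a * z))), G2, sub_zero]
        rw [← h1]
        refine sum_congr rfl fun k _ => ?_
        rw [pow_one, KK_2]
        push_cast
        rw [ZMod.natCast_self a, ZMod.natCast_self b]
        simp only [zero_mul, mul_zero, add_zero, zero_add]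
      · simp only [KK_big hv]
        exact X4_suma ha (hcop v b a hb ha (Ne.symm hab) ha2) X3 (fun w _ => hP2 w) (hza z hz))
    (fun v z hz => by
      have hza := hz0 a ha z hz
      rcases pow_cases v with rfl | rfl | ⟨-, hv⟩
      · have h1 := G3 _ (mul_ne_zero hba hza)
        rw [inv_mul_cancel_left₀ hba, ← sum_Ico_cast hb _ (hcop 0 a b ha hb hab hb2)] at h1
        rw [pow_zero, Hl14_1, Hl14_1]
        push_cast at h1 ⊢
        rw [← h1]
        refine sum_congr rfl fun k _ => ?_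
        rw [KK_1]
        push_cast
        rw [ZMod.natCast_self a, ZMod.natCast_self b]
        simp only [zero_mul, mul_zero, add_zero, zero_add]
      · have h1 : ∑ k ∈ Ico 1 b, (fun w : ZMod b => G (b * z) w -
            G ((2 : ZMod a)⁻¹ * (b * z)) ((2 : ZMod b)⁻¹ * w)) ((((k : ℕ) : ℤ) *
              (2 ^ 1 * a : ℕ) : ℤ) : ZMod b) = (sg a (b * z) - sg a z) -
              (sg a ((2 : ZMod a)⁻¹ * (b * z)) - sg a ((2 : ZMod a)⁻¹ * z)) := by
          refine (sum_Ico_cast hb (fun w : ZMod b => G (b * z) w -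
            G ((2 : ZMod a)⁻¹ * (b * z)) ((2 : ZMod b)⁻¹ * w))
            (hcop 1 a b ha hb hab hb2)).trans ?_
          rw [sum_sub_distrib,
            G3 _ (mul_ne_zero hba hza), inv_mul_cancel_left₀ hba,
            sum_mul_units hb (inv_ne_zero h2b) (fun w => G ((2 : ZMod a)⁻¹ * (b * z)) w),
            G3 _ (mul_ne_zero (inv_ne_zero h2a) (mul_ne_zero hba hza)),
            mul_left_comm (2 : ZMod a)⁻¹ (b : ZMod a) z, inv_mul_cancel_left₀ hba]
        rw [pow_one, Hl14_2, Hl14_2]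
        have h2 : (sg a (((b : ℤ) * z : ℤ) : ZMod a) -
            sg a ((2 : ZMod a)⁻¹ * (((b : ℤ) * z : ℤ) : ZMod a))) -
            (sg a z - sg a ((2 : ZMod a)⁻¹ * z)) = (sg a (b * z) - sg a z) -
              (sg a ((2 : ZMod a)⁻¹ * (b * z)) - sg a ((2 : ZMod a)⁻¹ * z)) := by
          push_cast
          ring
        rw [h2, ← h1]
        refine sum_congr rfl fun k _ => ?_
        rw [KK_2]
        push_cast
        rw [ZMod.natCast_self a, ZMod.natCast_self b]
        simp only [zero_mul, mul_zero, add_zero, zero_add]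
      · simp only [KK_big hv]
        exact X4_sumb ha hb hab hv (hcop v a b ha hb hab hb2) X2
          (fun u _ => by rw [hP1, inv_mul_cancel_left₀ hba]) hza)
  refine ⟨_, d1, d2, FK_par ha hb hab ha2 hb2 ha.one_lt.ne' hab ?_ ?_ ?_ ?_⟩
  · intro z hz
    rw [Hl14_1]
    exact iff_of_true (sg_odd (hz0 a ha z hz)) rfl
  · intro v hv0 z hz hz2
    have hza := hz0 a ha z hz
    rcases pow_cases v with rfl | rfl | ⟨-, hv⟩
    · exact absurd rfl hv0
    · rw [pow_one, Hl14_2]
      exact (sg_odd hza).sub_odd (sg_odd (mul_ne_zero (inv_ne_zero h2a) hza))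
    · rw [Hl14_big g hv]
      split_ifs
      · exact g3 _ hza
      · exact (g3 _ (neg_ne_zero.mpr hza)).neg
      · exact Even.zero
  · intro z hz hz'
    rw [KK_1]
    refine iff_of_false ?_ ?_
    · rw [Int.not_odd_iff_even]
      exact G4 _ _ (hz0 a ha z hz)
    · intro h
      have h1 : a * b = a * 1 := by rw [mul_one]; exact h
      have := Nat.eq_of_mul_eq_mul_left ha.pos h1
      have := hb.one_lt
      omega
  · intro v hv0 z hz hz' hz2
    have hza := hz0 a ha z hz
    have hzb := hz0 b hb z hz'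
    rcases pow_cases v with rfl | rfl | ⟨-, hv⟩
    · exact absurd rfl hv0
    · rw [pow_one, KK_2]
      exact (G4 _ _ hza).sub (G4 _ _ (mul_ne_zero (inv_ne_zero h2a) hza))
    · rw [KK_big hv]
      unfold X4
      refine Even.add (Even.sub (Even.sub ?_ ?_) ?_) ?_
      · split_ifs
        · exact X5 _ _ hza hzb
        · exact Even.zero
      · split_ifs
        · exact X5 _ _ (neg_ne_zero.mpr hza) (neg_ne_zero.mpr hzb)
        · exact Even.zero
      · split_ifs
        · exact hP3 _ _ hza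
        · exact Even.zero
      · split_ifs
        · exact hP3 _ _ (neg_ne_zero.mpr hza)
        · exact Even.zero

/-- the sums over the residues modulo `l` vanish -/
theorem Hl14_sumc {l : ℕ} (hl : l.Prime) [NeZero l] (hlo : Odd l) {g : ZMod l → ℤ}
    (hg : ∑ u : ZMod l with u ≠ 0, g u = 0) (n c : ℕ) (hn : IsCoprime ((n * c : ℕ) : ℤ) (l : ℤ))
    (z : ℤ) : ∑ k ∈ Ico 1 l, Hl14 l g n (l * z + k * (n * c : ℕ)) = 0 := by
  have hc : ∀ k : ℕ, ((l * z + k * (n * c : ℕ) : ℤ) : ZMod l) =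
      ((((k : ℕ) : ℤ) * (n * c : ℕ) : ℤ) : ZMod l) := by
    intro k
    push_cast
    rw [ZMod.natCast_self l, zero_mul, zero_add]
  have hneg : ∑ u : ZMod l with u ≠ 0, g (-u) = 0 := by rw [sum_neg_units, hg]
  by_cases h1 : n = 1
  · subst h1
    simp only [Hl14_1, hc]
    rw [sum_Ico_cast hl (fun u => sg l u) hn]
    exact sum_odd_zero _ (sg_neg hlo)
  · by_cases h2 : n = 2
    · subst h2
      simp only [Hl14_2, hc]
      rw [sum_Ico_cast hl (fun u => sg l u - sg l ((2 : ZMod l)⁻¹ * u)) hn]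
      refine sum_odd_zero _ fun u => ?_
      rw [mul_neg, sg_neg hlo, sg_neg hlo]
      ring
    · unfold Hl14
      simp only [if_neg h1, if_neg h2, hc]
      have e1 : ∀ k : ℕ, ((n : ℤ) ∣ (l : ℤ) * z + k * (n * c : ℕ) - 1) ↔
          (n : ℤ) ∣ (l : ℤ) * z - 1 := by
        intro k
        have e : (l : ℤ) * z + k * (n * c : ℕ) - 1 = (l * z - 1) + n * (k * c) := by
          push_cast; ring
        rw [e]
        exact dvd_add_left (dvd_mul_right _ _)
      have e2 : ∀ k : ℕ, ((n : ℤ) ∣ (l : ℤ) * z + k * (n * c : ℕ) + 1) ↔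
          (n : ℤ) ∣ (l : ℤ) * z + 1 := by
        intro k
        have e : (l : ℤ) * z + k * (n * c : ℕ) + 1 = (l * z + 1) + n * (k * c) := by
          push_cast; ring
        rw [e]
        exact dvd_add_left (dvd_mul_right _ _)
      simp only [e1, e2]
      by_cases h3 : (n : ℤ) ∣ (l : ℤ) * z - 1
      · simp only [if_pos h3]
        rw [sum_Ico_cast hl (fun u => g u) hn]
        exact hg
      · by_cases h4 : (n : ℤ) ∣ (l : ℤ) * z + 1
        · simp only [if_neg h3, if_pos h4]
          rw [sum_Ico_cast hl (fun u => -g (-u)) hn, sum_neg_distrib, hneg, neg_zero]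
        · simp only [if_neg h3, if_neg h4]
          exact sum_const_zero

/-- the radical `a b` -/
theorem famK2 {e : ℕ} (ha : a.Prime) (hb : b.Prime) (hab : a ≠ b) (ha4 : a % 4 = 1) (hb2 : b ≠ 2)
    (hs2a : IsSquare (2 : ZMod a)) (hs2 : IsSquare (2 : ZMod b)) :
    HasT (2 ^ e * (a * b)) (a * b) := by
  have : Fact a.Prime := ⟨ha⟩
  have : Fact b.Prime := ⟨hb⟩
  have : NeZero a := ⟨ha.ne_zero⟩
  have : NeZero b := ⟨hb.ne_zero⟩
  have ha2 : a ≠ 2 := by
    rintro rfl
    omega
  have hao : Odd a := ha.odd_of_ne_two ha2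
  have hbo : Odd b := hb.odd_of_ne_two hb2
  have h2a : ((2 : ℕ) : ZMod a) ≠ 0 := cast_ne Nat.prime_two ha ha2
  have h2b : ((2 : ℕ) : ZMod b) ≠ 0 := cast_ne Nat.prime_two hb hb2
  obtain ⟨g, g1, g2, g3⟩ := exists_even hb hb2 h2b (by exact_mod_cast hs2)
  rw [Nat.cast_ofNat] at h2a h2b g1
  have hχ2 : quadraticChar (ZMod a) 2 = 1 := (quadraticChar_one_iff_isSquare h2a).mpr hs2a
  have hz0 : ∀ (l : ℕ), l.Prime → ∀ z : ℤ, ¬ (l : ℤ) ∣ z → (z : ZMod l) ≠ 0 := by
    intro l _ z hz
    rw [Ne, ZMod.intCast_zmod_eq_zero_iff_dvd]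
    exact hz
  have hcop : ∀ (v l q : ℕ), l.Prime → q.Prime → l ≠ q → q ≠ 2 →
      IsCoprime ((2 ^ v * l : ℕ) : ℤ) (q : ℤ) := by
    intro v l q hl hq hlq hq2
    refine Nat.isCoprime_iff_coprime.mpr ?_
    exact ((Nat.Prime.coprime_iff_not_dvd hq).mpr (not_dvd_pow_mul hq hq2 hl (Ne.symm hlq) v)).symm
  set χ := quadraticChar (ZMod a) with hχ
  obtain ⟨d1, d2⟩ := dfamK (e := e) (H := fun _ _ => 0)
    (K := fun n z => χ (z : ZMod a) * Hl14 b g n z) ha hb hab ha2 hb2
    (fun _ _ => rfl)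
    (fun v z => by
      have h1 := Hl14_per g (2 ^ v) z a
      have h2 : z + (a : ℤ) * (2 ^ v * b : ℕ) = z + (2 ^ v * (a * b) : ℕ) := by push_cast; ring
      rw [h2] at h1
      have h3 : ((z + (2 ^ v * (a * b) : ℕ) : ℤ) : ZMod a) = z := by
        push_cast
        rw [ZMod.natCast_self a]
        ring
      rw [h1, h3])
    (fun _ _ => neg_zero.symm)
    (fun v z => by
      rw [Hl14_neg hbo g (two_pow_cases v), Int.cast_neg, qchar_neg ha4]
      ring)
    (fun _ _ => (sub_zero 0).symm)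
    (fun z _ _ => by
      rw [Hl14_2, Hl14_1, Hl14_1]
      push_cast
      rw [ZMod.natCast_self a, ZMod.natCast_self b]
      simp only [zero_mul, mul_zero, add_zero]
      rw [inv_mul_cancel_left₀ h2b, map_mul, hχ2]
      ring)
    (fun _ _ _ _ _ => add_zero 0)
    (fun v hv0 z hz2 _ hzb => by
      obtain ⟨t, ht⟩ := hao
      have h1 := Hl14_per g (2 ^ (v + 1)) (z + (2 ^ v * b : ℕ)) t
      have h2 : z + (2 ^ v * b : ℕ) + (t : ℤ) * (2 ^ (v + 1) * b : ℕ) =
          z + (2 ^ v * (a * b) : ℕ) := by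
        rw [ht]
        push_cast
        ring
      rw [h2] at h1
      have h3 : ((z + (2 ^ v * (a * b) : ℕ) : ℤ) : ZMod a) = z := by
        push_cast
        rw [ZMod.natCast_self a]
        ring
      rw [h1, h3, ← mul_add]
      congr 1
      rcases pow_cases v with rfl | rfl | ⟨-, hv⟩
      · exact absurd rfl hv0
      · exact Hl14_four hbo g1 hz2 hzb
      · have h1 := Hl14_two hbo (g := g) hv z
        rw [pow_succ']
        exact h1)
    (fun _ _ => sum_const_zero)
    (fun v z _ => by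
      have h1 : ∀ k : ℕ, Hl14 b g (2 ^ v) (a * z + k * (2 ^ v * b : ℕ)) =
          Hl14 b g (2 ^ v) (a * z) := fun k => Hl14_per g (2 ^ v) (a * z) k
      have h3 : ∀ k : ℕ, ((a * z + k * (2 ^ v * b : ℕ) : ℤ) : ZMod a) =
          ((((k : ℕ) : ℤ) * (2 ^ v * b : ℕ) : ℤ) : ZMod a) := by
        intro k
        push_cast
        rw [ZMod.natCast_self a]
        ring
      simp only [h1, h3]
      rw [← sum_mul, sum_Ico_cast ha (fun u => χ u) (hcop v b a hb ha (Ne.symm hab) ha2),
        qchar_sum ha2, zero_mul])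
    (fun v z _ => by
      have h1 := Hl14_sumc hb hbo g2 (2 ^ v) a (hcop v a b ha hb hab hb2) z
      have h3 : ∀ k : ℕ, ((b * z + k * (2 ^ v * a : ℕ) : ℤ) : ZMod a) = (b : ZMod a) * z := by
        intro k
        push_cast
        rw [ZMod.natCast_self a]
        ring
      simp only [h3]
      rw [← mul_sum, h1, mul_zero, sub_self])
  have hab1 : a * b ≠ 1 := by
    have := ha.one_lt
    have := hb.one_lt
    nlinarith
  have habb : a * b ≠ b := by
    intro h
    have h1 : a * b = 1 * b := by rw [one_mul]; exact h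
    have := Nat.eq_of_mul_eq_mul_right hb.pos h1
    have := ha.one_lt
    omega
  have haab : a ≠ a * b := by
    intro h
    have h1 : a * b = a * 1 := by rw [mul_one]; exact h.symm
    have := Nat.eq_of_mul_eq_mul_left ha.pos h1
    have := hb.one_lt
    omega
  refine ⟨_, d1, d2, FK_par ha hb hab ha2 hb2 hab1 habb ?_ ?_ ?_ ?_⟩
  · exact fun z _ => iff_of_false (by decide) haab
  · exact fun _ _ _ _ _ => Even.zero
  · intro z hz hz'
    refine iff_of_true ?_ rfl
    rw [Hl14_1]
    exact (qchar_odd (hz0 a ha z hz)).mul (sg_odd (hz0 b hb z hz'))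
  · intro v hv0 z hz hz' hz2
    refine Even.mul_left ?_ _
    have hzb := hz0 b hb z hz'
    rcases pow_cases v with rfl | rfl | ⟨-, hv⟩
    · exact absurd rfl hv0
    · rw [pow_one, Hl14_2]
      exact (sg_odd hzb).sub_odd (sg_odd (mul_ne_zero (inv_ne_zero h2b) hzb))
    · rw [Hl14_big g hv]
      split_ifs
      · exact g3 _ hzb
      · exact (g3 _ (neg_ne_zero.mpr hzb)).neg
      · exact Even.zero

/-- **The degrees `2 ^ e a b`.** -/
theorem limLP_two_pair (hB : StBasic) (hCL : StCL) (hTor : StTor) {p e : ℕ} (hp : p.Prime)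
    (ha : a.Prime) (hb : b.Prime) (hab : a ≠ b) (ha2 : a ≠ 2) (hb2 : b ≠ 2)
    (sab : IsSquare (a : ZMod b)) (sba : IsSquare (b : ZMod a)) (s2a : IsSquare (2 : ZMod a))
    (s2b : IsSquare (2 : ZMod b)) (hpm : (2 ^ e * (a * b)).Coprime p)
    (hf : Odd (orderOf (p : ZMod (2 ^ e * (a * b))))) : LimLP (2 ^ e * (a * b)) p := by
  have hT : ∀ R, R = a ∨ R = b ∨ R = a * b → HasT (2 ^ e * (a * b)) R := by
    rintro R (rfl | rfl | rfl)
    · exact famK1 ha hb hab ha2 hb2 sba s2a
    · rw [mul_comm a R]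
      exact famK1 hb ha (Ne.symm hab) hb2 ha2 sab s2b
    · rcases one_mod_four ha hb hab ha2 hb2 sab sba with h | h
      · exact famK2 ha hb hab h hb2 s2a s2b
      · rw [mul_comm a b]
        exact famK2 hb ha (Ne.symm hab) h ha2 s2b s2a
  suffices hvec : ∀ [NeZero (2 ^ e * (a * b))] (v : ZMod (2 ^ e * (a * b)) → ℤ),
      Bal (2 ^ e * (a * b)) p v → VecA p fun R => nR (2 ^ e * (a * b)) R v by
    intro hM v hv
    exact limP_of_vecA hB hCL hTor hp hv (hvec v hv)
  intro hM v hv
  have key : ∀ R, R = a ∨ R = b ∨ R = a * b → Even (nR (2 ^ e * (a * b)) R v) := by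
    intro R hR
    obtain ⟨F, h1, h2, h3⟩ := hT R hR
    exact nR_evenT hTor hpm.symm h1 h2 hf h3 hv
  refine vecA_of_sum hp {a, b, a * b} (fun R h1 h2 h3 h4 => ?_)
    (AddSubgroup.sum_mem _ fun R hR => ?_)
  · by_cases h5 : R ∣ 2 ^ e * (a * b)
    · exfalso
      apply h4
      simp only [mem_insert, mem_singleton]
      obtain ⟨w, rfl | rfl | rfl | rfl⟩ := div_two_pair ha hb h5
      · obtain rfl := odd_two_pow h1
        exact absurd (one_dvd _) (h3 0)
      · rw [Nat.odd_mul] at h1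
        obtain rfl := odd_two_pow h1.1
        exact Or.inl (by rw [pow_zero, one_mul])
      · rw [Nat.odd_mul] at h1
        obtain rfl := odd_two_pow h1.1
        exact Or.inr (Or.inl (by rw [pow_zero, one_mul]))
      · rw [Nat.odd_mul] at h1
        obtain rfl := odd_two_pow h1.1
        exact Or.inr (Or.inr (by rw [pow_zero, one_mul]))
    · rw [nR_of_not h5]
      exact Even.zero
  · simp only [mem_insert, mem_singleton] at hR
    exact even_smul_mem hp (key R hR) R

end

end Pool.Agent.Lib.MP81632f.Lv
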