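import Pool.Agent.Lib.MP_81632f_ag.Pot.Deg
import Pool.Agent.Lib.MP_81632f_ag.Pot.PairK14

/-!
# Potential lattice property: the degrees, with products of few primes
-/

set_option autoImplicit false

namespace Pool.Agent.Lib.MP81632f.Pot

open Pool.Agent.Lib.MP81632f.Diag
open Pool.Agent.Lib.MP81632f.Lv

variable {p m : ℕ}

/-- The order of `p` modulo `m` is odd, and `m` is the product of a power of `2` and distinct odd
primes, which are squares modulo each other; there are at most three of them, and at most two, modulo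
which `2` is a square, if `m` is even. -/
def Few (p m : ℕ) : Prop :=
  ∃ (e : ℕ) (S : Finset ℕ), (∀ l ∈ S, l.Prime ∧ l ≠ 2) ∧
    (∀ l ∈ S, ∀ q ∈ S, l ≠ q → IsSquare (q : ZMod l)) ∧
    (e = 0 ∧ S.card ≤ 3 ∨ S.card ≤ 2 ∧ ∀ l ∈ S, IsSquare (2 : ZMod l)) ∧
    m = 2 ^ e * ∏ l ∈ S, l ∧ Odd (orderOf (p : ZMod m))

/-- The base degrees `m` in characteristic `p`. -/
def BaseG (p m : ℕ) : Prop :=
  m.Prime ∨
  (∃ a l : ℕ, l.Prime ∧ Odd (orderOf (2 : ZMod l)) ∧ m = 2 ^ a * l) ∨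
  Few p m ∨
  (∀ R : ℕ, R ∣ m → Odd R → Squarefree R → R ≠ 1 → Good p m R) ∨
  (∃ a : ℕ, ∃ e ∈ tabE, m = 2 ^ a * e.1 ∧ p % e.1 ∉ e.2) ∨
  (∃ e ∈ tabO, m = e.1 ∧ p % m ∉ e.2) ∨
  (p % 3 = 2 ∧ ∃ l j : ℕ, l.Prime ∧ l ≠ 2 ∧ (p ^ j ≡ 3 [MOD l] ∨ l ∣ p ^ j + 3) ∧ m = 3 * l) ∨
  (p % 4 = 3 ∧ ∃ l j : ℕ, l.Prime ∧ l ≠ 2 ∧ (p ^ j ≡ 2 [MOD l] ∨ l ∣ p ^ j + 2) ∧ m = 4 * l) ∨
  (p = 2 ∧ m ≤ 300 ∧ m ∉ [119, 133, 217, 219, 255, 267, 273, 287]) ∨
  (p = 3 ∧ m ≤ 200 ∧ m ≠ 143)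

/-- `d` is treated in characteristic `p`: it divides `m n` for a base degree `m` prime to `p` and an
odd number `n` whose prime divisors divide `m`. -/
def DegG (p d : ℕ) : Prop :=
  ∃ m n : ℕ, BaseG p m ∧ m.Coprime p ∧ Odd n ∧ (∀ l : ℕ, l.Prime → l ∣ n → l ∣ m) ∧ d ∣ m * n

theorem few_lim (hCL : StCL) (hTor : StTor) (hp : p.Prime) (hmp : m.Coprime p)
    (h : Few p m) : LimLP m p := by
  obtain ⟨e, S, h1, h2, h3, rfl, ho⟩ := h
  rcases h3 with ⟨rfl, h3⟩ | ⟨h3, h4⟩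
  · rw [pow_zero, one_mul] at hmp ho ⊢
    have hc : S.card = 0 ∨ S.card = 1 ∨ S.card = 2 ∨ S.card = 3 := by omega
    rcases hc with hc | hc | hc | hc
    · rw [Finset.card_eq_zero.mp hc, Finset.prod_empty] at hmp ⊢
      intro hM v hv
      exact base_lim hCL hTor hp hmp (Or.inr (Or.inr (Or.inl fun R r1 _ _ r4 =>
        absurd (Nat.dvd_one.mp r1) r4))) v hv
    · obtain ⟨l, rfl⟩ := Finset.card_eq_one.mp hc
      rw [Finset.prod_singleton] at hmp ⊢
      intro hM v hv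
      exact base_lim hCL hTor hp hmp (Or.inl (h1 l (Finset.mem_singleton_self l)).1) v hv
    · obtain ⟨a, b, hab, rfl⟩ := Finset.card_eq_two.mp hc
      rw [Finset.prod_pair hab] at hmp ho ⊢
      have ma : a ∈ ({a, b} : Finset ℕ) := by simp
      have mb : b ∈ ({a, b} : Finset ℕ) := by simp
      obtain ⟨pa, a2⟩ := h1 a ma
      obtain ⟨pb, b2⟩ := h1 b mb
      rcases one_mod_four pa pb hab a2 b2 (h2 b mb a ma (Ne.symm hab)) (h2 a ma b mb hab)
        with h | h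
      · intro hM v hv
        exact limLP_pair stBasic hCL hTor hp pa pb hab h b2 (h2 a ma b mb hab) hmp ho v hv
      · rw [mul_comm a b] at hmp ho ⊢
        intro hM v hv
        exact limLP_pair stBasic hCL hTor hp pb pa (Ne.symm hab) h a2
          (h2 b mb a ma (Ne.symm hab)) hmp ho v hv
    · obtain ⟨a, b, c, hab, hac, hbc, rfl⟩ := Finset.card_eq_three.mp hc
      have ma : a ∈ ({a, b, c} : Finset ℕ) := by simp
      have mb : b ∈ ({a, b, c} : Finset ℕ) := by simp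
      have mc : c ∈ ({a, b, c} : Finset ℕ) := by simp
      have hprod : ∏ l ∈ ({a, b, c} : Finset ℕ), l = a * (b * c) := by
        rw [Finset.prod_insert (by simp [hab, hac]), Finset.prod_pair hbc]
      rw [hprod] at hmp ho ⊢
      obtain ⟨pa, a2⟩ := h1 a ma
      obtain ⟨pb, b2⟩ := h1 b mb
      obtain ⟨pc, c2⟩ := h1 c mc
      intro hM v hv
      exact limLP_triple stBasic hCL hTor hp pa pb pc hab hac hbc a2 b2 c2
        (h2 b mb a ma (Ne.symm hab)) (h2 a ma b mb hab) (h2 c mc a ma (Ne.symm hac))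
        (h2 a ma c mc hac) (h2 c mc b mb (Ne.symm hbc)) (h2 b mb c mc hbc) hmp ho v hv
  · have hc : S.card = 0 ∨ S.card = 1 ∨ S.card = 2 := by omega
    rcases hc with hc | hc | hc
    · rw [Finset.card_eq_zero.mp hc, Finset.prod_empty, mul_one] at hmp ⊢
      intro hM v hv
      refine limLP_two_pow stBasic hCL hTor hp (fun q hq hqm => ?_) v hv
      exact (Nat.prime_dvd_prime_iff_eq hq Nat.prime_two).mp (hq.dvd_of_dvd_pow hqm)
    · obtain ⟨l, rfl⟩ := Finset.card_eq_one.mp hc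
      have ml := Finset.mem_singleton_self l
      rw [Finset.prod_singleton] at hmp ho ⊢
      intro hM v hv
      exact limLP_two_prime stBasic hCL hTor hp (h1 l ml).1 (h1 l ml).2 (h4 l ml) hmp ho v hv
    · obtain ⟨a, b, hab, rfl⟩ := Finset.card_eq_two.mp hc
      rw [Finset.prod_pair hab] at hmp ho ⊢
      have ma : a ∈ ({a, b} : Finset ℕ) := by simp
      have mb : b ∈ ({a, b} : Finset ℕ) := by simp
      obtain ⟨pa, a2⟩ := h1 a ma
      obtain ⟨pb, b2⟩ := h1 b mb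
      intro hM v hv
      exact limLP_two_pair stBasic hCL hTor hp pa pb hab a2 b2 (h2 b mb a ma (Ne.symm hab))
        (h2 a ma b mb hab) (h4 a ma) (h4 b mb) hmp ho v hv

theorem baseG_lim (hCL : StCL) (hTor : StTor) (hp : p.Prime) (hmp : m.Coprime p)
    (h : BaseG p m) : LimLP m p := by
  rcases h with h | h | h | h
  · exact base_lim hCL hTor hp hmp (Or.inl h)
  · exact base_lim hCL hTor hp hmp (Or.inr (Or.inl h))
  · exact few_lim hCL hTor hp hmp h
  · exact base_lim hCL hTor hp hmp (Or.inr (Or.inr h))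

theorem DegG.lim (hCL : StCL) (hTor : StTor) {d : ℕ} (hp : p.Prime) (h : DegG p d) :
    ∀ m : ℕ, m ∣ d → LimLP m p := by
  obtain ⟨m₀, n, hb, hmp, hn, hnm, hd⟩ := h
  intro m hm
  obtain h1 : LimLP (n * m₀) p :=
    limLP_odd stBasic hCL hTor hp hn hnm (baseG_lim hCL hTor hp hmp hb)
  obtain hm0 : m₀ ≠ 0 := by
    rintro rfl
    rw [Nat.coprime_zero_left] at hmp
    exact hp.one_lt.ne' hmp
  obtain hnp : n.Coprime p := by
    rw [Nat.coprime_comm, Nat.Prime.coprime_iff_not_dvd hp]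
    intro h2
    have h3 := hnm p hp h2
    exact ne_of_cop hp hmp h3 rfl
  exact LimLP.dvd hp (hm.trans (by rwa [mul_comm] at hd)) (Nat.mul_ne_zero hn.pos.ne' hm0)
    (Nat.Coprime.mul_left hnp hmp) h1

end Pool.Agent.Lib.MP81632f.Pot
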