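import Pool.Agent.Lib.MP_81632f_ag.Pot.CritC

/-!
# Potential lattice property: linear algebra modulo `2` with masks
-/

set_option autoImplicit false

noncomputable section

namespace Pool.Agent.Lib.MP81632f.Lv

open Finset
open Pool.Agent.Lib.MP81632f.Diag

namespace Pot

/-- the radicals of a mask -/
def lm (Ds : List ℕ) (b : ℕ) : List ℕ := Ds.filter fun R => b.testBit (Ds.idxOf R)

/-- the vector of a mask -/
def vm (Ds : List ℕ) (b : ℕ) : ℕ → ℤ := ((lm Ds b).map eR).sum

/-- the mask of a list of radicals -/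
def mk (Ds : List ℕ) : List ℕ → ℕ
  | [] => 0
  | R :: u => 2 ^ (Ds.idxOf R) ^^^ mk Ds u

/-- reduction -/
def red : List ℕ → ℕ → ℕ
  | [], b => b
  | v :: V, b => red V (min b (b ^^^ v))

/-- insertion -/
def ins (r : ℕ) : List ℕ → List ℕ
  | [] => [r]
  | v :: V => if v < r then r :: v :: V else v :: ins r V

/-- elimination -/
def elim : List ℕ → List ℕ → List ℕ
  | [], V => V
  | g :: G, V => elim G (if red V g = 0 then V else ins (red V g) V)

/-- the linear algebra -/
def linck (Ds DK G : List ℕ) (rels : List (List ℕ)) : Bool :=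
  DK.sublists.all fun s => (rels.any fun r => (r.filter fun R => s.contains R).length % 2 == 1) ||
    (red (elim G []) (mk Ds s) == 0)

section

variable {p : ℕ} {hp : p.Prime} {Ds : List ℕ}

theorem vec_congr (hp : p.Prime) {c c' : ℕ → ℤ} (h : c ∈ VecG p hp)
    (h' : ∀ R : ℕ, Even (c R - c' R)) : c' ∈ VecG p hp :=
  VecA.congr h fun R _ _ _ => h' R

theorem sum_eR (u : List ℕ) (R : ℕ) : (u.map eR).sum R = (u.count R : ℤ) := by
  induction u with
  | nil => rfl
  | cons a u ih =>
    rw [List.map_cons, List.sum_cons, Pi.add_apply, ih, List.count_cons]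
    unfold eR
    by_cases h : a = R
    · subst h
      rw [if_pos rfl, if_pos (by rw [beq_iff_eq])]
      push_cast
      ring
    · rw [if_neg (Ne.symm h), if_neg (by rwa [beq_iff_eq])]
      push_cast
      ring

theorem idx_inj {R x : ℕ} (hR : R ∈ Ds) : Ds.idxOf x = Ds.idxOf R ↔ x = R := by
  constructor
  · intro h
    have h1 : Ds.idxOf R < Ds.length := List.idxOf_lt_length_iff.mpr hR
    have hx : x ∈ Ds := by
      rw [← List.idxOf_lt_length_iff, h]
      exact h1
    exact (List.idxOf_inj hx).mp h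
  · rintro rfl
    rfl

theorem testBit_mk (u : List ℕ) {R : ℕ} (hR : R ∈ Ds) :
    (mk Ds u).testBit (Ds.idxOf R) = decide (u.count R % 2 = 1) := by
  induction u with
  | nil => simp [mk]
  | cons a u ih =>
    unfold mk
    rw [Nat.testBit_xor, ih, Nat.testBit_two_pow, List.count_cons]
    by_cases h : a = R
    · subst h
      simp only [beq_self_eq_true, if_true, decide_true]
      rcases Nat.mod_two_eq_zero_or_one (u.count a) with h1 | h1
      · rw [Nat.add_mod, h1]
        decide
      · rw [Nat.add_mod, h1]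
        decide
    · have h2 : ¬ Ds.idxOf a = Ds.idxOf R := fun h3 => h ((idx_inj hR).mp h3)
      rw [decide_eq_false h2, if_neg (by rwa [beq_iff_eq]), Bool.false_xor, add_zero]

theorem vm_apply (hD : Ds.Nodup) (b R : ℕ) :
    vm Ds b R = if R ∈ Ds ∧ b.testBit (Ds.idxOf R) = true then 1 else 0 := by
  unfold vm
  rw [sum_eR]
  have h1 : (lm Ds b).Nodup := hD.filter _
  by_cases h : R ∈ lm Ds b
  · rw [List.count_eq_one_of_mem h1 h]
    unfold lm at h
    rw [List.mem_filter] at h
    rw [if_pos h, Nat.cast_one]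
  · rw [List.count_eq_zero_of_not_mem h]
    unfold lm at h
    rw [List.mem_filter] at h
    rw [if_neg h, Nat.cast_zero]

/-- the vector of a list of radicals -/
theorem vm_mk (hp : p.Prime) (hD : Ds.Nodup) {u : List ℕ} (hu : ∀ x ∈ u, x ∈ Ds) :
    (u.map eR).sum ∈ VecG p hp ↔ vm Ds (mk Ds u) ∈ VecG p hp := by
  have key : ∀ R : ℕ, Even ((u.map eR).sum R - vm Ds (mk Ds u) R) := by
    intro R
    rw [vm_apply hD, sum_eR]
    by_cases hR : R ∈ Ds
    · rw [testBit_mk u hR]
      by_cases h : u.count R % 2 = 1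
      · rw [if_pos ⟨hR, decide_eq_true h⟩]
        obtain ⟨k, hk⟩ : Odd (u.count R) := Nat.odd_iff.mpr h
        rw [hk]
        push_cast
        exact ⟨k, by ring⟩
      · rw [if_neg fun h' => h (of_decide_eq_true h'.2)]
        obtain ⟨k, hk⟩ : Even (u.count R) := Nat.even_iff.mpr (by omega)
        rw [hk]
        push_cast
        exact ⟨k, by ring⟩
    · have h1 : R ∉ u := fun h => hR (hu R h)
      rw [List.count_eq_zero_of_not_mem h1, if_neg fun h' => hR h'.1]
      exact ⟨0, by norm_num⟩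
  constructor
  · exact fun h => vec_congr hp h key
  · refine fun h => vec_congr hp h fun R => ?_
    rw [← neg_sub]
    exact (key R).neg

theorem vm_xor (hp : p.Prime) (hD : Ds.Nodup) {b b' : ℕ} (h : vm Ds b ∈ VecG p hp)
    (h' : vm Ds b' ∈ VecG p hp) : vm Ds (b ^^^ b') ∈ VecG p hp := by
  refine vec_congr hp (add_mem h h') fun R => ?_
  rw [Pi.add_apply, vm_apply hD, vm_apply hD, vm_apply hD, Nat.testBit_xor]
  by_cases hR : R ∈ Ds
  · cases b.testBit (Ds.idxOf R) <;> cases b'.testBit (Ds.idxOf R) <;> simp [hR]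
  · simp [hR]

theorem vm_zero (hp : p.Prime) : vm Ds 0 ∈ VecG p hp := by
  have h : lm Ds 0 = [] := by
    unfold lm
    rw [List.filter_eq_nil_iff]
    intro R _
    simp
  unfold vm
  rw [h]
  exact zero_mem _

theorem min_cases (b v : ℕ) : min b (b ^^^ v) = b ∨ min b (b ^^^ v) = b ^^^ v := min_choice _ _

theorem xor_xor_self (b v : ℕ) : b ^^^ v ^^^ v = b := by
  rw [Nat.xor_assoc, Nat.xor_self, Nat.xor_zero]

theorem red_back (hD : Ds.Nodup) : ∀ (V : List ℕ) (b : ℕ), (∀ v ∈ V, vm Ds v ∈ VecG p hp) →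
    vm Ds (red V b) ∈ VecG p hp → vm Ds b ∈ VecG p hp
  | [], _, _, h => h
  | v :: V, b, hV, h => by
    unfold red at h
    have h1 := red_back hD V _ (fun w hw => hV w (List.mem_cons_of_mem _ hw)) h
    rcases min_cases b v with h2 | h2
    · rwa [h2] at h1
    · rw [h2] at h1
      have h3 := vm_xor hp hD h1 (hV v List.mem_cons_self)
      rwa [xor_xor_self] at h3

theorem red_fwd (hD : Ds.Nodup) : ∀ (V : List ℕ) (b : ℕ), (∀ v ∈ V, vm Ds v ∈ VecG p hp) →
    vm Ds b ∈ VecG p hp → vm Ds (red V b) ∈ VecG p hp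
  | [], _, _, h => h
  | v :: V, b, hV, h => by
    unfold red
    refine red_fwd hD V _ (fun w hw => hV w (List.mem_cons_of_mem _ hw)) ?_
    rcases min_cases b v with h2 | h2
    · rwa [h2]
    · rw [h2]
      exact vm_xor hp hD h (hV v List.mem_cons_self)

theorem ins_mem {P : ℕ → Prop} {r : ℕ} (hr : P r) : ∀ V : List ℕ, (∀ v ∈ V, P v) →
    ∀ v ∈ ins r V, P v
  | [], _, v, hv => by
    unfold ins at hv
    rw [List.mem_singleton] at hv
    rwa [hv]
  | w :: V, hV, v, hv => by
    unfold ins at hv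
    split_ifs at hv
    · rcases List.mem_cons.mp hv with h | h
      · rwa [h]
      · exact hV v h
    · rcases List.mem_cons.mp hv with h | h
      · rw [h]
        exact hV w List.mem_cons_self
      · exact ins_mem hr V (fun x hx => hV x (List.mem_cons_of_mem _ hx)) v h

theorem elim_mem (hD : Ds.Nodup) : ∀ (G V : List ℕ), (∀ g ∈ G, vm Ds g ∈ VecG p hp) →
    (∀ v ∈ V, vm Ds v ∈ VecG p hp) → ∀ v ∈ elim G V, vm Ds v ∈ VecG p hp
  | [], _, _, hV, v, hv => hV v hv
  | g :: G, V, hG, hV, v, hv => by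
    unfold elim at hv
    refine elim_mem hD G _ (fun x hx => hG x (List.mem_cons_of_mem _ hx)) ?_ v hv
    split_ifs
    · exact hV
    · exact ins_mem (P := fun x => vm Ds x ∈ VecG p hp)
        (red_fwd hD V g hV (hG g List.mem_cons_self)) V hV

/-- relations -/
theorem rel_len {n : ℕ → ℤ} {s : List ℕ} (r : List ℕ)
    (hs : ∀ R ∈ r, R ∈ s ↔ Odd (n R)) (h : Even ((r.map n).sum)) :
    (r.filter fun R => s.contains R).length % 2 = 0 := by
  have key : ∀ r : List ℕ, (∀ R ∈ r, R ∈ s ↔ Odd (n R)) →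
      Even ((r.map n).sum - ((r.filter fun R => s.contains R).length : ℤ)) := by
    intro r
    induction r with
    | nil => exact fun _ => ⟨0, by simp⟩
    | cons a r ih =>
      intro hs
      have h1 := ih fun R hR => hs R (List.mem_cons_of_mem _ hR)
      have h2 := hs a List.mem_cons_self
      rw [List.map_cons, List.sum_cons]
      by_cases ha : a ∈ s
      · rw [List.filter_cons_of_pos (by rwa [List.contains_iff_mem]), List.length_cons]
        obtain ⟨k, hk⟩ := h2.mp ha
        obtain ⟨j, hj⟩ := h1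
        refine ⟨k + j, ?_⟩
        push_cast
        rw [hk]
        linear_combination hj
      · rw [List.filter_cons_of_neg (by rwa [List.contains_iff_mem])]
        obtain ⟨k, hk⟩ : Even (n a) := Int.not_odd_iff_even.mp fun h3 => ha (h2.mpr h3)
        obtain ⟨j, hj⟩ := h1
        refine ⟨k + j, ?_⟩
        rw [hk]
        linear_combination hj
  have h1 := h.sub (key r hs)
  rw [sub_sub_cancel, Int.even_coe_nat] at h1
  exact Nat.even_iff.mp h1

/-- **Linear algebra.** -/
theorem linck_spec (hp : p.Prime) (hD : Ds.Nodup) {DK G : List ℕ} {rels : List (List ℕ)}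
    (h : linck Ds DK G rels = true) (hDK : ∀ R ∈ DK, R ∈ Ds) (hG : ∀ g ∈ G, vm Ds g ∈ VecG p hp)
    {n : ℕ → ℤ} (hrel : ∀ r ∈ rels, (∀ R ∈ r, R ∈ DK) ∧ Even ((r.map n).sum))
    (hdec : ∀ R, Decidable (Odd (n R))) :
    ((DK.filter fun R => Odd (n R)).map eR).sum ∈ VecG p hp := by
  set s := DK.filter fun R => Odd (n R) with hs
  have hsub : s ∈ DK.sublists := List.mem_sublists.mpr List.filter_sublist
  have h1 := List.all_eq_true.mp h s hsub
  rw [Bool.or_eq_true] at h1
  rcases h1 with h1 | h1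
  · exfalso
    rw [List.any_eq_true] at h1
    obtain ⟨r, hr, h2⟩ := h1
    obtain ⟨h3, h4⟩ := hrel r hr
    have h5 := rel_len (n := n) (s := s) r (fun R hR => by
      rw [hs, List.mem_filter, decide_eq_true_iff]
      exact ⟨fun h => h.2, fun h => ⟨h3 R hR, h⟩⟩) h4
    rw [beq_iff_eq] at h2
    omega
  · rw [beq_iff_eq] at h1
    refine (vm_mk hp hD fun x hx => hDK x (List.mem_of_mem_filter hx)).mpr ?_
    refine red_back hD (elim G []) _ (elim_mem hD G [] hG fun v hv => absurd hv List.not_mem_nil) ?_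
    rw [h1]
    exact vm_zero hp

end

end Pot

end Pool.Agent.Lib.MP81632f.Lv
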