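import Pool.Agent.Lib.MP_81632f_ag.Pot.CritC

/-!
# Potential lattice property: integral distributions on the squarefree level

A family `F r` (`r ∣ m`) of odd functions with the distribution relations gives a functional which
kills the relations of all levels with the prime factors of `m`.
-/

set_option autoImplicit false

noncomputable section

namespace Pool.Agent.Lib.MP81632f.Lv

open Finset
open Pool.Agent.Lib.MP81632f.Diag
open Crit Two Push TP
open Red (ev)

/-- an odd distribution on the level `m` -/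
structure DFam (m : ℕ) (F : ℕ → ℤ → ℤ) : Prop where
  per : ∀ (r : ℕ) (z : ℤ), r ∣ m → F r (z + r) = F r z
  odd : ∀ (r : ℕ) (z : ℤ), r ∣ m → F r (-z) = -F r z
  dist : ∀ (r l : ℕ) (z : ℤ), l.Prime → ¬ l ∣ r → l * r ∣ m → IsCoprime z (r : ℤ) →
    ∑ k ∈ Ico 1 l, F (l * r) (l * z + k * r) = F r (l * z) - F r z

theorem DFam.per_mul {m : ℕ} {F : ℕ → ℤ → ℤ} (h : DFam m F) {r : ℕ} (hr : r ∣ m) (z k : ℤ) :
    F r (z + k * r) = F r z := by
  have h1 : ∀ (n : ℕ) (z : ℤ), F r (z + n * r) = F r z := by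
    intro n
    induction n with
    | zero => intro z; simp
    | succ n ih =>
      intro z
      have e : z + ((n + 1 : ℕ) : ℤ) * r = (z + n * r) + r := by push_cast; ring
      rw [e, h.per r _ hr, ih]
  rcases Int.eq_nat_or_neg k with ⟨n, rfl | rfl⟩
  · exact h1 n z
  · have h2 := h1 n (z + -(n : ℤ) * r)
    have e : z + -(n : ℤ) * r + n * r = z := by ring
    rw [e] at h2
    exact h2.symm

/-- invariance under `p`, after averaging -/
theorem DFam.avg {m : ℕ} {F : ℕ → ℤ → ℤ} (h : DFam m F) {p f : ℕ} (hp : p.Coprime m)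
    (hf : (p : ZMod m) ^ f = 1) :
    DFam m (fun r z => ∑ i ∈ range f, F r ((p : ℤ) ^ i * z)) ∧
      ∀ (r : ℕ) (z : ℤ), r ∣ m → ∑ i ∈ range f, F r ((p : ℤ) ^ i * (p * z)) =
        ∑ i ∈ range f, F r ((p : ℤ) ^ i * z) := by
  constructor
  · refine ⟨fun r z hr => ?_, fun r z hr => ?_, fun r l z hl hlr hlm hz => ?_⟩
    · refine sum_congr rfl fun i _ => ?_
      have e : (p : ℤ) ^ i * (z + r) = (p : ℤ) ^ i * z + (p : ℤ) ^ i * r := by ring
      rw [e, h.per_mul hr]
    · rw [← sum_neg_distrib]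
      refine sum_congr rfl fun i _ => ?_
      rw [mul_neg, h.odd r _ hr]
    · rw [sum_comm, ← sum_sub_distrib]
      refine sum_congr rfl fun i _ => ?_
      have hrm : r ∣ m := (dvd_mul_left r l).trans hlm
      have hcz : IsCoprime ((p : ℤ) ^ i * z) (r : ℤ) := by
        refine IsCoprime.mul_left (IsCoprime.pow_left ?_) hz
        exact Nat.isCoprime_iff_coprime.mpr (hp.coprime_dvd_right hrm)
      have h1 := h.dist r l ((p : ℤ) ^ i * z) hl hlr hlm hcz
      have e2 : (p : ℤ) ^ i * ((l : ℤ) * z) = l * ((p : ℤ) ^ i * z) := by ring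
      rw [e2, ← h1]
      -- reindexing
      have : NeZero l := ⟨hl.ne_zero⟩
      have hpl : p.Coprime l := hp.coprime_dvd_right ((dvd_mul_right l r).trans hlm)
      have hu : IsUnit ((((p : ℤ) ^ i : ℤ)) : ZMod l) := by
        push_cast
        exact ((ZMod.isUnit_iff_coprime p l).mpr hpl).pow i
      set g : ℤ → ℤ := fun j => if (l : ℤ) ∣ j then 0 else
        F (l * r) (l * ((p : ℤ) ^ i * z) + j * r) with hg
      have hper : ∀ n, g (n + l) = g n := by
        intro n
        simp only [hg]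
        have e1 : ((l : ℤ) ∣ n + l) ↔ (l : ℤ) ∣ n := dvd_add_self_right
        by_cases hn : (l : ℤ) ∣ n
        · rw [if_pos (e1.mpr hn), if_pos hn]
        · rw [if_neg (fun h' => hn (e1.mp h')), if_neg hn]
          have e3 : (l : ℤ) * ((p : ℤ) ^ i * z) + (n + l) * r =
              (l * ((p : ℤ) ^ i * z) + n * r) + ((l * r : ℕ) : ℤ) := by push_cast; ring
          rw [e3, h.per _ _ hlm]
      have h3 := sum_reindex (N := l) (g := g) hper hu 0
      have hlp : Prime (l : ℤ) := Nat.prime_iff_prime_int.mp hl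
      have hnd : ∀ k ∈ Ico 1 l, ¬ (l : ℤ) ∣ (k : ℤ) := by
        intro k hk hd
        have h5 : l ∣ k := by exact_mod_cast hd
        rw [mem_Ico] at hk
        exact absurd (Nat.le_of_dvd (by omega) h5) (by omega)
      have hr0 : ∀ G : ℕ → ℤ, G 0 = 0 → ∑ k ∈ range l, G k = ∑ k ∈ Ico 1 l, G k := by
        intro G hG
        have : range l = insert 0 (Ico 1 l) := by
          ext k
          rw [mem_range, mem_insert, mem_Ico]
          have := hl.pos
          omega
        rw [this, sum_insert (by simp), hG, zero_add]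
      rw [hr0 (fun k => g (k : ℤ)) (by simp [hg]),
        hr0 (fun k => g (((p : ℤ) ^ i) * (k : ℤ) + 0)) (by simp [hg])] at h3
      have h6 : ∑ k ∈ Ico 1 l, g (k : ℤ) =
          ∑ k ∈ Ico 1 l, F (l * r) (l * ((p : ℤ) ^ i * z) + k * r) :=
        sum_congr rfl fun k hk => by simp only [hg]; rw [if_neg (hnd k hk)]
      rw [← h6, ← h3]
      refine sum_congr rfl fun k hk => ?_
      simp only [hg, add_zero]
      have hnd2 : ¬ (l : ℤ) ∣ (p : ℤ) ^ i * k := by
        intro hd
        rcases hlp.dvd_or_dvd hd with h7 | h7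
        · have h8 : (l : ℤ) ∣ (p : ℤ) := hlp.dvd_of_dvd_pow h7
          have h9 : l ∣ p := by exact_mod_cast h8
          have := Nat.Coprime.eq_one_of_dvd hpl.symm h9
          exact hl.one_lt.ne' this
        · exact hnd k hk h7
      rw [if_neg hnd2]
      congr 1
      ring
  · intro r z hr
    have h1 : ∀ i, F r ((p : ℤ) ^ i * (p * z)) = F r ((p : ℤ) ^ (i + 1) * z) := by
      intro i
      congr 1
      ring
    simp only [h1]
    have h2 := Finset.sum_range_succ' (fun i => F r ((p : ℤ) ^ i * z)) f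
    have h3 := Finset.sum_range_succ (fun i => F r ((p : ℤ) ^ i * z)) f
    have h4 : F r ((p : ℤ) ^ f * z) = F r ((p : ℤ) ^ 0 * z) := by
      have h5 : ((m : ℕ) : ℤ) ∣ (p : ℤ) ^ f - 1 := by
        rw [← ZMod.intCast_zmod_eq_zero_iff_dvd]
        push_cast
        rw [hf, sub_self]
      obtain ⟨w, hw⟩ := (Int.natCast_dvd_natCast.mpr hr).trans h5
      have e : (p : ℤ) ^ f * z = (p : ℤ) ^ 0 * z + (w * z) * r := by
        linear_combination z * hw
      rw [e, h.per_mul hr]
    rw [h2] at h3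
    linarith

section Fnl

variable {p M m : ℕ} {F : ℕ → ℤ → ℤ}

/-- the weight -/
def cw (M n : ℕ) : ℤ := ((M / n * rad n : ℕ) : ℤ)

/-- the functional -/
def phi (M : ℕ) (F : ℕ → ℤ → ℤ) (x : ℚ) : ℤ := cw M x.den * F (rad x.den) x.num

theorem phi_eq {a : ℤ} {n : ℕ} (hn : 0 < n) (h : IsCoprime a (n : ℤ)) :
    phi M F ((a : ℚ) / n) = cw M n * F (rad n) a := by
  have h1 : (a : ℚ) / n = (a : ℚ) / ((n : ℤ) : ℚ) := by rw [Int.cast_natCast]
  have hn' : (0 : ℤ) < n := by exact_mod_cast hn
  have hc : a.natAbs.Coprime (n : ℤ).natAbs := Int.isCoprime_iff_gcd_eq_one.mp h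
  have h2 : ((a : ℚ) / n).num = a := by
    rw [h1]
    exact Rat.num_div_eq_of_coprime hn' hc
  have h3 : (((a : ℚ) / n).den : ℤ) = n := by
    rw [h1]
    exact Rat.den_div_eq_of_coprime hn' hc
  have h4 : ((a : ℚ) / n).den = n := by exact_mod_cast h3
  unfold phi
  rw [h2, h4]

theorem phi_dist (hF : DFam m F) (hM : rad M ∣ m) (hM0 : 0 < M) {a : ℤ} {n l : ℕ} (hn : 0 < n)
    (hl : l.Prime) (hln : l * n ∣ M) (h : IsCoprime a (n : ℤ)) :
    ∑ k ∈ range l, phi M F (((a : ℚ) / n + k) / l) = cw M n * F (rad n) a := by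
  have hn0 : (n : ℚ) ≠ 0 := by exact_mod_cast hn.ne'
  have hl0 : (l : ℚ) ≠ 0 := by exact_mod_cast hl.ne_zero
  have hlp : Prime (l : ℤ) := Nat.prime_iff_prime_int.mp hl
  have hterm : ∀ k : ℕ, ((a : ℚ) / n + k) / l = ((a + k * n : ℤ) : ℚ) / ((l * n : ℕ) : ℚ) := by
    intro k
    push_cast
    field_simp
  have hradn : rad n ∣ m := (rad_dvd_rad hM0 ((dvd_mul_left n l).trans hln)).trans hM
  have hradln : rad (l * n) ∣ m := (rad_dvd_rad hM0 hln).trans hM
  have hlow : ∀ k : ℕ, ¬ (l : ℤ) ∣ a + k * n → IsCoprime (a + k * n) ((l * n : ℕ) : ℤ) := by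
    intro k hd
    push_cast
    exact IsCoprime.mul_right (((Prime.coprime_iff_not_dvd hlp).mpr hd).symm) (cop_add h k)
  have hM1 : M / n = l * (M / (l * n)) := by
    obtain ⟨c, hc⟩ := hln
    rw [hc, Nat.mul_div_cancel_left _ (Nat.mul_pos hl.pos hn)]
    have e : l * n * c = n * (l * c) := by ring
    rw [e, Nat.mul_div_cancel_left _ hn]
  by_cases hd : l ∣ n
  · have hnd : ∀ k : ℕ, ¬ (l : ℤ) ∣ a + k * n := by
      intro k hk
      obtain ⟨u, v, huv⟩ := cop_add h (k : ℤ)
      have h3 : (l : ℤ) ∣ 1 := by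
        rw [← huv]
        exact dvd_add (hk.mul_left u) ((Int.natCast_dvd_natCast.mpr hd).mul_left v)
      have h4 : l ∣ 1 := by exact_mod_cast h3
      exact hl.one_lt.ne' (Nat.dvd_one.mp h4)
    have h1 : ∀ k ∈ range l, phi M F (((a : ℚ) / n + k) / l) = cw M (l * n) * F (rad n) a := by
      intro k _
      rw [hterm, phi_eq (Nat.mul_pos hl.pos hn) (hlow k (hnd k)), rad_mul hl hn hd]
      obtain ⟨s, hs⟩ := rad_dvd n
      have e : a + (k : ℤ) * n = a + (k * s) * (rad n : ℕ) := by
        nth_rewrite 1 [hs]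
        push_cast
        ring
      rw [e, hF.per_mul hradn]
    rw [sum_congr rfl h1, sum_const, card_range, nsmul_eq_mul, ← mul_assoc]
    congr 1
    unfold cw
    rw [rad_mul hl hn hd, hM1]
    push_cast
    ring
  · have hradl : rad (l * n) = l * rad n := rad_new hl hn hd
    obtain ⟨k0, hk0⟩ := Finset.card_eq_one.mp (card_dvd hl hd a)
    have hk0' : k0 ∈ (range l).filter fun k : ℕ => (l : ℤ) ∣ a + k * n := by
      rw [hk0]; exact mem_singleton_self _
    rw [mem_filter, mem_range] at hk0'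
    obtain ⟨hk0l, b, hb⟩ := hk0'
    have hother : ∀ k ∈ range l, k ≠ k0 → ¬ (l : ℤ) ∣ a + k * n := by
      intro k hk hne hdk
      have : k ∈ (range l).filter fun k : ℕ => (l : ℤ) ∣ a + k * n := mem_filter.mpr ⟨hk, hdk⟩
      rw [hk0, mem_singleton] at this
      exact hne this
    have hbn : IsCoprime b (n : ℤ) := by
      have := cop_add h (k0 : ℤ)
      rw [hb] at this
      exact this.of_mul_left_right
    obtain ⟨s, hs⟩ := rad_dvd n
    have hcw : cw M (l * n) = cw M n := by
      unfold cw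
      rw [hradl, hM1]
      push_cast
      ring
    set r := rad n with hr
    have hlr : ¬ l ∣ r := fun h' => hd (h'.trans (rad_dvd n))
    have hlrm : l * r ∣ m := by rw [← hradl]; exact hradln
    have hbr : IsCoprime b (r : ℤ) := hbn.of_isCoprime_of_dvd_right
      (by exact_mod_cast rad_dvd n)
    have : NeZero l := ⟨hl.ne_zero⟩
    set g : ℤ → ℤ := fun j => if (l : ℤ) ∣ j then 0 else F (l * r) (l * b + j * r) with hg
    have hper : ∀ n, g (n + l) = g n := by
      intro n
      simp only [hg]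
      have e1 : ((l : ℤ) ∣ n + l) ↔ (l : ℤ) ∣ n := dvd_add_self_right
      by_cases hn : (l : ℤ) ∣ n
      · rw [if_pos (e1.mpr hn), if_pos hn]
      · rw [if_neg (fun h' => hn (e1.mp h')), if_neg hn]
        have e3 : (l : ℤ) * b + (n + l) * r = (l * b + n * r) + ((l * r : ℕ) : ℤ) := by
          push_cast; ring
        rw [e3, hF.per _ _ hlrm]
    have hsl : ¬ (l : ℤ) ∣ (s : ℤ) := by
      intro h'
      have h'' : l ∣ s := by exact_mod_cast h'
      exact hd (by rw [hs]; exact h''.mul_left r)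
    have hu : IsUnit (((s : ℤ) : ℤ) : ZMod l) := by
      have : Fact l.Prime := ⟨hl⟩
      rw [isUnit_iff_ne_zero, Ne, ZMod.intCast_zmod_eq_zero_iff_dvd]
      exact hsl
    have h3 := sum_reindex (N := l) (g := g) hper hu (-((s : ℤ) * k0))
    have hterm2 : ∀ k ∈ range l, phi M F (((a : ℚ) / n + k) / l) =
        cw M n * (if k = k0 then F r b else 0) + cw M n * g ((s : ℤ) * k + -((s : ℤ) * k0)) := by
      intro k hk
      by_cases hkk : k = k0
      · subst hkk
        rw [if_pos rfl, hterm, hb]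
        have e : (((l : ℤ) * b : ℤ) : ℚ) / ((l * n : ℕ) : ℚ) = (b : ℚ) / n := by
          push_cast
          field_simp
        rw [e, phi_eq hn hbn]
        have e2 : g ((s : ℤ) * k + -((s : ℤ) * k)) = 0 := by
          simp only [hg]
          rw [if_pos (by rw [add_neg_cancel]; exact dvd_zero _)]
        rw [e2, mul_zero, add_zero]
      · rw [if_neg hkk, hterm, phi_eq (Nat.mul_pos hl.pos hn) (hlow k (hother k hk hkk)), hradl,
          hcw, mul_zero, zero_add]
        congr 1
        simp only [hg]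
        have hnd : ¬ (l : ℤ) ∣ (s : ℤ) * k + -((s : ℤ) * k0) := by
          intro h'
          have e : (s : ℤ) * k + -((s : ℤ) * k0) = s * ((k : ℤ) - k0) := by ring
          rw [e] at h'
          rcases hlp.dvd_or_dvd h' with h5 | h5
          · exact hsl h5
          · have h6 : (l : ℤ) ∣ a + k * n := by
              have e : a + (k : ℤ) * n = l * b + ((k : ℤ) - k0) * n := by
                linear_combination hb
              rw [e]
              exact dvd_add (dvd_mul_right _ _) (h5.mul_right _)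
            exact hother k hk hkk h6
        rw [if_neg hnd]
        congr 1
        have e : ((n : ℕ) : ℤ) = (r : ℤ) * s := by exact_mod_cast hs
        linear_combination hb + ((k : ℤ) - k0) * e
    rw [sum_congr rfl hterm2, sum_add_distrib, ← mul_sum, ← mul_sum, h3,
      sum_ite_eq' (range l) k0, if_pos (mem_range.mpr hk0l)]
    have h4 : ∑ k ∈ range l, g (k : ℤ) = ∑ k ∈ Ico 1 l, F (l * r) (l * b + k * r) := by
      have h5 : range l = insert 0 (Ico 1 l) := by
        ext k
        rw [mem_range, mem_insert, mem_Ico]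
        have := hl.pos
        omega
      rw [h5, sum_insert (by simp)]
      have h6 : g ((0 : ℕ) : ℤ) = 0 := by simp [hg]
      rw [h6, zero_add]
      refine sum_congr rfl fun k hk => ?_
      simp only [hg]
      rw [if_neg]
      intro hdk
      have h7 : l ∣ k := by exact_mod_cast hdk
      rw [mem_Ico] at hk
      exact absurd (Nat.le_of_dvd (by omega) h7) (by omega)
    rw [h4, hF.dist r l b hl hlr hlrm hbr]
    have h5 : F r (l * b) = F r a := by
      have e : (l : ℤ) * b = a + ((k0 : ℤ) * s) * r := by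
        have e : ((n : ℕ) : ℤ) = (r : ℤ) * s := by exact_mod_cast hs
        linear_combination -hb + (k0 : ℤ) * e
      rw [e, hF.per_mul hradn]
    rw [h5]
    ring

/-- the functional kills the relations -/
theorem phi_rel (hF : DFam m F) (hfrob : ∀ (r : ℕ) (z : ℤ), r ∣ m → F r (p * z) = F r z)
    (hM : rad M ∣ m) (hM0 : 0 < M) {w : FQ} (hw : Rel p M w) (hMp : M.Coprime p) :
    lft (phi M F) w = 0 := by
  have hrm : ∀ n : ℕ, n ∣ M → rad n ∣ m := fun n hn => (rad_dvd_rad hM0 hn).trans hM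
  cases hw with
  | per x hx =>
    obtain ⟨h1, h2, h3⟩ := lowest x
    rw [map_sub, lft_br, lft_br]
    have e1 : x + 1 = ((x.num + 1 * x.den : ℤ) : ℚ) / x.den := by
      have h4 : (x.den : ℚ) ≠ 0 := by exact_mod_cast h3.ne'
      nth_rewrite 1 [h1]
      push_cast
      field_simp
    rw [e1, phi_eq h3 (cop_add h2 1)]
    obtain ⟨s, hs⟩ := rad_dvd x.den
    have e2 : x.num + 1 * (x.den : ℤ) = x.num + (s : ℤ) * (rad x.den : ℕ) := by
      have : ((x.den : ℕ) : ℤ) = (rad x.den : ℤ) * s := by exact_mod_cast hs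
      linear_combination this
    rw [e2, hF.per_mul (hrm _ (den_dvd hx))]
    exact sub_self _
  | odd x hx =>
    obtain ⟨h1, h2, h3⟩ := lowest x
    rw [map_add, lft_br, lft_br]
    have e1 : -x = ((-x.num : ℤ) : ℚ) / x.den := by
      nth_rewrite 1 [h1]
      push_cast
      ring
    rw [e1, phi_eq h3 h2.neg_left, hF.odd _ _ (hrm _ (den_dvd hx))]
    unfold phi
    ring
  | frob x hx =>
    obtain ⟨h1, h2, h3⟩ := lowest x
    rw [map_sub, lft_br, lft_br]
    have h4 : IsCoprime (p : ℤ) (x.den : ℤ) :=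
      (Nat.isCoprime_iff_coprime.mpr (hMp.coprime_dvd_left (den_dvd hx))).symm
    have e1 : (p : ℚ) * x = ((p * x.num : ℤ) : ℚ) / x.den := by
      nth_rewrite 1 [h1]
      push_cast
      ring
    rw [e1, phi_eq h3 (h4.mul_left h2), hfrob _ _ (hrm _ (den_dvd hx))]
    exact sub_self _
  | dist l n x hl hln hx =>
    obtain ⟨h1, h2, h3⟩ := lowest x
    rw [map_sub, map_sum, lft_br]
    have h4 : l * x.den ∣ M := (Nat.mul_dvd_mul_left l (den_dvd hx)).trans hln
    have h5 := phi_dist hF hM hM0 h3 hl h4 h2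
    rw [← h1] at h5
    have h6 : ∑ k ∈ range l, lft (phi M F) (br ((x + k) / l)) =
        ∑ k ∈ range l, phi M F ((x + k) / l) := Finset.sum_congr rfl fun k _ => lft_br _ _
    rw [h6, h5]
    exact sub_self _
  | pure i n x hn hi hx =>
    obtain ⟨h1, h2, h3⟩ := lowest x
    rw [lft_br]
    unfold phi
    have hr := hrm _ ((den_dvd hx).trans hn)
    have h5 : ∀ (j : ℕ) (z : ℤ), F (rad x.den) ((p : ℤ) ^ j * z) = F (rad x.den) z := by
      intro j
      induction j with
      | zero => intro z; rw [pow_zero, one_mul]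
      | succ j ih =>
        intro z
        have e : (p : ℤ) ^ (j + 1) * z = p * ((p : ℤ) ^ j * z) := by ring
        rw [e, hfrob _ _ hr, ih]
    obtain ⟨s, hs⟩ := ((rad_dvd x.den).trans (den_dvd hx)).trans hi
    have h6 := h5 i x.num
    have e : (p : ℤ) ^ i * x.num = -x.num + (s * x.num) * (rad x.den : ℕ) := by
      have : (p : ℤ) ^ i + 1 = (rad x.den : ℤ) * s := by exact_mod_cast hs
      linear_combination x.num * this
    rw [e, hF.per_mul hr, hF.odd _ _ hr] at h6
    have h7 : F (rad x.den) x.num = 0 := by omega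
    rw [h7, mul_zero]

/-- **Parities from integral distributions.** -/
theorem nR_even (hTor : StTor) (hF : DFam m F)
    (hfrob : ∀ (r : ℕ) (z : ℤ), r ∣ m → F r (p * z) = F r z) [NeZero M] (hM : rad M ∣ m)
    (hModd : Odd M) {R₁ : ℕ}
    (hpar : ∀ (r : ℕ) (z : ℤ), r ∣ m → IsCoprime z (r : ℤ) → (Odd (F r z) ↔ r = R₁))
    {v : ZMod M → ℤ} (hv : Bal M p v) : Even (nR M R₁ v) := by
  obtain ⟨h0, f, hf, hpf, hb⟩ := hv
  have hMp := coprime_of_pow hf hpf
  have hM0 : 0 < M := NeZero.pos M
  by_cases hMe : M = 1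
  · subst hMe
    rw [bal_one h0]
    unfold nR
    simp
  have hM1 : 1 < M := by omega
  obtain ⟨k, hk, h1⟩ := hTor M p f hM1 hf hpf v h0 hb
  have h2 : iota M (((k : ℕ) : ℤ) • v) ∈ R p M := iota_rel h1
  rw [iota_smul] at h2
  have h3 := lft_kill (p := p) (m := M) (phi M F) 1
    (fun r hr => by rw [phi_rel hF hfrob hM hM0 hr hMp, smul_zero]) h2
  rw [one_smul, map_zsmul, smul_eq_mul] at h3
  have h4 : lft (phi M F) (iota M v) = 0 := by
    rcases mul_eq_zero.mp h3 with h5 | h5
    · exfalso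
      have : k = 0 := by exact_mod_cast h5
      omega
    · exact h5
  have h5 : lft (phi M F) (iota M v) = ∑ x, v x * phi M F (fr M x) := by
    change lft (phi M F) (∑ x, v x • br (fr M x)) = _
    rw [map_sum]
    exact Finset.sum_congr rfl fun x _ => by rw [map_zsmul, lft_br, smul_eq_mul]
  rw [h5] at h4
  have h6 : ∀ x : ZMod M,
      Even ((if Odd (addOrderOf x) ∧ rad (addOrderOf x) = R₁ then v x else 0) -
      v x * phi M F (fr M x)) := by
    intro x
    obtain ⟨a, ha, hac⟩ := fr_lowest x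
    rw [ha, phi_eq (addOrderOf_pos x) hac]
    have hoM : addOrderOf x ∣ M := order_dvd x
    have hoo : Odd (addOrderOf x) := hModd.of_dvd_nat hoM
    have hrm : rad (addOrderOf x) ∣ m := (rad_dvd_rad hM0 hoM).trans hM
    have hac' : IsCoprime a ((rad (addOrderOf x) : ℕ) : ℤ) :=
      hac.of_isCoprime_of_dvd_right (by exact_mod_cast rad_dvd _)
    have hp1 := hpar _ a hrm hac'
    have hcw : Odd (cw M (addOrderOf x)) := by
      have h8 : Odd (M / addOrderOf x) := hModd.of_dvd_nat (Nat.div_dvd_of_dvd hoM)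
      have h9 : Odd (rad (addOrderOf x)) := hoo.of_dvd_nat (rad_dvd _)
      unfold cw
      exact_mod_cast h8.mul h9
    by_cases hR : rad (addOrderOf x) = R₁
    · rw [if_pos ⟨hoo, hR⟩]
      have h7 := hcw.mul (hp1.mpr hR)
      obtain ⟨t, ht⟩ := h7
      rw [ht]
      exact ⟨-(v x * t), by ring⟩
    · rw [if_neg fun h' => hR h'.2]
      have h7 : Even (F (rad (addOrderOf x)) a) := by
        rw [← Int.not_odd_iff_even]
        exact fun h' => hR (hp1.mp h')
      obtain ⟨t, ht⟩ := h7
      rw [ht]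
      exact ⟨-(v x * (cw M (addOrderOf x) * t)), by ring⟩
  have h7 := Finset.even_sum (s := (univ : Finset (ZMod M))) _ fun x _ => h6 x
  rw [Finset.sum_sub_distrib, h4, sub_zero, ← Finset.sum_filter] at h7
  exact h7

end Fnl

end Pool.Agent.Lib.MP81632f.Lv
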