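import Pool.Agent.Lib.MP_81632f_ag.Pot.PairA14

set_option autoImplicit false

noncomputable section

namespace Pool.Agent.Lib.MP81632f.Lv

open Finset
open Pool.Agent.Lib.MP81632f.Diag

section

variable {p m : ℕ}

theorem rad_dvd_of_primes {M m : ℕ} (hm : m ≠ 0) (h : ∀ l : ℕ, l.Prime → l ∣ M → l ∣ m) :
    rad M ∣ m := by
  refine dvd_trans ?_ (rad_dvd m)
  unfold rad
  refine Finset.prod_dvd_prod_of_subset _ _ _ fun l hl => ?_
  rw [Nat.mem_primeFactors] at hl ⊢
  exact ⟨hl.1, h l hl.1 hl.2.1, hm⟩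

/-- a radical is good if there is an integral distribution which is odd there only -/
theorem goodR_fam (hTor : StTor) (hp : p.Prime) (hm : Odd m) (hpm : p.Coprime m)
    {F : ℕ → ℤ → ℤ} (hF : DFam m F) {R₁ : ℕ}
    (hpar : ∀ (r : ℕ) (z : ℤ), r ∣ m → IsCoprime z (r : ℤ) → (Odd (F r z) ↔ r = R₁))
    (hf : Odd (orderOf (p : ZMod m))) : GoodR p hp m R₁ := by
  refine Or.inr fun M hM {_} v hv _ => ?_
  have hMo : Odd M := by
    by_contra h
    rw [Nat.not_odd_iff_even, even_iff_two_dvd] at h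
    have h2 := hM 2 Nat.prime_two h
    exact absurd (hm.of_dvd_nat h2) (by decide)
  obtain ⟨h1, h2⟩ := hF.avg hpm (pow_orderOf_eq_one (p : ZMod m))
  refine nR_even hTor h1 h2 (rad_dvd_of_primes hm.pos.ne' hM) hMo (R₁ := R₁) ?_ hv
  intro r z hr hz
  have h3 : ∀ i : ℕ, (Odd (F r ((p : ℤ) ^ i * z)) ↔ r = R₁) := fun i =>
    hpar r _ hr (IsCoprime.mul_left (IsCoprime.pow_left
      (Nat.isCoprime_iff_coprime.mpr (hpm.coprime_dvd_right hr))) hz)
  by_cases hR : r = R₁
  · refine iff_of_true ?_ hR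
    have h4 : Even (∑ i ∈ range (orderOf (p : ZMod m)), (F r ((p : ℤ) ^ i * z) - 1)) :=
      Finset.even_sum _ fun i _ => ((h3 i).mpr hR).sub_odd odd_one
    rw [sum_sub_distrib, sum_const, card_range, nsmul_eq_mul, mul_one] at h4
    have h5 : Odd ((orderOf (p : ZMod m) : ℕ) : ℤ) := by exact_mod_cast hf
    have h6 := h4.add_odd h5
    rwa [sub_add_cancel] at h6
  · refine iff_of_false ?_ hR
    rw [Int.not_odd_iff_even]
    refine Finset.even_sum _ fun i _ => ?_
    rw [← Int.not_odd_iff_even]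
    exact fun h => hR ((h3 i).mp h)

/-- the family given by three functions -/
def F3 (a b : ℕ) (fa : ZMod a → ℤ) (fb : ZMod b → ℤ) (G : ZMod a → ZMod b → ℤ) (r : ℕ) (z : ℤ) : ℤ :=
  if r = a then fa z else if r = b then fb z else if r = a * b then G z z else 0

/-- summation over the nonzero residues -/
theorem sum_Ico_cast {l : ℕ} (hl : l.Prime) (g : ZMod l → ℤ) {c : ℤ} (hc : IsCoprime c (l : ℤ))
    [NeZero l] : ∑ k ∈ Ico 1 l, g ((((k : ℕ) : ℤ) * c : ℤ)) = ∑ u : ZMod l with u ≠ 0, g u := by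
  have : Fact l.Prime := ⟨hl⟩
  have hcu : (c : ZMod l) ≠ 0 := by
    rw [Ne, ZMod.intCast_zmod_eq_zero_iff_dvd]
    intro h
    have h1 : IsUnit (l : ℤ) := hc.isUnit_of_dvd' h dvd_rfl
    exact (Nat.prime_iff_prime_int.mp hl).not_isUnit h1
  refine Finset.sum_bij' (i := fun k _ => (((k : ℕ) : ℤ) * c : ℤ))
    (j := fun u _ => (u * (c : ZMod l)⁻¹).val) ?_ ?_ ?_ ?_ ?_
  · intro k hk
    rw [mem_Ico] at hk
    rw [mem_filter]
    refine ⟨mem_univ _, ?_⟩
    push_cast
    refine mul_ne_zero ?_ hcu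
    rw [Ne, ZMod.natCast_eq_zero_iff]
    exact fun h => absurd (Nat.le_of_dvd (by omega) h) (by omega)
  · intro u hu
    rw [mem_filter] at hu
    rw [mem_Ico]
    refine ⟨?_, ZMod.val_lt _⟩
    have h1 : (u * (c : ZMod l)⁻¹) ≠ 0 := mul_ne_zero hu.2 (inv_ne_zero hcu)
    have h2 := (ZMod.val_ne_zero _).mpr h1
    omega
  · intro k hk
    rw [mem_Ico] at hk
    push_cast
    rw [mul_assoc, mul_inv_cancel₀ hcu, mul_one, ZMod.val_natCast, Nat.mod_eq_of_lt hk.2]
  · intro u hu
    push_cast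
    rw [ZMod.natCast_zmod_val, mul_assoc, inv_mul_cancel₀ hcu, mul_one]
  · intro k _
    rfl

theorem sum_odd_zero {l : ℕ} [NeZero l] (g : ZMod l → ℤ) (hg : ∀ u, g (-u) = -g u) :
    ∑ u : ZMod l with u ≠ 0, g u = 0 := by
  have h1 : ∑ u : ZMod l with u ≠ 0, g u = ∑ u : ZMod l with u ≠ 0, g (-u) := by
    refine Finset.sum_bij' (i := fun u _ => -u) (j := fun u _ => -u) ?_ ?_ ?_ ?_ ?_ <;>
      simp
  have h2 : ∑ u : ZMod l with u ≠ 0, g (-u) = -∑ u : ZMod l with u ≠ 0, g u := by
    rw [← sum_neg_distrib]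
    exact sum_congr rfl fun u _ => hg u
  omega

/-- three functions with these relations give a distribution -/
theorem dfam3 {a b : ℕ} (ha : a.Prime) (hb : b.Prime) (hab : a ≠ b) [NeZero a] [NeZero b]
    {fa : ZMod a → ℤ} {fb : ZMod b → ℤ} {G : ZMod a → ZMod b → ℤ}
    (h1 : ∀ u, fa (-u) = -fa u) (h2 : ∀ w, fb (-w) = -fb w) (h3 : ∀ u w, G (-u) (-w) = -G u w)
    (h4 : ∀ w, w ≠ 0 → ∑ u : ZMod a with u ≠ 0, G u (a * w) = fb (a * w) - fb w)
    (h5 : ∀ u, u ≠ 0 → ∑ w : ZMod b with w ≠ 0, G (b * u) w = fa (b * u) - fa u) :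
    DFam (a * b) (F3 a b fa fb G) := by
  have ha1 := ha.one_lt
  have hb1 := hb.one_lt
  have haab : a ≠ a * b := by
    intro h
    have : a * 1 = a * b := by rw [mul_one]; exact h
    have := Nat.eq_of_mul_eq_mul_left ha.pos this
    omega
  have hbab : b ≠ a * b := by
    intro h
    have : 1 * b = a * b := by rw [one_mul]; exact h
    have := Nat.eq_of_mul_eq_mul_right hb.pos this
    omega
  have hdiv : ∀ r : ℕ, r ∣ a * b → r = 1 ∨ r = a ∨ r = b ∨ r = a * b := by
    intro r hr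
    obtain ⟨x, y, hx, hy, rfl⟩ := (Nat.dvd_mul).mp hr
    rcases (Nat.dvd_prime ha).mp hx with rfl | rfl <;>
      rcases (Nat.dvd_prime hb).mp hy with rfl | rfl <;> simp
  have f1 : ∀ z, F3 a b fa fb G 1 z = 0 := by
    intro z
    unfold F3
    have : 1 ≠ a * b := by
      have := Nat.mul_lt_mul_of_lt_of_le hb1 (le_refl a) ha.pos
      nlinarith
    rw [if_neg (by omega), if_neg (by omega), if_neg this]
  have f2 : ∀ z, F3 a b fa fb G a z = fa z := fun z => if_pos rfl
  have f3 : ∀ z, F3 a b fa fb G b z = fb z := by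
    intro z
    unfold F3
    rw [if_neg (Ne.symm hab), if_pos rfl]
  have f4 : ∀ z, F3 a b fa fb G (a * b) z = G z z := by
    intro z
    unfold F3
    rw [if_neg (Ne.symm haab), if_neg (Ne.symm hbab), if_pos rfl]
  have hcab : IsCoprime (a : ℤ) (b : ℤ) :=
    Nat.isCoprime_iff_coprime.mpr ((Nat.coprime_primes ha hb).mpr hab)
  have hne : ∀ (l : ℕ), l.Prime → ∀ z : ℤ, IsCoprime z (l : ℤ) → (z : ZMod l) ≠ 0 := by
    intro l hl z hz h
    rw [ZMod.intCast_zmod_eq_zero_iff_dvd] at h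
    exact (Nat.prime_iff_prime_int.mp hl).not_isUnit (hz.isUnit_of_dvd' h dvd_rfl)
  refine ⟨?_, ?_, ?_⟩
  · intro r z hr
    rcases hdiv r hr with rfl | rfl | rfl | rfl
    · rw [f1, f1]
    · rw [f2, f2]; push_cast; rw [CharP.cast_eq_zero, add_zero]
    · rw [f3, f3]; push_cast; rw [CharP.cast_eq_zero, add_zero]
    · rw [f4, f4]
      push_cast
      rw [ZMod.natCast_self a, ZMod.natCast_self b, zero_mul, mul_zero, add_zero, add_zero]
  · intro r z hr
    rcases hdiv r hr with rfl | rfl | rfl | rfl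
    · rw [f1, f1, neg_zero]
    · rw [f2, f2]; push_cast; exact h1 _
    · rw [f3, f3]; push_cast; exact h2 _
    · rw [f4, f4]; push_cast; exact h3 _ _
  · intro r l z hl hlr hlm hz
    rcases hdiv r ((dvd_mul_left r l).trans hlm) with rfl | rfl | rfl | rfl
    · rw [f1, f1, sub_zero]
      rw [mul_one] at hlm
      have hl2 : l = a ∨ l = b := (hl.dvd_mul.mp hlm).imp
        (fun h => (Nat.prime_dvd_prime_iff_eq hl ha).mp h)
        fun h => (Nat.prime_dvd_prime_iff_eq hl hb).mp h
      rcases hl2 with rfl | rfl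
      · rw [← sum_odd_zero fa h1, ← sum_Ico_cast ha fa (isCoprime_one_left)]
        refine sum_congr rfl fun k _ => ?_
        rw [mul_one, f2]
        congr 1
        push_cast
        rw [CharP.cast_eq_zero, zero_mul, zero_add]
      · rw [← sum_odd_zero fb h2, ← sum_Ico_cast hb fb (isCoprime_one_left)]
        refine sum_congr rfl fun k _ => ?_
        rw [mul_one, f3]
        congr 1
        push_cast
        rw [CharP.cast_eq_zero, zero_mul, zero_add]
    · -- `r = a`, `l = b`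
      have hl2 : l = b := by
        have h6 : l ∣ r * b := (dvd_mul_right l r).trans hlm
        rcases hl.dvd_mul.mp h6 with h7 | h7
        · exact absurd h7 hlr
        · exact (Nat.prime_dvd_prime_iff_eq hl hb).mp h7
      subst hl2
      rw [f2, f2]
      have h6 := h5 z (hne r ha z hz)
      rw [← sum_Ico_cast hb _ hcab] at h6
      push_cast
      push_cast at h6
      rw [← h6]
      refine sum_congr rfl fun k _ => ?_
      rw [mul_comm l r, f4]
      push_cast
      rw [ZMod.natCast_self r, ZMod.natCast_self l, mul_zero, add_zero, zero_mul, zero_add]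
    · -- `r = b`, `l = a`
      have hl2 : l = a := by
        have h6 : l ∣ a * r := (dvd_mul_right l r).trans hlm
        rcases hl.dvd_mul.mp h6 with h7 | h7
        · exact (Nat.prime_dvd_prime_iff_eq hl ha).mp h7
        · exact absurd h7 hlr
      subst hl2
      rw [f3, f3]
      have h6 := h4 z (hne r hb z hz)
      rw [← sum_Ico_cast ha (fun u => G u (l * z)) hcab.symm] at h6
      push_cast
      push_cast at h6
      rw [← h6]
      refine sum_congr rfl fun k _ => ?_
      rw [f4]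
      push_cast
      rw [ZMod.natCast_self r, ZMod.natCast_self l, mul_zero, add_zero, zero_mul, zero_add]
    · exfalso
      have h6 : l ∣ a * b := (dvd_mul_right l _).trans hlm
      exact hlr h6

end

end Pool.Agent.Lib.MP81632f.Lv
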