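import Pool.Agent.Lib.MP_81632f_ag.Pot.PairB14
import Mathlib.NumberTheory.LegendreSymbol.GaussEisensteinLemmas
import Mathlib.NumberTheory.LegendreSymbol.QuadraticReciprocity

/-!
# Potential lattice property: two odd primes
-/

set_option autoImplicit false

noncomputable section

namespace Pool.Agent.Lib.MP81632f.Lv

open Finset
open Pool.Agent.Lib.MP81632f.Diag

section

/-- the parities of the family -/
theorem F3_par {a b R₁ : ℕ} (ha : a.Prime) (hb : b.Prime) (hab : a ≠ b)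
    {fa : ZMod a → ℤ} {fb : ZMod b → ℤ} {G : ZMod a → ZMod b → ℤ} (hR : 1 ≠ R₁)
    (k1 : ∀ u, u ≠ 0 → (Odd (fa u) ↔ a = R₁)) (k2 : ∀ w, w ≠ 0 → (Odd (fb w) ↔ b = R₁))
    (k3 : ∀ u w, u ≠ 0 → w ≠ 0 → (Odd (G u w) ↔ a * b = R₁)) (r : ℕ) (z : ℤ) (hr : r ∣ a * b)
    (hz : IsCoprime z (r : ℤ)) : Odd (F3 a b fa fb G r z) ↔ r = R₁ := by
  have hne : ∀ (l : ℕ), l.Prime → ∀ z : ℤ, IsCoprime z (l : ℤ) → (z : ZMod l) ≠ 0 := by
    intro l hl z hz h
    rw [ZMod.intCast_zmod_eq_zero_iff_dvd] at h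
    exact (Nat.prime_iff_prime_int.mp hl).not_isUnit (hz.isUnit_of_dvd' h dvd_rfl)
  have ha1 := ha.one_lt
  have hb1 := hb.one_lt
  have haab : a * b ≠ a := by
    intro h
    have : a * b = a * 1 := by rw [mul_one]; exact h
    have := Nat.eq_of_mul_eq_mul_left ha.pos this
    omega
  have hbab : a * b ≠ b := by
    intro h
    have : a * b = 1 * b := by rw [one_mul]; exact h
    have := Nat.eq_of_mul_eq_mul_right hb.pos this
    omega
  have h1 : (1 : ℕ) ≠ a * b := by nlinarith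
  unfold F3
  obtain ⟨x, y, hx, hy, rfl⟩ := (Nat.dvd_mul).mp hr
  rcases (Nat.dvd_prime ha).mp hx with rfl | rfl <;>
    rcases (Nat.dvd_prime hb).mp hy with rfl | rfl
  · rw [mul_one, if_neg (by omega), if_neg (by omega), if_neg h1]
    exact iff_of_false (by decide) hR
  · rw [one_mul] at hz ⊢
    rw [if_neg (Ne.symm hab), if_pos rfl]
    exact k2 _ (hne _ hb z hz)
  · rw [mul_one] at hz ⊢
    rw [if_pos rfl]
    exact k1 _ (hne _ ha z hz)
  · rw [if_neg haab, if_neg hbab, if_pos rfl]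
    push_cast at hz
    exact k3 _ _ (hne _ ha z (IsCoprime.of_mul_right_left hz))
      (hne _ hb z (IsCoprime.of_mul_right_right hz))

/-- the sign -/
def sg (l : ℕ) (u : ZMod l) : ℤ := if u = 0 then 0 else if u.val ≤ l / 2 then 1 else -1

theorem sg_zero (l : ℕ) : sg l 0 = 0 := if_pos rfl

theorem sg_cases (l : ℕ) {u : ZMod l} (hu : u ≠ 0) : sg l u = 1 ∨ sg l u = -1 := by
  unfold sg
  rw [if_neg hu]
  split_ifs <;> simp

theorem sg_neg {l : ℕ} [NeZero l] (hl : Odd l) (u : ZMod l) : sg l (-u) = -sg l u := by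
  by_cases hu : u = 0
  · rw [hu, neg_zero, sg_zero, neg_zero]
  · unfold sg
    rw [if_neg hu, if_neg (neg_ne_zero.mpr hu)]
    have : NeZero u := ⟨hu⟩
    rw [ZMod.val_neg_of_ne_zero]
    have h1 := ZMod.val_lt u
    have h2 := (ZMod.val_ne_zero u).mpr hu
    obtain ⟨t, ht⟩ := hl
    by_cases h : u.val ≤ l / 2
    · rw [if_pos h, if_neg (by omega)]
    · rw [if_neg h, if_pos (by omega), neg_neg]

theorem sg_odd {l : ℕ} {u : ZMod l} (hu : u ≠ 0) : Odd (sg l u) := by
  rcases sg_cases l hu with h | h <;> rw [h] <;> decide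

/-- the radical `a b` -/
theorem famAB {a b : ℕ} (ha : a.Prime) (hb : b.Prime) (hab : a ≠ b) (ha4 : a % 4 = 1)
    (hb2 : b ≠ 2) : ∃ F, DFam (a * b) F ∧
    ∀ (r : ℕ) (z : ℤ), r ∣ a * b → IsCoprime z (r : ℤ) → (Odd (F r z) ↔ r = a * b) := by
  have : Fact a.Prime := ⟨ha⟩
  have : Fact b.Prime := ⟨hb⟩
  have : NeZero a := ⟨ha.ne_zero⟩
  have : NeZero b := ⟨hb.ne_zero⟩
  have hbo : Odd b := hb.odd_of_ne_two hb2
  have ha2 : ringChar (ZMod a) ≠ 2 := by
    rw [ZMod.ringChar_zmod_n]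
    rintro rfl
    omega
  have hm1 : quadraticChar (ZMod a) (-1) = 1 := by
    rw [quadraticChar_one_iff_isSquare (neg_ne_zero.mpr one_ne_zero),
      ZMod.exists_sq_eq_neg_one_iff]
    omega
  have ha1 := ha.one_lt
  have hb1 := hb.one_lt
  have h1 : (1 : ℕ) ≠ a * b := by nlinarith
  have haab : a ≠ a * b := by
    intro h
    have : a * 1 = a * b := by rw [mul_one]; exact h
    have := Nat.eq_of_mul_eq_mul_left ha.pos this
    omega
  have hbab : b ≠ a * b := by
    intro h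
    have : 1 * b = a * b := by rw [one_mul]; exact h
    have := Nat.eq_of_mul_eq_mul_right hb.pos this
    omega
  refine ⟨F3 a b (fun _ => 0) (fun _ => 0) fun u w => quadraticChar (ZMod a) u * sg b w,
    dfam3 ha hb hab ?_ ?_ ?_ ?_ ?_, F3_par ha hb hab h1 ?_ ?_ ?_⟩
  · exact fun _ => neg_zero.symm
  · exact fun _ => neg_zero.symm
  · intro u w
    rw [sg_neg hbo, ← neg_one_mul u, map_mul, hm1]
    ring
  · intro w _
    rw [← sum_mul, sub_self, sum_filter]
    have h2 := quadraticChar_sum_zero ha2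
    have h3 : ∀ u : ZMod a, (if u ≠ 0 then quadraticChar (ZMod a) u else 0) =
        quadraticChar (ZMod a) u := by
      intro u
      split_ifs with h
      · rfl
      · rw [not_not.mp h, quadraticChar_zero]
    rw [sum_congr rfl fun u _ => h3 u, h2, zero_mul]
  · intro u _
    rw [← mul_sum, sum_odd_zero _ (sg_neg hbo), mul_zero, sub_self]
  · exact fun _ _ => iff_of_false (by decide) haab
  · exact fun _ _ => iff_of_false (by decide) hbab
  · intro u w hu hw
    refine iff_of_true (Odd.mul ?_ (sg_odd hw)) rfl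
    rcases quadraticChar_dichotomy hu with h | h <;> rw [h] <;> decide

/-- the negative part of the difference -/
def gam (a b : ℕ) (v : ZMod a) : ℤ :=
  if sg a v = -1 then sg a v - sg a ((b : ZMod a)⁻¹ * v) else 0

/-- the count in the lemma of Gauss -/
def cnt (a b : ℕ) : ℕ :=
  #{x ∈ Ico 1 (a / 2).succ | a / 2 < (((b : ℕ) : ℤ) * ((x : ℕ) : ZMod a) : ZMod a).val}

theorem cnt_even {a b : ℕ} (ha : a.Prime) (ha2 : a ≠ 2) (hb0 : (b : ZMod a) ≠ 0)
    (hsq : IsSquare (b : ZMod a)) : Even (cnt a b) := by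
  have : Fact a.Prime := ⟨ha⟩
  have h0 : (((b : ℕ) : ℤ) : ZMod a) ≠ 0 := by push_cast; exact hb0
  have h1 := ZMod.gauss_lemma ha2 h0
  have h2 : legendreSym a ((b : ℕ) : ℤ) = 1 := by
    rw [legendreSym.eq_one_iff a h0]
    push_cast
    exact hsq
  rw [h2] at h1
  exact (neg_one_pow_eq_one_iff_even (by decide)).mp h1.symm

theorem gam_sum {a b : ℕ} (ha : a.Prime) (ha2 : a ≠ 2) [NeZero a] (hb0 : (b : ZMod a) ≠ 0) :
    ∑ u : ZMod a with u ≠ 0, gam a b u = -2 * (cnt a b : ℤ) := by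
  have : Fact a.Prime := ⟨ha⟩
  have hao : Odd a := ha.odd_of_ne_two ha2
  have h1 : ∑ u : ZMod a with u ≠ 0, gam a b u = ∑ x : ZMod a with x ≠ 0, gam a b (b * x) := by
    refine Finset.sum_bij' (i := fun u _ => (b : ZMod a)⁻¹ * u) (j := fun x _ => b * x)
      ?_ ?_ ?_ ?_ ?_
    · intro u hu
      rw [mem_filter] at hu ⊢
      exact ⟨mem_univ _, mul_ne_zero (inv_ne_zero hb0) hu.2⟩
    · intro u hu
      rw [mem_filter] at hu ⊢
      exact ⟨mem_univ _, mul_ne_zero hb0 hu.2⟩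
    · intro u _
      rw [mul_inv_cancel_left₀ hb0]
    · intro u _
      rw [inv_mul_cancel_left₀ hb0]
    · intro u _
      rw [mul_inv_cancel_left₀ hb0]
  have h2 : ∀ x : ZMod a, x ≠ 0 → gam a b (b * x) =
      if a / 2 < ((b : ZMod a) * x).val ∧ x.val ≤ a / 2 then -2 else 0 := by
    intro x hx
    have hbx : (b : ZMod a) * x ≠ 0 := mul_ne_zero hb0 hx
    unfold gam
    rw [inv_mul_cancel_left₀ hb0]
    unfold sg
    rw [if_neg hbx, if_neg hx]
    by_cases h3 : ((b : ZMod a) * x).val ≤ a / 2 <;> by_cases h4 : x.val ≤ a / 2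
    · simp [h3, h4, not_lt.mpr h3]
    · simp [h3, h4, not_lt.mpr h3]
    · simp [h3, h4, not_le.mp h3]
    · simp [h3, h4]
  rw [h1, sum_congr rfl fun x hx => h2 x (mem_filter.mp hx).2, ← sum_filter, sum_const,
    nsmul_eq_mul, mul_comm]
  congr 2
  unfold cnt
  refine Finset.card_bij' (i := fun x _ => x.val) (j := fun k _ => ((k : ℕ) : ZMod a)) ?_ ?_ ?_ ?_
  · intro x hx
    rw [mem_filter, mem_filter] at hx
    obtain ⟨⟨-, h3⟩, h4, h5⟩ := hx
    rw [mem_filter, mem_Ico]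
    have h6 := (ZMod.val_ne_zero x).mpr h3
    refine ⟨by omega, ?_⟩
    rw [ZMod.natCast_zmod_val]
    push_cast
    exact h4
  · intro k hk
    rw [mem_filter, mem_Ico] at hk
    obtain ⟨h3, h4⟩ := hk
    have hk2 : k < a := by
      have := ha.pos
      have := Nat.div_lt_self ha.pos (le_refl 2)
      omega
    rw [mem_filter, mem_filter]
    refine ⟨⟨mem_univ _, ?_⟩, ?_, ?_⟩
    · rw [Ne, ZMod.natCast_eq_zero_iff]
      exact fun h => absurd (Nat.le_of_dvd (by omega) h) (by omega)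
    · push_cast at h4
      exact h4
    · rw [ZMod.val_natCast, Nat.mod_eq_of_lt hk2]
      omega
  · intro x _
    exact ZMod.natCast_zmod_val x
  · intro k hk
    rw [mem_filter, mem_Ico] at hk
    have hk2 : k < a := by
      have := Nat.div_lt_self ha.pos (le_refl 2)
      omega
    rw [ZMod.val_natCast, Nat.mod_eq_of_lt hk2]

/-- the radical `a` -/
theorem famA {a b : ℕ} (ha : a.Prime) (hb : b.Prime) (hab : a ≠ b) (ha2 : a ≠ 2)
    (hb2 : b ≠ 2) (hsq : IsSquare (b : ZMod a)) : ∃ F, DFam (a * b) F ∧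
    ∀ (r : ℕ) (z : ℤ), r ∣ a * b → IsCoprime z (r : ℤ) → (Odd (F r z) ↔ r = a) := by
  have : Fact a.Prime := ⟨ha⟩
  have : Fact b.Prime := ⟨hb⟩
  have : NeZero a := ⟨ha.ne_zero⟩
  have : NeZero b := ⟨hb.ne_zero⟩
  have hao : Odd a := ha.odd_of_ne_two ha2
  have hbo : Odd b := hb.odd_of_ne_two hb2
  have ha1 := ha.one_lt
  have hb1 := hb.one_lt
  have haab : a * b ≠ a := by
    intro h
    have : a * b = a * 1 := by rw [mul_one]; exact h
    have := Nat.eq_of_mul_eq_mul_left ha.pos this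
    omega
  have hb0 : (b : ZMod a) ≠ 0 := by
    rw [Ne, ZMod.natCast_eq_zero_iff]
    exact fun h => hab ((Nat.prime_dvd_prime_iff_eq ha hb).mp h)
  obtain ⟨K, hK⟩ := cnt_even ha ha2 hb0 hsq
  have hgs := gam_sum ha ha2 hb0
  -- the function `g`
  set g : ZMod a → ℤ := fun u => 2 * (K : ℤ) * ((if u = 1 then 1 else 0) +
    if u = -1 then 1 else 0) + gam a b u with hg
  have h1a : (1 : ZMod a) ≠ -1 := by
    intro h
    have : Fact (2 < a) := ⟨by
      have := ha.two_le
      omega⟩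
    exact ZMod.neg_one_ne_one h.symm
  have h1b : (1 : ZMod b) ≠ -1 := by
    intro h
    have : Fact (2 < b) := ⟨by
      have := hb.two_le
      omega⟩
    exact ZMod.neg_one_ne_one h.symm
  have g1 : ∀ v, v ≠ 0 → g v - g (-v) = sg a v - sg a ((b : ZMod a)⁻¹ * v) := by
    intro v hv
    simp only [hg]
    have e1 : (-v = 1) ↔ (v = -1) := neg_eq_iff_eq_neg
    have e2 : (-v = -1) ↔ (v = 1) := neg_inj
    have e3 : gam a b v - gam a b (-v) = sg a v - sg a ((b : ZMod a)⁻¹ * v) := by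
      unfold gam
      rw [mul_neg, sg_neg hao, sg_neg hao]
      rcases sg_cases a hv with h | h
      · rw [h, if_neg (by decide), if_pos rfl]
        ring
      · rw [h, if_pos rfl, if_neg (by decide)]
        ring
    simp only [e1, e2]
    linear_combination e3
  have g2 : ∑ u : ZMod a with u ≠ 0, g u = 0 := by
    simp only [hg]
    have m1 : (1 : ZMod a) ∈ univ.filter (fun u : ZMod a => u ≠ 0) :=
      mem_filter.mpr ⟨mem_univ _, one_ne_zero⟩
    have m2 : (-1 : ZMod a) ∈ univ.filter (fun u : ZMod a => u ≠ 0) :=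
      mem_filter.mpr ⟨mem_univ _, neg_ne_zero.mpr one_ne_zero⟩
    rw [sum_add_distrib, hgs, ← mul_sum, sum_add_distrib, sum_ite_eq', sum_ite_eq', if_pos m1,
      if_pos m2, hK]
    push_cast
    ring
  have g3 : ∀ u, u ≠ 0 → Even (g u) := by
    intro u hu
    simp only [hg]
    refine Even.add ⟨K * ((if u = 1 then 1 else 0) + if u = -1 then 1 else 0), by ring⟩ ?_
    unfold gam
    split_ifs
    · exact (sg_odd hu).sub_odd (sg_odd (mul_ne_zero (inv_ne_zero hb0) hu))
    · exact Even.zero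
  refine ⟨F3 a b (sg a) (fun _ => 0) fun u w => if w = 1 then g u else if w = -1 then -g (-u)
    else 0, dfam3 ha hb hab (sg_neg hao) (fun _ => neg_zero.symm) ?_ ?_ ?_,
    F3_par ha hb hab (by omega) ?_ ?_ ?_⟩
  · intro u w
    by_cases h1 : w = 1
    · subst h1
      simp only [if_true, if_neg h1b.symm, neg_neg]
    · by_cases h2 : w = -1
      · subst h2
        simp only [neg_neg, if_true, if_neg h1b.symm]
      · have h3 : -w ≠ 1 := fun h => h2 (neg_eq_iff_eq_neg.mp h)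
        have h4 : -w ≠ -1 := fun h => h1 (neg_inj.mp h)
        simp only [if_neg h1, if_neg h2, if_neg h3, if_neg h4, neg_zero]
  · intro w _
    rw [sub_self]
    by_cases h1 : (a : ZMod b) * w = 1
    · simp only [if_pos h1]
      exact g2
    · by_cases h2 : (a : ZMod b) * w = -1
      · simp only [if_neg h1, if_pos h2]
        rw [sum_neg_distrib]
        have h3 : ∑ u : ZMod a with u ≠ 0, g (-u) = ∑ u : ZMod a with u ≠ 0, g u := by
          refine Finset.sum_bij' (i := fun u _ => -u) (j := fun u _ => -u) ?_ ?_ ?_ ?_ ?_ <;>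
            simp
        rw [h3, g2, neg_zero]
      · simp only [if_neg h1, if_neg h2]
        exact sum_const_zero
  · intro u hu
    have hbu : (b : ZMod a) * u ≠ 0 := mul_ne_zero hb0 hu
    have h1 := g1 _ hbu
    rw [inv_mul_cancel_left₀ hb0] at h1
    rw [← h1]
    have h2 : ∀ w : ZMod b, (if w = 1 then g (b * u) else if w = -1 then -g (-(b * u)) else 0) =
        (if w = 1 then g (b * u) else 0) + if w = -1 then -g (-(b * u)) else 0 := by
      intro w
      by_cases h3 : w = 1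
      · subst h3
        rw [if_pos rfl, if_pos rfl, if_neg h1b, add_zero]
      · rw [if_neg h3, if_neg h3, zero_add]
    have m1 : (1 : ZMod b) ∈ univ.filter (fun w : ZMod b => w ≠ 0) :=
      mem_filter.mpr ⟨mem_univ _, one_ne_zero⟩
    have m2 : (-1 : ZMod b) ∈ univ.filter (fun w : ZMod b => w ≠ 0) :=
      mem_filter.mpr ⟨mem_univ _, neg_ne_zero.mpr one_ne_zero⟩
    rw [sum_congr rfl fun w _ => h2 w, sum_add_distrib, sum_ite_eq', sum_ite_eq', if_pos m1,
      if_pos m2]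
    ring
  · exact fun u hu => iff_of_true (sg_odd hu) rfl
  · exact fun _ _ => iff_of_false (by decide) (Ne.symm hab)
  · intro u w hu hw
    refine iff_of_false ?_ haab
    rw [Int.not_odd_iff_even]
    split_ifs
    · exact g3 u hu
    · exact (g3 (-u) (neg_ne_zero.mpr hu)).neg
    · exact Even.zero

/-- **Two odd primes.** -/
theorem goodR_pair (hTor : StTor) {p : ℕ} (hp : p.Prime) {a b : ℕ} (ha : a.Prime) (hb : b.Prime)
    (hab : a ≠ b) (ha4 : a % 4 = 1) (hb2 : b ≠ 2) (hsq : IsSquare (b : ZMod a))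
    (hpm : p.Coprime (a * b)) (hf : Odd (orderOf (p : ZMod (a * b)))) {R : ℕ} (hR : R ∣ a * b)
    (hR1 : R ≠ 1) : GoodR p hp (a * b) R := by
  have : Fact a.Prime := ⟨ha⟩
  have : Fact b.Prime := ⟨hb⟩
  have ha2 : a ≠ 2 := by
    rintro rfl
    omega
  have hm : Odd (a * b) := (ha.odd_of_ne_two ha2).mul (hb.odd_of_ne_two hb2)
  obtain ⟨x, y, hx, hy, rfl⟩ := (Nat.dvd_mul).mp hR
  rcases (Nat.dvd_prime ha).mp hx with rfl | rfl <;>
    rcases (Nat.dvd_prime hb).mp hy with rfl | rfl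
  · exact absurd rfl hR1
  · -- the radical `b`
    have hsq2 : IsSquare (a : ZMod y) :=
      (ZMod.exists_sq_eq_prime_iff_of_mod_four_eq_one ha4 hb2).mp hsq
    obtain ⟨F, h1, h2⟩ := famA hb ha (Ne.symm hab) hb2 ha2 hsq2
    rw [mul_comm y a] at h1
    rw [one_mul]
    refine goodR_fam hTor hp hm hpm h1 (fun r z hr hz => h2 r z ?_ hz) hf
    rwa [mul_comm y a]
  · obtain ⟨F, h1, h2⟩ := famA ha hb hab ha2 hb2 hsq
    rw [mul_one]
    exact goodR_fam hTor hp hm hpm h1 h2 hf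
  · obtain ⟨F, h1, h2⟩ := famAB ha hb hab ha4 hb2
    exact goodR_fam hTor hp hm hpm h1 h2 hf

/-- the levels with two odd prime factors -/
theorem limLP_pair (hB : StBasic) (hCL : StCL) (hTor : StTor) {p : ℕ} (hp : p.Prime) {a b : ℕ}
    (ha : a.Prime) (hb : b.Prime) (hab : a ≠ b) (ha4 : a % 4 = 1) (hb2 : b ≠ 2)
    (hsq : IsSquare (b : ZMod a)) (hpm : (a * b).Coprime p)
    (hf : Odd (orderOf (p : ZMod (a * b)))) : LimLP (a * b) p :=
  limLP_good hB hCL hTor hp fun _ h1 _ _ h4 =>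
    goodR_pair hTor hp ha hb hab ha4 hb2 hsq hpm.symm hf h1 h4

end

end Pool.Agent.Lib.MP81632f.Lv
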