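import Pool.Agent.Lib.MP_81632f_ag.Pot.PairC14

/-!
# Potential lattice property: integral distributions on a level
-/

set_option autoImplicit false

noncomputable section

namespace Pool.Agent.Lib.MP81632f.Lv

open Finset
open Pool.Agent.Lib.MP81632f.Diag
open Crit Two Push TP
open Red (ev)

/-- the distribution relations for the repeated primes -/
def D2 (m : ℕ) (F : ℕ → ℤ → ℤ) : Prop :=
  ∀ (r l : ℕ) (z : ℤ), l.Prime → l ∣ r → l * r ∣ m → IsCoprime z (r : ℤ) →
    ∑ k ∈ range l, F (l * r) (z + k * r) = F r z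

theorem D2.avg {m : ℕ} {F : ℕ → ℤ → ℤ} (h : DFam m F) (h2 : D2 m F) {p : ℕ} (f : ℕ)
    (hp : p.Coprime m) : D2 m (fun r z => ∑ i ∈ range f, F r ((p : ℤ) ^ i * z)) := by
  intro r l z hl hlr hlm hz
  rw [sum_comm]
  refine sum_congr rfl fun i _ => ?_
  have hrm : r ∣ m := (dvd_mul_left r l).trans hlm
  have hcz : IsCoprime ((p : ℤ) ^ i * z) (r : ℤ) := by
    refine IsCoprime.mul_left (IsCoprime.pow_left ?_) hz
    exact Nat.isCoprime_iff_coprime.mpr (hp.coprime_dvd_right hrm)
  rw [← h2 r l ((p : ℤ) ^ i * z) hl hlr hlm hcz]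
  have : NeZero l := ⟨hl.ne_zero⟩
  have hpl : p.Coprime l := hp.coprime_dvd_right ((dvd_mul_right l r).trans hlm)
  have hu : IsUnit ((((p : ℤ) ^ i : ℤ)) : ZMod l) := by
    push_cast
    exact ((ZMod.isUnit_iff_coprime p l).mpr hpl).pow i
  set g : ℤ → ℤ := fun j => F (l * r) ((p : ℤ) ^ i * z + j * r) with hg
  have hper : ∀ n, g (n + l) = g n := by
    intro n
    simp only [hg]
    have e3 : (p : ℤ) ^ i * z + (n + l) * r =
        ((p : ℤ) ^ i * z + n * r) + ((l * r : ℕ) : ℤ) := by push_cast; ring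
    rw [e3, h.per _ _ hlm]
  have h3 := sum_reindex (N := l) (g := g) hper hu 0
  simp only [hg, add_zero] at h3
  rw [← h3]
  refine sum_congr rfl fun k _ => ?_
  congr 1
  ring

section Fnl

variable {p m : ℕ} {F : ℕ → ℤ → ℤ}

/-- the functional -/
def phiT (F : ℕ → ℤ → ℤ) (x : ℚ) : ℤ := F x.den x.num

theorem phiT_eq {a : ℤ} {n : ℕ} (hn : 0 < n) (h : IsCoprime a (n : ℤ)) :
    phiT F ((a : ℚ) / n) = F n a := by
  have h1 : (a : ℚ) / n = (a : ℚ) / ((n : ℤ) : ℚ) := by rw [Int.cast_natCast]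
  have hn' : (0 : ℤ) < n := by exact_mod_cast hn
  have hc : a.natAbs.Coprime (n : ℤ).natAbs := Int.isCoprime_iff_gcd_eq_one.mp h
  have h2 : ((a : ℚ) / n).num = a := by
    rw [h1]
    exact Rat.num_div_eq_of_coprime hn' hc
  have h3 : (((a : ℚ) / n).den : ℤ) = n := by
    rw [h1]
    exact Rat.den_div_eq_of_coprime hn' hc
  have h4 : ((a : ℚ) / n).den = n := by exact_mod_cast h3
  unfold phiT
  rw [h2, h4]

theorem phiT_dist (hF : DFam m F) (hF2 : D2 m F) {a : ℤ} {n l : ℕ} (hn : 0 < n)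
    (hl : l.Prime) (hln : l * n ∣ m) (h : IsCoprime a (n : ℤ)) :
    ∑ k ∈ range l, phiT F (((a : ℚ) / n + k) / l) = F n a := by
  have hn0 : (n : ℚ) ≠ 0 := by exact_mod_cast hn.ne'
  have hl0 : (l : ℚ) ≠ 0 := by exact_mod_cast hl.ne_zero
  have hlp : Prime (l : ℤ) := Nat.prime_iff_prime_int.mp hl
  have hterm : ∀ k : ℕ, ((a : ℚ) / n + k) / l = ((a + k * n : ℤ) : ℚ) / ((l * n : ℕ) : ℚ) := by
    intro k
    push_cast
    field_simp
  have hnm : n ∣ m := (dvd_mul_left n l).trans hln
  have hlow : ∀ k : ℕ, ¬ (l : ℤ) ∣ a + k * n → IsCoprime (a + k * n) ((l * n : ℕ) : ℤ) := by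
    intro k hd
    push_cast
    exact IsCoprime.mul_right (((Prime.coprime_iff_not_dvd hlp).mpr hd).symm) (cop_add h k)
  by_cases hd : l ∣ n
  · have hnd : ∀ k : ℕ, ¬ (l : ℤ) ∣ a + k * n := by
      intro k hk
      obtain ⟨u, v, huv⟩ := cop_add h (k : ℤ)
      have h3 : (l : ℤ) ∣ 1 := by
        rw [← huv]
        exact dvd_add (hk.mul_left u) ((Int.natCast_dvd_natCast.mpr hd).mul_left v)
      have h4 : l ∣ 1 := by exact_mod_cast h3
      exact hl.one_lt.ne' (Nat.dvd_one.mp h4)
    rw [← hF2 n l a hl hd hln h]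
    refine sum_congr rfl fun k _ => ?_
    rw [hterm, phiT_eq (Nat.mul_pos hl.pos hn) (hlow k (hnd k))]
  · obtain ⟨k0, hk0⟩ := Finset.card_eq_one.mp (card_dvd hl hd a)
    have hk0' : k0 ∈ (range l).filter fun k : ℕ => (l : ℤ) ∣ a + k * n := by
      rw [hk0]; exact mem_singleton_self _
    rw [mem_filter, mem_range] at hk0'
    obtain ⟨hk0l, b, hb⟩ := hk0'
    have hother : ∀ k ∈ range l, k ≠ k0 → ¬ (l : ℤ) ∣ a + k * n := by
      intro k hk hne hdk
      have : k ∈ (range l).filter fun k : ℕ => (l : ℤ) ∣ a + k * n := mem_filter.mpr ⟨hk, hdk⟩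
      rw [hk0, mem_singleton] at this
      exact hne this
    have hbn : IsCoprime b (n : ℤ) := by
      have := cop_add h (k0 : ℤ)
      rw [hb] at this
      exact this.of_mul_left_right
    have : NeZero l := ⟨hl.ne_zero⟩
    set g : ℤ → ℤ := fun j => if (l : ℤ) ∣ j then 0 else F (l * n) (l * b + j * n) with hg
    have hper : ∀ n, g (n + l) = g n := by
      intro n'
      simp only [hg]
      have e1 : ((l : ℤ) ∣ n' + l) ↔ (l : ℤ) ∣ n' := dvd_add_self_right
      by_cases hn : (l : ℤ) ∣ n'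
      · rw [if_pos (e1.mpr hn), if_pos hn]
      · rw [if_neg (fun h' => hn (e1.mp h')), if_neg hn]
        have e3 : (l : ℤ) * b + (n' + l) * n = (l * b + n' * n) + ((l * n : ℕ) : ℤ) := by
          push_cast; ring
        rw [e3, hF.per _ _ hln]
    have hu : IsUnit (((1 : ℤ) : ℤ) : ZMod l) := by
      rw [Int.cast_one]
      exact isUnit_one
    have h3 := sum_reindex (N := l) (g := g) hper hu (-(k0 : ℤ))
    have hterm2 : ∀ k ∈ range l, phiT F (((a : ℚ) / n + k) / l) =
        (if k = k0 then F n b else 0) + g ((1 : ℤ) * k + -(k0 : ℤ)) := by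
      intro k hk
      by_cases hkk : k = k0
      · subst hkk
        rw [if_pos rfl, hterm, hb]
        have e : (((l : ℤ) * b : ℤ) : ℚ) / ((l * n : ℕ) : ℚ) = (b : ℚ) / n := by
          push_cast
          field_simp
        rw [e, phiT_eq hn hbn]
        have e2 : g ((1 : ℤ) * k + -(k : ℤ)) = 0 := by
          simp only [hg]
          rw [if_pos (by rw [one_mul, add_neg_cancel]; exact dvd_zero _)]
        rw [e2, add_zero]
      · rw [if_neg hkk, hterm, phiT_eq (Nat.mul_pos hl.pos hn) (hlow k (hother k hk hkk)), zero_add]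
        simp only [hg]
        have hnd : ¬ (l : ℤ) ∣ (1 : ℤ) * k + -(k0 : ℤ) := by
          intro h'
          have e : (1 : ℤ) * k + -(k0 : ℤ) = (k : ℤ) - k0 := by ring
          rw [e] at h'
          have h6 : (l : ℤ) ∣ a + k * n := by
            have e : a + (k : ℤ) * n = l * b + ((k : ℤ) - k0) * n := by
              linear_combination hb
            rw [e]
            exact dvd_add (dvd_mul_right _ _) (h'.mul_right _)
          exact hother k hk hkk h6
        rw [if_neg hnd]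
        congr 1
        linear_combination hb
    rw [sum_congr rfl hterm2, sum_add_distrib, h3,
      sum_ite_eq' (range l) k0, if_pos (mem_range.mpr hk0l)]
    have h4 : ∑ k ∈ range l, g (k : ℤ) = ∑ k ∈ Ico 1 l, F (l * n) (l * b + k * n) := by
      have h5 : range l = insert 0 (Ico 1 l) := by
        ext k
        rw [mem_range, mem_insert, mem_Ico]
        have := hl.pos
        omega
      rw [h5, sum_insert (by simp)]
      have h6 : g ((0 : ℕ) : ℤ) = 0 := by simp [hg]
      rw [h6, zero_add]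
      refine sum_congr rfl fun k hk => ?_
      simp only [hg]
      rw [if_neg]
      intro hdk
      have h7 : l ∣ k := by exact_mod_cast hdk
      rw [mem_Ico] at hk
      exact absurd (Nat.le_of_dvd (by omega) h7) (by omega)
    rw [h4, hF.dist n l b hl hd hln hbn]
    have h5 : F n (l * b) = F n a := by
      rw [← hb, hF.per_mul hnm]
    rw [h5]
    ring

/-- the functional kills the relations -/
theorem phiT_rel (hF : DFam m F) (hF2 : D2 m F)
    (hfrob : ∀ (r : ℕ) (z : ℤ), r ∣ m → F r (p * z) = F r z)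
    {w : FQ} (hw : Rel p m w) (hMp : m.Coprime p) :
    lft (phiT F) w = 0 := by
  cases hw with
  | per x hx =>
    obtain ⟨h1, h2, h3⟩ := lowest x
    rw [map_sub, lft_br, lft_br]
    have e1 : x + 1 = ((x.num + 1 * x.den : ℤ) : ℚ) / x.den := by
      have h4 : (x.den : ℚ) ≠ 0 := by exact_mod_cast h3.ne'
      nth_rewrite 1 [h1]
      push_cast
      field_simp
    rw [e1, phiT_eq h3 (cop_add h2 1), hF.per_mul (den_dvd hx)]
    exact sub_self _
  | odd x hx =>
    obtain ⟨h1, h2, h3⟩ := lowest x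
    rw [map_add, lft_br, lft_br]
    have e1 : -x = ((-x.num : ℤ) : ℚ) / x.den := by
      nth_rewrite 1 [h1]
      push_cast
      ring
    rw [e1, phiT_eq h3 h2.neg_left, hF.odd _ _ (den_dvd hx)]
    unfold phiT
    ring
  | frob x hx =>
    obtain ⟨h1, h2, h3⟩ := lowest x
    rw [map_sub, lft_br, lft_br]
    have h4 : IsCoprime (p : ℤ) (x.den : ℤ) :=
      (Nat.isCoprime_iff_coprime.mpr (hMp.coprime_dvd_left (den_dvd hx))).symm
    have e1 : (p : ℚ) * x = ((p * x.num : ℤ) : ℚ) / x.den := by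
      nth_rewrite 1 [h1]
      push_cast
      ring
    rw [e1, phiT_eq h3 (h4.mul_left h2), hfrob _ _ (den_dvd hx)]
    exact sub_self _
  | dist l n x hl hln hx =>
    obtain ⟨h1, h2, h3⟩ := lowest x
    rw [map_sub, map_sum, lft_br]
    have h4 : l * x.den ∣ m := (Nat.mul_dvd_mul_left l (den_dvd hx)).trans hln
    have h5 := phiT_dist hF hF2 h3 hl h4 h2
    rw [← h1] at h5
    have h6 : ∑ k ∈ range l, lft (phiT F) (br ((x + k) / l)) =
        ∑ k ∈ range l, phiT F ((x + k) / l) := Finset.sum_congr rfl fun k _ => lft_br _ _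
    rw [h6, h5]
    exact sub_self _
  | pure i n x hn hi hx =>
    obtain ⟨h1, h2, h3⟩ := lowest x
    rw [lft_br]
    unfold phiT
    have hr : x.den ∣ m := (den_dvd hx).trans hn
    have h5 : ∀ (j : ℕ) (z : ℤ), F x.den ((p : ℤ) ^ j * z) = F x.den z := by
      intro j
      induction j with
      | zero => intro z; rw [pow_zero, one_mul]
      | succ j ih =>
        intro z
        have e : (p : ℤ) ^ (j + 1) * z = p * ((p : ℤ) ^ j * z) := by ring
        rw [e, hfrob _ _ hr, ih]
    obtain ⟨s, hs⟩ := (den_dvd hx).trans hi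
    have h6 := h5 i x.num
    have e : (p : ℤ) ^ i * x.num = -x.num + (s * x.num) * (x.den : ℕ) := by
      have : (p : ℤ) ^ i + 1 = (x.den : ℤ) * s := by exact_mod_cast hs
      linear_combination x.num * this
    rw [e, hF.per_mul hr, hF.odd _ _ hr] at h6
    have h7 : F x.den x.num = 0 := by omega
    exact h7

/-- **Parities from integral distributions, one level.** -/
theorem nR_evenT (hTor : StTor) (hp : p.Coprime m) (hF : DFam m F) (hF2 : D2 m F) [NeZero m]
    (hf : Odd (orderOf (p : ZMod m))) {R₁ : ℕ}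
    (hpar : ∀ (r : ℕ) (z : ℤ), r ∣ m → IsCoprime z (r : ℤ) →
      (Odd (F r z) ↔ Odd r ∧ rad r = R₁))
    {v : ZMod m → ℤ} (hv : Bal m p v) : Even (nR m R₁ v) := by
  obtain ⟨h0, f, hf0, hpf, hb⟩ := hv
  have hMp := coprime_of_pow hf0 hpf
  have hM0 : 0 < m := NeZero.pos m
  by_cases hMe : m = 1
  · subst hMe
    rw [bal_one h0]
    unfold nR
    simp
  have hM1 : 1 < m := by omega
  obtain ⟨a1, a2⟩ := hF.avg hp (pow_orderOf_eq_one (p : ZMod m))
  have a3 := hF2.avg hF (orderOf (p : ZMod m)) hp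
  set F' : ℕ → ℤ → ℤ := fun r z => ∑ i ∈ range (orderOf (p : ZMod m)), F r ((p : ℤ) ^ i * z)
    with hF'
  have hpar' : ∀ (r : ℕ) (z : ℤ), r ∣ m → IsCoprime z (r : ℤ) →
      (Odd (F' r z) ↔ Odd r ∧ rad r = R₁) := by
    intro r z hr hz
    have h3 : ∀ i : ℕ, (Odd (F r ((p : ℤ) ^ i * z)) ↔ Odd r ∧ rad r = R₁) := fun i =>
      hpar r _ hr (IsCoprime.mul_left (IsCoprime.pow_left
        (Nat.isCoprime_iff_coprime.mpr (hp.coprime_dvd_right hr))) hz)
    by_cases hR : Odd r ∧ rad r = R₁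
    · refine iff_of_true ?_ hR
      have h4 : Even (∑ i ∈ range (orderOf (p : ZMod m)), (F r ((p : ℤ) ^ i * z) - 1)) :=
        Finset.even_sum _ fun i _ => ((h3 i).mpr hR).sub_odd odd_one
      rw [sum_sub_distrib, sum_const, card_range, nsmul_eq_mul, mul_one] at h4
      have h5 : Odd ((orderOf (p : ZMod m) : ℕ) : ℤ) := by exact_mod_cast hf
      have h6 := h4.add_odd h5
      rwa [sub_add_cancel] at h6
    · refine iff_of_false ?_ hR
      rw [Int.not_odd_iff_even]
      refine Finset.even_sum _ fun i _ => ?_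
      rw [← Int.not_odd_iff_even]
      exact fun h => hR ((h3 i).mp h)
  obtain ⟨k, hk, h1⟩ := hTor m p f hM1 hf0 hpf v h0 hb
  have h2 : iota m (((k : ℕ) : ℤ) • v) ∈ R p m := iota_rel h1
  rw [iota_smul] at h2
  have h3 := lft_kill (p := p) (m := m) (phiT F') 1
    (fun r hr => by rw [phiT_rel a1 a3 a2 hr hMp, smul_zero]) h2
  rw [one_smul, map_zsmul, smul_eq_mul] at h3
  have h4 : lft (phiT F') (iota m v) = 0 := by
    rcases mul_eq_zero.mp h3 with h5 | h5
    · exfalso
      have : k = 0 := by exact_mod_cast h5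
      omega
    · exact h5
  have h5 : lft (phiT F') (iota m v) = ∑ x, v x * phiT F' (fr m x) := by
    change lft (phiT F') (∑ x, v x • br (fr m x)) = _
    rw [map_sum]
    exact Finset.sum_congr rfl fun x _ => by rw [map_zsmul, lft_br, smul_eq_mul]
  rw [h5] at h4
  have h6 : ∀ x : ZMod m,
      Even ((if Odd (addOrderOf x) ∧ rad (addOrderOf x) = R₁ then v x else 0) -
      v x * phiT F' (fr m x)) := by
    intro x
    obtain ⟨a, ha, hac⟩ := fr_lowest x
    rw [ha, phiT_eq (addOrderOf_pos x) hac]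
    have hp1 := hpar' _ a (order_dvd x) hac
    by_cases hR : Odd (addOrderOf x) ∧ rad (addOrderOf x) = R₁
    · rw [if_pos hR]
      obtain ⟨t, ht⟩ := hp1.mpr hR
      rw [ht]
      exact ⟨-(v x * t), by ring⟩
    · rw [if_neg hR]
      have h7 : Even (F' (addOrderOf x) a) := by
        rw [← Int.not_odd_iff_even]
        exact fun h' => hR (hp1.mp h')
      obtain ⟨t, ht⟩ := h7
      rw [ht]
      exact ⟨-(v x * t), by ring⟩
  have h7 := Finset.even_sum (s := (univ : Finset (ZMod m))) _ fun x _ => h6 x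
  rw [Finset.sum_sub_distrib, h4, sub_zero, ← Finset.sum_filter] at h7
  exact h7

end Fnl

end Pool.Agent.Lib.MP81632f.Lv
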