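import Pool.Agent.Lib.MP_81632f_ag.Pot.PairE14

/-!
# Potential lattice property: tables with given sums
-/

set_option autoImplicit false

noncomputable section

namespace Pool.Agent.Lib.MP81632f.Lv

open Finset
open Pool.Agent.Lib.MP81632f.Diag

section

theorem sum_neg_units {l : ℕ} [NeZero l] (g : ZMod l → ℤ) :
    ∑ u : ZMod l with u ≠ 0, g (-u) = ∑ u : ZMod l with u ≠ 0, g u := by
  refine Finset.sum_bij' (i := fun u _ => -u) (j := fun u _ => -u) ?_ ?_ ?_ ?_ ?_ <;>
    simp

theorem sum_one_unit {l : ℕ} [NeZero l] {e : ZMod l} (he : e ≠ 0) (x : ℤ) :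
    ∑ w : ZMod l with w ≠ 0, (if w = e then x else 0) = x := by
  have m1 : e ∈ univ.filter (fun w : ZMod l => w ≠ 0) := mem_filter.mpr ⟨mem_univ _, he⟩
  rw [sum_ite_eq', if_pos m1]

/-- the two-dimensional tables -/
theorem table2 {a b : ℕ} (ha : a.Prime) (hb : b.Prime) (ha2 : a ≠ 2) (hb2 : b ≠ 2)
    [NeZero a] [NeZero b] {A : ZMod a → ZMod b → ℤ} {β : ZMod a → ℤ}
    (hA : ∀ u w, A (-u) (-w) = -A u w)
    (hAa : ∀ w, w ≠ 0 → ∑ u : ZMod a with u ≠ 0, A u w = 0)
    (hβ : ∑ u : ZMod a with u ≠ 0, β u = 0)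
    (hAβ : ∀ u, u ≠ 0 → ∑ w : ZMod b with w ≠ 0, A u w = β u - β (-u))
    (hAe : ∀ u w, u ≠ 0 → w ≠ 0 → Even (A u w)) (hβe : ∀ u, u ≠ 0 → Even (β u)) :
    ∃ T : ZMod a → ZMod b → ℤ, (∀ u w, u ≠ 0 → w ≠ 0 → T u w - T (-u) (-w) = A u w) ∧
      (∀ u, u ≠ 0 → ∑ w : ZMod b with w ≠ 0, T u w = β u) ∧
      (∀ w, w ≠ 0 → ∑ u : ZMod a with u ≠ 0, T u w = 0) ∧
      ∀ u w, u ≠ 0 → w ≠ 0 → Even (T u w) := by
  have : Fact a.Prime := ⟨ha⟩
  have : Fact b.Prime := ⟨hb⟩
  have hao : Odd a := ha.odd_of_ne_two ha2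
  have hbo : Odd b := hb.odd_of_ne_two hb2
  have h1b : (1 : ZMod b) ≠ -1 := by
    intro h
    have : Fact (2 < b) := ⟨by
      have := hb.two_le
      omega⟩
    exact ZMod.neg_one_ne_one h.symm
  -- the remaining row sums
  set κ : ZMod a → ℤ := fun u => β u - ∑ w : ZMod b with w ≠ 0, (if sg b w = -1 then A u w else 0)
    with hκ
  have hκn : ∀ u, u ≠ 0 → κ (-u) = κ u := by
    intro u hu
    have h1 := hAβ u hu
    have h2 : ∑ w : ZMod b with w ≠ 0, (if sg b w = -1 then A (-u) w else 0) =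
        -∑ w : ZMod b with w ≠ 0, (if sg b w = 1 then A u w else 0) := by
      rw [← sum_neg_units, ← sum_neg_distrib]
      refine sum_congr rfl fun w _ => ?_
      rw [sg_neg hbo, hA]
      have e : (-sg b w = -1) ↔ (sg b w = 1) := neg_inj
      simp only [e]
      split_ifs <;> simp
    have h3 : ∑ w : ZMod b with w ≠ 0, A u w =
        ∑ w : ZMod b with w ≠ 0, (if sg b w = 1 then A u w else 0) +
        ∑ w : ZMod b with w ≠ 0, (if sg b w = -1 then A u w else 0) := by
      rw [← sum_add_distrib]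
      refine sum_congr rfl fun w hw => ?_
      rcases sg_cases b (mem_filter.mp hw).2 with h | h
      · rw [h, if_pos rfl, if_neg (by decide), add_zero]
      · rw [h, if_neg (by decide), if_pos rfl, zero_add]
    simp only [hκ]
    rw [h2]
    linarith
  have hκs : ∑ u : ZMod a with u ≠ 0, κ u = 0 := by
    simp only [hκ]
    rw [sum_sub_distrib, hβ, sum_comm, zero_sub, neg_eq_zero]
    refine sum_eq_zero fun w hw => ?_
    split_ifs
    · exact hAa w (mem_filter.mp hw).2
    · exact sum_const_zero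
  have hκe : ∀ u, u ≠ 0 → Even (κ u) := by
    intro u hu
    simp only [hκ]
    refine (hβe u hu).sub (Finset.even_sum _ fun w hw => ?_)
    split_ifs
    · exact hAe u w hu (mem_filter.mp hw).2
    · exact Even.zero
  set S : ZMod a → ℤ := fun u => if sg a u = 1 then κ u else 0 with hS
  have hS1 : ∀ u, u ≠ 0 → S u + S (-u) = κ u := by
    intro u hu
    simp only [hS]
    rw [sg_neg hao, hκn u hu]
    rcases sg_cases a hu with h | h
    · rw [h, if_pos rfl, if_neg (by decide), add_zero]
    · rw [h, if_neg (by decide), if_pos (by decide), zero_add]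
  have hS2 : ∑ u : ZMod a with u ≠ 0, S u = 0 := by
    have h1 : ∑ u : ZMod a with u ≠ 0, (S u + S (-u)) = 0 := by
      rw [← hκs]
      exact sum_congr rfl fun u hu => hS1 u (mem_filter.mp hu).2
    rw [sum_add_distrib, sum_neg_units] at h1
    omega
  have hSe : ∀ u, u ≠ 0 → Even (S u) := by
    intro u hu
    simp only [hS]
    split_ifs
    · exact hκe u hu
    · exact Even.zero
  refine ⟨fun u w => (if w = 1 then S u else 0) + (if w = -1 then S (-u) else 0) +
    if sg b w = -1 then A u w else 0, ?_, ?_, ?_, ?_⟩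
  · intro u w hu hw
    have e1 : (-w = 1) ↔ (w = -1) := neg_eq_iff_eq_neg
    have e2 : (-w = -1) ↔ (w = 1) := neg_inj
    simp only [e1, e2, neg_neg]
    rw [sg_neg hbo, hA]
    have n1 : ¬ ((1 : ℤ) = -1) := by decide
    rcases sg_cases b hw with h | h
    · simp only [h, n1, if_true, if_false]
      ring
    · simp only [h, n1, neg_neg, if_true, if_false]
      ring
  · intro u hu
    rw [sum_add_distrib, sum_add_distrib, sum_one_unit one_ne_zero,
      sum_one_unit (neg_ne_zero.mpr one_ne_zero), hS1 u hu]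
    simp only [hκ]
    ring
  · intro w hw
    rw [sum_add_distrib, sum_add_distrib]
    have h1 : ∑ u : ZMod a with u ≠ 0, (if w = 1 then S u else 0) = 0 := by
      split_ifs
      · exact hS2
      · exact sum_const_zero
    have h2 : ∑ u : ZMod a with u ≠ 0, (if w = -1 then S (-u) else 0) = 0 := by
      split_ifs
      · rw [sum_neg_units, hS2]
      · exact sum_const_zero
    have h3 : ∑ u : ZMod a with u ≠ 0, (if sg b w = -1 then A u w else 0) = 0 := by
      split_ifs
      · exact hAa w hw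
      · exact sum_const_zero
    rw [h1, h2, h3]
    rfl
  · intro u w hu hw
    refine Even.add (Even.add ?_ ?_) ?_
    · split_ifs
      · exact hSe u hu
      · exact Even.zero
    · split_ifs
      · exact hSe (-u) (neg_ne_zero.mpr hu)
      · exact Even.zero
    · split_ifs
      · exact hAe u w hu hw
      · exact Even.zero

/-- the three-dimensional tables -/
theorem table3 {a b c : ℕ} (ha : a.Prime) (hb : b.Prime) (hc : c.Prime) (ha2 : a ≠ 2)
    (hb2 : b ≠ 2) (hc2 : c ≠ 2) [NeZero a] [NeZero b] [NeZero c]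
    {A : ZMod a → ZMod b → ℤ} {B : ZMod a → ZMod c → ℤ}
    (hA : ∀ u w, A (-u) (-w) = -A u w) (hB : ∀ u t, B (-u) (-t) = -B u t)
    (hAa : ∀ w, w ≠ 0 → ∑ u : ZMod a with u ≠ 0, A u w = 0)
    (hBa : ∀ t, t ≠ 0 → ∑ u : ZMod a with u ≠ 0, B u t = 0)
    (hAB : ∀ u, u ≠ 0 → ∑ w : ZMod b with w ≠ 0, A u w = ∑ t : ZMod c with t ≠ 0, B u t)
    (hAe : ∀ u w, u ≠ 0 → w ≠ 0 → Even (A u w)) (hBe : ∀ u t, u ≠ 0 → t ≠ 0 → Even (B u t)) :
    ∃ T : ZMod a → ZMod b → ZMod c → ℤ, (∀ u w t, T (-u) (-w) (-t) = -T u w t) ∧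
      (∀ u w, u ≠ 0 → w ≠ 0 → ∑ t : ZMod c with t ≠ 0, T u w t = A u w) ∧
      (∀ u t, u ≠ 0 → t ≠ 0 → ∑ w : ZMod b with w ≠ 0, T u w t = B u t) ∧
      (∀ w t, w ≠ 0 → t ≠ 0 → ∑ u : ZMod a with u ≠ 0, T u w t = 0) ∧
      ∀ u w t, u ≠ 0 → w ≠ 0 → t ≠ 0 → Even (T u w t) := by
  have : Fact a.Prime := ⟨ha⟩
  have : Fact b.Prime := ⟨hb⟩
  have : Fact c.Prime := ⟨hc⟩
  have hao : Odd a := ha.odd_of_ne_two ha2
  have hbo : Odd b := hb.odd_of_ne_two hb2
  have hco : Odd c := hc.odd_of_ne_two hc2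
  have h1c : (1 : ZMod c) ≠ -1 := by
    intro h
    have : Fact (2 < c) := ⟨by
      have := hc.two_le
      omega⟩
    exact ZMod.neg_one_ne_one h.symm
  -- the easy part
  set E : ZMod a → ZMod b → ZMod c → ℤ := fun u w t =>
    if t = 1 ∨ t = -1 then 0 else if w = ((sg c t : ℤ) : ZMod b) then B u t else 0 with hE
  have hsgu : ∀ t : ZMod c, t ≠ 0 → ((sg c t : ℤ) : ZMod b) ≠ 0 := by
    intro t ht
    rcases sg_cases c ht with h | h <;> rw [h] <;> simp
  have hEn : ∀ u w t, E (-u) (-w) (-t) = -E u w t := by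
    intro u w t
    simp only [hE]
    have e1 : (-t = 1 ∨ -t = -1) ↔ (t = 1 ∨ t = -1) := by
      rw [neg_eq_iff_eq_neg, neg_inj]
      exact Or.comm
    have e2 : (-w = ((sg c (-t) : ℤ) : ZMod b)) ↔ (w = ((sg c t : ℤ) : ZMod b)) := by
      rw [sg_neg hco]
      push_cast
      exact neg_inj
    simp only [e1, e2, hB]
    split_ifs <;> simp
  have hEb : ∀ u t, u ≠ 0 → t ≠ 0 → ∑ w : ZMod b with w ≠ 0, E u w t =
      if t = 1 ∨ t = -1 then 0 else B u t := by
    intro u t _ ht
    simp only [hE]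
    split_ifs
    · exact sum_const_zero
    · exact sum_one_unit (hsgu t ht) _
  have hEa : ∀ w t, w ≠ 0 → t ≠ 0 → ∑ u : ZMod a with u ≠ 0, E u w t = 0 := by
    intro w t _ ht
    simp only [hE]
    split_ifs
    · exact sum_const_zero
    · exact hBa t ht
    · exact sum_const_zero
  have hEe : ∀ u w t, u ≠ 0 → w ≠ 0 → t ≠ 0 → Even (E u w t) := by
    intro u w t hu _ ht
    simp only [hE]
    split_ifs
    · exact Even.zero
    · exact hBe u t hu ht
    · exact Even.zero
  -- the remaining table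
  set A' : ZMod a → ZMod b → ℤ := fun u w => A u w - ∑ t : ZMod c with t ≠ 0, E u w t with hA'
  obtain ⟨T1, t1, t2, t3, t4⟩ := table2 ha hb ha2 hb2 (A := A') (β := fun u => B u 1)
    (fun u w => by
      simp only [hA']
      rw [hA, ← sum_neg_units]
      simp only [hEn]
      rw [sum_neg_distrib]
      ring)
    (fun w hw => by
      simp only [hA']
      rw [sum_sub_distrib, hAa w hw, sum_comm, zero_sub, neg_eq_zero]
      exact sum_eq_zero fun t ht => hEa w t hw (mem_filter.mp ht).2)
    (hBa 1 one_ne_zero)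
    (fun u hu => by
      simp only [hA']
      rw [sum_sub_distrib, hAB u hu, sum_comm,
        sum_congr rfl fun t ht => hEb u t hu (mem_filter.mp ht).2, ← sum_sub_distrib]
      have h1 : ∀ t : ZMod c, (B u t - if t = 1 ∨ t = -1 then 0 else B u t) =
          (if t = 1 then B u 1 else 0) + if t = -1 then B u (-1) else 0 := by
        intro t
        by_cases h2 : t = 1
        · subst h2
          rw [if_pos (Or.inl rfl), if_pos rfl, if_neg h1c]
          ring
        · by_cases h3 : t = -1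
          · subst h3
            rw [if_pos (Or.inr rfl), if_neg h2, if_pos rfl]
            ring
          · rw [if_neg (by tauto), if_neg h2, if_neg h3]
            ring
      rw [sum_congr rfl fun t _ => h1 t, sum_add_distrib, sum_one_unit one_ne_zero,
        sum_one_unit (neg_ne_zero.mpr one_ne_zero)]
      have h2 := hB u (-1)
      rw [neg_neg] at h2
      rw [h2]
      ring)
    (fun u w hu hw => by
      simp only [hA']
      exact (hAe u w hu hw).sub (Finset.even_sum _ fun t ht => hEe u w t hu hw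
        (mem_filter.mp ht).2))
    (fun u hu => hBe u 1 hu one_ne_zero)
  refine ⟨fun u w t => (if t = 1 then T1 u w else 0) +
    (if t = -1 then -T1 (-u) (-w) else 0) + E u w t, ?_, ?_, ?_, ?_, ?_⟩
  · intro u w t
    have e1 : (-t = 1) ↔ (t = -1) := neg_eq_iff_eq_neg
    have e2 : (-t = -1) ↔ (t = 1) := neg_inj
    simp only [e1, e2, neg_neg, hEn]
    split_ifs <;> ring
  · intro u w hu hw
    rw [sum_add_distrib, sum_add_distrib, sum_one_unit one_ne_zero,
      sum_one_unit (neg_ne_zero.mpr one_ne_zero)]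
    have h1 := t1 u w hu hw
    simp only [hA'] at h1
    linarith
  · intro u t hu ht
    rw [sum_add_distrib, sum_add_distrib, hEb u t hu ht]
    by_cases h1 : t = 1
    · subst h1
      simp only [if_true, true_or, if_neg h1c]
      rw [sum_const_zero, t2 u hu]
      ring
    · by_cases h2 : t = -1
      · subst h2
        simp only [if_true, or_true, if_neg h1]
        rw [sum_const_zero, sum_neg_distrib, sum_neg_units (fun w => T1 (-u) w),
          t2 (-u) (neg_ne_zero.mpr hu)]
        have h3 := hB u (-1)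
        rw [neg_neg] at h3
        rw [h3]
        ring
      · simp only [h1, h2, or_self, if_false]
        rw [sum_const_zero]
        ring
  · intro w t hw ht
    rw [sum_add_distrib, sum_add_distrib, hEa w t hw ht]
    have h1 : ∑ u : ZMod a with u ≠ 0, (if t = 1 then T1 u w else 0) = 0 := by
      split_ifs
      · exact t3 w hw
      · exact sum_const_zero
    have h2 : ∑ u : ZMod a with u ≠ 0, (if t = -1 then -T1 (-u) (-w) else 0) = 0 := by
      split_ifs
      · rw [sum_neg_distrib, sum_neg_units (fun u => T1 u (-w)), t3 _ (neg_ne_zero.mpr hw),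
          neg_zero]
      · exact sum_const_zero
    rw [h1, h2]
    rfl
  · intro u w t hu hw ht
    refine Even.add (Even.add ?_ ?_) (hEe u w t hu hw ht)
    · split_ifs
      · exact t4 u w hu hw
      · exact Even.zero
    · split_ifs
      · exact (t4 _ _ (neg_ne_zero.mpr hu) (neg_ne_zero.mpr hw)).neg
      · exact Even.zero

end

end Pool.Agent.Lib.MP81632f.Lv
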