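import Pool.Agent.Lib.MP_81632f_ag.Pot.PairF14

/-!
# Potential lattice property: three odd primes
-/

set_option autoImplicit false

noncomputable section

namespace Pool.Agent.Lib.MP81632f.Lv

open Finset
open Pool.Agent.Lib.MP81632f.Diag

section

variable {a b c : ℕ}

/-- the function on the level `a n` -/
def H7 (b c : ℕ) (fa : ZMod a → ℤ) (G : ZMod a → ZMod b → ℤ) (E : ZMod a → ZMod c → ℤ)
    (T : ZMod a → ZMod b → ZMod c → ℤ) (n : ℕ) (z : ℤ) : ℤ :=
  if n = 1 then fa z else if n = b then G z z else if n = c then E z z else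
    if n = b * c then T z z z else 0

/-- the family -/
def F7 (a b c : ℕ) (fa : ZMod a → ℤ) (G : ZMod a → ZMod b → ℤ) (E : ZMod a → ZMod c → ℤ)
    (T : ZMod a → ZMod b → ZMod c → ℤ) (r : ℕ) (z : ℤ) : ℤ :=
  if a ∣ r then H7 b c fa G E T (r / a) z else 0

variable {fa : ZMod a → ℤ} {G : ZMod a → ZMod b → ℤ} {E : ZMod a → ZMod c → ℤ}
  {T : ZMod a → ZMod b → ZMod c → ℤ}

theorem F7_zero {r : ℕ} (h : ¬ a ∣ r) (z : ℤ) : F7 a b c fa G E T r z = 0 := if_neg h

theorem F7_mul (ha : a.Prime) (n : ℕ) (z : ℤ) :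
    F7 a b c fa G E T (a * n) z = H7 b c fa G E T n z := by
  unfold F7
  rw [if_pos (dvd_mul_right a n), Nat.mul_div_cancel_left _ ha.pos]

theorem H7_1 (z : ℤ) : H7 b c fa G E T 1 z = fa z := if_pos rfl

theorem H7_b (hb : b.Prime) (z : ℤ) : H7 b c fa G E T b z = G z z := by
  unfold H7
  have := hb.one_lt
  rw [if_neg (by omega), if_pos rfl]

theorem H7_c (hc : c.Prime) (hbc : b ≠ c) (z : ℤ) : H7 b c fa G E T c z = E z z := by
  unfold H7
  have := hc.one_lt
  rw [if_neg (by omega), if_neg (by omega), if_pos rfl]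

theorem H7_bc (hb : b.Prime) (hc : c.Prime) (z : ℤ) : H7 b c fa G E T (b * c) z = T z z z := by
  unfold H7
  have h1 := hb.one_lt
  have h2 := hc.one_lt
  have h3 : b * c ≠ b := by
    intro h
    have : b * c = b * 1 := by rw [mul_one]; exact h
    have := Nat.eq_of_mul_eq_mul_left hb.pos this
    omega
  have h4 : b * c ≠ c := by
    intro h
    have : b * c = 1 * c := by rw [one_mul]; exact h
    have := Nat.eq_of_mul_eq_mul_right hc.pos this
    omega
  have h5 : b * c ≠ 1 := by nlinarith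
  rw [if_neg h5, if_neg h3, if_neg h4, if_pos rfl]

theorem div_three (ha : a.Prime) (hb : b.Prime) (hc : c.Prime) {r : ℕ} (hr : r ∣ a * (b * c)) :
    ∃ y, (y = 1 ∨ y = b ∨ y = c ∨ y = b * c) ∧ (r = y ∨ r = a * y) := by
  obtain ⟨x, y, hx, hy, rfl⟩ := (Nat.dvd_mul).mp hr
  refine ⟨y, ?_, ?_⟩
  · obtain ⟨s, t, hs, ht, rfl⟩ := (Nat.dvd_mul).mp hy
    rcases (Nat.dvd_prime hb).mp hs with rfl | rfl <;>
      rcases (Nat.dvd_prime hc).mp ht with rfl | rfl <;> simp
  · rcases (Nat.dvd_prime ha).mp hx with rfl | rfl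
    · exact Or.inl (one_mul _)
    · exact Or.inr rfl

theorem not_dvd_y (ha : a.Prime) (hb : b.Prime) (hc : c.Prime) (hab : a ≠ b) (hac : a ≠ c)
    {y : ℕ} (hy : y ∣ b * c) : ¬ a ∣ y := by
  intro h
  rcases ha.dvd_mul.mp (h.trans hy) with h1 | h1
  · exact hab ((Nat.prime_dvd_prime_iff_eq ha hb).mp h1)
  · exact hac ((Nat.prime_dvd_prime_iff_eq ha hc).mp h1)

theorem ne_zero_of_cop {l : ℕ} (hl : l.Prime) {z : ℤ} {r : ℕ} (hz : IsCoprime z (r : ℤ))
    (hlr : l ∣ r) : (z : ZMod l) ≠ 0 := by
  intro h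
  rw [ZMod.intCast_zmod_eq_zero_iff_dvd] at h
  exact (Nat.prime_iff_prime_int.mp hl).not_isUnit
    (hz.isUnit_of_dvd' h (by exact_mod_cast hlr))

/-- the family is a distribution -/
theorem dfam7 (ha : a.Prime) (hb : b.Prime) (hc : c.Prime) (hab : a ≠ b) (hac : a ≠ c)
    (hbc : b ≠ c) [NeZero a] [NeZero b] [NeZero c]
    (o1 : ∀ u, fa (-u) = -fa u) (o2 : ∀ u w, G (-u) (-w) = -G u w)
    (o3 : ∀ u t, E (-u) (-t) = -E u t) (o4 : ∀ u w t, T (-u) (-w) (-t) = -T u w t)
    (r1 : ∀ u, u ≠ 0 → ∑ w : ZMod b with w ≠ 0, G (b * u) w = fa (b * u) - fa u)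
    (r2 : ∀ u, u ≠ 0 → ∑ t : ZMod c with t ≠ 0, E (c * u) t = fa (c * u) - fa u)
    (r3 : ∀ w, w ≠ 0 → ∑ u : ZMod a with u ≠ 0, G u w = 0)
    (r4 : ∀ t, t ≠ 0 → ∑ u : ZMod a with u ≠ 0, E u t = 0)
    (r5 : ∀ u w, u ≠ 0 → w ≠ 0 →
      ∑ t : ZMod c with t ≠ 0, T (c * u) (c * w) t = G (c * u) (c * w) - G u w)
    (r6 : ∀ u t, u ≠ 0 → t ≠ 0 →
      ∑ w : ZMod b with w ≠ 0, T (b * u) w (b * t) = E (b * u) (b * t) - E u t)
    (r7 : ∀ w t, w ≠ 0 → t ≠ 0 → ∑ u : ZMod a with u ≠ 0, T u w t = 0) :
    DFam (a * (b * c)) (F7 a b c fa G E T) := by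
  have : Fact a.Prime := ⟨ha⟩
  have : Fact b.Prime := ⟨hb⟩
  have : Fact c.Prime := ⟨hc⟩
  have nb : ¬ a ∣ b := not_dvd_y ha hb hc hab hac (dvd_mul_right b c)
  have nc : ¬ a ∣ c := not_dvd_y ha hb hc hab hac (dvd_mul_left c b)
  have nbc : ¬ a ∣ b * c := not_dvd_y ha hb hc hab hac dvd_rfl
  have n1 : ¬ a ∣ 1 := fun h => ha.one_lt.ne' (Nat.dvd_one.mp h)
  have hcop : ∀ {x y : ℕ}, x.Prime → y.Prime → x ≠ y → IsCoprime (x : ℤ) (y : ℤ) :=
    fun hx hy h => Nat.isCoprime_iff_coprime.mpr ((Nat.coprime_primes hx hy).mpr h)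
  have hab0 : (a : ZMod b) ≠ 0 := by
    rw [Ne, ZMod.natCast_eq_zero_iff]
    exact fun h => hab ((Nat.prime_dvd_prime_iff_eq hb ha).mp h).symm
  have hac0 : (a : ZMod c) ≠ 0 := by
    rw [Ne, ZMod.natCast_eq_zero_iff]
    exact fun h => hac ((Nat.prime_dvd_prime_iff_eq hc ha).mp h).symm
  refine ⟨?_, ?_, ?_⟩
  · intro r z hr
    obtain ⟨y, hy, rfl | rfl⟩ := div_three ha hb hc hr
    · have h1 : ¬ a ∣ r := by rcases hy with rfl | rfl | rfl | rfl <;> assumption
      rw [F7_zero h1, F7_zero h1]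
    · rw [F7_mul ha, F7_mul ha]
      rcases hy with rfl | rfl | rfl | rfl
      · rw [H7_1, H7_1]
        push_cast
        rw [ZMod.natCast_self a, zero_mul, add_zero]
      · rw [H7_b hb, H7_b hb]
        push_cast
        rw [ZMod.natCast_self a, ZMod.natCast_self y, zero_mul, mul_zero, add_zero, add_zero]
      · rw [H7_c hc hbc, H7_c hc hbc]
        push_cast
        rw [ZMod.natCast_self a, ZMod.natCast_self y, zero_mul, mul_zero, add_zero, add_zero]
      · rw [H7_bc hb hc, H7_bc hb hc]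
        push_cast
        rw [ZMod.natCast_self a, ZMod.natCast_self b, ZMod.natCast_self c]
        simp only [zero_mul, mul_zero, add_zero]
  · intro r z hr
    obtain ⟨y, hy, rfl | rfl⟩ := div_three ha hb hc hr
    · have h1 : ¬ a ∣ r := by rcases hy with rfl | rfl | rfl | rfl <;> assumption
      rw [F7_zero h1, F7_zero h1, neg_zero]
    · rw [F7_mul ha, F7_mul ha]
      rcases hy with rfl | rfl | rfl | rfl
      · rw [H7_1, H7_1]
        push_cast
        exact o1 _
      · rw [H7_b hb, H7_b hb]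
        push_cast
        exact o2 _ _
      · rw [H7_c hc hbc, H7_c hc hbc]
        push_cast
        exact o3 _ _
      · rw [H7_bc hb hc, H7_bc hb hc]
        push_cast
        exact o4 _ _ _
  · intro r q z hq hqr hqm hz
    obtain ⟨y, hy, rfl | rfl⟩ := div_three ha hb hc ((dvd_mul_left r q).trans hqm)
    · have h1 : ¬ a ∣ r := by rcases hy with rfl | rfl | rfl | rfl <;> assumption
      rw [F7_zero h1, F7_zero h1, sub_zero]
      by_cases hqa : q = a
      · subst hqa
        simp only [F7_mul ha]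
        rcases hy with rfl | rfl | rfl | rfl
        · rw [← sum_odd_zero fa o1, ← sum_Ico_cast ha fa (isCoprime_one_left)]
          refine sum_congr rfl fun k _ => ?_
          rw [H7_1]
          congr 1
          push_cast
          rw [ZMod.natCast_self q, zero_mul, zero_add]
        · have hz0 := ne_zero_of_cop hb hz dvd_rfl
          rw [← r3 (q * z) (mul_ne_zero hab0 hz0),
            ← sum_Ico_cast ha (fun u => G u (q * z)) (hcop hb ha (Ne.symm hab))]
          refine sum_congr rfl fun k _ => ?_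
          rw [H7_b hb]
          push_cast
          rw [ZMod.natCast_self q, ZMod.natCast_self r, mul_zero, add_zero, zero_mul, zero_add]
        · have hz0 := ne_zero_of_cop hc hz dvd_rfl
          rw [← r4 (q * z) (mul_ne_zero hac0 hz0),
            ← sum_Ico_cast ha (fun u => E u (q * z)) (hcop hc ha (Ne.symm hac))]
          refine sum_congr rfl fun k _ => ?_
          rw [H7_c hc hbc]
          push_cast
          rw [ZMod.natCast_self q, ZMod.natCast_self r, mul_zero, add_zero, zero_mul, zero_add]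
        · have hz0 := ne_zero_of_cop hb hz (dvd_mul_right b c)
          have hz1 := ne_zero_of_cop hc hz (dvd_mul_left c b)
          have hc1 : IsCoprime ((b * c : ℕ) : ℤ) (q : ℤ) := by
            push_cast
            exact (hcop hb ha (Ne.symm hab)).mul_left (hcop hc ha (Ne.symm hac))
          rw [← r7 (q * z) (q * z) (mul_ne_zero hab0 hz0) (mul_ne_zero hac0 hz1),
            ← sum_Ico_cast ha (fun u => T u (q * z) (q * z)) hc1]
          refine sum_congr rfl fun k _ => ?_
          rw [H7_bc hb hc]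
          push_cast
          rw [ZMod.natCast_self q, ZMod.natCast_self b, ZMod.natCast_self c]
          simp only [mul_zero, zero_mul, add_zero, zero_add]
      · refine sum_eq_zero fun k _ => F7_zero (fun h => ?_) _
        rcases ha.dvd_mul.mp h with h2 | h2
        · exact hqa ((Nat.prime_dvd_prime_iff_eq ha hq).mp h2).symm
        · exact h1 h2
    · have hqa : q ≠ a := by
        rintro rfl
        exact hqr (dvd_mul_right _ _)
      have hqy : ¬ q ∣ y := fun h => hqr (h.mul_left a)
      have hqbc : q = b ∨ q = c := by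
        rcases hq.dvd_mul.mp ((dvd_mul_right q _).trans hqm) with h2 | h2
        · exact absurd ((Nat.prime_dvd_prime_iff_eq hq ha).mp h2) hqa
        · exact (hq.dvd_mul.mp h2).imp (fun h => (Nat.prime_dvd_prime_iff_eq hq hb).mp h)
            fun h => (Nat.prime_dvd_prime_iff_eq hq hc).mp h
      have e1 : ∀ z : ℤ, F7 a b c fa G E T (q * (a * y)) z = H7 b c fa G E T (q * y) z := by
        intro z
        rw [mul_left_comm, F7_mul ha]
      simp only [e1, F7_mul ha]
      rcases hy with rfl | rfl | rfl | rfl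
      · rw [mul_one] at hz
        have hz0 := ne_zero_of_cop ha hz dvd_rfl
        rcases hqbc with rfl | rfl
        · have h2 := r1 z hz0
          rw [← sum_Ico_cast hb _ (hcop ha hb hab)] at h2
          push_cast at h2
          rw [H7_1, H7_1]
          push_cast
          rw [← h2]
          refine sum_congr rfl fun k _ => ?_
          rw [mul_one, H7_b hb]
          push_cast
          rw [ZMod.natCast_self a, ZMod.natCast_self q]
          simp only [mul_one, mul_zero, zero_mul, add_zero, zero_add]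
        · have h2 := r2 z hz0
          rw [← sum_Ico_cast hc _ (hcop ha hc hac)] at h2
          push_cast at h2
          rw [H7_1, H7_1]
          push_cast
          rw [← h2]
          refine sum_congr rfl fun k _ => ?_
          rw [mul_one, H7_c hc hbc]
          push_cast
          rw [ZMod.natCast_self a, ZMod.natCast_self q]
          simp only [mul_one, mul_zero, zero_mul, add_zero, zero_add]
      · rcases hqbc with rfl | rfl
        · exact absurd dvd_rfl hqy
        · have hz0 := ne_zero_of_cop ha hz (dvd_mul_right a y)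
          have hz1 := ne_zero_of_cop hb hz (dvd_mul_left y a)
          have h2 := r5 z z hz0 hz1
          have hc1 : IsCoprime ((a * y : ℕ) : ℤ) (q : ℤ) := by
            push_cast
            exact (hcop ha hc hac).mul_left (hcop hb hc hbc)
          rw [← sum_Ico_cast hc _ hc1] at h2
          push_cast at h2
          rw [H7_b hb, H7_b hb]
          push_cast
          rw [← h2]
          refine sum_congr rfl fun k _ => ?_
          rw [mul_comm q y, H7_bc hb hc]
          push_cast
          rw [ZMod.natCast_self a, ZMod.natCast_self y, ZMod.natCast_self q]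
          simp only [mul_zero, zero_mul, add_zero, zero_add]
      · rcases hqbc with rfl | rfl
        · have hz0 := ne_zero_of_cop ha hz (dvd_mul_right a y)
          have hz1 := ne_zero_of_cop hc hz (dvd_mul_left y a)
          have h2 := r6 z z hz0 hz1
          have hc1 : IsCoprime ((a * y : ℕ) : ℤ) (q : ℤ) := by
            push_cast
            exact (hcop ha hb hab).mul_left (hcop hc hb (Ne.symm hbc))
          rw [← sum_Ico_cast hb _ hc1] at h2
          push_cast at h2
          rw [H7_c hc hbc, H7_c hc hbc]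
          push_cast
          rw [← h2]
          refine sum_congr rfl fun k _ => ?_
          rw [H7_bc hb hc]
          push_cast
          rw [ZMod.natCast_self a, ZMod.natCast_self y, ZMod.natCast_self q]
          simp only [mul_zero, zero_mul, add_zero, zero_add]
        · exact absurd dvd_rfl hqy
      · rcases hqbc with rfl | rfl
        · exact absurd (dvd_mul_right _ _) hqy
        · exact absurd (dvd_mul_left _ _) hqy

/-- the parities -/
theorem F7_par (ha : a.Prime) (hb : b.Prime) (hc : c.Prime) (hab : a ≠ b) (hac : a ≠ c)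
    (hbc : b ≠ c) {R₁ : ℕ} (hR : a ∣ R₁)
    (k1 : ∀ u, u ≠ 0 → (Odd (fa u) ↔ a = R₁))
    (k2 : ∀ u w, u ≠ 0 → w ≠ 0 → (Odd (G u w) ↔ a * b = R₁))
    (k3 : ∀ u t, u ≠ 0 → t ≠ 0 → (Odd (E u t) ↔ a * c = R₁))
    (k4 : ∀ u w t, u ≠ 0 → w ≠ 0 → t ≠ 0 → (Odd (T u w t) ↔ a * (b * c) = R₁))
    (r : ℕ) (z : ℤ) (hr : r ∣ a * (b * c)) (hz : IsCoprime z (r : ℤ)) :
    Odd (F7 a b c fa G E T r z) ↔ r = R₁ := by
  have nb : ¬ a ∣ b := not_dvd_y ha hb hc hab hac (dvd_mul_right b c)
  have nc : ¬ a ∣ c := not_dvd_y ha hb hc hab hac (dvd_mul_left c b)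
  have nbc : ¬ a ∣ b * c := not_dvd_y ha hb hc hab hac dvd_rfl
  have n1 : ¬ a ∣ 1 := fun h => ha.one_lt.ne' (Nat.dvd_one.mp h)
  obtain ⟨y, hy, rfl | rfl⟩ := div_three ha hb hc hr
  · have h1 : ¬ a ∣ r := by rcases hy with rfl | rfl | rfl | rfl <;> assumption
    rw [F7_zero h1]
    refine iff_of_false (by decide) ?_
    rintro rfl
    exact h1 hR
  · rw [F7_mul ha]
    rcases hy with rfl | rfl | rfl | rfl
    · rw [H7_1, mul_one]
      exact k1 _ (ne_zero_of_cop ha hz (dvd_mul_right a 1))
    · rw [H7_b hb]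
      exact k2 _ _ (ne_zero_of_cop ha hz (dvd_mul_right a y))
        (ne_zero_of_cop hb hz (dvd_mul_left y a))
    · rw [H7_c hc hbc]
      exact k3 _ _ (ne_zero_of_cop ha hz (dvd_mul_right a y))
        (ne_zero_of_cop hc hz (dvd_mul_left y a))
    · rw [H7_bc hb hc]
      exact k4 _ _ _ (ne_zero_of_cop ha hz (dvd_mul_right a _))
        (ne_zero_of_cop hb hz ((dvd_mul_right b c).mul_left a))
        (ne_zero_of_cop hc hz ((dvd_mul_left c b).mul_left a))

end

end Pool.Agent.Lib.MP81632f.Lv
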