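import Pool.Agent.Lib.MP_81632f_ag.Pot.PairG14

/-!
# Potential lattice property: the families for three odd primes
-/

set_option autoImplicit false

noncomputable section

namespace Pool.Agent.Lib.MP81632f.Lv

open Finset
open Pool.Agent.Lib.MP81632f.Diag

section

theorem sum_mul_units {l : ℕ} (hl : l.Prime) [NeZero l] {e : ZMod l} (he : e ≠ 0)
    (g : ZMod l → ℤ) : ∑ u : ZMod l with u ≠ 0, g (e * u) = ∑ u : ZMod l with u ≠ 0, g u := by
  have : Fact l.Prime := ⟨hl⟩
  refine Finset.sum_bij' (i := fun u _ => e * u) (j := fun u _ => e⁻¹ * u) ?_ ?_ ?_ ?_ ?_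
  · intro u hu
    rw [mem_filter] at hu ⊢
    exact ⟨mem_univ _, mul_ne_zero he hu.2⟩
  · intro u hu
    rw [mem_filter] at hu ⊢
    exact ⟨mem_univ _, mul_ne_zero (inv_ne_zero he) hu.2⟩
  · intro u _
    rw [inv_mul_cancel_left₀ he]
  · intro u _
    rw [mul_inv_cancel_left₀ he]
  · intro u _
    rfl

theorem cast_ne {l q : ℕ} (hl : l.Prime) (hq : q.Prime) (h : q ≠ l) : (l : ZMod q) ≠ 0 := by
  rw [Ne, ZMod.natCast_eq_zero_iff]
  exact fun h' => h ((Nat.prime_dvd_prime_iff_eq hq hl).mp h')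

/-- the function of a pair -/
theorem exists_pair {a b : ℕ} (ha : a.Prime) (hb : b.Prime) (hab : a ≠ b) (ha2 : a ≠ 2)
    (hb2 : b ≠ 2) [NeZero a] [NeZero b] (hsq : IsSquare (b : ZMod a)) :
    ∃ G : ZMod a → ZMod b → ℤ, (∀ u w, G (-u) (-w) = -G u w) ∧
      (∀ w, ∑ u : ZMod a with u ≠ 0, G u w = 0) ∧
      (∀ u, u ≠ 0 → ∑ w : ZMod b with w ≠ 0, G u w = sg a u - sg a ((b : ZMod a)⁻¹ * u)) ∧
      ∀ u w, u ≠ 0 → Even (G u w) := by
  have : Fact a.Prime := ⟨ha⟩
  have : Fact b.Prime := ⟨hb⟩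
  obtain ⟨g, g1, g2, g3⟩ := exists_even ha ha2 (cast_ne hb ha hab) hsq
  have h1b : (1 : ZMod b) ≠ -1 := by
    intro h
    have : Fact (2 < b) := ⟨by
      have := hb.two_le
      omega⟩
    exact ZMod.neg_one_ne_one h.symm
  refine ⟨fun u w => (if w = 1 then g u else 0) + if w = -1 then -g (-u) else 0, ?_, ?_, ?_, ?_⟩
  · intro u w
    have e1 : (-w = 1) ↔ (w = -1) := neg_eq_iff_eq_neg
    have e2 : (-w = -1) ↔ (w = 1) := neg_inj
    simp only [e1, e2, neg_neg]
    split_ifs <;> ring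
  · intro w
    rw [sum_add_distrib]
    have h1 : ∑ u : ZMod a with u ≠ 0, (if w = 1 then g u else 0) = 0 := by
      split_ifs
      · exact g2
      · exact sum_const_zero
    have h2 : ∑ u : ZMod a with u ≠ 0, (if w = -1 then -g (-u) else 0) = 0 := by
      split_ifs
      · rw [sum_neg_distrib, sum_neg_units, g2, neg_zero]
      · exact sum_const_zero
    rw [h1, h2]
    rfl
  · intro u hu
    rw [sum_add_distrib, sum_one_unit one_ne_zero, sum_one_unit (neg_ne_zero.mpr one_ne_zero),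
      ← g1 u hu]
    ring
  · intro u w hu
    refine Even.add ?_ ?_
    · split_ifs
      · exact g3 u hu
      · exact Even.zero
    · split_ifs
      · exact (g3 _ (neg_ne_zero.mpr hu)).neg
      · exact Even.zero

/-- a family with the parity `R` -/
def HasF (m R : ℕ) : Prop :=
  ∃ F, DFam m F ∧ ∀ (r : ℕ) (z : ℤ), r ∣ m → IsCoprime z (r : ℤ) → (Odd (F r z) ↔ r = R)

/-- the radical `a` -/
theorem famT1 {a b c : ℕ} (ha : a.Prime) (hb : b.Prime) (hc : c.Prime) (hab : a ≠ b) (hac : a ≠ c)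
    (hbc : b ≠ c) (ha2 : a ≠ 2) (hb2 : b ≠ 2) (hc2 : c ≠ 2) (hsb : IsSquare (b : ZMod a))
    (hsc : IsSquare (c : ZMod a)) : HasF (a * (b * c)) a := by
  have : Fact a.Prime := ⟨ha⟩
  have : Fact b.Prime := ⟨hb⟩
  have : Fact c.Prime := ⟨hc⟩
  have : NeZero a := ⟨ha.ne_zero⟩
  have : NeZero b := ⟨hb.ne_zero⟩
  have : NeZero c := ⟨hc.ne_zero⟩
  have hao : Odd a := ha.odd_of_ne_two ha2
  obtain ⟨G, G1, G2, G3, G4⟩ := exists_pair ha hb hab ha2 hb2 hsb
  obtain ⟨E, E1, E2, E3, E4⟩ := exists_pair ha hc hac ha2 hc2 hsc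
  have hba := cast_ne hb ha hab
  have hca := cast_ne hc ha hac
  have hbc0 := cast_ne hb hc (Ne.symm hbc)
  have hcb0 := cast_ne hc hb hbc
  obtain ⟨T, T1, T2, T3, T4, T5⟩ := table3 ha hb hc ha2 hb2 hc2
    (A := fun u w => G u w - G ((c : ZMod a)⁻¹ * u) ((c : ZMod b)⁻¹ * w))
    (B := fun u t => E u t - E ((b : ZMod a)⁻¹ * u) ((b : ZMod c)⁻¹ * t))
    (fun u w => by
      simp only [mul_neg, G1]
      ring)
    (fun u t => by
      simp only [mul_neg, E1]
      ring)
    (fun w _ => by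
      rw [sum_sub_distrib, G2,
        sum_mul_units ha (inv_ne_zero hca) (fun u => G u ((c : ZMod b)⁻¹ * w)), G2, sub_zero])
    (fun t _ => by
      rw [sum_sub_distrib, E2,
        sum_mul_units ha (inv_ne_zero hba) (fun u => E u ((b : ZMod c)⁻¹ * t)), E2, sub_zero])
    (fun u hu => by
      rw [sum_sub_distrib, sum_sub_distrib, G3 u hu, E3 u hu,
        sum_mul_units hb (inv_ne_zero hcb0) (fun w => G ((c : ZMod a)⁻¹ * u) w),
        sum_mul_units hc (inv_ne_zero hbc0) (fun t => E ((b : ZMod a)⁻¹ * u) t),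
        G3 _ (mul_ne_zero (inv_ne_zero hca) hu), E3 _ (mul_ne_zero (inv_ne_zero hba) hu),
        mul_left_comm (b : ZMod a)⁻¹ (c : ZMod a)⁻¹ u]
      ring)
    (fun u w hu _ => (G4 u w hu).sub (G4 _ _ (mul_ne_zero (inv_ne_zero hca) hu)))
    (fun u t hu _ => (E4 u t hu).sub (E4 _ _ (mul_ne_zero (inv_ne_zero hba) hu)))
  refine ⟨F7 a b c (sg a) G E T, dfam7 ha hb hc hab hac hbc (sg_neg hao) G1 E1 T1 ?_ ?_
    (fun w _ => G2 w) (fun t _ => E2 t) ?_ ?_ T4,
    F7_par ha hb hc hab hac hbc dvd_rfl ?_ ?_ ?_ ?_⟩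
  · intro u hu
    rw [G3 _ (mul_ne_zero hba hu), inv_mul_cancel_left₀ hba]
  · intro u hu
    rw [E3 _ (mul_ne_zero hca hu), inv_mul_cancel_left₀ hca]
  · intro u w hu hw
    rw [T2 _ _ (mul_ne_zero hca hu) (mul_ne_zero hcb0 hw), inv_mul_cancel_left₀ hca,
      inv_mul_cancel_left₀ hcb0]
  · intro u t hu ht
    rw [T3 _ _ (mul_ne_zero hba hu) (mul_ne_zero hbc0 ht), inv_mul_cancel_left₀ hba,
      inv_mul_cancel_left₀ hbc0]
  · exact fun u hu => iff_of_true (sg_odd hu) rfl
  · intro u w hu _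
    refine iff_of_false ?_ ?_
    · rw [Int.not_odd_iff_even]
      exact G4 u w hu
    · intro h
      have h1 : a * b = a * 1 := by rw [mul_one]; exact h
      have := Nat.eq_of_mul_eq_mul_left ha.pos h1
      have := hb.one_lt
      omega
  · intro u w hu _
    refine iff_of_false ?_ ?_
    · rw [Int.not_odd_iff_even]
      exact E4 u w hu
    · intro h
      have h1 : a * c = a * 1 := by rw [mul_one]; exact h
      have := Nat.eq_of_mul_eq_mul_left ha.pos h1
      have := hc.one_lt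
      omega
  · intro u w t hu hw ht
    refine iff_of_false ?_ ?_
    · rw [Int.not_odd_iff_even]
      exact T5 u w t hu hw ht
    · intro h
      have h1 : a * (b * c) = a * 1 := by rw [mul_one]; exact h
      have h2 := Nat.eq_of_mul_eq_mul_left ha.pos h1
      have := hc.one_lt
      have := hb.one_lt
      nlinarith

theorem qchar_neg {a : ℕ} [Fact a.Prime] (ha4 : a % 4 = 1) (u : ZMod a) :
    quadraticChar (ZMod a) (-u) = quadraticChar (ZMod a) u := by
  have hm1 : quadraticChar (ZMod a) (-1) = 1 := by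
    rw [quadraticChar_one_iff_isSquare (neg_ne_zero.mpr one_ne_zero),
      ZMod.exists_sq_eq_neg_one_iff]
    omega
  rw [← neg_one_mul u, map_mul, hm1, one_mul]

theorem qchar_sum {a : ℕ} [Fact a.Prime] [NeZero a] (ha2 : a ≠ 2) :
    ∑ u : ZMod a with u ≠ 0, quadraticChar (ZMod a) u = 0 := by
  have h2 : ringChar (ZMod a) ≠ 2 := by
    rw [ZMod.ringChar_zmod_n]
    exact ha2
  rw [← quadraticChar_sum_zero h2, sum_filter]
  refine sum_congr rfl fun u _ => ?_
  split_ifs with h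
  · rfl
  · rw [not_not.mp h, quadraticChar_zero]

theorem qchar_odd {a : ℕ} [Fact a.Prime] {u : ZMod a} (hu : u ≠ 0) :
    Odd (quadraticChar (ZMod a) u) := by
  rcases quadraticChar_dichotomy hu with h | h <;> rw [h] <;> decide

/-- the radical `a b` -/
theorem famT2 {a b c : ℕ} (ha : a.Prime) (hb : b.Prime) (hc : c.Prime) (hab : a ≠ b) (hac : a ≠ c)
    (hbc : b ≠ c) (ha4 : a % 4 = 1) (hb2 : b ≠ 2) (hc2 : c ≠ 2) (hsa : IsSquare (c : ZMod a))
    (hsb : IsSquare (c : ZMod b)) : HasF (a * (b * c)) (a * b) := by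
  have : Fact a.Prime := ⟨ha⟩
  have : Fact b.Prime := ⟨hb⟩
  have : Fact c.Prime := ⟨hc⟩
  have : NeZero a := ⟨ha.ne_zero⟩
  have : NeZero b := ⟨hb.ne_zero⟩
  have : NeZero c := ⟨hc.ne_zero⟩
  have hbo : Odd b := hb.odd_of_ne_two hb2
  have ha2 : a ≠ 2 := by
    rintro rfl
    omega
  obtain ⟨P, P1, P2, P3, P4⟩ := exists_pair hb hc hbc hb2 hc2 hsb
  have hca := cast_ne hc ha hac
  have hcb := cast_ne hc hb hbc
  have hχc : quadraticChar (ZMod a) (c : ZMod a) = 1 :=
    (quadraticChar_one_iff_isSquare hca).mpr hsa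
  refine ⟨F7 a b c (fun _ => 0) (fun u w => quadraticChar (ZMod a) u * sg b w) (fun _ _ => 0)
    fun u w t => quadraticChar (ZMod a) u * P w t,
    dfam7 ha hb hc hab hac hbc (fun _ => neg_zero.symm) ?_ (fun _ _ => neg_zero.symm) ?_ ?_ ?_
      ?_ ?_ ?_ ?_ ?_, F7_par ha hb hc hab hac hbc (dvd_mul_right a b) ?_ ?_ ?_ ?_⟩
  · intro u w
    rw [qchar_neg ha4, sg_neg hbo]
    ring
  · intro u w t
    rw [qchar_neg ha4, P1]
    ring
  · intro u _
    rw [← mul_sum, sum_odd_zero _ (sg_neg hbo), mul_zero, sub_self]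
  · intro u _
    rw [sum_const_zero, sub_self]
  · intro w _
    rw [← sum_mul, qchar_sum ha2, zero_mul]
  · exact fun _ _ => sum_const_zero
  · intro u w hu hw
    rw [← mul_sum, P3 _ (mul_ne_zero hcb hw), inv_mul_cancel_left₀ hcb, map_mul, hχc]
    ring
  · intro u t _ _
    rw [← mul_sum, P2, mul_zero, sub_self]
  · intro w t _ _
    rw [← sum_mul, qchar_sum ha2, zero_mul]
  · refine fun u _ => iff_of_false (by decide) fun h => ?_
    have h1 : a * b = a * 1 := by rw [mul_one]; exact h.symm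
    have := Nat.eq_of_mul_eq_mul_left ha.pos h1
    have := hb.one_lt
    omega
  · exact fun u w hu hw => iff_of_true ((qchar_odd hu).mul (sg_odd hw)) rfl
  · exact fun u t _ _ => iff_of_false (by decide) fun h =>
      hbc (Nat.eq_of_mul_eq_mul_left ha.pos h).symm
  · intro u w t _ hw _
    refine iff_of_false ?_ fun h => ?_
    · rw [Int.not_odd_iff_even]
      exact (P4 w t hw).mul_left _
    · have h1 := Nat.eq_of_mul_eq_mul_left ha.pos h
      have h2 : b * c = b * 1 := by rw [mul_one]; exact h1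
      have := Nat.eq_of_mul_eq_mul_left hb.pos h2
      have := hc.one_lt
      omega

/-- the radical `a b c` -/
theorem famT3 {a b c : ℕ} (ha : a.Prime) (hb : b.Prime) (hc : c.Prime) (hab : a ≠ b) (hac : a ≠ c)
    (hbc : b ≠ c) (ha4 : a % 4 = 1) (hb4 : b % 4 = 1) (hc2 : c ≠ 2) :
    HasF (a * (b * c)) (a * (b * c)) := by
  have : Fact a.Prime := ⟨ha⟩
  have : Fact b.Prime := ⟨hb⟩
  have : Fact c.Prime := ⟨hc⟩
  have : NeZero a := ⟨ha.ne_zero⟩
  have : NeZero b := ⟨hb.ne_zero⟩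
  have : NeZero c := ⟨hc.ne_zero⟩
  have hco : Odd c := hc.odd_of_ne_two hc2
  have ha2 : a ≠ 2 := by
    rintro rfl
    omega
  have hb2 : b ≠ 2 := by
    rintro rfl
    omega
  refine ⟨F7 a b c (fun _ => 0) (fun _ _ => 0) (fun _ _ => 0)
    fun u w t => quadraticChar (ZMod a) u * (quadraticChar (ZMod b) w * sg c t),
    dfam7 ha hb hc hab hac hbc (fun _ => neg_zero.symm) (fun _ _ => neg_zero.symm)
      (fun _ _ => neg_zero.symm) ?_ ?_ ?_ (fun _ _ => sum_const_zero) (fun _ _ => sum_const_zero)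
      ?_ ?_ ?_, F7_par ha hb hc hab hac hbc (dvd_mul_right a _) ?_ ?_ ?_ ?_⟩
  · intro u w t
    rw [qchar_neg ha4, qchar_neg hb4, sg_neg hco]
    ring
  · intro u _
    rw [sum_const_zero, sub_self]
  · intro u _
    rw [sum_const_zero, sub_self]
  · intro u w _ _
    rw [← mul_sum, ← mul_sum, sum_odd_zero _ (sg_neg hco), mul_zero, mul_zero, sub_self]
  · intro u t _ _
    rw [← mul_sum, ← sum_mul, qchar_sum hb2, zero_mul, mul_zero, sub_self]
  · intro w t _ _
    rw [← sum_mul, qchar_sum ha2, zero_mul]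
  · refine fun u _ => iff_of_false (by decide) fun h => ?_
    have h1 : a * (b * c) = a * 1 := by rw [mul_one]; exact h.symm
    have := Nat.eq_of_mul_eq_mul_left ha.pos h1
    have := hb.one_lt
    have := hc.one_lt
    nlinarith
  · refine fun u w _ _ => iff_of_false (by decide) fun h => ?_
    have h1 := Nat.eq_of_mul_eq_mul_left ha.pos h
    have h2 : b * c = b * 1 := by rw [mul_one]; exact h1.symm
    have := Nat.eq_of_mul_eq_mul_left hb.pos h2
    have := hc.one_lt
    omega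
  · refine fun u w _ _ => iff_of_false (by decide) fun h => ?_
    have h1 := Nat.eq_of_mul_eq_mul_left ha.pos h
    have h2 : b * c = 1 * c := by rw [one_mul]; exact h1.symm
    have := Nat.eq_of_mul_eq_mul_right hc.pos h2
    have := hb.one_lt
    omega
  · exact fun u w t hu hw ht =>
      iff_of_true ((qchar_odd hu).mul ((qchar_odd hw).mul (sg_odd ht))) rfl

/-- two primes which are squares modulo each other -/
theorem one_mod_four {x y : ℕ} (hx : x.Prime) (hy : y.Prime) (hxy : x ≠ y) (hx2 : x ≠ 2)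
    (hy2 : y ≠ 2) (h1 : IsSquare (x : ZMod y)) (h2 : IsSquare (y : ZMod x)) :
    x % 4 = 1 ∨ y % 4 = 1 := by
  have : Fact x.Prime := ⟨hx⟩
  have : Fact y.Prime := ⟨hy⟩
  have hxo := hx.mod_two_eq_one_iff_ne_two.mpr hx2
  have hyo := hy.mod_two_eq_one_iff_ne_two.mpr hy2
  by_contra hcon
  push Not at hcon
  have hx4 : x % 4 = 3 := by omega
  have hy4 : y % 4 = 3 := by omega
  exact (ZMod.exists_sq_eq_prime_iff_of_mod_four_eq_three hx4 hy4 hxy).mp h2 h1

/-- **Three odd primes.** -/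
theorem hasF_three {a b c : ℕ} (ha : a.Prime) (hb : b.Prime) (hc : c.Prime) (hab : a ≠ b)
    (hac : a ≠ c) (hbc : b ≠ c) (ha2 : a ≠ 2) (hb2 : b ≠ 2) (hc2 : c ≠ 2)
    (sab : IsSquare (a : ZMod b)) (sba : IsSquare (b : ZMod a)) (sac : IsSquare (a : ZMod c))
    (sca : IsSquare (c : ZMod a)) (sbc : IsSquare (b : ZMod c)) (scb : IsSquare (c : ZMod b))
    {R : ℕ} (hR : R ∣ a * (b * c)) (hR1 : R ≠ 1) : HasF (a * (b * c)) R := by
  have e1 : a * (b * c) = b * (a * c) := by ring
  have e2 : a * (b * c) = c * (a * b) := by ring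
  have e3 : a * (b * c) = a * (c * b) := by ring
  have e4 : a * (b * c) = c * (b * a) := by ring
  have e5 : a * (b * c) = b * (c * a) := by ring
  obtain ⟨y, hy, rfl | rfl⟩ := div_three ha hb hc hR
  · rcases hy with rfl | rfl | rfl | rfl
    · exact absurd rfl hR1
    · rw [e1]
      exact famT1 hb ha hc (Ne.symm hab) hbc hac hb2 ha2 hc2 sab scb
    · rw [e2]
      exact famT1 hc ha hb (Ne.symm hac) (Ne.symm hbc) hab hc2 ha2 hb2 sac sbc
    · rcases one_mod_four hb hc hbc hb2 hc2 sbc scb with h | h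
      · rw [e5]
        exact famT2 hb hc ha hbc (Ne.symm hab) (Ne.symm hac) h hc2 ha2 sab sac
      · rw [e4, mul_comm b c]
        exact famT2 hc hb ha (Ne.symm hbc) (Ne.symm hac) (Ne.symm hab) h hb2 ha2 sac sab
  · rcases hy with rfl | rfl | rfl | rfl
    · rw [mul_one]
      exact famT1 ha hb hc hab hac hbc ha2 hb2 hc2 sba sca
    · rcases one_mod_four ha hb hab ha2 hb2 sab sba with h | h
      · exact famT2 ha hb hc hab hac hbc h hb2 hc2 sca scb
      · rw [e1, mul_comm a y]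
        exact famT2 hb ha hc (Ne.symm hab) hbc hac h ha2 hc2 scb sca
    · rcases one_mod_four ha hc hac ha2 hc2 sac sca with h | h
      · rw [e3]
        exact famT2 ha hc hb hac hab (Ne.symm hbc) h hc2 hb2 sba sbc
      · rw [e2, mul_comm a y]
        exact famT2 hc ha hb (Ne.symm hac) (Ne.symm hbc) hab h ha2 hb2 sbc sba
    · rcases one_mod_four ha hb hab ha2 hb2 sab sba with h | h
      · rcases one_mod_four hb hc hbc hb2 hc2 sbc scb with h' | h'
        · exact famT3 ha hb hc hab hac hbc h h' hc2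
        · rw [e3]
          exact famT3 ha hc hb hac hab (Ne.symm hbc) h h' hb2
      · rcases one_mod_four ha hc hac ha2 hc2 sac sca with h' | h'
        · rw [e1]
          exact famT3 hb ha hc (Ne.symm hab) hbc hac h h' hc2
        · rw [e5]
          exact famT3 hb hc ha hbc (Ne.symm hab) (Ne.symm hac) h h' ha2

/-- the levels with three odd prime factors -/
theorem limLP_triple (hB : StBasic) (hCL : StCL) (hTor : StTor) {p : ℕ} (hp : p.Prime)
    {a b c : ℕ} (ha : a.Prime) (hb : b.Prime) (hc : c.Prime) (hab : a ≠ b)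
    (hac : a ≠ c) (hbc : b ≠ c) (ha2 : a ≠ 2) (hb2 : b ≠ 2) (hc2 : c ≠ 2)
    (sab : IsSquare (a : ZMod b)) (sba : IsSquare (b : ZMod a)) (sac : IsSquare (a : ZMod c))
    (sca : IsSquare (c : ZMod a)) (sbc : IsSquare (b : ZMod c)) (scb : IsSquare (c : ZMod b))
    (hpm : (a * (b * c)).Coprime p) (hf : Odd (orderOf (p : ZMod (a * (b * c))))) :
    LimLP (a * (b * c)) p := by
  have hm : Odd (a * (b * c)) :=
    (ha.odd_of_ne_two ha2).mul ((hb.odd_of_ne_two hb2).mul (hc.odd_of_ne_two hc2))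
  have key : ∀ R : ℕ, R ∣ a * (b * c) → Odd R → Squarefree R → R ≠ 1 →
      GoodR p hp (a * (b * c)) R := by
    intro R h1 _ _ h4
    obtain ⟨F, h5, h6⟩ := hasF_three ha hb hc hab hac hbc ha2 hb2 hc2 sab sba sac sca sbc scb h1 h4
    exact goodR_fam hTor hp hm hpm.symm h5 h6 hf
  intro hM v hv
  exact limLP_good hB hCL hTor hp key v hv

end

end Pool.Agent.Lib.MP81632f.Lv
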