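import Pool.Agent.Lib.MP_81632f_ag.Pot.PairH14

/-!
# Potential lattice property: the degrees with two odd prime factors and a power of 2
-/

set_option autoImplicit false

noncomputable section

namespace Pool.Agent.Lib.MP81632f.Lv

open Finset
open Pool.Agent.Lib.MP81632f.Diag

section

variable {a b : ℕ} {H K : ℕ → ℤ → ℤ}

/-- the family -/
def FK (a b : ℕ) (H K : ℕ → ℤ → ℤ) (r : ℕ) (z : ℤ) : ℤ :=
  if a ∣ r then (if b ∣ r then K (r / (a * b)) z else H (r / a) z) else 0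

theorem not_dvd_pow {l : ℕ} (hl : l.Prime) (hl2 : l ≠ 2) (v : ℕ) : ¬ l ∣ 2 ^ v := fun h =>
  hl2 ((Nat.prime_dvd_prime_iff_eq hl Nat.prime_two).mp (hl.dvd_of_dvd_pow h))

theorem not_dvd_pow_mul {l q : ℕ} (hl : l.Prime) (hl2 : l ≠ 2) (hq : q.Prime) (hlq : l ≠ q)
    (v : ℕ) : ¬ l ∣ 2 ^ v * q := by
  intro h
  rcases hl.dvd_mul.mp h with h1 | h1
  · exact not_dvd_pow hl hl2 v h1
  · exact hlq ((Nat.prime_dvd_prime_iff_eq hl hq).mp h1)

theorem FK_1 (ha : a.Prime) (ha2 : a ≠ 2) (v : ℕ) (z : ℤ) : FK a b H K (2 ^ v) z = 0 :=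
  if_neg (not_dvd_pow ha ha2 v)

theorem FK_b (ha : a.Prime) (ha2 : a ≠ 2) (hb : b.Prime) (hab : a ≠ b) (v : ℕ) (z : ℤ) :
    FK a b H K (2 ^ v * b) z = 0 := if_neg (not_dvd_pow_mul ha ha2 hb hab v)

theorem FK_a (ha : a.Prime) (hb : b.Prime) (hb2 : b ≠ 2) (hab : a ≠ b) (v : ℕ) (z : ℤ) :
    FK a b H K (2 ^ v * a) z = H (2 ^ v) z := by
  unfold FK
  rw [if_pos (dvd_mul_left a _), if_neg (not_dvd_pow_mul hb hb2 ha (Ne.symm hab) v),
    Nat.mul_div_cancel _ ha.pos]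

theorem FK_ab (ha : a.Prime) (hb : b.Prime) (v : ℕ) (z : ℤ) :
    FK a b H K (2 ^ v * (a * b)) z = K (2 ^ v) z := by
  unfold FK
  rw [if_pos ((dvd_mul_right a b).mul_left _), if_pos ((dvd_mul_left b a).mul_left _),
    Nat.mul_div_cancel _ (Nat.mul_pos ha.pos hb.pos)]

theorem div_two_pair {e r : ℕ} (ha : a.Prime) (hb : b.Prime) (hr : r ∣ 2 ^ e * (a * b)) :
    ∃ v, r = 2 ^ v ∨ r = 2 ^ v * a ∨ r = 2 ^ v * b ∨ r = 2 ^ v * (a * b) := by
  obtain ⟨x, y, hx, hy, rfl⟩ := (Nat.dvd_mul).mp hr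
  obtain ⟨v, -, rfl⟩ := (Nat.dvd_prime_pow Nat.prime_two).mp hx
  obtain ⟨s, t, hs, ht, rfl⟩ := (Nat.dvd_mul).mp hy
  refine ⟨v, ?_⟩
  rcases (Nat.dvd_prime ha).mp hs with rfl | rfl <;>
    rcases (Nat.dvd_prime hb).mp ht with rfl | rfl <;> simp

/-- the family is a distribution -/
theorem dfamK {e : ℕ} (ha : a.Prime) (hb : b.Prime) (hab : a ≠ b) (ha2 : a ≠ 2) (hb2 : b ≠ 2)
    (pH : ∀ (v : ℕ) (z : ℤ), H (2 ^ v) (z + (2 ^ v * a : ℕ)) = H (2 ^ v) z)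
    (pK : ∀ (v : ℕ) (z : ℤ), K (2 ^ v) (z + (2 ^ v * (a * b) : ℕ)) = K (2 ^ v) z)
    (oH : ∀ (v : ℕ) (z : ℤ), H (2 ^ v) (-z) = -H (2 ^ v) z)
    (oK : ∀ (v : ℕ) (z : ℤ), K (2 ^ v) (-z) = -K (2 ^ v) z)
    (H01 : ∀ z : ℤ, ¬ (a : ℤ) ∣ z → H 2 (2 * z + a) = H 1 (2 * z) - H 1 z)
    (K01 : ∀ z : ℤ, ¬ (a : ℤ) ∣ z → ¬ (b : ℤ) ∣ z →
      K 2 (2 * z + (a * b : ℕ)) = K 1 (2 * z) - K 1 z)
    (Hv : ∀ v : ℕ, v ≠ 0 → ∀ z : ℤ, ¬ (2 : ℤ) ∣ z → ¬ (a : ℤ) ∣ z →
      H (2 ^ (v + 1)) z + H (2 ^ (v + 1)) (z + (2 ^ v * a : ℕ)) = H (2 ^ v) z)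
    (Kv : ∀ v : ℕ, v ≠ 0 → ∀ z : ℤ, ¬ (2 : ℤ) ∣ z → ¬ (a : ℤ) ∣ z → ¬ (b : ℤ) ∣ z →
      K (2 ^ (v + 1)) z + K (2 ^ (v + 1)) (z + (2 ^ v * (a * b) : ℕ)) = K (2 ^ v) z)
    (Ha : ∀ (v : ℕ) (z : ℤ), ∑ k ∈ Ico 1 a, H (2 ^ v) (a * z + k * (2 ^ v : ℕ)) = 0)
    (Ka : ∀ (v : ℕ) (z : ℤ), ¬ (b : ℤ) ∣ z →
      ∑ k ∈ Ico 1 a, K (2 ^ v) (a * z + k * (2 ^ v * b : ℕ)) = 0)
    (Kb : ∀ (v : ℕ) (z : ℤ), ¬ (a : ℤ) ∣ z →
      ∑ k ∈ Ico 1 b, K (2 ^ v) (b * z + k * (2 ^ v * a : ℕ)) = H (2 ^ v) (b * z) - H (2 ^ v) z) :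
    DFam (2 ^ e * (a * b)) (FK a b H K) ∧ D2 (2 ^ e * (a * b)) (FK a b H K) := by
  have hq : ∀ q r : ℕ, q.Prime → q * r ∣ 2 ^ e * (a * b) → q = 2 ∨ q = a ∨ q = b := by
    intro q r hqp h
    rcases hqp.dvd_mul.mp ((dvd_mul_right q r).trans h) with h1 | h1
    · exact Or.inl ((Nat.prime_dvd_prime_iff_eq hqp Nat.prime_two).mp (hqp.dvd_of_dvd_pow h1))
    · exact Or.inr ((hqp.dvd_mul.mp h1).imp (fun h => (Nat.prime_dvd_prime_iff_eq hqp ha).mp h)
        fun h => (Nat.prime_dvd_prime_iff_eq hqp hb).mp h)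
  have hnd : ∀ {l r : ℕ} {z : ℤ}, l.Prime → l ∣ r → IsCoprime z (r : ℤ) → ¬ (l : ℤ) ∣ z := by
    intro l r z hl hlr hz h
    exact (Nat.prime_iff_prime_int.mp hl).not_isUnit
      (hz.isUnit_of_dvd' h (by exact_mod_cast hlr))
  have hv0 : ∀ {v y : ℕ}, ¬ 2 ∣ 2 ^ v * y → v = 0 := by
    intro v y h
    by_contra hv
    exact h ((dvd_pow_self 2 hv).mul_right y)
  have hI : Ico 1 2 = {1} := by decide
  have f1 := fun v z => FK_1 (b := b) (H := H) (K := K) ha ha2 v z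
  have f2 := fun v z => FK_b (H := H) (K := K) ha ha2 hb hab v z
  have f3 := fun v z => FK_a (H := H) (K := K) ha hb hb2 hab v z
  have f4 := fun v z => FK_ab (H := H) (K := K) ha hb v z
  have p1 : ∀ v : ℕ, 2 * 2 ^ v = 2 ^ (v + 1) := fun v => (pow_succ' 2 v).symm
  refine ⟨⟨?_, ?_, ?_⟩, ?_⟩
  · intro r z hr
    obtain ⟨v, rfl | rfl | rfl | rfl⟩ := div_two_pair ha hb hr
    · rw [f1, f1]
    · rw [f3, f3]
      exact pH v z
    · rw [f2, f2]
    · rw [f4, f4]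
      exact pK v z
  · intro r z hr
    obtain ⟨v, rfl | rfl | rfl | rfl⟩ := div_two_pair ha hb hr
    · rw [f1, f1, neg_zero]
    · rw [f3, f3]
      exact oH v z
    · rw [f2, f2, neg_zero]
    · rw [f4, f4]
      exact oK v z
  · intro r q z hqp hqr hqm hz
    obtain ⟨v, rfl | rfl | rfl | rfl⟩ := div_two_pair ha hb ((dvd_mul_left r q).trans hqm)
    · rw [f1, f1, sub_zero]
      rcases hq q _ hqp hqm with rfl | rfl | rfl
      · refine sum_eq_zero fun k _ => ?_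
        rw [p1, f1]
      · rw [← Ha v z]
        refine sum_congr rfl fun k _ => ?_
        rw [mul_comm q, f3]
      · refine sum_eq_zero fun k _ => ?_
        rw [mul_comm q, f2]
    · rcases hq q _ hqp hqm with rfl | rfl | rfl
      · obtain rfl := hv0 hqr
        have h1 := H01 z (hnd ha (dvd_mul_left a _) hz)
        rw [hI, sum_singleton, ← mul_assoc, p1, f3, f3, f3]
        rw [pow_zero, one_mul, Nat.cast_one, one_mul]
        exact h1
      · exact absurd (dvd_mul_left q _) hqr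
      · rw [f3, f3, ← Kb v z (hnd ha (dvd_mul_left a _) hz)]
        refine sum_congr rfl fun k _ => ?_
        rw [show q * (2 ^ v * a) = 2 ^ v * (a * q) by ring, f4]
    · rw [f2, f2, sub_zero]
      rcases hq q _ hqp hqm with rfl | rfl | rfl
      · refine sum_eq_zero fun k _ => ?_
        rw [← mul_assoc, p1, f2]
      · rw [← Ka v z (hnd hb (dvd_mul_left b _) hz)]
        refine sum_congr rfl fun k _ => ?_
        rw [show q * (2 ^ v * b) = 2 ^ v * (q * b) by ring, f4]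
      · exact absurd (dvd_mul_left q _) hqr
    · rcases hq q _ hqp hqm with rfl | rfl | rfl
      · obtain rfl := hv0 hqr
        have h1 := K01 z (hnd ha ((dvd_mul_right a b).mul_left _) hz)
          (hnd hb ((dvd_mul_left b a).mul_left _) hz)
        rw [hI, sum_singleton, ← mul_assoc, p1, f4, f4, f4]
        rw [pow_zero, one_mul, Nat.cast_one, one_mul]
        exact h1
      · exact absurd ((dvd_mul_right q b).mul_left _) hqr
      · exact absurd ((dvd_mul_left q a).mul_left _) hqr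
  · intro r q z hqp hqr hqm hz
    have hq2 : q = 2 := by
      rcases hq q _ hqp hqm with h | h | h
      · exact h
      · exfalso
        subst h
        obtain ⟨s, rfl⟩ := hqr
        have h3 : q * q * s ∣ q * (2 ^ e * b) := by
          rw [show q * q * s = q * (q * s) by ring, show q * (2 ^ e * b) = 2 ^ e * (q * b) by ring]
          exact hqm
        rw [mul_assoc] at h3
        have h4 := Nat.dvd_of_mul_dvd_mul_left hqp.pos h3
        exact not_dvd_pow_mul hqp ha2 hb hab e ((dvd_mul_right q s).trans h4)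
      · exfalso
        subst h
        obtain ⟨s, rfl⟩ := hqr
        have h3 : q * q * s ∣ q * (2 ^ e * a) := by
          rw [show q * q * s = q * (q * s) by ring, show q * (2 ^ e * a) = 2 ^ e * (a * q) by ring]
          exact hqm
        rw [mul_assoc] at h3
        have h4 := Nat.dvd_of_mul_dvd_mul_left hqp.pos h3
        exact not_dvd_pow_mul hqp hb2 ha (Ne.symm hab) e ((dvd_mul_right q s).trans h4)
    subst hq2
    have hz2 : ¬ (2 : ℤ) ∣ z := by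
      have h1 := hnd Nat.prime_two hqr hz
      exact_mod_cast h1
    have h1 : range 2 = {0, 1} := by decide
    have hv : ∀ {v y : ℕ}, ¬ 2 ∣ y → 2 ∣ 2 ^ v * y → v ≠ 0 := by
      rintro v y hy h rfl
      rw [pow_zero, one_mul] at h
      exact hy h
    have h2a : ¬ 2 ∣ a := fun h => ha2 ((Nat.prime_dvd_prime_iff_eq Nat.prime_two ha).mp h).symm
    have h2b : ¬ 2 ∣ b := fun h => hb2 ((Nat.prime_dvd_prime_iff_eq Nat.prime_two hb).mp h).symm
    have h2ab : ¬ 2 ∣ a * b := fun h => by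
      rcases Nat.prime_two.dvd_mul.mp h with h | h
      · exact h2a h
      · exact h2b h
    obtain ⟨v, rfl | rfl | rfl | rfl⟩ := div_two_pair ha hb ((dvd_mul_left r 2).trans hqm)
    · rw [f1]
      refine sum_eq_zero fun k _ => ?_
      rw [p1, f1]
    · rw [h1, sum_pair (by decide), ← mul_assoc, p1, f3, f3, f3]
      rw [Nat.cast_zero, zero_mul, add_zero, Nat.cast_one, one_mul]
      exact Hv v (hv h2a hqr) z hz2 (hnd ha (dvd_mul_left a _) hz)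
    · rw [f2]
      refine sum_eq_zero fun k _ => ?_
      rw [← mul_assoc, p1, f2]
    · rw [h1, sum_pair (by decide), ← mul_assoc, p1, f4, f4, f4]
      rw [Nat.cast_zero, zero_mul, add_zero, Nat.cast_one, one_mul]
      exact Kv v (hv h2ab hqr) z hz2 (hnd ha ((dvd_mul_right a b).mul_left _) hz)
        (hnd hb ((dvd_mul_left b a).mul_left _) hz)

end

end Pool.Agent.Lib.MP81632f.Lv
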