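import Pool.Agent.Lib.MP_81632f_ag.Pot.PairI14

/-!
# Potential lattice property: the families for two odd primes and a power of 2
-/

set_option autoImplicit false

noncomputable section

namespace Pool.Agent.Lib.MP81632f.Lv

open Finset
open Pool.Agent.Lib.MP81632f.Diag

section

variable {a b : ℕ}

/-- lifting an indicator -/
theorem lift_ind {n l : ℕ} (hn : 0 < n) (hl : Odd l) (w x : ℤ) :
    (if ((2 * n : ℕ) : ℤ) ∣ w then x else 0) +
      (if ((2 * n : ℕ) : ℤ) ∣ w + (n * l : ℕ) then x else 0) = if (n : ℤ) ∣ w then x else 0 := by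
  obtain ⟨t, ht⟩ := hl
  have hn0 : (n : ℤ) ≠ 0 := by exact_mod_cast hn.ne'
  have hnd : ((2 * n : ℕ) : ℤ) ∣ w → (n : ℤ) ∣ w := fun hw =>
    (Dvd.intro_left (2 : ℤ) (by push_cast; ring)).trans hw
  by_cases h : (n : ℤ) ∣ w
  · obtain ⟨c, rfl⟩ := h
    rw [if_pos (dvd_mul_right _ _)]
    have f1 : ((2 * n : ℕ) : ℤ) ∣ (n : ℤ) * c ↔ (2 : ℤ) ∣ c := by
      push_cast
      rw [mul_comm (2 : ℤ) n]
      exact mul_dvd_mul_iff_left hn0
    have f2 : ((2 * n : ℕ) : ℤ) ∣ (n : ℤ) * c + (n * l : ℕ) ↔ (2 : ℤ) ∣ c + l := by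
      have e : (n : ℤ) * c + (n * l : ℕ) = n * (c + l) := by push_cast; ring
      rw [e]
      push_cast
      rw [mul_comm (2 : ℤ) n]
      exact mul_dvd_mul_iff_left hn0
    simp only [f1, f2]
    by_cases hc : (2 : ℤ) ∣ c
    · have h2 : ¬ (2 : ℤ) ∣ c + l := by omega
      rw [if_pos hc, if_neg h2, add_zero]
    · have h2 : (2 : ℤ) ∣ c + l := by omega
      rw [if_neg hc, if_pos h2, zero_add]
  · rw [if_neg h, if_neg fun h' => h (hnd h'), if_neg, add_zero]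
    intro h'
    have h1 : ((2 * n : ℕ) : ℤ) ∣ (n : ℤ) * l * 2 := Dvd.intro (l : ℤ) (by push_cast; ring)
    have h2 : (n : ℤ) ∣ w + (n * l : ℕ) := (Dvd.intro_left (2 : ℤ) (by push_cast; ring)).trans h'
    push_cast at h2
    exact h ((dvd_add_left (dvd_mul_right _ _)).mp h2)

/-- the function on the levels `2 ^ v a b`, `v ≥ 2` -/
def X4 (a b : ℕ) (X P : ZMod a → ZMod b → ℤ) (n : ℕ) (z : ℤ) : ℤ :=
  (if (n : ℤ) ∣ z - 1 then X z z else 0) - (if (n : ℤ) ∣ z + 1 then X (-z) (-z) else 0) -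
    (if (n : ℤ) ∣ z - b then P z z else 0) + (if (n : ℤ) ∣ z + b then P (-z) (-z) else 0)

/-- the function on the levels `2 ^ v a b` -/
def KK (a b : ℕ) (G X P : ZMod a → ZMod b → ℤ) (n : ℕ) (z : ℤ) : ℤ :=
  if n = 1 then G z z else if n = 2 then G z z - G ((2 : ZMod a)⁻¹ * z) ((2 : ZMod b)⁻¹ * z) else
    X4 a b X P n z

variable {G X P : ZMod a → ZMod b → ℤ}

theorem KK_1 (z : ℤ) : KK a b G X P 1 z = G z z := if_pos rfl

theorem KK_2 (z : ℤ) :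
    KK a b G X P 2 z = G z z - G ((2 : ZMod a)⁻¹ * z) ((2 : ZMod b)⁻¹ * z) := by
  unfold KK
  rw [if_neg (show (2 : ℕ) ≠ 1 by decide), if_pos rfl]

theorem KK_big {n : ℕ} (hn : 2 < n) (z : ℤ) : KK a b G X P n z = X4 a b X P n z := by
  unfold KK
  have h1 : n ≠ 1 := by omega
  have h2 : n ≠ 2 := by omega
  rw [if_neg h1, if_neg h2]

theorem X4_neg (n : ℕ) (z : ℤ) : X4 a b X P n (-z) = -X4 a b X P n z := by
  unfold X4
  have e1 : ((n : ℤ) ∣ -z - 1) ↔ (n : ℤ) ∣ z + 1 := by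
    rw [← dvd_neg, show -(-z - 1) = z + 1 by ring]
  have e2 : ((n : ℤ) ∣ -z + 1) ↔ (n : ℤ) ∣ z - 1 := by
    rw [← dvd_neg, show -(-z + 1) = z - 1 by ring]
  have e3 : ((n : ℤ) ∣ -z - b) ↔ (n : ℤ) ∣ z + b := by
    rw [← dvd_neg, show -(-z - b) = z + b by ring]
  have e4 : ((n : ℤ) ∣ -z + b) ↔ (n : ℤ) ∣ z - b := by
    rw [← dvd_neg, show -(-z + b) = z - b by ring]
  push_cast
  simp only [e1, e2, e3, e4, neg_neg]
  ring

theorem X4_per (n : ℕ) (z : ℤ) : X4 a b X P n (z + (n * (a * b) : ℕ)) = X4 a b X P n z := by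
  unfold X4
  have e : ∀ w : ℤ, ((n : ℤ) ∣ w + (n * (a * b) : ℕ)) ↔ (n : ℤ) ∣ w := by
    intro w
    push_cast
    exact dvd_add_left (dvd_mul_right _ _)
  have e1 : z + (n * (a * b) : ℕ) - 1 = (z - 1) + (n * (a * b) : ℕ) := by ring
  have e2 : z + (n * (a * b) : ℕ) + 1 = (z + 1) + (n * (a * b) : ℕ) := by ring
  have e3 : z + (n * (a * b) : ℕ) - b = (z - b) + (n * (a * b) : ℕ) := by ring
  have e4 : z + (n * (a * b) : ℕ) + b = (z + b) + (n * (a * b) : ℕ) := by ring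
  have c1 : ((z + (n * (a * b) : ℕ) : ℤ) : ZMod a) = z := by
    push_cast
    rw [ZMod.natCast_self a]
    ring
  have c2 : ((z + (n * (a * b) : ℕ) : ℤ) : ZMod b) = z := by
    push_cast
    rw [ZMod.natCast_self b]
    ring
  rw [e1, e2, e3, e4]
  simp only [e, c1, c2]

theorem X4_lift {n : ℕ} (hn : 0 < n) (hao : Odd a) (hbo : Odd b) (z : ℤ) :
    X4 a b X P (2 * n) z + X4 a b X P (2 * n) (z + (n * (a * b) : ℕ)) = X4 a b X P n z := by
  have c1 : ((z + (n * (a * b) : ℕ) : ℤ) : ZMod a) = z := by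
    push_cast
    rw [ZMod.natCast_self a]
    ring
  have c2 : ((z + (n * (a * b) : ℕ) : ℤ) : ZMod b) = z := by
    push_cast
    rw [ZMod.natCast_self b]
    ring
  have e1 : z + (n * (a * b) : ℕ) - 1 = (z - 1) + (n * (a * b) : ℕ) := by ring
  have e2 : z + (n * (a * b) : ℕ) + 1 = (z + 1) + (n * (a * b) : ℕ) := by ring
  have e3 : z + (n * (a * b) : ℕ) - b = (z - b) + (n * (a * b) : ℕ) := by ring
  have e4 : z + (n * (a * b) : ℕ) + b = (z + b) + (n * (a * b) : ℕ) := by ring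
  unfold X4
  rw [e1, e2, e3, e4, c1, c2]
  have h1 := lift_ind hn (hao.mul hbo) (z - 1) (X z z)
  have h2 := lift_ind hn (hao.mul hbo) (z + 1) (X (-z) (-z))
  have h3 := lift_ind hn (hao.mul hbo) (z - b) (P z z)
  have h4 := lift_ind hn (hao.mul hbo) (z + b) (P (-z) (-z))
  linear_combination h1 - h2 - h3 + h4

/-- the level `2` -/
theorem X4_two (hbo : Odd b) {z : ℤ} (hz : ¬ (2 : ℤ) ∣ z) :
    X4 a b X P 2 z = X z z - X (-z) (-z) - P z z + P (-z) (-z) := by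
  obtain ⟨t, ht⟩ := hbo
  unfold X4
  have h1 : ((2 : ℕ) : ℤ) ∣ z - 1 := by
    push_cast
    omega
  have h2 : ((2 : ℕ) : ℤ) ∣ z + 1 := by
    push_cast
    omega
  have h3 : ((2 : ℕ) : ℤ) ∣ z - b := by
    push_cast
    omega
  have h4 : ((2 : ℕ) : ℤ) ∣ z + b := by
    push_cast
    omega
  rw [if_pos h1, if_pos h2, if_pos h3, if_pos h4]

theorem Hl14_sum2 {l : ℕ} (g : ZMod l → ℤ) {n : ℕ} (hn : 2 < n) (z : ℤ) :
    Hl14 l g n z = (if (n : ℤ) ∣ z - 1 then g z else 0) - if (n : ℤ) ∣ z + 1 then g (-z) else 0 := by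
  rw [Hl14_big g hn]
  by_cases h1 : (n : ℤ) ∣ z - 1
  · have h2 : ¬ (n : ℤ) ∣ z + 1 := by
      intro h2
      have h3 := dvd_sub h2 h1
      have e : z + 1 - (z - 1) = 2 := by ring
      rw [e] at h3
      have := Int.le_of_dvd (by norm_num) h3
      omega
    rw [if_pos h1, if_pos h1, if_neg h2, sub_zero]
  · by_cases h2 : (n : ℤ) ∣ z + 1
    · rw [if_neg h1, if_neg h1, if_pos h2, if_pos h2, zero_sub]
    · rw [if_neg h1, if_neg h1, if_neg h2, if_neg h2, sub_zero]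

theorem sum_if_const {ι : Type*} (s : Finset ι) (Q : Prop) [Decidable Q] (f : ι → ℤ) :
    ∑ k ∈ s, (if Q then f k else 0) = if Q then ∑ k ∈ s, f k else 0 := by
  split_ifs
  · rfl
  · exact sum_const_zero

/-- the sums over the residues modulo `a` -/
theorem X4_suma (ha : a.Prime) [NeZero a] {n : ℕ} (hc : IsCoprime ((n * b : ℕ) : ℤ) (a : ℤ))
    {z : ℤ} (hX : ∀ w, w ≠ 0 → ∑ u : ZMod a with u ≠ 0, X u w = 0)
    (hP : ∀ w, w ≠ 0 → ∑ u : ZMod a with u ≠ 0, P u w = 0)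
    (hz : (((a : ℤ) * z : ℤ) : ZMod b) ≠ 0) :
    ∑ k ∈ Ico 1 a, X4 a b X P n (a * z + k * (n * b : ℕ)) = 0 := by
  set w : ZMod b := (((a : ℤ) * z : ℤ) : ZMod b) with hw
  have c1 : ∀ k : ℕ, (((a : ℤ) * z + k * (n * b : ℕ) : ℤ) : ZMod a) =
      ((((k : ℕ) : ℤ) * (n * b : ℕ) : ℤ) : ZMod a) := by
    intro k
    push_cast
    rw [ZMod.natCast_self a]
    ring
  have c2 : ∀ k : ℕ, (((a : ℤ) * z + k * (n * b : ℕ) : ℤ) : ZMod b) = w := by
    intro k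
    rw [hw]
    push_cast
    rw [ZMod.natCast_self b]
    ring
  have e : ∀ (k : ℕ) (s : ℤ), ((n : ℤ) ∣ (a : ℤ) * z + k * (n * b : ℕ) + s) ↔
      (n : ℤ) ∣ (a : ℤ) * z + s := by
    intro k s
    have e0 : (a : ℤ) * z + k * (n * b : ℕ) + s = (a * z + s) + n * (k * b) := by push_cast; ring
    rw [e0]
    exact dvd_add_left (dvd_mul_right _ _)
  unfold X4
  simp only [sub_eq_add_neg (_ : ℤ) (1 : ℤ), sub_eq_add_neg (_ : ℤ) (b : ℤ), e, c1, c2]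
  rw [sum_add_distrib, sum_sub_distrib, sum_sub_distrib, sum_if_const, sum_if_const, sum_if_const,
    sum_if_const, sum_Ico_cast ha (fun u => X u w) hc, sum_Ico_cast ha (fun u => X (-u) (-w)) hc,
    sum_Ico_cast ha (fun u => P u w) hc, sum_Ico_cast ha (fun u => P (-u) (-w)) hc,
    sum_neg_units (fun u => X u (-w)), sum_neg_units (fun u => P u (-w)), hX w hz, hP w hz,
    hX _ (neg_ne_zero.mpr hz), hP _ (neg_ne_zero.mpr hz)]
  simp

/-- the sums over the residues modulo `b` -/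
theorem X4_sumb (ha : a.Prime) (hb : b.Prime) (hab : a ≠ b) [NeZero b] {g : ZMod a → ℤ} {n : ℕ}
    (hn : 2 < n) (hc : IsCoprime ((n * a : ℕ) : ℤ) (b : ℤ)) {z : ℤ}
    (hX : ∀ u, u ≠ 0 → ∑ w : ZMod b with w ≠ 0, X u w = g u)
    (hP : ∀ u, u ≠ 0 → ∑ w : ZMod b with w ≠ 0, P (b * u) w = g u)
    (hz : (z : ZMod a) ≠ 0) :
    ∑ k ∈ Ico 1 b, X4 a b X P n (b * z + k * (n * a : ℕ)) =
      Hl14 a g n (b * z) - Hl14 a g n z := by
  have : Fact a.Prime := ⟨ha⟩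
  have hba := cast_ne hb ha hab
  have c1 : ∀ k : ℕ, (((b : ℤ) * z + k * (n * a : ℕ) : ℤ) : ZMod b) =
      ((((k : ℕ) : ℤ) * (n * a : ℕ) : ℤ) : ZMod b) := by
    intro k
    push_cast
    rw [ZMod.natCast_self b]
    ring
  have c2 : ∀ k : ℕ, (((b : ℤ) * z + k * (n * a : ℕ) : ℤ) : ZMod a) = (b : ZMod a) * z := by
    intro k
    push_cast
    rw [ZMod.natCast_self a]
    ring
  have e : ∀ (k : ℕ) (s : ℤ), ((n : ℤ) ∣ (b : ℤ) * z + k * (n * a : ℕ) + s) ↔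
      (n : ℤ) ∣ (b : ℤ) * z + s := by
    intro k s
    have e0 : (b : ℤ) * z + k * (n * a : ℕ) + s = (b * z + s) + n * (k * a) := by push_cast; ring
    rw [e0]
    exact dvd_add_left (dvd_mul_right _ _)
  have hnb : IsCoprime (n : ℤ) (b : ℤ) := by
    push_cast at hc
    exact hc.of_mul_left_left
  have e3 : ((n : ℤ) ∣ (b : ℤ) * z + -(b : ℤ)) ↔ (n : ℤ) ∣ z + -1 := by
    rw [show (b : ℤ) * z + -(b : ℤ) = b * (z + -1) by ring]
    exact ⟨fun h => hnb.dvd_of_dvd_mul_left h, fun h => h.mul_left _⟩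
  have e4 : ((n : ℤ) ∣ (b : ℤ) * z + (b : ℤ)) ↔ (n : ℤ) ∣ z + 1 := by
    rw [show (b : ℤ) * z + (b : ℤ) = b * (z + 1) by ring]
    exact ⟨fun h => hnb.dvd_of_dvd_mul_left h, fun h => h.mul_left _⟩
  have hbz : (b : ZMod a) * z ≠ 0 := mul_ne_zero hba hz
  have hP2 : ∑ w : ZMod b with w ≠ 0, P (-((b : ZMod a) * z)) w = g (-z) := by
    rw [← mul_neg]
    exact hP _ (neg_ne_zero.mpr hz)
  rw [Hl14_sum2 g hn, Hl14_sum2 g hn]
  unfold X4
  simp only [sub_eq_add_neg (_ : ℤ) (1 : ℤ), sub_eq_add_neg (_ : ℤ) (b : ℤ), e, c1, c2, e3, e4]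
  rw [sum_add_distrib, sum_sub_distrib, sum_sub_distrib, sum_if_const, sum_if_const, sum_if_const,
    sum_if_const, sum_Ico_cast hb (fun w => X ((b : ZMod a) * z) w) hc,
    sum_Ico_cast hb (fun w => X (-((b : ZMod a) * z)) (-w)) hc,
    sum_Ico_cast hb (fun w => P ((b : ZMod a) * z) w) hc,
    sum_Ico_cast hb (fun w => P (-((b : ZMod a) * z)) (-w)) hc,
    sum_neg_units (fun w => X (-((b : ZMod a) * z)) w),
    sum_neg_units (fun w => P (-((b : ZMod a) * z)) w), hX _ hbz, hX _ (neg_ne_zero.mpr hbz),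
    hP _ hz, hP2]
  push_cast
  ring

/-- a family with the parity `R` on one level -/
def HasT (m R : ℕ) : Prop :=
  ∃ F, DFam m F ∧ D2 m F ∧
    ∀ (r : ℕ) (z : ℤ), r ∣ m → IsCoprime z (r : ℤ) → (Odd (F r z) ↔ Odd r ∧ rad r = R)

/-- the parities -/
theorem FK_par {e R₁ : ℕ} {H K : ℕ → ℤ → ℤ} (ha : a.Prime) (hb : b.Prime) (hab : a ≠ b)
    (ha2 : a ≠ 2) (hb2 : b ≠ 2) (k0 : R₁ ≠ 1) (k0' : R₁ ≠ b)
    (k1 : ∀ z : ℤ, ¬ (a : ℤ) ∣ z → (Odd (H 1 z) ↔ a = R₁))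
    (k2 : ∀ v : ℕ, v ≠ 0 → ∀ z : ℤ, ¬ (a : ℤ) ∣ z → ¬ (2 : ℤ) ∣ z → Even (H (2 ^ v) z))
    (k3 : ∀ z : ℤ, ¬ (a : ℤ) ∣ z → ¬ (b : ℤ) ∣ z → (Odd (K 1 z) ↔ a * b = R₁))
    (k4 : ∀ v : ℕ, v ≠ 0 → ∀ z : ℤ, ¬ (a : ℤ) ∣ z → ¬ (b : ℤ) ∣ z → ¬ (2 : ℤ) ∣ z →
      Even (K (2 ^ v) z))
    (r : ℕ) (z : ℤ) (hr : r ∣ 2 ^ e * (a * b)) (hz : IsCoprime z (r : ℤ)) :
    Odd (FK a b H K r z) ↔ Odd r ∧ rad r = R₁ := by
  have hnd : ∀ {l r : ℕ} {z : ℤ}, l.Prime → l ∣ r → IsCoprime z (r : ℤ) → ¬ (l : ℤ) ∣ z := by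
    intro l r z hl hlr hz h
    exact (Nat.prime_iff_prime_int.mp hl).not_isUnit
      (hz.isUnit_of_dvd' h (by exact_mod_cast hlr))
  have hzero : ¬ Odd (0 : ℤ) := by decide
  have hcop : a.Coprime b := (Nat.coprime_primes ha hb).mpr hab
  have hrab : rad (a * b) = a * b := by
    refine rad_of_squarefree ?_
    exact (Nat.squarefree_mul hcop).mpr ⟨ha.squarefree, hb.squarefree⟩
  have hnn : ∀ {v y : ℕ}, v ≠ 0 → ¬ Odd (2 ^ v * y) := by
    intro v y hv h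
    rw [Nat.odd_mul] at h
    exact hv (odd_two_pow h.1)
  obtain ⟨v, rfl | rfl | rfl | rfl⟩ := div_two_pair ha hb hr
  · rw [FK_1 ha ha2]
    refine iff_of_false hzero ?_
    rintro ⟨h1, h2⟩
    obtain rfl := odd_two_pow h1
    rw [pow_zero, rad_of_squarefree squarefree_one] at h2
    exact k0 h2.symm
  · rw [FK_a ha hb hb2 hab]
    by_cases hv : v = 0
    · subst hv
      rw [pow_zero, one_mul] at hz ⊢
      rw [k1 z (hnd ha dvd_rfl hz), rad_prime ha]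
      exact ⟨fun h => ⟨ha.odd_of_ne_two ha2, h⟩, fun h => h.2⟩
    · refine iff_of_false ?_ fun h => hnn hv h.1
      rw [Int.not_odd_iff_even]
      refine k2 v hv z (hnd ha (dvd_mul_left a _) hz) ?_
      have h1 := hnd Nat.prime_two ((dvd_pow_self 2 hv).mul_right a) hz
      exact_mod_cast h1
  · rw [FK_b ha ha2 hb hab]
    refine iff_of_false hzero ?_
    rintro ⟨h1, h2⟩
    rw [Nat.odd_mul] at h1
    obtain rfl := odd_two_pow h1.1
    rw [pow_zero, one_mul, rad_prime hb] at h2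
    exact k0' h2.symm
  · rw [FK_ab ha hb]
    by_cases hv : v = 0
    · subst hv
      rw [pow_zero, one_mul] at hz ⊢
      rw [k3 z (hnd ha (dvd_mul_right a b) hz) (hnd hb (dvd_mul_left b a) hz), hrab]
      exact ⟨fun h => ⟨(ha.odd_of_ne_two ha2).mul (hb.odd_of_ne_two hb2), h⟩, fun h => h.2⟩
    · refine iff_of_false ?_ fun h => hnn hv h.1
      rw [Int.not_odd_iff_even]
      refine k4 v hv z (hnd ha ((dvd_mul_right a b).mul_left _) hz)
        (hnd hb ((dvd_mul_left b a).mul_left _) hz) ?_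
      have h1 := hnd Nat.prime_two ((dvd_pow_self 2 hv).mul_right (a * b)) hz
      exact_mod_cast h1

end

end Pool.Agent.Lib.MP81632f.Lv
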