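import Pool.Agent.Lib.MP_81632f_ag.Pot.DatA1
import Pool.Agent.Lib.MP_81632f_ag.Pot.DatA105
import Pool.Agent.Lib.MP_81632f_ag.Pot.DatA2
import Pool.Agent.Lib.MP_81632f_ag.Pot.DatA3
import Pool.Agent.Lib.MP_81632f_ag.Pot.DatA33
import Pool.Agent.Lib.MP_81632f_ag.Pot.DatA35
import Pool.Agent.Lib.MP_81632f_ag.Pot.DatA39
import Pool.Agent.Lib.MP_81632f_ag.Pot.DatA4
import Pool.Agent.Lib.MP_81632f_ag.Pot.DatA51
import Pool.Agent.Lib.MP_81632f_ag.Pot.DatA55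
import Pool.Agent.Lib.MP_81632f_ag.Pot.DatA57
import Pool.Agent.Lib.MP_81632f_ag.Pot.DatA77
import Pool.Agent.Lib.MP_81632f_ag.Pot.DatA87
import Pool.Agent.Lib.MP_81632f_ag.Pot.DatA93
import Pool.Agent.Lib.MP_81632f_ag.Pot.DatB1
import Pool.Agent.Lib.MP_81632f_ag.Pot.DatB105
import Pool.Agent.Lib.MP_81632f_ag.Pot.DatB2
import Pool.Agent.Lib.MP_81632f_ag.Pot.DatB231
import Pool.Agent.Lib.MP_81632f_ag.Pot.DatB65
import Pool.Agent.Lib.MP_81632f_ag.Pot.DatB85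
import Pool.Agent.Lib.MP_81632f_ag.Pot.DatB87
import Pool.Agent.Lib.MP_81632f_ag.Pot.DatB95

/-!
# Potential lattice property: the tables
-/

set_option autoImplicit false

namespace Pool.Agent.Lib.MP81632f.Pot

open Pool.Agent.Lib.MP81632f.Diag
open Pool.Agent.Lib.MP81632f.Lv Pool.Agent.Lib.MP81632f.Lv.Pot

/-- Odd numbers `K` and excluded residues of `p` modulo `K`: any power of `2`. -/
def tabA : List (ℕ × List ℕ) :=
  [(11, [1]),
    (13, [1]),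
    (17, [1]),
    (19, [1, 7, 11]),
    (29, [1]),
    (33, [1, 23]),
    (35, [1, 6, 8, 22, 29]),
    (37, [1, 10, 26]),
    (39, [1, 14]),
    (51, [1, 19, 25, 35, 38, 43, 47, 49]),
    (53, [1]),
    (55, [1, 12, 21, 23, 34]),
    (57, [1, 7, 11, 20, 26, 37, 49]),
    (59, [1]),
    (77, [1, 12, 23, 32, 34, 43, 45, 65, 67]),
    (87, [1, 46, 59, 70]),
    (93, [1, 25, 32, 61, 67]),
    (105, [1, 4, 16, 19, 22, 26, 29, 31, 34, 41, 43, 44, 46, 61, 64, 71, 74, 76, 79, 94, 101])]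

/-- Odd numbers `K` and excluded residues of `p` modulo `K`: odd degrees. -/
def tabB : List (ℕ × List ℕ) :=
  [(39, []),
    (51, [1, 35]),
    (55, [21]),
    (57, [1, 20, 37]),
    (65, [1, 14, 21, 27, 31, 53]),
    (85, [1, 18, 52, 69]),
    (87, [1, 59]),
    (95, [31, 46, 56, 58, 77]),
    (105, [1, 22, 43, 64, 71, 76]),
    (231, [1, 23, 32, 34, 43, 65, 67, 89, 100, 109, 122, 142, 155, 166, 188, 197, 199, 221])]

theorem cop_of {p K N j : ℕ} (hp : p.Prime) (h2 : p ≠ 2) (hK : K.Coprime p) (hN : N ∣ 2 ^ j * K) :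
    N.Coprime p :=
  (Nat.Coprime.mul_left (((Nat.coprime_primes Nat.prime_two hp).mpr (Ne.symm h2)).pow_left j)
    hK).coprime_dvd_left hN

theorem clA (hB : StBasic) (hCL : StCL) (hTor : StTor) {p K : ℕ} (hp : p.Prime) (hK : Odd K)
    (hKp : K.Coprime p) (h : ∀ a : ℕ, LimLP (2 ^ a * K) p) {m : ℕ}
    (hm : ∀ l : ℕ, l.Prime → l ∣ m → l = 2 ∨ l ∣ K) : LimLP m p := by
  refine limLP_cl hB hCL hTor hp hK hKp (fun a _ => h a) fun l hl hlm => ?_
  rcases hm l hl hlm with h3 | h3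
  · rw [h3]
    exact dvd_mul_right _ _
  · exact h3.trans (dvd_mul_left _ _)

/-- any power of `2` -/
theorem tabA_lim (hB : StBasic) (hCL : StCL) (hTor : StTor) {p : ℕ} (hp : p.Prime) (h2 : p ≠ 2)
    {K : ℕ} {L : List ℕ} (hK : (K, L) ∈ tabA) (hKp : K.Coprime p) (hex : p % K ∉ L) {m : ℕ}
    (hm : ∀ l : ℕ, l.Prime → l ∣ m → l = 2 ∨ l ∣ K) : LimLP m p := by
  simp only [tabA, List.mem_cons, List.not_mem_nil, or_false, Prod.mk.injEq] at hK
  rcases hK with ⟨rfl, rfl⟩ | ⟨rfl, rfl⟩ | ⟨rfl, rfl⟩ | ⟨rfl, rfl⟩ | ⟨rfl, rfl⟩ | ⟨rfl, rfl⟩ | ⟨rfl, rfl⟩ | ⟨rfl, rfl⟩ | ⟨rfl, rfl⟩ | ⟨rfl, rfl⟩ | ⟨rfl, rfl⟩ | ⟨rfl, rfl⟩ | ⟨rfl, rfl⟩ | ⟨rfl, rfl⟩ | ⟨rfl, rfl⟩ | ⟨rfl, rfl⟩ | ⟨rfl, rfl⟩ | ⟨rfl, rfl⟩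
  · exact clA hB hCL hTor hp (by decide) hKp (limA11 hB hCL hTor hp (cop_of (j := 3) hp h2 hKp (by norm_num)) hex) hm
  · exact clA hB hCL hTor hp (by decide) hKp (limA13 hB hCL hTor hp (cop_of (j := 2) hp h2 hKp (by norm_num)) hex) hm
  · exact clA hB hCL hTor hp (by decide) hKp (limA17 hB hCL hTor hp (cop_of (j := 1) hp h2 hKp (by norm_num)) hex) hm
  · exact clA hB hCL hTor hp (by decide) hKp (limA19 hB hCL hTor hp (cop_of (j := 3) hp h2 hKp (by norm_num)) hex) hm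
  · exact clA hB hCL hTor hp (by decide) hKp (limA29 hB hCL hTor hp (cop_of (j := 2) hp h2 hKp (by norm_num)) hex) hm
  · exact clA hB hCL hTor hp (by decide) hKp (limA33 hB hCL hTor hp (cop_of (j := 3) hp h2 hKp (by norm_num)) hex) hm
  · exact clA hB hCL hTor hp (by decide) hKp (limA35 hB hCL hTor hp (cop_of (j := 2) hp h2 hKp (by norm_num)) hex) hm
  · exact clA hB hCL hTor hp (by decide) hKp (limA37 hB hCL hTor hp (cop_of (j := 2) hp h2 hKp (by norm_num)) hex) hm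
  · exact clA hB hCL hTor hp (by decide) hKp (limA39 hB hCL hTor hp (cop_of (j := 2) hp h2 hKp (by norm_num)) hex) hm
  · exact clA hB hCL hTor hp (by decide) hKp (limA51 hB hCL hTor hp (cop_of (j := 2) hp h2 hKp (by norm_num)) hex) hm
  · exact clA hB hCL hTor hp (by decide) hKp (limA53 hB hCL hTor hp (cop_of (j := 2) hp h2 hKp (by norm_num)) hex) hm
  · exact clA hB hCL hTor hp (by decide) hKp (limA55 hB hCL hTor hp (cop_of (j := 3) hp h2 hKp (by norm_num)) hex) hm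
  · exact clA hB hCL hTor hp (by decide) hKp (limA57 hB hCL hTor hp (cop_of (j := 3) hp h2 hKp (by norm_num)) hex) hm
  · exact clA hB hCL hTor hp (by decide) hKp (limA59 hB hCL hTor hp (cop_of (j := 3) hp h2 hKp (by norm_num)) hex) hm
  · exact clA hB hCL hTor hp (by decide) hKp (limA77 hB hCL hTor hp (cop_of (j := 3) hp h2 hKp (by norm_num)) hex) hm
  · exact clA hB hCL hTor hp (by decide) hKp (limA87 hB hCL hTor hp (cop_of (j := 2) hp h2 hKp (by norm_num)) hex) hm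
  · exact clA hB hCL hTor hp (by decide) hKp (limA93 hB hCL hTor hp (cop_of (j := 1) hp h2 hKp (by norm_num)) hex) hm
  · exact clA hB hCL hTor hp (by decide) hKp (limA105 hB hCL hTor hp (cop_of (j := 2) hp h2 hKp (by norm_num)) hex) hm

/-- odd degrees -/
theorem tabB_lim (hB : StBasic) (hCL : StCL) (hTor : StTor) {p : ℕ} (hp : p.Prime) (h2 : p ≠ 2)
    {K : ℕ} {L : List ℕ} (hK : (K, L) ∈ tabB) (hKp : K.Coprime p) (hex : p % K ∉ L) {m : ℕ}
    (hm : ∀ l : ℕ, l.Prime → l ∣ m → l ∣ K) : LimLP m p := by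
  simp only [tabB, List.mem_cons, List.not_mem_nil, or_false, Prod.mk.injEq] at hK
  rcases hK with ⟨rfl, rfl⟩ | ⟨rfl, rfl⟩ | ⟨rfl, rfl⟩ | ⟨rfl, rfl⟩ | ⟨rfl, rfl⟩ | ⟨rfl, rfl⟩ | ⟨rfl, rfl⟩ | ⟨rfl, rfl⟩ | ⟨rfl, rfl⟩ | ⟨rfl, rfl⟩
  · exact limLP_clo hB hCL hTor hp (by decide) hKp (limB39 hB hCL hTor hp (cop_of (j := 1) hp h2 hKp (by norm_num)) hex) hm
  · exact limLP_clo hB hCL hTor hp (by decide) hKp (limB51 hB hCL hTor hp (cop_of (j := 1) hp h2 hKp (by norm_num)) hex) hm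
  · exact limLP_clo hB hCL hTor hp (by decide) hKp (limB55 hB hCL hTor hp (cop_of (j := 1) hp h2 hKp (by norm_num)) hex) hm
  · exact limLP_clo hB hCL hTor hp (by decide) hKp (limB57 hB hCL hTor hp (cop_of (j := 1) hp h2 hKp (by norm_num)) hex) hm
  · exact limLP_clo hB hCL hTor hp (by decide) hKp (limB65 hB hCL hTor hp (cop_of (j := 3) hp h2 hKp (by norm_num)) hex) hm
  · exact limLP_clo hB hCL hTor hp (by decide) hKp (limB85 hB hCL hTor hp (cop_of (j := 2) hp h2 hKp (by norm_num)) hex) hm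
  · exact limLP_clo hB hCL hTor hp (by decide) hKp (limB87 hB hCL hTor hp (cop_of (j := 2) hp h2 hKp (by norm_num)) hex) hm
  · exact limLP_clo hB hCL hTor hp (by decide) hKp (limB95 hB hCL hTor hp (cop_of (j := 3) hp h2 hKp (by norm_num)) hex) hm
  · exact limLP_clo hB hCL hTor hp (by decide) hKp (limB105 hB hCL hTor hp (cop_of (j := 2) hp h2 hKp (by norm_num)) hex) hm
  · exact limLP_clo hB hCL hTor hp (by decide) hKp (limB231 hB hCL hTor hp (cop_of (j := 1) hp h2 hKp (by norm_num)) hex) hm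

end Pool.Agent.Lib.MP81632f.Pot
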