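import Pool.Agent.Lib.MP_81632f_ag.Lv.Mixed2
import Pool.Agent.Lib.MP_81632f_ag.Pot.CritC

/-!
# Potential algebraicity: good radicals and even parities
-/

set_option autoImplicit false

noncomputable section

namespace Pool.Agent.Lib.MP81632f.Lv

open Finset
open Pool.Agent.Lib.MP81632f.Diag
open Crit Two Push TP
open Red (ev)

/-- the lattice property for the functions with the parities `n` -/
def LimPar (d p : ℕ) (n : ℕ → ℤ) : Prop :=
  ∀ [NeZero d] (w : ZMod d → ℤ), Bal d p w →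
    (∀ R : ℕ, R ∣ d → Odd R → Squarefree R → R ≠ 1 → Even (nR d R w - n R)) → LimP d p w

theorem limPar_of {d p : ℕ} (h : LimLP d p) (n : ℕ → ℤ) : LimPar d p n := by
  intro hd w hw _
  exact h w hw

theorem GoodR.mono {p : ℕ} {hp : p.Prime} {m m' R : ℕ} (hm : m' ∣ m) (h : GoodR p hp m R) :
    GoodR p hp m' R := by
  rcases h with h | h
  · exact Or.inl h
  · refine Or.inr fun M hM {_} v hv hRM => h M (fun l hl hlM => (hM l hl hlM).trans hm) v hv hRM

/-- good radicals and even parities -/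
theorem limPar_good (hB : StBasic) (hCL : StCL) (hTor : StTor) {p : ℕ} (hp : p.Prime) {m : ℕ}
    {n : ℕ → ℤ}
    (h : ∀ R : ℕ, R ∣ m → Odd R → Squarefree R → R ≠ 1 → GoodR p hp m R ∨ Even (n R)) :
    LimPar m p n := by
  intro hM v hv hn
  refine limP_of_vecA hB hCL hTor hp hv ?_
  refine vecA_of_sum hp (m.divisors.filter fun R => Odd R ∧ Squarefree R ∧ R ≠ 1)
    (fun R h1 h2 h3 h4 => ?_) (AddSubgroup.sum_mem _ fun R hR => ?_)
  · by_cases h5 : R ∣ m
    · exfalso
      apply h4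
      rw [mem_filter, Nat.mem_divisors]
      refine ⟨⟨h5, NeZero.ne m⟩, h1, h2, ?_⟩
      rintro rfl
      exact h3 0 (one_dvd _)
    · rw [nR_of_not h5]
      exact Even.zero
  · rw [mem_filter, Nat.mem_divisors] at hR
    obtain ⟨⟨h1, -⟩, h2, h3, h4⟩ := hR
    rcases h R h1 h2 h3 h4 with (h5 | h5) | h5
    · exact AddSubgroup.zsmul_mem _ h5 _
    · exact even_smul_mem hp (h5 m (fun l _ h6 => h6) v hv h1) R
    · have h6 := (hn R h1 h2 h3 h4).add h5
      rw [sub_add_cancel] at h6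
      exact even_smul_mem hp h6 R

section Levels

variable {M p f : ℕ} [NeZero M]

open Multi New in
/-- several levels -/
theorem lim_par (hB : StBasic) (hpp : p.Prime) (hM : 1 < M) (hf : 0 < f)
    (hp : (p : ZMod M) ^ f = 1) (D : Finset ℕ) {n : ℕ → ℤ} (hD : ∀ d ∈ D, d ∣ M ∧ LimPar d p n)
    (hcop : ∀ d ∈ D, ∀ e ∈ D, d ≠ e → Nat.Coprime d e) {v : ZMod M → ℤ} (hv0 : v 0 = 0)
    (hv : ∀ x, v x ≠ 0 → ∃ d ∈ D, d • x = 0) (hvb : ∀ t : (ZMod M)ˣ, pair M p f t v = 0)
    (hn : ∀ d ∈ D, ∀ R : ℕ, R ∣ d → Odd R → Squarefree R → R ≠ 1 → Even (nR M R v - n R)) :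
    LimP M p v := by
  classical
  have hMp := coprime_of_pow hf hp
  induction D using Finset.induction_on generalizing v with
  | empty =>
    have h0 : v = 0 := by
      funext x
      by_contra h
      obtain ⟨d, hd, -⟩ := hv x h
      exact absurd hd (Finset.notMem_empty d)
    rw [h0]
    exact limP_zero hpp hMp
  | insert d D hd ih =>
    let a : ZMod M → ℤ := fun x => if d • x = 0 then v x else 0
    let b : ZMod M → ℤ := fun x => if d • x = 0 then 0 else v x
    have hab : a + b = v := by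
      funext x
      change (if d • x = 0 then v x else 0) + (if d • x = 0 then 0 else v x) = v x
      split_ifs <;> simp
    have ha0 : a 0 = 0 := by
      change (if d • (0 : ZMod M) = 0 then v 0 else 0) = 0
      rw [hv0, ite_self]
    have ha : ∀ x, a x ≠ 0 → d • x = 0 := by
      intro x hx
      by_contra h
      exact hx (if_neg h)
    have hb0 : b 0 = 0 := by
      change (if d • (0 : ZMod M) = 0 then 0 else v 0) = 0
      rw [hv0, ite_self]
    have hb : ∀ x, b x ≠ 0 → ∃ e ∈ D, e • x = 0 := by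
      intro x hx
      have h1 : ¬ d • x = 0 := fun h => hx (if_pos h)
      have h2 : v x ≠ 0 := fun h => hx (by
        change (if d • x = 0 then 0 else v x) = 0
        rw [if_neg h1, h])
      obtain ⟨e, he, h3⟩ := hv x h2
      rcases Finset.mem_insert.mp he with rfl | he
      · exact absurd h3 h1
      · exact ⟨e, he, h3⟩
    have hcopD : ∀ e ∈ D, Nat.Coprime d e := fun e he => hcop d (Finset.mem_insert_self _ _) e
      (Finset.mem_insert_of_mem he) (by rintro rfl; exact hd he)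
    obtain ⟨hdM, hLP⟩ := hD d (Finset.mem_insert_self _ _)
    have hcop' : ∀ d ∈ D, ∀ e ∈ D, d ≠ e → Nat.Coprime d e := fun d hd e he =>
      hcop d (Finset.mem_insert_of_mem hd) e (Finset.mem_insert_of_mem he)
    have hab' : ∀ t : (ZMod M)ˣ, pair M p f t (a + b) = 0 := by rw [hab]; exact hvb
    have hA : ∀ t : (ZMod M)ˣ, pair M p f t a = 0 :=
      sep_two hB hM hf hp hdM
        (prod_dvd D (fun e he => (hD e (Finset.mem_insert_of_mem he)).1) hcop')
        (Nat.Coprime.prod_right hcopD) ha0 ha (fun x hx => by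
          obtain ⟨e, he, h1⟩ := hb x hx
          obtain ⟨c, hc⟩ := Finset.dvd_prod_of_mem (fun e => e) he
          rw [hc, mul_comm, mul_smul, h1, smul_zero]) hab'
    have hBb : ∀ t : (ZMod M)ˣ, pair M p f t b = 0 := by
      intro t
      have h1 := hab' t
      rw [map_add, hA t, zero_add] at h1
      exact h1
    have hrad : ∀ (e : ℕ) (x : ZMod M) (R : ℕ), e • x = 0 → rad (addOrderOf x) = R → R ∣ e := by
      intro e x R h1 h2
      rw [← h2]
      exact (rad_dvd _).trans (addOrderOf_dvd_of_nsmul_eq_zero h1)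
    have hna : ∀ R : ℕ, R ∣ d → R ≠ 1 → nR M R a = nR M R v := by
      intro R hR hR1
      unfold nR
      refine Finset.sum_congr rfl fun x hx => ?_
      rw [mem_filter] at hx
      by_cases h1 : d • x = 0
      · exact if_pos h1
      · have h2 : a x = 0 := if_neg h1
        rw [h2]
        by_contra h3
        obtain ⟨e, he, h4⟩ := hv x (Ne.symm h3)
        rcases Finset.mem_insert.mp he with rfl | he
        · exact h1 h4
        · have h5 := Nat.dvd_gcd hR (hrad e x R h4 hx.2.2)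
          rw [hcopD e he] at h5
          exact hR1 (Nat.dvd_one.mp h5)
    have hnb : ∀ e ∈ D, ∀ R : ℕ, R ∣ e → R ≠ 1 → nR M R b = nR M R v := by
      intro e he R hR hR1
      unfold nR
      refine Finset.sum_congr rfl fun x hx => ?_
      rw [mem_filter] at hx
      by_cases h1 : d • x = 0
      · exfalso
        have h5 := Nat.dvd_gcd (hrad d x R h1 hx.2.2) hR
        rw [hcopD e he] at h5
        exact hR1 (Nat.dvd_one.mp h5)
      · exact if_neg h1
    have : NeZero d := ⟨by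
      rintro rfl
      exact NeZero.ne M (zero_dvd_iff.mp hdM)⟩
    have hinc : a ∈ Inc M d := by
      rw [Transfer.sum_ev a]
      refine AddSubgroup.sum_mem _ fun x _ => ?_
      by_cases hx : a x = 0
      · rw [hx, zero_smul]
        exact zero_mem _
      · refine AddSubgroup.zsmul_mem _ (inc_of_smul hdM ?_ (ha x hx)) _
        rintro rfl
        exact hx ha0
    obtain ⟨w, hw0, hw⟩ := hinc
    have hlimw : LimP d p w := hLP w ⟨hw0, f, hf, pow_of_dvd hdM hp, by
      refine bal_of_push hdM ?_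
      rw [hw]
      exact hA⟩ fun R h1 h2 h3 h4 => by
        rw [← nR_push hdM, hw, hna R h1 h4]
        exact hn d (Finset.mem_insert_self _ _) R h1 h2 h3 h4
    have h1 := hlimw.push hdM hMp
    rw [hw] at h1
    have h2 := ih (fun e he => hD e (Finset.mem_insert_of_mem he)) hcop' hb0 hb hBb
      fun e he R h1 h2 h3 h4 => by
        rw [hnb e he R h1 h4]
        exact hn e (Finset.mem_insert_of_mem he) R h1 h2 h3 h4
    have h3 := h1.add h2
    rwa [hab] at h3

open Multi in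
/-- several coprime levels and their doubles -/
theorem lim_par_two (hB : StBasic) (hpp : p.Prime) (hM : 1 < M)
    (hf : 0 < f) (hp : (p : ZMod M) ^ f = 1) (D : Finset ℕ) {n : ℕ → ℤ}
    (hD : ∀ d ∈ D, d ∣ M ∧ LimPar d p n)
    (hcop : ∀ d ∈ D, ∀ e ∈ D, d ≠ e → Nat.Coprime d e) {v : ZMod M → ℤ} (hv0 : v 0 = 0)
    (hv : ∀ x, v x ≠ 0 → ∃ d ∈ D, d • x = 0 ∨ (Odd d ∧ (2 * d) • x = 0))
    (hvb : ∀ t : (ZMod M)ˣ, pair M p f t v = 0)
    (hn : ∀ d ∈ D, ∀ R : ℕ, R ∣ d → Odd R → Squarefree R → R ≠ 1 → Even (nR M R v - n R)) :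
    LimP M p v := by
  set L := Lev M (fun x => ∃ d ∈ D, d • x = 0) with hL
  let W : AddSubgroup (ZMod M → ℤ) := W0 M p f ⊔ L
  have hSW : W0 M p f ≤ W := le_sup_left
  have hLW : L ≤ W := le_sup_right
  have hmem : ∀ x : ZMod M, v x ≠ 0 → ev x ∈ W := by
    intro x hx
    have hx0 : x ≠ 0 := by
      rintro rfl
      exact hx hv0
    obtain ⟨d, hd, h | ⟨hdo, h⟩⟩ := hv x hx
    · exact hLW (lev_ev hx0 ⟨d, hd, h⟩)
    by_cases hc0 : d • x = 0
    · exact hLW (lev_ev hx0 ⟨d, hd, hc0⟩)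
    have h2c : 2 • (d • x) = 0 := by rw [← mul_smul]; exact h
    have hoc : addOrderOf (d • x) = 2 := addOrderOf_eq_prime h2c hc0
    have h2M : 2 ∣ M := by
      rw [← hoc]
      exact (addOrderOf_dvd_card).trans (by rw [ZMod.card])
    have hnc : ∀ R : ℕ, nR M R (ev (d • x)) = 0 := by
      intro R
      rw [nR_ev, hoc, if_neg]
      exact fun h => absurd h.1 (by decide)
    have hcW : ev (d • x) ∈ W := hSW ⟨(le_sup_right : SS M p f ≤ _)
      (ss_mem (ss_of_two hf hp hc0 h2c)), fun R => by rw [hnc]; exact Even.zero⟩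
    have hdy : d • (x + d • x) = 0 := by
      rw [smul_add, odd_smul hdo h2c, ← two_smul ℕ (d • x)]
      exact h2c
    have hxy : x + d • x + d • x = x := by
      rw [add_assoc, ← two_smul ℕ (d • x), h2c, add_zero]
    by_cases hy0 : x + d • x = 0
    · rw [hy0, zero_add] at hxy
      rw [← hxy]
      exact hcW
    have h2y : ((2 : ℕ) : ZMod M) * (x + d • x) ≠ 0 := by
      intro h1
      rw [← nsmul_eq_mul] at h1
      exact hy0 (by rw [← odd_smul hdo h1]; exact hdy)
    have h4 := Red.dh_mem (p := p) (f := f) Nat.prime_two h2M (y := x + d • x) h2y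
    have hs2 : ∑ j ∈ range 2, ev (x + d • x + (j : ZMod M) * ((M / 2 : ℕ) : ZMod M)) =
        ev (x + d • x) + ev (x + d • x + ((M / 2 : ℕ) : ZMod M)) := by
      rw [sum_range_succ, sum_range_one, Nat.cast_zero, zero_mul, add_zero, Nat.cast_one, one_mul]
    have hs1 : ∑ j ∈ range (2 - 1), ev (((j + 1 : ℕ) : ZMod M) * ((M / 2 : ℕ) : ZMod M)) =
        ev ((M / 2 : ℕ) : ZMod M) := by
      rw [show 2 - 1 = 1 from rfl, sum_range_one, zero_add, Nat.cast_one, one_mul]
    rw [hs2, hs1, ← Red.two_torsion h2M h2c hc0, hxy] at h4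
    -- the parities
    have hyo : Odd (addOrderOf (x + d • x)) :=
      hdo.of_dvd_nat (addOrderOf_dvd_of_nsmul_eq_zero hdy)
    have hx2 : ¬ Odd (addOrderOf x) := by
      intro h6
      have h7 : addOrderOf x ∣ d := by
        have h8 : addOrderOf x ∣ 2 * d := addOrderOf_dvd_of_nsmul_eq_zero h
        exact (Nat.coprime_two_right.mpr h6).dvd_of_dvd_mul_left h8
      exact hc0 (addOrderOf_dvd_iff_nsmul_eq_zero.mp h7)
    have h2o : addOrderOf (-(((2 : ℕ) : ZMod M) * (x + d • x))) = addOrderOf (x + d • x) := by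
      rw [addOrderOf_neg, ← nsmul_eq_mul]
      exact Nat.Coprime.addOrderOf_nsmul (Nat.coprime_two_right.mpr hyo)
    have h6 : ev (x + d • x) + ev x + ev (-(((2 : ℕ) : ZMod M) * (x + d • x))) + ev (d • x) ∈
        W0 M p f := by
      refine ⟨(le_sup_left : Sub M p f ≤ _) h4, fun R => ?_⟩
      rw [nR_add, nR_add, nR_add, hnc, nR_ev, nR_ev, nR_ev, h2o, add_zero, if_neg (c := Odd (addOrderOf x) ∧ _)
        (fun h => hx2 h.1), add_zero]
      exact ⟨_, rfl⟩
    have hyL : ev (x + d • x) ∈ W := hLW (lev_ev hy0 ⟨d, hd, hdy⟩)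
    have h2yL : ev (-(((2 : ℕ) : ZMod M) * (x + d • x))) ∈ W :=
      hLW (lev_ev (neg_ne_zero.mpr h2y) ⟨d, hd, by
        rw [smul_neg, ← nsmul_eq_mul, smul_comm, hdy, smul_zero, neg_zero]⟩)
    have h5 : ev x = (ev (x + d • x) + ev x + ev (-(((2 : ℕ) : ZMod M) * (x + d • x))) +
        ev (d • x)) - ev (x + d • x) - ev (-(((2 : ℕ) : ZMod M) * (x + d • x))) - ev (d • x) := by
      abel
    rw [h5]
    exact sub_mem (sub_mem (sub_mem (hSW h6) hyL) h2yL) hcW
  have hvW : v ∈ W := by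
    rw [Transfer.sum_ev v]
    refine AddSubgroup.sum_mem _ fun x _ => ?_
    by_cases hx : v x = 0
    · rw [hx, zero_smul]
      exact zero_mem _
    · exact AddSubgroup.zsmul_mem _ (hmem x hx) _
  obtain ⟨y, hy, v', hv', hyv⟩ := AddSubgroup.mem_sup.mp hvW
  have hb' : ∀ t : (ZMod M)ˣ, pair M p f t v' = 0 := by
    intro t
    have h1 := hvb t
    rw [← hyv, map_add, pair_ws hB hM hf hp t hy.1, zero_add] at h1
    exact h1
  rw [← hyv]
  refine (limP_of_ws hM hf hp hy.1).add (lim_par hB hpp hM hf hp D hD hcop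
    hv'.1 (fun x hx => hv'.2 x hx) hb' fun d hd R h1 h2 h3 h4 => ?_)
  have h5 := hn d hd R h1 h2 h3 h4
  rw [← hyv, nR_add, add_sub_assoc] at h5
  exact (Int.even_add.mp h5).mp (hy.2 R)

end Levels

section

variable {p : ℕ} [Fact p.Prime] {F : Type} [Field F] [Fintype F] [CharP F p]

/-- **Several coprime degrees**, good radicals and even parities. -/
theorem potAlg_unif (hB : StBasic) (hCL : StCL) (hTor : StTor) (hT : StTrans) (hC : StClose)
    (hE : StExt) (hCh : StChar) {ψ : AddChar F ℂ} (hψ : ψ ≠ 1) {s : Multiset (MulChar F ℂ)}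
    (hs : IsTateSet ψ s) (hev : Even (Multiset.card s)) (D : Finset ℕ)
    (hD : ∀ d ∈ D, (∀ m : ℕ, m ∣ d → LimLP m p) ∨ ∀ R : ℕ, R ∣ d → Odd R → Squarefree R →
      R ≠ 1 → GoodR p Fact.out d R ∨ Even (par R s))
    (hcop : ∀ d ∈ D, ∀ e ∈ D, d ≠ e → Nat.Coprime d e)
    (h : ∀ χ ∈ s, ∃ d ∈ D, χ ^ d = 1 ∨ (Odd d ∧ χ ^ (2 * d) = 1)) : PotAlg F s := by
  classical
  obtain ⟨n, -, hcard⟩ := FiniteField.card F p
  obtain ⟨f, hf⟩ := n
  change Fintype.card F = p ^ f at hcard
  have hq : 1 < Fintype.card F := Fintype.one_lt_card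
  have : NeZero (Fintype.card F - 1) := ⟨by omega⟩
  by_cases hM1 : Fintype.card F - 1 = 1
  · rw [empty_of_two hs hM1]
    exact potAlg_zero
  obtain ⟨θ, X, hθ, rfl, h0, hpf, hb⟩ := exists_bal hT hψ hs f hcard
  rw [Multiset.card_map] at hev
  refine potAlg_of hB hC hE hCh θ hθ h0 ?_ hev
  have hpow : ∀ (x : ZMod (Fintype.card F - 1)) (d : ℕ), (θ ^ x.val) ^ d = 1 → d • x = 0 := by
    intro x d hd
    rw [← pow_mul] at hd
    have h1 := orderOf_dvd_of_pow_eq_one hd
    rw [hθ] at h1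
    have h2 := (ZMod.natCast_eq_zero_iff (x.val * d) (Fintype.card F - 1)).mpr h1
    rw [Nat.cast_mul, ZMod.natCast_zmod_val, mul_comm, ← nsmul_eq_mul] at h2
    exact h2
  have hgcd : ∀ (x : ZMod (Fintype.card F - 1)) (d : ℕ), d • x = 0 →
      d.gcd (Fintype.card F - 1) • x = 0 := by
    intro x d hd
    have h1 : addOrderOf x ∣ d.gcd (Fintype.card F - 1) :=
      Nat.dvd_gcd (addOrderOf_dvd_of_nsmul_eq_zero hd) (order_dvd x)
    exact addOrderOf_dvd_iff_nsmul_eq_zero.mp h1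
  have hgcd2 : ∀ (x : ZMod (Fintype.card F - 1)) (d : ℕ), (2 * d) • x = 0 →
      (2 * d.gcd (Fintype.card F - 1)) • x = 0 := by
    intro x d hd
    have h1 : addOrderOf x ∣ (2 * d).gcd (Fintype.card F - 1) :=
      Nat.dvd_gcd (addOrderOf_dvd_of_nsmul_eq_zero hd) (order_dvd x)
    have h2 : (2 * d).gcd (Fintype.card F - 1) ∣ 2 * d.gcd (Fintype.card F - 1) := by
      rw [Nat.gcd_comm, Nat.gcd_comm d]
      exact (Nat.gcd_mul_right_dvd_mul_gcd _ _ _).trans (Nat.mul_dvd_mul_right (Nat.gcd_dvd_right _ _) _)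
    exact addOrderOf_dvd_iff_nsmul_eq_zero.mp (h1.trans h2)
  have hcop' : ∀ d ∈ D, ∀ e ∈ D, d ≠ e → Nat.Coprime (d.gcd (Fintype.card F - 1))
      (e.gcd (Fintype.card F - 1)) := fun d hd e he hde =>
    ((hcop d hd e he hde).coprime_dvd_left (Nat.gcd_dvd_left _ _)).coprime_dvd_right
      (Nat.gcd_dvd_left _ _)
  refine lim_par_two hB (p := p) Fact.out (by omega) hf hpf
    (D.image fun d => d.gcd (Fintype.card F - 1)) (n := fun R => (par R (X.map fun x => θ ^ x.val) : ℤ))
    ?_ ?_ (Basic.cnt_apply_zero h0) ?_ hb ?_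
  · intro d' hd'
    obtain ⟨d, hd, rfl⟩ := mem_image.mp hd'
    refine ⟨Nat.gcd_dvd_right _ _, ?_⟩
    rcases hD d hd with h1 | h1
    · exact limPar_of (h1 _ (Nat.gcd_dvd_left _ _)) _
    · refine limPar_good hB hCL hTor Fact.out fun R h2 h3 h4 h5 => ?_
      rcases h1 R (h2.trans (Nat.gcd_dvd_left _ _)) h3 h4 h5 with h6 | h6
      · exact Or.inl (h6.mono (Nat.gcd_dvd_left _ _))
      · exact Or.inr (by exact_mod_cast h6)
  · intro d' hd' e' he' hne
    obtain ⟨d, hd, rfl⟩ := mem_image.mp hd'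
    obtain ⟨e, he, rfl⟩ := mem_image.mp he'
    refine hcop' d hd e he ?_
    rintro rfl
    exact hne rfl
  · intro x hx
    have hxX : x ∈ X := by
      by_contra hn
      apply hx
      change ((X.count x : ℕ) : ℤ) = 0
      rw [Multiset.count_eq_zero_of_notMem hn, Nat.cast_zero]
    obtain ⟨d, hd, h1⟩ := h _ (Multiset.mem_map_of_mem _ hxX)
    refine ⟨d.gcd (Fintype.card F - 1), mem_image_of_mem _ hd, ?_⟩
    rcases h1 with h1 | ⟨h1, h2⟩
    · exact Or.inl (hgcd x d (hpow x d h1))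
    · exact Or.inr ⟨h1.of_dvd_nat (Nat.gcd_dvd_left _ _), hgcd2 x d (hpow x (2 * d) h2)⟩
  · intro d' hd' R h1 h2 h3 h4
    rw [nR_cnt hθ, sub_self]
    exact Even.zero

end

end Pool.Agent.Lib.MP81632f.Lv
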